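import Mathlib
import Pool.Agent.TH278.DX.Defs
set_option autoImplicit false

/-! Slices of an operator on a tensor product (job 4449). -/

namespace Pool.Agent.TH75.J4449

theorem slices {E F L : Type} [NormedAddCommGroup E] [InnerProductSpace ℂ E] [CompleteSpace E]
    [NormedAddCommGroup F] [InnerProductSpace ℂ F] [CompleteSpace F]
    [NormedAddCommGroup L] [InnerProductSpace ℂ L] [CompleteSpace L]
    (τ : E →ₗ[ℂ] F →ₗ[ℂ] L)
    (hτ : ∀ x y x' y', inner ℂ (τ x y) (τ x' y') = inner ℂ x x' * inner ℂ y y')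
    (B : L →L[ℂ] L) :
    ∃ β : E → E → (F →L[ℂ] F),
      (∀ x x' y y', inner ℂ (β x x' y) y' = inner ℂ (B (τ x y)) (τ x' y')) ∧
      ∀ P : (F →L[ℂ] F) →L[ℂ] ℂ, ∃ A : E →L[ℂ] E, ∀ x x', inner ℂ x' (A x) = P (β x x') := by
  have hn : ∀ x y, ‖τ x y‖ ≤ 1 * ‖x‖ * ‖y‖ := by
    intro x y
    rw [one_mul]
    have h1 := hτ x y x y
    rw [inner_self_eq_norm_sq_to_K, inner_self_eq_norm_sq_to_K,
      inner_self_eq_norm_sq_to_K] at h1
    have h2 : ‖τ x y‖ ^ 2 = ‖x‖ ^ 2 * ‖y‖ ^ 2 := by exact_mod_cast h1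
    rw [← mul_pow] at h2
    exact le_of_sq_le_sq h2.le (by positivity)
  set T : E →L[ℂ] F →L[ℂ] L := LinearMap.mkContinuous₂ τ 1 hn with hT
  have hTa : ∀ x y, T x y = τ x y := fun x y => rfl
  have hTn : ∀ x, ‖T x‖ ≤ ‖x‖ := by
    intro x
    refine ContinuousLinearMap.opNorm_le_bound _ (norm_nonneg _) fun y => ?_
    rw [hTa]
    simpa using hn x y
  let β : E → E → (F →L[ℂ] F) := fun x x' =>
    (ContinuousLinearMap.adjoint (T x')).comp (B.comp (T x))
  have hβ : ∀ x x', β x x' = (ContinuousLinearMap.adjoint (T x')).comp (B.comp (T x)) :=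
    fun _ _ => rfl
  refine ⟨β, ?_, ?_⟩
  · intro x x' y y'
    rw [hβ, ContinuousLinearMap.comp_apply, ContinuousLinearMap.adjoint_inner_left]
    rfl
  · intro P
    let S : E →ₗ⋆[ℂ] E →ₗ[ℂ] ℂ := LinearMap.mk₂'ₛₗ (starRingEnd ℂ) (RingHom.id ℂ)
      (fun x' x => P (β x x'))
      (fun x₁ x₂ x => by
        rw [hβ, hβ, hβ, map_add, map_add, ContinuousLinearMap.add_comp, map_add])
      (fun c x' x => by
        rw [hβ, hβ, map_smul, map_smulₛₗ, ContinuousLinearMap.smul_comp, map_smul])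
      (fun x' x₁ x₂ => by
        rw [hβ, hβ, hβ, map_add, ContinuousLinearMap.comp_add, ContinuousLinearMap.comp_add,
          map_add])
      (fun c x' x => by
        rw [hβ, hβ, map_smul, ContinuousLinearMap.comp_smul, ContinuousLinearMap.comp_smul,
          map_smul]
        rfl)
    have hS : ∀ x' x, ‖S x' x‖ ≤ (‖P‖ * ‖B‖) * ‖x'‖ * ‖x‖ := by
      intro x' x
      change ‖P (β x x')‖ ≤ _
      calc ‖P (β x x')‖ ≤ ‖P‖ * ‖β x x'‖ := P.le_opNorm _
        _ ≤ ‖P‖ * (‖x'‖ * (‖B‖ * ‖x‖)) := by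
            gcongr
            rw [hβ]
            refine (ContinuousLinearMap.opNorm_comp_le _ _).trans ?_
            rw [LinearIsometryEquiv.norm_map]
            refine mul_le_mul (hTn _) ?_ (norm_nonneg _) (norm_nonneg _)
            refine (ContinuousLinearMap.opNorm_comp_le _ _).trans ?_
            exact mul_le_mul_of_nonneg_left (hTn _) (norm_nonneg _)
        _ = _ := by ring
    let Q : E →L⋆[ℂ] E →L[ℂ] ℂ := LinearMap.mkContinuous₂ S (‖P‖ * ‖B‖) hS
    refine ⟨ContinuousLinearMap.adjoint (InnerProductSpace.continuousLinearMapOfBilin Q), ?_⟩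
    intro x x'
    rw [ContinuousLinearMap.adjoint_inner_right,
      InnerProductSpace.continuousLinearMapOfBilin_apply]
    rfl

end Pool.Agent.TH75.J4449
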