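import Mathlib

/-! Job 3042 (TX-POISSON): Poisson formula and Jensen formula in a disc. -/

set_option autoImplicit false

open Complex MeasureTheory Set Filter Topology

namespace Pool.Agent.TH75.TX

/-- Jensen: the mean of `log |V|` is at least the value at the centre -/
theorem jensen_ge {V : ℂ → ℂ} {z0 : ℂ} {R : ℝ} (hR : 0 < R) (hV : Differentiable ℂ V)
    (hV0 : V z0 ≠ 0) : Real.log ‖V z0‖ ≤ Real.circleAverage (fun w => Real.log ‖V w‖) z0 R := by
  have han : AnalyticOnNhd ℂ V (Metric.closedBall z0 |R|) := fun x _ => hV.analyticAt x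
  rw [AnalyticOnNhd.circleAverage_log_norm hR.ne' han hV0]
  have h : 0 ≤ ∑ᶠ u, (MeromorphicOn.divisor V (Metric.closedBall z0 |R|) u : ℝ) *
      Real.log (R * ‖z0 - u‖⁻¹) := by
    refine finsum_nonneg fun u => ?_
    by_cases hu : u ∈ Metric.closedBall z0 |R|
    · refine mul_nonneg ?_ ?_
      · have := MeromorphicOn.AnalyticOnNhd.divisor_nonneg han u
        exact_mod_cast this
      · rcases eq_or_ne u z0 with rfl | hne
        · simp
        · refine Real.log_nonneg ?_
          have h0 : 0 < ‖z0 - u‖ := norm_pos_iff.2 (sub_ne_zero.2 hne.symm)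
          rw [← div_eq_mul_inv, one_le_div h0]
          rw [Metric.mem_closedBall, abs_of_pos hR, dist_comm, dist_eq_norm] at hu
          exact hu
    · rw [Function.locallyFinsuppWithin.apply_eq_zero_of_notMem _ hu]
      simp
  linarith

theorem t_poisson {G V h : ℂ → ℂ} {z0 : ℂ} {r R B : ℝ} (hr : 0 < r) (hrR : r < R)
    (hG : Differentiable ℂ G) (hV : Differentiable ℂ V) (hV0 : V z0 ≠ 0)
    (hh : ∀ z ∈ Metric.closedBall z0 R, DifferentiableAt ℂ h z)
    (he : ∀ z ∈ Metric.closedBall z0 R, G z = V z * cexp (h z))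
    (hB : 0 ≤ B) (hGB : ∀ z ∈ Metric.closedBall z0 R, ‖G z‖ ≤ Real.exp B)
    (hVB : ∀ z ∈ Metric.closedBall z0 R, ‖V z‖ ≤ Real.exp B) :
    ∀ z ∈ Metric.closedBall z0 r, (h z).re ≤ (R + r) / (R - r) * (B - Real.log ‖V z0‖) := by
  intro z hz
  have hR : 0 < R := hr.trans hrR
  have hzR : z ∈ Metric.ball z0 R := Metric.closedBall_subset_ball hrR hz
  have hsph : Metric.sphere z0 |R| = Metric.sphere z0 R := by rw [abs_of_pos hR]
  set K : ℝ := (R + r) / (R - r) with hK
  have _hG := hG
  have hK0 : 0 ≤ K := div_nonneg (by linarith) (by linarith)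
  have hd : DiffContOnCl ℂ h (Metric.ball z0 R) := by
    refine DifferentiableOn.diffContOnCl fun w hw => ?_
    exact (hh w (Metric.closure_ball_subset_closedBall hw)).differentiableWithinAt
  have hPois := hd.circleAverage_poissonKernel_smul hzR
  -- the kernel
  have hPc : ContinuousOn (poissonKernel z0 z) (Metric.sphere z0 |R|) := by
    rw [poissonKernel_eq_re_herglotzRieszKernel]
    exact Complex.continuous_re.comp_continuousOn (continuousOn_herglotzRieszKernel_sphere hzR)
  have hhc : ContinuousOn h (Metric.sphere z0 |R|) := by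
    rw [hsph]
    exact fun w hw => (hh w (Metric.sphere_subset_closedBall hw)).continuousAt.continuousWithinAt
  have hP0 : ∀ w ∈ Metric.sphere z0 R, 0 ≤ poissonKernel z0 z w := by
    intro w hw
    rw [poissonKernel_def]
    refine div_nonneg ?_ (by positivity)
    rw [mem_sphere_iff_norm] at hw
    rw [mem_ball_iff_norm] at hzR
    rw [hw, sub_nonneg]
    exact pow_le_pow_left₀ (norm_nonneg _) hzR.le 2
  have hPK : ∀ w ∈ Metric.sphere z0 R, poissonKernel z0 z w ≤ K := by
    intro w hw
    rw [poissonKernel_eq_re_herglotzRieszKernel]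
    refine (re_herglotzRieszKernel_le hw hzR).trans ?_
    rw [mem_ball_iff_norm] at hzR
    rw [mem_closedBall_iff_norm] at hz
    rw [hK]
    exact div_le_div₀ (by linarith) (by linarith) (by linarith) (by linarith)
  have hint : CircleIntegrable (poissonKernel z0 z • h) z0 R :=
    (hPc.smul hhc).circleIntegrable'
  have hre : Real.circleAverage (fun w => poissonKernel z0 z w * (h w).re) z0 R = (h z).re := by
    rw [← hPois, ← Complex.reCLM_apply, ← Complex.reCLM.circleAverage_comp_comm hint]
    congr 1
    funext w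
    simp
  have hintre : CircleIntegrable (fun w => poissonKernel z0 z w * (h w).re) z0 R :=
    (hPc.mul (Complex.continuous_re.comp_continuousOn hhc)).circleIntegrable'
  -- remove the zeros of `V`
  classical
  set φ : ℂ → ℝ := fun w => if V w = 0 then 0 else poissonKernel z0 z w * (h w).re with hφ
  have hcod : (fun w => poissonKernel z0 z w * (h w).re) =ᶠ[codiscreteWithin (Metric.sphere z0 |R|)] φ := by
    have h1 : V ⁻¹' {0}ᶜ ∈ codiscrete ℂ :=
      AnalyticOnNhd.preimage_zero_mem_codiscrete (fun x _ => hV.analyticAt x) hV0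
    have h2 : V ⁻¹' {0}ᶜ ∈ codiscreteWithin (Metric.sphere z0 |R|) :=
      codiscreteWithin_mono (Set.subset_univ _) h1
    filter_upwards [h2] with w hw
    rw [hφ]
    simp only [Set.mem_preimage, Set.mem_compl_iff, Set.mem_singleton_iff] at hw
    simp only [if_neg hw]
  have hφint : CircleIntegrable φ z0 R := hintre.congr_codiscreteWithin hcod
  have hφavg : Real.circleAverage φ z0 R = (h z).re := by
    rw [← hre]
    exact (Real.circleAverage_congr_codiscreteWithin hcod hR.ne').symm
  have hlogint : CircleIntegrable (fun w => Real.log ‖V w‖) z0 R :=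
    MeromorphicOn.circleIntegrable_log_norm (fun x _ => (hV.analyticAt x).meromorphicAt)
  have hrint : CircleIntegrable (fun w => K * (B - Real.log ‖V w‖)) z0 R := by
    have h1 : CircleIntegrable (fun w => B - Real.log ‖V w‖) z0 R :=
      (circleIntegrable_const B z0 R).sub hlogint
    exact h1.const_smul (a := K)
  have hle : ∀ w ∈ Metric.sphere z0 |R|, φ w ≤ K * (B - Real.log ‖V w‖) := by
    intro w hw
    rw [hsph] at hw
    have hwc := Metric.sphere_subset_closedBall hw
    by_cases hVw : V w = 0
    · rw [hφ]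
      simp only [hVw, norm_zero, Real.log_zero, sub_zero]
      exact mul_nonneg hK0 hB
    · rw [hφ]
      simp only [if_neg hVw]
      have hVp : 0 < ‖V w‖ := norm_pos_iff.2 hVw
      have h1 : Real.log ‖V w‖ ≤ B := by
        rw [Real.log_le_iff_le_exp hVp]
        exact hVB w hwc
      have h2 : (h w).re ≤ B - Real.log ‖V w‖ := by
        have h3 : ‖G w‖ = ‖V w‖ * Real.exp (h w).re := by
          rw [he w hwc, norm_mul, Complex.norm_exp]
        have h4 : ‖V w‖ * Real.exp (h w).re ≤ Real.exp B := by
          rw [← h3]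
          exact hGB w hwc
        have h5 := Real.log_le_log (by positivity) h4
        rw [Real.log_mul hVp.ne' (Real.exp_ne_zero _), Real.log_exp, Real.log_exp] at h5
        linarith
      calc poissonKernel z0 z w * (h w).re ≤ poissonKernel z0 z w * (B - Real.log ‖V w‖) :=
            mul_le_mul_of_nonneg_left h2 (hP0 w hw)
        _ ≤ K * (B - Real.log ‖V w‖) := mul_le_mul_of_nonneg_right (hPK w hw) (by linarith)
  have hmono := Real.circleAverage_mono hφint hrint hle
  rw [hφavg] at hmono
  refine hmono.trans ?_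
  have h1 : Real.circleAverage (fun w => K * (B - Real.log ‖V w‖)) z0 R =
      K * (B - Real.circleAverage (fun w => Real.log ‖V w‖) z0 R) := by
    have h2 := Real.circleAverage_fun_smul (a := K) (f := fun w => B - Real.log ‖V w‖) (c := z0) (R := R)
    simp only [smul_eq_mul] at h2
    rw [h2, Real.circleAverage_fun_sub (circleIntegrable_const B z0 R) hlogint,
      Real.circleAverage_const]
  rw [h1]
  have h3 := jensen_ge hR hV hV0
  exact mul_le_mul_of_nonneg_left (by linarith) hK0

end Pool.Agent.TH75.TX
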