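import Mathlib
import Pool.Agent.TH202.FlRes
import Pool.Agent.TH202.Cen
import Pool.Agent.TH573.C8_BPF

set_option autoImplicit false
namespace Pool.Agent.TH75.FL_DOM
open Pool.Agent.H436R3.Fol Pool.Agent.TH202 MvPolynomial

variable {K : Type} [Field K] [Algebra ℂ K]

/-- The local ring at a point is the intersection of the valuation rings dominating it. -/
theorem mem_of_dom {X : Model K} (x : Pt X) (f : K)
    (h : ∀ V : ValuationSubring K, (∀ g, x.Mem g → g ∈ V) →
      (∀ g, x.Mem g → ¬ x.Mem g⁻¹ → g⁻¹ ∉ V) → f ∈ V) : x.Mem f := by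
  by_contra hf
  have hf' : f ∉ x.loc.toSubring := hf
  have := Pool.Agent.TH573.C8_BPF.local_loc x
  have := Pool.Agent.TH573.C8_BPF.closed_loc x
  let L : LocalSubring K := ⟨x.loc.toSubring⟩
  have : IsIntegrallyClosedIn L.toSubring K := Pool.Agent.TH573.C8_BPF.closed_loc x
  obtain ⟨V, hV, hfV⟩ := LocalSubring.exists_le_valuationSubring_of_isIntegrallyClosedIn
    (R := L) (x := f) hf'
  obtain ⟨hle, hloc⟩ := hV
  apply hfV
  refine h V (fun g hg => hle hg) ?_
  intro g hg hgi hVi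
  have hg0 : g ≠ 0 := by
    rintro rfl
    apply hgi
    rw [inv_zero]
    exact x.loc.zero_mem
  have hgV : g ∈ V := hle hg
  have hu : IsUnit (Subring.inclusion hle ⟨g, hg⟩) := by
    rw [isUnit_iff_exists_inv]
    refine ⟨⟨g⁻¹, hVi⟩, ?_⟩
    apply Subtype.ext
    exact mul_inv_cancel₀ hg0
  have hu' := hloc.map_nonunit _ hu
  obtain ⟨y, hy⟩ := isUnit_iff_exists_inv.1 hu'
  have hy' : g * (y : K) = 1 := congrArg Subtype.val hy
  apply hgi
  have : g⁻¹ = (y : K) := inv_eq_of_mul_eq_one_right hy'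
  rw [this]
  exact y.2

end Pool.Agent.TH75.FL_DOM
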