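import Mathlib
import Pool.Agent.TH202.FlRes
import Pool.Agent.TH202.Cen
import Pool.Agent.TH202.RL
import Pool.Agent.TH126.C8_OVER
set_option autoImplicit false
namespace Pool.Agent.TH75.FL_PAIR
open Pool.Agent.H436R3.Fol Pool.Agent.TH202 MvPolynomial

section aux

/-- A prime polynomial in three variables does not divide the nonzero polynomials in a suitable
pair of the variables. -/
theorem vars_two (π : MvPolynomial (Fin 3) ℂ) (hπ : Prime π) :
    ∃ e : Fin 2 → Fin 3, ∀ q : MvPolynomial (Fin 2) ℂ, q ≠ 0 → ¬ π ∣ rename e q := by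
  have hne : ∃ l, l ∈ π.vars := by
    by_contra h
    push Not at h
    have h0 : π.vars = ∅ := Finset.eq_empty_of_forall_notMem h
    rw [vars_eq_empty_iff_eq_C] at h0
    by_cases hc : π.coeff 0 = 0
    · rw [hc, C_0] at h0
      exact hπ.ne_zero h0
    · apply hπ.not_isUnit
      rw [h0]
      exact (isUnit_iff_ne_zero.mpr hc).map C
  obtain ⟨l, hl⟩ := hne
  refine ⟨l.succAbove, fun q hq hdvd => ?_⟩
  have hinj : Function.Injective (l.succAbove : Fin 2 → Fin 3) := Fin.succAbove_right_injective
  have hq' : rename l.succAbove q ≠ 0 := by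
    intro h
    exact hq (rename_injective _ hinj (by rw [h, map_zero]))
  obtain ⟨s, hs⟩ := hdvd
  have hs0 : s ≠ 0 := by
    rintro rfl
    rw [mul_zero] at hs
    exact hq' hs
  have h1 : degreeOf l (rename l.succAbove q) = degreeOf l π + degreeOf l s := by
    rw [hs, degreeOf_mul_eq hπ.ne_zero hs0]
  have h2 : degreeOf l (rename l.succAbove q) = 0 := by
    by_contra h
    rw [← ne_eq, ← mem_vars_iff_degreeOf_ne_zero] at h
    obtain ⟨i, _, hi⟩ := mem_vars_rename _ _ h
    exact Fin.succAbove_ne l i hi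
  have h3 := mem_vars_iff_degreeOf_ne_zero.1 hl
  omega

end aux

variable {K : Type} [Field K] [Algebra ℂ K]

/-- Noether normalization. -/
theorem noether (h3 : Algebra.trdeg ℂ K = 3) (T : Set K) (hT : T.Finite)
    (halg : ∀ f : K, IsAlgebraic (Algebra.adjoin ℂ T) f) :
    ∃ t : Fin 3 → K, AlgebraicIndependent ℂ t ∧
      (∀ f : K, IsAlgebraic (Algebra.adjoin ℂ (Set.range t)) f) ∧ IC t = ICs T := by
  classical
  set A := Algebra.adjoin ℂ T with hAdef
  have hA : A.FG := ⟨hT.toFinset, by rw [hT.coe_toFinset]⟩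
  have : Algebra.FiniteType ℂ A := (Subalgebra.fg_iff_finiteType A).mp hA
  obtain ⟨n, g, hg, hfin⟩ := exists_finite_inj_algHom_of_fg ℂ A
  let t : Fin n → K := fun i => (g (X i) : K)
  have haev : (aeval t : MvPolynomial (Fin n) ℂ →ₐ[ℂ] K) = A.val.comp g := by
    apply MvPolynomial.algHom_ext
    intro i
    simp [t]
  have ht : AlgebraicIndependent ℂ t := by
    rw [algebraicIndependent_iff_injective_aeval, haev]
    exact Subtype.val_injective.comp hg
  have hrange : Algebra.adjoin ℂ (Set.range t) = (A.val.comp g).range := by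
    rw [Algebra.adjoin_range_eq_range_aeval, haev]
  let A0 := MvPolynomial (Fin n) ℂ
  let _ : Algebra A0 A := g.toRingHom.toAlgebra
  let _ : Algebra A0 K := (A.val.comp g).toRingHom.toAlgebra
  have hst : IsScalarTower A0 A K := IsScalarTower.of_algebraMap_eq fun x => rfl
  have hmf : Module.Finite A0 A := hfin
  have hint : Algebra.IsIntegral A0 A := Algebra.IsIntegral.of_finite A0 A
  set B := Algebra.adjoin ℂ (Set.range t) with hB
  -- `B ≤ A`
  have hBA : B ≤ A := by
    rw [hrange]
    rintro _ ⟨x, rfl⟩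
    exact (g x).2
  -- integrality over `B` versus over `A0`
  have hA0B : ∀ x : K, IsIntegral A0 x → IsIntegral B x := by
    intro x hx
    obtain ⟨p, hp, hpx⟩ := hx
    let φ : A0 →+* B := ((A.val.comp g).codRestrict B (fun q => by
      rw [hrange]; exact ⟨q, rfl⟩)).toRingHom
    refine ⟨p.map φ, hp.map _, ?_⟩
    rw [Polynomial.eval₂_map]
    exact hpx
  have hBA' : ∀ x : K, IsIntegral B x → IsIntegral A x := by
    intro x hx
    obtain ⟨p, hp, hpx⟩ := hx
    refine ⟨p.map (Subalgebra.inclusion hBA).toRingHom, hp.map _, ?_⟩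
    rw [Polynomial.eval₂_map]
    exact hpx
  have hAB : ∀ x : K, IsIntegral A x → IsIntegral B x := by
    intro x hx
    exact hA0B x (isIntegral_trans x hx)
  have halgB : ∀ f : K, IsAlgebraic B f := by
    intro f
    have h1 : IsAlgebraic A0 f := by
      have : Algebra.IsAlgebraic A0 A := Algebra.IsIntegral.isAlgebraic
      exact (halg f).restrictScalars A0
    obtain ⟨p, hp, hpx⟩ := h1
    let φ : A0 →+* B := ((A.val.comp g).codRestrict B (fun q => by
      rw [hrange]; exact ⟨q, rfl⟩)).toRingHom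
    have hφ : Function.Injective φ := by
      intro x y hxy
      apply hg
      exact Subtype.ext (congrArg (fun z : B => (z : K)) hxy)
    refine ⟨p.map φ, (Polynomial.map_ne_zero_iff hφ).mpr hp, ?_⟩
    rw [Polynomial.aeval_def, Polynomial.eval₂_map]
    exact hpx
  have hbasis : IsTranscendenceBasis ℂ t :=
    ht.isTranscendenceBasis_iff_isAlgebraic.mpr ⟨halgB⟩
  have hn : n = 3 := by
    have h1 := hbasis.cardinalMk_eq_trdeg
    rw [h3, Cardinal.mk_fin] at h1
    exact_mod_cast h1
  subst hn
  refine ⟨t, ht, halgB, ?_⟩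
  ext x
  unfold IC ICs
  simp only [Subalgebra.mem_restrictScalars, mem_integralClosure_iff]
  exact ⟨hBA' x, hAB x⟩

variable [Algebra.EssFiniteType ℂ K]

/-- The residue field of a prime divisor on a threefold has transcendence degree two. -/
theorem exists_pair (h3 : Algebra.trdeg ℂ K = 3) (T : Set K) (hT : T.Finite)
    (halg : ∀ f : K, IsAlgebraic (Algebra.adjoin ℂ T) f) (w : DVal K)
    (hw : IsLocalRing' (ICs T) w) : ∃ f g : K, Ind2 w f g := by
  obtain ⟨t, ht, halg', hIC⟩ := noether h3 T hT halg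
  rw [← hIC] at hw
  obtain ⟨π, hπ, hπw⟩ := Pool.Agent.TH126.C8_OVER.prime_over t ht halg' w hw
  obtain ⟨e, he⟩ := vars_two π hπ
  have htR : ∀ i, w.Reg (t i) := by
    intro i
    apply hw.1
    unfold IC
    rw [Subalgebra.mem_restrictScalars, mem_integralClosure_iff]
    exact isIntegral_algebraMap
      (x := (⟨t i, Algebra.subset_adjoin ⟨i, rfl⟩⟩ : Algebra.adjoin ℂ (Set.range t)))
  refine ⟨t (e 0), t (e 1), htR _, htR _, fun q hq hpos => he q hq ?_⟩
  rw [← hπw, aeval_rename]
  have : t ∘ e = ![t (e 0), t (e 1)] := by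
    funext i
    fin_cases i <;> rfl
  rw [this]
  exact hpos

end Pool.Agent.TH75.FL_PAIR
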