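import Mathlib

set_option autoImplicit false

open Set

namespace Pool.Agent.TH75.ClosedSub

open Filter Topology

/-- closed subgroups of `ℝ^m`: small elements lie on lines of the subgroup -/
theorem exists_small {m : ℕ} (G : AddSubgroup (Fin m → ℝ)) (hG : IsClosed (G : Set (Fin m → ℝ)))
    (V : Submodule ℝ (Fin m → ℝ)) (hV : ∀ v, v ∈ V ↔ ∀ t : ℝ, t • v ∈ G) :
    ∃ δ > (0:ℝ), ∀ g ∈ G, ‖g‖ < δ → g ∈ V := by
  by_contra hcon
  push Not at hcon
  obtain ⟨W, hW⟩ := Submodule.exists_isCompl V
  have hchoose : ∀ n : ℕ, ∃ g ∈ G, ‖g‖ < 1 / ((n : ℝ) + 1) ∧ g ∉ V := by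
    intro n
    exact hcon (1 / ((n : ℝ) + 1)) (by positivity)
  choose g hgG hgn hgV using hchoose
  -- projection onto W along V
  let P : (Fin m → ℝ) →ₗ[ℝ] (Fin m → ℝ) := W.projection V hW.symm
  have hPcont : Continuous P := P.continuous_of_finiteDimensional
  have hPW : ∀ x, P x ∈ W := fun x => Submodule.projection_apply_mem hW.symm x
  have hPV : ∀ x, x - P x ∈ V := fun x => Submodule.sub_projection_mem hW.symm x
  have hVG : ∀ v ∈ V, v ∈ G := by
    intro v hv
    have := (hV v).mp hv 1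
    rwa [one_smul] at this
  have hg0 : Tendsto g atTop (𝓝 0) := by
    rw [tendsto_zero_iff_norm_tendsto_zero]
    exact squeeze_zero (fun n => norm_nonneg _) (fun n => (hgn n).le)
      tendsto_one_div_add_atTop_nhds_zero_nat
  obtain ⟨w, hw⟩ : ∃ w : ℕ → (Fin m → ℝ), w = fun n => P (g n) := ⟨_, rfl⟩
  have hw0 : Tendsto w atTop (𝓝 0) := by
    rw [hw]
    have := (hPcont.tendsto 0).comp hg0
    rwa [map_zero] at this
  have hwG : ∀ n, w n ∈ G := by
    intro n
    have h1 : w n = g n - (g n - P (g n)) := by rw [hw]; abel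
    rw [h1]
    exact G.sub_mem (hgG n) (hVG _ (hPV _))
  have hwW : ∀ n, w n ∈ W := by intro n; rw [hw]; exact hPW _
  have hwne : ∀ n, w n ≠ 0 := by
    intro n h0
    apply hgV n
    have h1 := hPV (g n)
    have h2 : P (g n) = 0 := by rw [hw] at h0; exact h0
    rw [h2, sub_zero] at h1
    exact h1
  have hwpos : ∀ n, 0 < ‖w n‖ := fun n => norm_pos_iff.mpr (hwne n)
  -- directions
  have hsph : ∀ n, (‖w n‖⁻¹ • w n) ∈ Metric.sphere (0 : Fin m → ℝ) 1 := by
    intro n
    rw [mem_sphere_zero_iff_norm, norm_smul, norm_inv, norm_norm]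
    exact inv_mul_cancel₀ (hwpos n).ne'
  obtain ⟨u, hu, φ, hφ, hlim⟩ := (isCompact_sphere (0 : Fin m → ℝ) 1).tendsto_subseq hsph
  have huW : u ∈ W := by
    have hWc : IsClosed (W : Set (Fin m → ℝ)) := Submodule.closed_of_finiteDimensional W
    exact hWc.mem_of_tendsto hlim (Eventually.of_forall fun n => W.smul_mem _ (hwW _))
  have huV : u ∈ V := by
    rw [hV]
    intro t
    have hwφ : Tendsto (fun n => ‖w (φ n)‖) atTop (𝓝 0) := by
      have := (hw0.norm).comp hφ.tendsto_atTop
      rwa [norm_zero] at this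
    have hc : Tendsto (fun n => (⌊t / ‖w (φ n)‖⌋ : ℝ) * ‖w (φ n)‖) atTop (𝓝 t) := by
      have h1 : ∀ n, t - ‖w (φ n)‖ ≤ (⌊t / ‖w (φ n)‖⌋ : ℝ) * ‖w (φ n)‖ := by
        intro n
        have h2 := Int.lt_floor_add_one (t / ‖w (φ n)‖)
        have h3 : t < ((⌊t / ‖w (φ n)‖⌋ : ℝ) + 1) * ‖w (φ n)‖ := by
          rwa [div_lt_iff₀ (hwpos _)] at h2
        linarith
      have h2 : ∀ n, (⌊t / ‖w (φ n)‖⌋ : ℝ) * ‖w (φ n)‖ ≤ t := by
        intro n
        have h2 := Int.floor_le (t / ‖w (φ n)‖)
        rwa [le_div_iff₀ (hwpos _)] at h2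
      have h3 : Tendsto (fun n => t - ‖w (φ n)‖) atTop (𝓝 t) := by
        have := (tendsto_const_nhds (x := t)).sub hwφ
        rwa [sub_zero] at this
      exact tendsto_of_tendsto_of_tendsto_of_le_of_le h3 tendsto_const_nhds h1 h2
    have hlim2 := hc.smul hlim
    have heq : ∀ n, ((⌊t / ‖w (φ n)‖⌋ : ℝ) * ‖w (φ n)‖) •
        (((fun n => ‖w n‖⁻¹ • w n) ∘ φ) n) = ⌊t / ‖w (φ n)‖⌋ • w (φ n) := by
      intro n
      simp only [Function.comp_apply]
      rw [smul_smul, mul_assoc, mul_inv_cancel₀ (hwpos _).ne', mul_one]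
      exact Int.cast_smul_eq_zsmul ℝ _ _
    rw [tendsto_congr heq] at hlim2
    exact hG.mem_of_tendsto hlim2 (Eventually.of_forall fun n => G.zsmul_mem (hwG _) _)
  have hu0 : u = 0 := by
    have : u ∈ V ⊓ W := ⟨huV, huW⟩
    rw [hW.inf_eq_bot] at this
    exact (Submodule.mem_bot ℝ).mp this
  rw [mem_sphere_zero_iff_norm, hu0, norm_zero] at hu
  exact zero_ne_one hu

/-- the lines in a closed subgroup containing `ℤ^m` form a rational subspace -/
theorem rational_lines {m : ℕ} (G : AddSubgroup (Fin m → ℝ))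
    (hG : IsClosed (G : Set (Fin m → ℝ))) (hZ : ∀ k : Fin m → ℤ, (fun i => (k i : ℝ)) ∈ G)
    (V : Submodule ℝ (Fin m → ℝ)) (hV : ∀ v, v ∈ V ↔ ∀ t : ℝ, t • v ∈ G) :
    ∃ L : List (Fin m → ℤ), V = Submodule.span ℝ {v | ∃ k ∈ L, (fun i => (k i : ℝ)) = v} := by
  classical
  obtain ⟨δ, hδ, hsmall⟩ := exists_small G hG V hV
  have hVG : ∀ v ∈ V, v ∈ G := by
    intro v hv
    have := (hV v).mp hv 1
    rwa [one_smul] at this
  obtain ⟨S, hS⟩ : ∃ S : Set (Fin m → ℝ), S = {v | v ∈ V ∧ ∃ k : Fin m → ℤ,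
    (fun i => (k i : ℝ)) = v} := ⟨_, rfl⟩
  have hSV : Submodule.span ℝ S = V := by
    apply le_antisymm
    · rw [Submodule.span_le, hS]
      intro v hv
      exact hv.1
    · intro v hv
      have hclosed : IsClosed ((Submodule.span ℝ S : Submodule ℝ (Fin m → ℝ)) :
        Set (Fin m → ℝ)) := Submodule.closed_of_finiteDimensional _
      have hmem : v ∈ closure ((Submodule.span ℝ S : Submodule ℝ (Fin m → ℝ)) :
          Set (Fin m → ℝ)) := by
        rw [Metric.mem_closure_iff]
        intro ε hε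
        obtain ⟨N, hN⟩ := exists_nat_gt (δ / ε)
        -- recurrence
        have hcube : ∀ n : ℕ, (fun i => Int.fract ((n : ℝ) * v i)) ∈
            Metric.closedBall (0 : Fin m → ℝ) 1 := by
          intro n
          rw [mem_closedBall_zero_iff, pi_norm_le_iff_of_nonneg zero_le_one]
          intro i
          rw [Real.norm_eq_abs, abs_of_nonneg (Int.fract_nonneg _)]
          exact (Int.fract_lt_one _).le
        obtain ⟨x, -, φ, hφ, hlim⟩ :=
          (isCompact_closedBall (0 : Fin m → ℝ) 1).tendsto_subseq hcube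
        have hcau := hlim.cauchySeq
        rw [Metric.cauchySeq_iff'] at hcau
        obtain ⟨a, ha⟩ := hcau δ hδ
        have hab := ha (a + N + 1) (by omega)
        have hφab : φ a + (N + 1) ≤ φ (a + N + 1) := by
          have : ∀ j, φ a + j ≤ φ (a + j) := by
            intro j
            induction j with
            | zero => simp
            | succ j ih =>
              have := hφ (show a + j < a + (j + 1) by omega)
              omega
          exact this (N + 1)
        set b := a + N + 1 with hb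
        -- the integer vector
        obtain ⟨t, ht⟩ : ∃ t : ℕ, φ b = φ a + t := ⟨φ b - φ a, by omega⟩
        have htN : N + 1 ≤ t := by omega
        have htpos : (0 : ℝ) < t := by
          have : 0 < t := by omega
          exact_mod_cast this
        let l : Fin m → ℤ := fun i => ⌊(φ b : ℝ) * v i⌋ - ⌊(φ a : ℝ) * v i⌋
        have hlr : (fun i => (l i : ℝ)) = (t : ℝ) • v -
            ((fun i => Int.fract ((φ b : ℝ) * v i)) - fun i => Int.fract ((φ a : ℝ) * v i)) := by
          funext i
          simp only [l, Pi.sub_apply, Pi.smul_apply, smul_eq_mul]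
          unfold Int.fract
          rw [ht]
          push_cast
          ring
        set e : Fin m → ℝ :=
          ((fun i => Int.fract ((φ b : ℝ) * v i)) - fun i => Int.fract ((φ a : ℝ) * v i)) with he
        have hen : ‖e‖ < δ := by
          rw [he, ← dist_eq_norm]
          exact hab
        have heG : e ∈ G := by
          have : e = (t : ℝ) • v - (fun i => (l i : ℝ)) := by rw [hlr]; abel
          rw [this]
          exact G.sub_mem (hVG _ (V.smul_mem _ hv)) (hZ l)
        have heV : e ∈ V := hsmall e heG hen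
        have hlV : (fun i => (l i : ℝ)) ∈ V := by
          rw [hlr]; exact V.sub_mem (V.smul_mem _ hv) heV
        refine ⟨(t : ℝ)⁻¹ • (fun i => (l i : ℝ)), ?_, ?_⟩
        · apply Submodule.smul_mem
          apply Submodule.subset_span
          rw [hS]
          exact ⟨hlV, l, rfl⟩
        · rw [dist_eq_norm, hlr, smul_sub, smul_smul, inv_mul_cancel₀ htpos.ne', one_smul,
            sub_sub_cancel, norm_smul, norm_inv, Real.norm_of_nonneg htpos.le]
          have h1 : (t : ℝ)⁻¹ * ‖e‖ ≤ (t : ℝ)⁻¹ * δ :=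
            mul_le_mul_of_nonneg_left hen.le (by positivity)
          refine lt_of_le_of_lt h1 ?_
          rw [inv_mul_lt_iff₀ htpos]
          rw [div_lt_iff₀ hε] at hN
          have h2 : (N : ℝ) ≤ t := by
            have : N ≤ t := by omega
            exact_mod_cast this
          nlinarith
      rwa [hclosed.closure_eq] at hmem
  have hfg : (Submodule.span ℝ S).FG := IsNoetherian.noetherian _
  rw [Submodule.fg_span_iff_fg_span_finset_subset] at hfg
  obtain ⟨s', hs'S, hs'⟩ := hfg
  have hch : ∀ v : Fin m → ℝ, ∃ k : Fin m → ℤ, v ∈ s' → (fun i => (k i : ℝ)) = v := by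
    intro v
    by_cases hv : v ∈ s'
    · have := hs'S hv
      rw [hS] at this
      obtain ⟨k, hk⟩ := this.2
      exact ⟨k, fun _ => hk⟩
    · exact ⟨0, fun h => absurd h hv⟩
  choose K hK using hch
  refine ⟨s'.toList.map K, ?_⟩
  rw [← hSV, hs']
  congr 1
  ext v
  constructor
  · intro hv
    have hv' : v ∈ s' := hv
    exact ⟨K v, List.mem_map.mpr ⟨v, Finset.mem_toList.mpr hv', rfl⟩, hK v hv'⟩
  · rintro ⟨k, hk, rfl⟩
    obtain ⟨v', hv', rfl⟩ := List.mem_map.mp hk
    have hv'' := Finset.mem_toList.mp hv'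
    rw [hK v' hv'']
    exact hv''

end Pool.Agent.TH75.ClosedSub
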