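import Pool.Agent.TH239.FF.Gen

/-!
# Critical forest fire equations: bound for the log-average of the flux (job 948)
-/

set_option autoImplicit false

namespace Pool.Agent.TH75.J948

open Set Filter Topology MeasureTheory
open Pool.Agent.TH239.FF

/-- The pointwise algebraic inequality. -/
theorem alg {s m β K : ℝ} (_hs : 0 ≤ s) (hm : 0 ≤ m) (hβ : 0 < β) (hK : m ^ 3 ≤ 4 * K) :
    s * m ≤ (4 * β / 3) * (K - s / 4) + β ^ 4 / 3 + 2 / (3 * β ^ 2) * s ^ 2 := by
  have h1 : s * m ≤ s ^ 2 / (2 * β ^ 2) + β ^ 2 * m ^ 2 / 2 := by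
    have e : s ^ 2 / (2 * β ^ 2) + β ^ 2 * m ^ 2 / 2 - s * m = (s / β - β * m) ^ 2 / 2 := by
      field_simp
      ring
    nlinarith [sq_nonneg (s / β - β * m)]
  have h2 : 3 * β * m ^ 2 ≤ β ^ 3 + 2 * m ^ 3 := by
    nlinarith [mul_nonneg (by positivity : 0 ≤ 2 * m + β) (sq_nonneg (m - β))]
  have h3 : β ^ 2 * m ^ 2 / 2 ≤ β ^ 4 / 6 + β * m ^ 3 / 3 := by
    nlinarith [mul_le_mul_of_nonneg_left h2 hβ.le]
  have h4 : (β / 3) * s ≤ β ^ 4 / 6 + s ^ 2 / (6 * β ^ 2) := by
    have e : β ^ 4 / 6 + s ^ 2 / (6 * β ^ 2) - (β / 3) * s = (β ^ 2 - s / β) ^ 2 / 6 := by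
      field_simp
      ring
    nlinarith [sq_nonneg (β ^ 2 - s / β)]
  have h5 : β * m ^ 3 / 3 ≤ (4 * β / 3) * K := by
    nlinarith [mul_le_mul_of_nonneg_left hK hβ.le]
  have h6 : s ^ 2 / (2 * β ^ 2) + s ^ 2 / (6 * β ^ 2) = 2 / (3 * β ^ 2) * s ^ 2 := by
    field_simp
    ring
  linarith

theorem U_nonneg {c : ℕ → ℝ → ℝ} (g : Gen c) {t x : ℝ} (ht : 0 ≤ t) (hx : 0 ≤ x) :
    0 ≤ U c t x := by
  have h1 := g.m0 t x ht hx
  have h2 : Real.exp (-x) ≤ 1 := Real.exp_le_one_iff.mpr (by linarith)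
  unfold U
  linarith

theorem U_le_one {c : ℕ → ℝ → ℝ} (g : Gen c) {t x : ℝ} (ht : 0 ≤ t) : U c t x ≤ 1 := by
  have h1 := g.no 0 t x ht
  unfold U
  linarith

theorem U_deriv {c : ℕ → ℝ → ℝ} (g : Gen c) {t x : ℝ} (ht : 0 ≤ t) (hx : 0 < x) :
    HasDerivAt (fun y => U c t y) (mo c 1 t x) x := by
  have h1 := (g.de 0 t x ht hx).const_sub 1
  simpa [U] using h1

theorem W_nonneg {c : ℕ → ℝ → ℝ} (g : Gen c) {t x : ℝ} (ht : 0 ≤ t) : 0 ≤ W c t x := by
  unfold W
  have := g.no 2 t x ht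
  positivity

theorem W_cube {c : ℕ → ℝ → ℝ} (g : Gen c) {t x : ℝ} (ht : 0 ≤ t) (hx : 0 ≤ x) :
    W c t x ^ 3 ≤ 4 * mo c 2 t x := by
  have h0 := g.no 2 t x ht
  have hu := U_nonneg g ht hx
  have hu1 := U_le_one (x := x) g ht
  have h4 : U c t x ^ 4 ≤ 1 := pow_le_one₀ hu hu1
  have h4' : 0 ≤ U c t x ^ 4 := by positivity
  have e : W c t x ^ 3 = 4 * (1 - (U c t x) ^ 4) ^ 2 * mo c 2 t x := by
    unfold W
    rw [← Real.rpow_natCast, ← Real.rpow_mul (by positivity)]
    norm_num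
  rw [e]
  have h5 : (1 - (U c t x) ^ 4) ^ 2 ≤ 1 := pow_le_one₀ (by linarith) (by linarith)
  nlinarith [mul_le_mul_of_nonneg_right h5 h0]

theorem mo_cont {c : ℕ → ℝ → ℝ} (g : Gen c) (j : ℕ) {t : ℝ} (ht : 0 ≤ t) :
    ContinuousOn (fun x => mo c j t x) (Ioi 0) :=
  fun x hx => (g.de j t x ht hx).continuousAt.continuousWithinAt

theorem U_cont {c : ℕ → ℝ → ℝ} (g : Gen c) {t : ℝ} (ht : 0 ≤ t) :
    ContinuousOn (fun x => U c t x) (Ioi 0) :=
  fun x hx => (U_deriv g ht hx).continuousAt.continuousWithinAt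

theorem W_cont {c : ℕ → ℝ → ℝ} (g : Gen c) {t : ℝ} (ht : 0 ≤ t) :
    ContinuousOn (fun x => W c t x) (Ioi 0) := by
  unfold W
  have h1 : ContinuousOn (fun x => 4 * (1 - (U c t x) ^ 4) ^ 2 * mo c 2 t x) (Ioi 0) :=
    (continuousOn_const.mul ((continuousOn_const.sub ((U_cont g ht).pow 4)).pow 2)).mul
      (mo_cont g 2 ht)
  exact h1.rpow_const (fun x _ => Or.inr (by norm_num))

theorem F_cont {c : ℕ → ℝ → ℝ} (g : Gen c) {t : ℝ} (ht : 0 ≤ t) :
    ContinuousOn (fun x => F c t x) (Ioi 0) := by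
  unfold F
  exact ((U_cont g ht).mul (W_cont g ht)).add ((U_cont g ht).pow 4)

end Pool.Agent.TH75.J948

namespace Pool.Agent.TH239.FF

open Set Filter Topology MeasureTheory
open Pool.Agent.TH75.J948

theorem flux_avg {c : ℕ → ℝ → ℝ} (h : Sol c) (g : Gen c) {t a b β : ℝ} (ht : 0 ≤ t) (ha : 0 < a)
    (hab : a < b) (hβ : 0 < β) :
    ∫ x in a..b, F c t x / x ≤ (β ^ 4 / 3) * Real.log (b / a)
      + 2 / (3 * β ^ 2) * (∫ x in a..b, (U c t x) ^ 2 / x / x)
      + (2 * β / 3) * (U c t b / Real.sqrt b + U c t a / Real.sqrt a)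
      + ∫ x in a..b, (U c t x) ^ 4 / x := by
  have hb : 0 < b := ha.trans hab
  have hsub : Icc a b ⊆ Ioi (0 : ℝ) := fun x hx => lt_of_lt_of_le ha hx.1
  have hui : uIcc a b = Icc a b := uIcc_of_le hab.le
  have hxne : ∀ x ∈ Icc a b, x ≠ 0 := fun x hx => (hsub hx).ne'
  have cU := (U_cont g ht).mono hsub
  have cF := (F_cont g ht).mono hsub
  have c1 := (mo_cont g 1 ht).mono hsub
  have c2 := (mo_cont g 2 ht).mono hsub
  have cs : ContinuousOn (fun x : ℝ => Real.sqrt x) (Icc a b) := Real.continuous_sqrt.continuousOn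
  have hsne : ∀ x ∈ Icc a b, Real.sqrt x ≠ 0 := fun x hx => (Real.sqrt_pos.mpr (hsub hx)).ne'
  -- the primitive
  set G : ℝ → ℝ := fun x => (4 * β / 3) * (U c t x / (2 * Real.sqrt x) - mo c 1 t x * Real.sqrt x)
    with hG
  set G' : ℝ → ℝ := fun x => (4 * β / 3) *
    (mo c 2 t x * Real.sqrt x - U c t x / (4 * (x * Real.sqrt x))) with hG'
  have hder : ∀ x ∈ uIcc a b, HasDerivAt G (G' x) x := by
    intro x hx
    rw [hui] at hx
    have hx0 : 0 < x := hsub hx
    have hsq : HasDerivAt (fun y : ℝ => Real.sqrt y) (1 / (2 * Real.sqrt x)) x :=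
      Real.hasDerivAt_sqrt hx0.ne'
    have hr : 0 < Real.sqrt x := Real.sqrt_pos.mpr hx0
    have hr2 : Real.sqrt x * Real.sqrt x = x := Real.mul_self_sqrt hx0.le
    have d1 : HasDerivAt (fun y => U c t y / (2 * Real.sqrt y))
        ((mo c 1 t x * (2 * Real.sqrt x) - U c t x * (2 * (1 / (2 * Real.sqrt x)))) /
          (2 * Real.sqrt x) ^ 2) x :=
      (U_deriv g ht hx0).div (hsq.const_mul 2) (by positivity)
    have d2 : HasDerivAt (fun y => mo c 1 t y * Real.sqrt y)
        (-(mo c (1 + 1) t x) * Real.sqrt x + mo c 1 t x * (1 / (2 * Real.sqrt x))) x :=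
      (g.de 1 t x ht hx0).mul hsq
    have d3 := (d1.sub d2).const_mul (4 * β / 3)
    refine d3.congr_deriv ?_
    rw [hG']
    simp only
    congr 1
    have hx2 : x = Real.sqrt x ^ 2 := by rw [pow_two, hr2]
    set r := Real.sqrt x with hrdef
    have e1 : x * r = r ^ 3 := by
      rw [hx2]; ring_nf
    rw [e1]
    field_simp
    ring
  have hG'c : ContinuousOn G' (Icc a b) := by
    rw [hG']
    refine ContinuousOn.mul continuousOn_const ?_
    refine (c2.mul cs).sub ?_
    refine cU.div (continuousOn_const.mul (continuousOn_id.mul cs)) ?_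
    intro x hx
    have := hxne x hx
    have := hsne x hx
    positivity
  have iG' : IntervalIntegrable G' volume a b := by
    apply ContinuousOn.intervalIntegrable
    rw [hui]; exact hG'c
  have i1 : IntervalIntegrable (fun x => F c t x / x) volume a b := by
    apply ContinuousOn.intervalIntegrable
    rw [hui]; exact cF.div continuousOn_id hxne
  have i2 : IntervalIntegrable (fun x => (U c t x) ^ 2 / x / x) volume a b := by
    apply ContinuousOn.intervalIntegrable
    rw [hui]; exact ((cU.pow 2).div continuousOn_id hxne).div continuousOn_id hxne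
  have i3 : IntervalIntegrable (fun x => (U c t x) ^ 4 / x) volume a b := by
    apply ContinuousOn.intervalIntegrable
    rw [hui]; exact (cU.pow 4).div continuousOn_id hxne
  have i4 : IntervalIntegrable (fun x : ℝ => x⁻¹) volume a b := by
    apply ContinuousOn.intervalIntegrable
    rw [hui]; exact continuousOn_id.inv₀ hxne
  have hFTC : ∫ x in a..b, G' x = G b - G a :=
    intervalIntegral.integral_eq_sub_of_hasDerivAt hder iG'
  have hlog : ∫ x in a..b, x⁻¹ = Real.log (b / a) := by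
    rw [integral_inv]
    rw [hui]
    intro h0
    exact absurd h0.1 (not_le.mpr ha)
  -- pointwise
  have hpt : ∀ x ∈ Icc a b, F c t x / x ≤ G' x + (β ^ 4 / 3) * x⁻¹
      + 2 / (3 * β ^ 2) * ((U c t x) ^ 2 / x / x) + (U c t x) ^ 4 / x := by
    intro x hx
    have hx0 : 0 < x := hsub hx
    have hr : 0 < Real.sqrt x := Real.sqrt_pos.mpr hx0
    have hr2 : Real.sqrt x * Real.sqrt x = x := Real.mul_self_sqrt hx0.le
    have hx2 : x = Real.sqrt x ^ 2 := by rw [pow_two, hr2]
    have hu := U_nonneg g ht hx0.le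
    have hW := W_nonneg (x := x) g ht
    have hW3 := W_cube g ht hx0.le
    have hal := alg (s := U c t x / Real.sqrt x) (m := Real.sqrt x * W c t x) (β := β)
      (K := mo c 2 t x * Real.sqrt x ^ 3) (by positivity) (by positivity) hβ
      (by
        have : 0 ≤ Real.sqrt x ^ 3 := by positivity
        nlinarith [mul_le_mul_of_nonneg_left hW3 this])
    have e1 : F c t x / x = (U c t x / Real.sqrt x * (Real.sqrt x * W c t x)) / x
        + (U c t x) ^ 4 / x := by
      unfold F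
      field_simp
    have e2 : G' x + (β ^ 4 / 3) * x⁻¹ + 2 / (3 * β ^ 2) * ((U c t x) ^ 2 / x / x) =
        ((4 * β / 3) * (mo c 2 t x * Real.sqrt x ^ 3 - U c t x / Real.sqrt x / 4) + β ^ 4 / 3 +
          2 / (3 * β ^ 2) * (U c t x / Real.sqrt x) ^ 2) / x := by
      rw [hG']
      simp only
      set r := Real.sqrt x with hrdef
      clear_value r
      subst hx2
      field_simp
    rw [e1]
    have := div_le_div_of_nonneg_right hal hx0.le
    linarith
  have hint : ∫ x in a..b, F c t x / x ≤ ∫ x in a..b, (G' x + (β ^ 4 / 3) * x⁻¹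
      + 2 / (3 * β ^ 2) * ((U c t x) ^ 2 / x / x) + (U c t x) ^ 4 / x) := by
    apply intervalIntegral.integral_mono_on hab.le i1
    · exact ((iG'.add (i4.const_mul _)).add (i2.const_mul _)).add i3
    · exact hpt
  have hsplit : ∫ x in a..b, (G' x + (β ^ 4 / 3) * x⁻¹
      + 2 / (3 * β ^ 2) * ((U c t x) ^ 2 / x / x) + (U c t x) ^ 4 / x) =
      (G b - G a) + (β ^ 4 / 3) * Real.log (b / a)
      + 2 / (3 * β ^ 2) * (∫ x in a..b, (U c t x) ^ 2 / x / x)
      + ∫ x in a..b, (U c t x) ^ 4 / x := by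
    rw [intervalIntegral.integral_add ((iG'.add (i4.const_mul _)).add (i2.const_mul _)) i3,
      intervalIntegral.integral_add (iG'.add (i4.const_mul _)) (i2.const_mul _),
      intervalIntegral.integral_add iG' (i4.const_mul _),
      intervalIntegral.integral_const_mul (β ^ 4 / 3),
      intervalIntegral.integral_const_mul (2 / (3 * β ^ 2)), hFTC, hlog]
  have hbd : G b - G a ≤ (2 * β / 3) * (U c t b / Real.sqrt b + U c t a / Real.sqrt a) := by
    rw [hG]
    simp only
    have hra : 0 < Real.sqrt a := Real.sqrt_pos.mpr ha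
    have hrb : 0 < Real.sqrt b := Real.sqrt_pos.mpr hb
    have hra2 : Real.sqrt a * Real.sqrt a = a := Real.mul_self_sqrt ha.le
    have m1 := g.m1 t a ht ha
    have n1 := g.no 1 t b ht
    have k1 : mo c 1 t a * Real.sqrt a ≤ U c t a / Real.sqrt a := by
      rw [le_div_iff₀ hra]
      calc mo c 1 t a * Real.sqrt a * Real.sqrt a = a * mo c 1 t a := by
            rw [mul_assoc, hra2]; ring
        _ ≤ U c t a := m1
    have k2 : 0 ≤ mo c 1 t b * Real.sqrt b := by positivity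
    have k3 : U c t b / (2 * Real.sqrt b) = U c t b / Real.sqrt b / 2 := by
      field_simp
    have k4 : U c t a / (2 * Real.sqrt a) = U c t a / Real.sqrt a / 2 := by
      field_simp
    rw [k3, k4]
    have hβ' : 0 < 4 * β / 3 := by positivity
    nlinarith [mul_le_mul_of_nonneg_left k1 hβ'.le, mul_nonneg hβ'.le k2]
  rw [hsplit] at hint
  linarith

end Pool.Agent.TH239.FF
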