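import Pool.Agent.TH490.StmP

set_option autoImplicit false

namespace Pool.Agent.TH75.MP325P1

open Finset Classical Pool.Agent.TH490

/-- restriction along an injective tuple and to the complement of its range -/
noncomputable def splitE {I P : Type} {q : ℕ} (τ : Fin q → I) (hτ : Function.Injective τ) :
    (I → P) ≃ (Fin q → P) × ({i : I // ¬ i ∈ Set.range τ} → P) :=
  (Equiv.piEquivPiSubtypeProd (fun i => i ∈ Set.range τ) (fun _ => P)).trans
    ((Equiv.arrowCongr (Equiv.ofInjective τ hτ).symm (Equiv.refl P)).prodCongr (Equiv.refl _))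

lemma splitE_fst {I P : Type} {q : ℕ} (τ : Fin q → I) (hτ : Function.Injective τ) (f : I → P) :
    (splitE τ hτ f).1 = fun j => f (τ j) := by
  funext j
  simp [splitE, Equiv.piEquivPiSubtypeProd]

theorem one : P1_one := by
  intro I P _ _ _ _ q T τ hτ
  have h1 : (univ.filter (fun f : I → P => T (fun j => f (τ j)))).card =
      (univ.filter (fun t : Fin q → P => T t)).card *
        Fintype.card ({i : I // ¬ i ∈ Set.range τ} → P) := by
    rw [← Finset.card_univ (α := {i : I // ¬ i ∈ Set.range τ} → P), ← Finset.card_product]
    refine Finset.card_bij (fun f _ => splitE τ hτ f) ?_ ?_ ?_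
    · intro f hf
      rw [mem_filter] at hf
      rw [mem_product, mem_filter, splitE_fst]
      exact ⟨⟨mem_univ _, hf.2⟩, mem_univ _⟩
    · intro f _ g _ h
      exact (splitE τ hτ).injective h
    · intro x hx
      rw [mem_product, mem_filter] at hx
      refine ⟨(splitE τ hτ).symm x, ?_, (splitE τ hτ).apply_symm_apply x⟩
      rw [mem_filter]
      refine ⟨mem_univ _, ?_⟩
      have h2 := splitE_fst τ hτ ((splitE τ hτ).symm x)
      rw [Equiv.apply_symm_apply] at h2
      rw [← h2]
      exact hx.1.2
  have h2 : Fintype.card {i : I // ¬ i ∈ Set.range τ} + q = Fintype.card I := by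
    have h3 : Fintype.card {i : I // i ∈ Set.range τ} = q := by
      have := Fintype.card_congr (Equiv.ofInjective τ hτ)
      rw [Fintype.card_fin] at this
      exact (Fintype.card_congr (Equiv.refl _)).trans this.symm
    have h4 := Fintype.card_subtype_compl (fun i : I => i ∈ Set.range τ)
    have h5 := Fintype.card_subtype_le (fun i : I => i ∈ Set.range τ)
    omega
  rw [h1, Fintype.card_fun, mul_assoc, ← pow_add, h2]

theorem bad : P1_bad := by
  intro I P _ _ _ _ q T
  have h1 : ∀ f : I → P, (BadTup q T f).card ≤
      ∑ τ ∈ univ.filter (fun τ : Fin q → I => Function.Injective τ),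
        if T (fun j => f (τ j)) then q else 0 := by
    intro f
    have h2 : BadTup q T f ⊆ ((univ.filter (fun τ : Fin q → I => Function.Injective τ)).filter
        (fun τ => T (fun j => f (τ j)))).biUnion (fun τ => univ.image τ) := by
      intro x hx
      simp only [BadTup, mem_filter] at hx
      obtain ⟨_, τ, hτ, ⟨j, hj⟩, hT⟩ := hx
      rw [mem_biUnion]
      refine ⟨τ, ?_, ?_⟩
      · rw [mem_filter, mem_filter]
        exact ⟨⟨mem_univ _, hτ⟩, hT⟩
      · rw [mem_image]
        exact ⟨j, mem_univ _, hj⟩
    refine (card_le_card h2).trans (card_biUnion_le.trans ?_)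
    rw [sum_filter]
    refine sum_le_sum fun τ _ => ?_
    split_ifs with h
    · refine card_image_le.trans ?_
      rw [card_univ, Fintype.card_fin]
    · exact le_rfl
  have h2 : ∑ f : I → P, (BadTup q T f).card ≤
      ∑ τ ∈ univ.filter (fun τ : Fin q → I => Function.Injective τ),
        q * (univ.filter (fun f : I → P => T (fun j => f (τ j)))).card := by
    refine (sum_le_sum fun f _ => h1 f).trans ?_
    rw [sum_comm]
    refine sum_le_sum fun τ _ => ?_
    rw [← sum_filter, sum_const, smul_eq_mul, mul_comm]
  calc (∑ f : I → P, (BadTup q T f).card) * Fintype.card P ^ q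
      ≤ (∑ τ ∈ univ.filter (fun τ : Fin q → I => Function.Injective τ),
        q * (univ.filter (fun f : I → P => T (fun j => f (τ j)))).card) * Fintype.card P ^ q :=
        Nat.mul_le_mul_right _ h2
    _ = ∑ τ ∈ univ.filter (fun τ : Fin q → I => Function.Injective τ),
        q * ((univ.filter (fun t : Fin q → P => T t)).card * Fintype.card P ^ Fintype.card I) := by
        rw [sum_mul]
        refine sum_congr rfl fun τ hτ => ?_
        rw [mem_filter] at hτ
        rw [mul_assoc, one I P q T τ hτ.2]
    _ = (univ.filter (fun τ : Fin q → I => Function.Injective τ)).card *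
        (q * ((univ.filter (fun t : Fin q → P => T t)).card *
          Fintype.card P ^ Fintype.card I)) := by
        rw [sum_const, smul_eq_mul]
    _ ≤ Fintype.card I ^ q *
        (q * ((univ.filter (fun t : Fin q → P => T t)).card *
          Fintype.card P ^ Fintype.card I)) := by
        refine Nat.mul_le_mul_right _ ?_
        refine (card_filter_le _ _).trans ?_
        rw [card_univ, Fintype.card_fun, Fintype.card_fin]
    _ = _ := by ring

end Pool.Agent.TH75.MP325P1

namespace Pool.Agent.TH490

theorem p1 : P1_one ∧ P1_bad :=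
  ⟨Pool.Agent.TH75.MP325P1.one, Pool.Agent.TH75.MP325P1.bad⟩

end Pool.Agent.TH490
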