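import Pool.Agent.TH490.StmP

set_option autoImplicit false

namespace Pool.Agent.TH75.MP325P4

open Finset Classical Pool.Agent.TH490

lemma card_sub {I P : Type} [Fintype I] [DecidableEq I] [Fintype P] (A : Finset P)
    (S : Finset I) :
    (univ.filter (fun f : I → P => ∀ x ∈ S, f x ∈ A)).card =
      A.card ^ S.card * Fintype.card P ^ (Fintype.card I - S.card) := by
  have h1 : univ.filter (fun f : I → P => ∀ x ∈ S, f x ∈ A) =
      Fintype.piFinset (fun x => if x ∈ S then A else univ) := by
    ext f
    rw [mem_filter, Fintype.mem_piFinset]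
    constructor
    · rintro ⟨_, h⟩ x
      split_ifs with hx
      · exact h x hx
      · exact mem_univ _
    · intro h
      refine ⟨mem_univ _, fun x hx => ?_⟩
      have := h x
      rwa [if_pos hx] at this
  rw [h1, Fintype.card_piFinset]
  have h2 : ∀ x : I, (if x ∈ S then A else univ).card =
      if x ∈ S then A.card else Fintype.card P := by
    intro x
    split_ifs <;> simp
  simp only [h2]
  rw [prod_ite, prod_const, prod_const, Finset.filter_mem_eq_inter, univ_inter]
  congr 2
  have h3 : univ.filter (fun x => x ∉ S) = univ \ S := by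
    ext x; simp
  rw [h3, card_sdiff_of_subset (subset_univ S), card_univ]

lemma fact_bd (t : ℕ) : (t : ℝ) ^ t ≤ 3 ^ t * t.factorial := by
  have h1 := Real.pow_div_factorial_le_exp (t : ℝ) (Nat.cast_nonneg t) t
  have h2 : Real.exp (t : ℝ) ≤ 3 ^ t := by
    have h3 : Real.exp (t : ℝ) = Real.exp 1 ^ t := by
      rw [← Real.exp_nat_mul, mul_one]
    rw [h3]
    exact pow_le_pow_left₀ (Real.exp_pos _).le (by linarith [Real.exp_one_lt_d9]) t
  rw [div_le_iff₀ (by positivity)] at h1
  exact h1.trans (mul_le_mul_of_nonneg_right h2 (by positivity))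

theorem dev : P4_dev := by
  intro I P _ _ _ _ A t ht
  have hP : 0 < Fintype.card P := Fintype.card_pos
  have hP' : (0 : ℝ) < Fintype.card P := by exact_mod_cast hP
  have ht' : (0 : ℝ) < t := by exact_mod_cast ht
  -- union bound
  have h1 : univ.filter (fun f : I → P => t ≤ (univ.filter (fun x => f x ∈ A)).card) ⊆
      (powersetCard t (univ : Finset I)).biUnion
        (fun S => univ.filter (fun f : I → P => ∀ x ∈ S, f x ∈ A)) := by
    intro f hf
    rw [mem_filter] at hf
    obtain ⟨S, hS, hSt⟩ := exists_subset_card_eq hf.2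
    rw [mem_biUnion]
    refine ⟨S, ?_, ?_⟩
    · rw [mem_powersetCard]
      exact ⟨subset_univ _, hSt⟩
    · rw [mem_filter]
      refine ⟨mem_univ _, fun x hx => ?_⟩
      have := hS hx
      rw [mem_filter] at this
      exact this.2
  have h2 : (univ.filter (fun f : I → P => t ≤ (univ.filter (fun x => f x ∈ A)).card)).card ≤
      (Fintype.card I).choose t * (A.card ^ t * Fintype.card P ^ (Fintype.card I - t)) := by
    refine (card_le_card h1).trans (card_biUnion_le.trans ?_)
    have h3 : ∀ S ∈ powersetCard t (univ : Finset I),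
        (univ.filter (fun f : I → P => ∀ x ∈ S, f x ∈ A)).card =
          A.card ^ t * Fintype.card P ^ (Fintype.card I - t) := by
      intro S hS
      rw [mem_powersetCard] at hS
      rw [card_sub, hS.2]
    rw [sum_congr rfl h3, sum_const, card_powersetCard, smul_eq_mul, card_univ]
  rcases lt_or_ge (Fintype.card I) t with hlt | hle
  · rw [Nat.choose_eq_zero_of_lt hlt, zero_mul] at h2
    have h3 : (univ.filter (fun f : I → P =>
        t ≤ (univ.filter (fun x => f x ∈ A)).card)).card = 0 := by omega
    rw [h3, Nat.cast_zero]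
    positivity
  · have h3 : ((univ.filter (fun f : I → P =>
        t ≤ (univ.filter (fun x => f x ∈ A)).card)).card : ℝ) ≤
        ((Fintype.card I).choose t : ℝ) *
          ((A.card : ℝ) ^ t * (Fintype.card P : ℝ) ^ (Fintype.card I - t)) := by
      exact_mod_cast h2
    have h4 : ((Fintype.card I).choose t : ℝ) ≤ (3 * Fintype.card I / t) ^ t := by
      have h5 := Nat.choose_le_pow_div (α := ℝ) t (Fintype.card I)
      refine h5.trans ?_
      rw [div_pow, mul_pow, div_le_div_iff₀ (by positivity) (by positivity)]
      have h6 := fact_bd t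
      have h7 : (0 : ℝ) ≤ (Fintype.card I : ℝ) ^ t := by positivity
      calc (Fintype.card I : ℝ) ^ t * (t : ℝ) ^ t
          ≤ (Fintype.card I : ℝ) ^ t * (3 ^ t * t.factorial) := mul_le_mul_of_nonneg_left h6 h7
        _ = _ := by ring
    have h8 : (Fintype.card P : ℝ) ^ (Fintype.card I - t) =
        (Fintype.card P : ℝ) ^ Fintype.card I / (Fintype.card P : ℝ) ^ t := by
      rw [eq_div_iff (by positivity), ← pow_add, Nat.sub_add_cancel hle]
    calc _ ≤ ((Fintype.card I).choose t : ℝ) *
          ((A.card : ℝ) ^ t * (Fintype.card P : ℝ) ^ (Fintype.card I - t)) := h3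
      _ ≤ (3 * Fintype.card I / t) ^ t *
          ((A.card : ℝ) ^ t * (Fintype.card P : ℝ) ^ (Fintype.card I - t)) :=
          mul_le_mul_of_nonneg_right h4 (by positivity)
      _ = (3 * Fintype.card I * A.card / (t * Fintype.card P)) ^ t
          * (Fintype.card P : ℝ) ^ Fintype.card I := by
          rw [h8, div_pow, div_pow, mul_pow, mul_pow, mul_pow, mul_pow]
          field_simp

end Pool.Agent.TH75.MP325P4

namespace Pool.Agent.TH490

theorem p4 : P4_dev := Pool.Agent.TH75.MP325P4.dev

end Pool.Agent.TH490
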