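import Pool.Agent.TH75.MP325_P1
import Pool.Agent.TH75.MP325_P4

set_option autoImplicit false

namespace Pool.Agent.TH75.MP325P3

open Finset Classical Pool.Agent.TH490

lemma markov {Ω : Type} [Fintype Ω] (h : Ω → ℝ) (hh : ∀ ω, 0 ≤ h ω) (A ε : ℝ) (hA : 0 ≤ A)
    (hε : 0 ≤ ε) (hs : ∑ ω, h ω ≤ ε * A * Fintype.card Ω) :
    ((univ.filter (fun ω => A < h ω)).card : ℝ) ≤ ε * Fintype.card Ω := by
  have h1 : A * ((univ.filter (fun ω => A < h ω)).card : ℝ) ≤ ∑ ω, h ω := by
    calc A * ((univ.filter (fun ω => A < h ω)).card : ℝ)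
        = ∑ ω ∈ univ.filter (fun ω => A < h ω), A := by rw [sum_const, nsmul_eq_mul, mul_comm]
      _ ≤ ∑ ω ∈ univ.filter (fun ω => A < h ω), h ω :=
          sum_le_sum (fun ω hω => (mem_filter.1 hω).2.le)
      _ ≤ ∑ ω, h ω := sum_le_sum_of_subset_of_nonneg (subset_univ _) (fun ω _ _ => hh ω)
  rcases hA.eq_or_lt with h0 | h0
  · have h2 : ∑ ω, h ω ≤ 0 := by
      rw [← h0] at hs
      simpa using hs
    have h3 : ∀ ω, h ω = 0 := by
      have := (sum_eq_zero_iff_of_nonneg (fun ω _ => hh ω)).1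
        (le_antisymm h2 (sum_nonneg fun ω _ => hh ω))
      exact fun ω => this ω (mem_univ _)
    have h4 : univ.filter (fun ω => A < h ω) = ∅ := by
      apply filter_false_of_mem
      intro ω _
      rw [h3, ← h0]
      exact lt_irrefl _
    rw [h4, card_empty, Nat.cast_zero]
    positivity
  · have h2 : A * ((univ.filter (fun ω => A < h ω)).card : ℝ) ≤ A * (ε * Fintype.card Ω) := by
      refine h1.trans (hs.trans (le_of_eq ?_))
      ring
    exact le_of_mul_le_mul_left h2 h0

lemma list_bd {P : Type} [Fintype P] [Nonempty P] (r : ℕ) (B : Finset P)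
    (hB : 1024 * B.card ≤ Fintype.card P) :
    ((univ.filter (fun h : Fin r → P =>
      r < 16 * (univ.filter (fun s => h s ∈ B)).card)).card : ℝ) ≤
      (2 : ℝ) ^ (-((r : ℝ) / 4)) * (Fintype.card P : ℝ) ^ r := by
  obtain ⟨t, ht⟩ : ∃ t, t = r / 16 + 1 := ⟨_, rfl⟩
  have ht1 : 1 ≤ t := by omega
  have hP : (0 : ℝ) < Fintype.card P := by exact_mod_cast Fintype.card_pos
  have ht' : (0 : ℝ) < t := by exact_mod_cast ht1
  have h1 := Pool.Agent.TH75.MP325P4.dev (Fin r) P B t ht1
  rw [Fintype.card_fin] at h1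
  have h2 : (univ.filter (fun h : Fin r → P =>
      r < 16 * (univ.filter (fun s => h s ∈ B)).card)).card ≤
      (univ.filter (fun f : Fin r → P => t ≤ (univ.filter (fun x => f x ∈ B)).card)).card := by
    apply card_le_card
    intro h hh
    simp only [mem_filter, mem_univ, true_and] at hh ⊢
    omega
  have h3 : (3 * (r : ℝ) * B.card / (t * Fintype.card P)) ≤ 1 / 16 := by
    rw [div_le_div_iff₀ (by positivity) (by norm_num)]
    have h4 : (r : ℝ) ≤ 16 * t := by
      have : r ≤ 16 * t := by omega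
      exact_mod_cast this
    have h5 : 1024 * (B.card : ℝ) ≤ Fintype.card P := by exact_mod_cast hB
    have h6 : (0 : ℝ) ≤ B.card := by positivity
    have h7 : (r : ℝ) * B.card ≤ 16 * t * B.card := mul_le_mul_of_nonneg_right h4 h6
    have h8 : (t : ℝ) * (1024 * (B.card : ℝ)) ≤ t * Fintype.card P :=
      mul_le_mul_of_nonneg_left h5 ht'.le
    nlinarith
  have h9 : (3 * (r : ℝ) * B.card / (t * Fintype.card P)) ^ t ≤ (2 : ℝ) ^ (-((r : ℝ) / 4)) := by
    calc (3 * (r : ℝ) * B.card / (t * Fintype.card P)) ^ t ≤ (1 / 16) ^ t :=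
          pow_le_pow_left₀ (by positivity) h3 t
      _ = (2 : ℝ) ^ (-(4 * t : ℝ)) := by
          rw [show (1 / 16 : ℝ) = (2 : ℝ) ^ (-4 : ℝ) by norm_num, ← Real.rpow_natCast,
            ← Real.rpow_mul (by norm_num)]
          congr 1
          ring
      _ ≤ (2 : ℝ) ^ (-((r : ℝ) / 4)) := by
          apply Real.rpow_le_rpow_of_exponent_le (by norm_num)
          have : r ≤ 16 * t := by omega
          have h4 : (r : ℝ) ≤ 16 * t := by exact_mod_cast this
          linarith
  calc _ ≤ ((univ.filter (fun f : Fin r → P =>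
        t ≤ (univ.filter (fun x => f x ∈ B)).card)).card : ℝ) := by exact_mod_cast h2
    _ ≤ _ := h1
    _ ≤ _ := mul_le_mul_of_nonneg_right h9 (by positivity)

/-- replace a row -/
def rep {n r : ℕ} {P : Type} (f : Fin n × Fin r → P) (j : Fin n) (h : Fin r → P) :
    Fin n × Fin r → P := fun x => if x.1 = j then h x.2 else f x

lemma rep_row {n r : ℕ} {P : Type} (f : Fin n × Fin r → P) (j : Fin n) (h : Fin r → P)
    (s : Fin r) : rep f j h (j, s) = h s := by simp [rep]

lemma rep_ne {n r : ℕ} {P : Type} (f : Fin n × Fin r → P) (j : Fin n) (h : Fin r → P)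
    {x : Fin n × Fin r} (hx : x.1 ≠ j) : rep f j h x = f x := by simp [rep, hx]

lemma rep_rep {n r : ℕ} {P : Type} (f : Fin n × Fin r → P) (j : Fin n) (h : Fin r → P) :
    rep (rep f j h) j (fun s => f (j, s)) = f := by
  funext x
  by_cases hx : x.1 = j
  · rcases x with ⟨a, b⟩
    simp only at hx
    subst hx
    rw [rep_row]
  · rw [rep_ne _ _ _ hx, rep_ne _ _ _ hx]

lemma cond {n r : ℕ} {P : Type} [Fintype P] [Nonempty P] (j : Fin n)
    (B : (Fin n × Fin r → P) → Finset P) (hB : ∀ f h, B (rep f j h) = B f)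
    (hc : ∀ f, 1024 * (B f).card ≤ Fintype.card P) :
    ((univ.filter (fun f : Fin n × Fin r → P =>
      r < 16 * (univ.filter (fun s : Fin r => f (j, s) ∈ B f)).card)).card : ℝ) ≤
      (2 : ℝ) ^ (-((r : ℝ) / 4)) * (Fintype.card P : ℝ) ^ (n * r) := by
  have hP : (0 : ℝ) < Fintype.card P := by exact_mod_cast Fintype.card_pos
  set bad : (Fin n × Fin r → P) → Prop := fun f =>
    r < 16 * (univ.filter (fun s : Fin r => f (j, s) ∈ B f)).card with hbad
  have h1 : (univ.filter bad).card * Fintype.card (Fin r → P) =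
      (univ.filter (fun x : (Fin n × Fin r → P) × (Fin r → P) => bad (rep x.1 j x.2))).card := by
    rw [← Finset.card_univ (α := Fin r → P), ← card_product]
    refine card_bij (fun x _ => (rep x.1 j x.2, fun s => x.1 (j, s))) ?_ ?_ ?_
    · intro x hx
      rw [mem_product, mem_filter] at hx
      rw [mem_filter]
      refine ⟨mem_univ _, ?_⟩
      simp only
      rw [rep_rep]
      exact hx.1.2
    · intro x _ y _ hxy
      rw [Prod.mk.injEq] at hxy
      have e1 := rep_rep x.1 j x.2
      have e2 := rep_rep y.1 j y.2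
      rw [hxy.1, hxy.2, e2] at e1
      have e3 : x.2 = y.2 := by
        funext s
        rw [← rep_row x.1 j x.2 s, ← rep_row y.1 j y.2 s, hxy.1]
      exact Prod.ext e1.symm e3
    · intro y hy
      rw [mem_filter] at hy
      refine ⟨(rep y.1 j y.2, fun s => y.1 (j, s)), ?_, ?_⟩
      · rw [mem_product, mem_filter]
        exact ⟨⟨mem_univ _, hy.2⟩, mem_univ _⟩
      · refine Prod.ext ?_ ?_
        · simp only
          rw [rep_rep]
        · funext s
          simp only
          rw [rep_row]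
  have h2 : (univ.filter (fun x : (Fin n × Fin r → P) × (Fin r → P) => bad (rep x.1 j x.2))).card =
      ∑ f : Fin n × Fin r → P, (univ.filter (fun h : Fin r → P =>
        r < 16 * (univ.filter (fun s => h s ∈ B f)).card)).card := by
    rw [card_filter, Fintype.sum_prod_type]
    refine sum_congr rfl fun f _ => ?_
    rw [card_filter]
    refine sum_congr rfl fun h _ => ?_
    have e : bad (rep f j h) ↔ r < 16 * (univ.filter (fun s => h s ∈ B f)).card := by
      rw [hbad]
      simp only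
      simp only [hB, rep_row]
    simp only [e]
  have h3 : ((univ.filter bad).card : ℝ) * (Fintype.card P : ℝ) ^ r ≤
      ((2 : ℝ) ^ (-((r : ℝ) / 4)) * (Fintype.card P : ℝ) ^ (n * r)) * (Fintype.card P : ℝ) ^ r := by
    have h4 : ((univ.filter bad).card : ℝ) * (Fintype.card P : ℝ) ^ r =
        ∑ f : Fin n × Fin r → P, ((univ.filter (fun h : Fin r → P =>
        r < 16 * (univ.filter (fun s => h s ∈ B f)).card)).card : ℝ) := by
      have h5 := h1.trans h2
      rw [Fintype.card_fun, Fintype.card_fin] at h5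
      exact_mod_cast h5
    rw [h4]
    calc _ ≤ ∑ f : Fin n × Fin r → P, (2 : ℝ) ^ (-((r : ℝ) / 4)) * (Fintype.card P : ℝ) ^ r :=
          sum_le_sum fun f _ => list_bd r (B f) (hc f)
      _ = _ := by
          rw [sum_const, card_univ, Fintype.card_fun, Fintype.card_prod, Fintype.card_fin,
            Fintype.card_fin, nsmul_eq_mul]
          push_cast
          ring
  exact le_of_mul_le_mul_right h3 (by positivity)

section main

variable {n r : ℕ} {P : Type} [Fintype P] (G : SimpleGraph (Fin n)) (W : P → P → P → P → Prop)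

/-- indicator -/
noncomputable def ind (p : Prop) : ℕ := if p then 1 else 0

lemma ind_le {p q : Prop} (h : p → q) : ind p ≤ ind q := by
  unfold ind
  split_ifs with h1 h2
  · exact le_rfl
  · exact absurd (h h1) h2
  · exact zero_le_one
  · exact le_rfl

/-- conflicts of the pair `(·, z)` with the items outside the rows `j, i` -/
noncomputable def sg (f : Fin n × Fin r → P) (j i : Fin n) (z : P) : ℕ :=
  ∑ y : P, ∑ p : Fin n × Fin r, ∑ p' : Fin n × Fin r,
    ind (G.Adj p.1 p'.1 ∧ p.1 ≠ j ∧ p'.1 ≠ j ∧ p.1 ≠ i ∧ p'.1 ≠ i ∧ W y z (f p) (f p'))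

/-- total -/
noncomputable def Gam (f : Fin n × Fin r → P) : ℕ :=
  ∑ y : P, ∑ z : P, ∑ p : Fin n × Fin r, ∑ p' : Fin n × Fin r,
    ind (G.Adj p.1 p'.1 ∧ W y z (f p) (f p'))

/-- conflicts of a position for an owner -/
noncomputable def FF (f : Fin n × Fin r → P) (i : Fin n) (c : ℝ) (y : P) : ℕ :=
  ∑ t : Fin n × Fin r, ∑ p : Fin n × Fin r, ∑ p' : Fin n × Fin r,
    ind ((t.1 < i ∧ G.Adj i t.1 ∧ (sg G W f t.1 i (f t) : ℝ) ≤ c) ∧
      (G.Adj p.1 p'.1 ∧ p.1 ≠ t.1 ∧ p'.1 ≠ t.1 ∧ p.1 ≠ i ∧ p'.1 ≠ i ∧ W y (f t) (f p) (f p')))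

lemma sg_le (f : Fin n × Fin r → P) (j i : Fin n) (z : P) :
    sg G W f j i z ≤ sg G W f j j z := by
  unfold sg
  refine sum_le_sum fun y _ => sum_le_sum fun p _ => sum_le_sum fun p' _ => ind_le ?_
  rintro ⟨h1, h2, h3, _, _, h6⟩
  exact ⟨h1, h2, h3, h2, h3, h6⟩

lemma sum_sg (f : Fin n × Fin r → P) (j : Fin n) : ∑ z, sg G W f j j z ≤ Gam G W f := by
  unfold sg Gam
  rw [sum_comm]
  refine sum_le_sum fun y _ => sum_le_sum fun z _ => sum_le_sum fun p _ =>
    sum_le_sum fun p' _ => ind_le ?_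
  rintro ⟨h1, _, _, _, _, h6⟩
  exact ⟨h1, h6⟩

lemma sg_rep (f : Fin n × Fin r → P) (j i : Fin n) (h : Fin r → P) (z : P) :
    sg G W (rep f i h) j i z = sg G W f j i z := by
  unfold sg
  refine sum_congr rfl fun y _ => sum_congr rfl fun p _ => sum_congr rfl fun p' _ => ?_
  congr 1
  apply propext
  refine and_congr_right fun _ => and_congr_right fun _ => and_congr_right fun _ =>
    and_congr_right fun h1 => and_congr_right fun h2 => ?_
  rw [rep_ne _ _ _ h1, rep_ne _ _ _ h2]

lemma FF_rep (f : Fin n × Fin r → P) (i : Fin n) (h : Fin r → P) (c : ℝ) (y : P) :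
    FF G W (rep f i h) i c y = FF G W f i c y := by
  unfold FF
  refine sum_congr rfl fun t _ => sum_congr rfl fun p _ => sum_congr rfl fun p' _ => ?_
  congr 1
  apply propext
  by_cases ht : t.1 < i
  · rw [rep_ne f i h ht.ne, sg_rep]
    refine and_congr_right fun _ => ?_
    refine and_congr_right fun _ => and_congr_right fun _ => and_congr_right fun _ =>
      and_congr_right fun h1 => and_congr_right fun h2 => ?_
    rw [rep_ne _ _ _ h1, rep_ne _ _ _ h2]
  · constructor
    · rintro ⟨h1, _⟩; exact absurd h1.1 ht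
    · rintro ⟨h1, _⟩; exact absurd h1.1 ht

lemma sum_FF (f : Fin n × Fin r → P) (i : Fin n) (c : ℝ) (hc : 0 ≤ c) (D : ℕ)
    (hD : (univ.filter (fun j : Fin n => j < i ∧ G.Adj i j)).card ≤ D) :
    ∑ y, (FF G W f i c y : ℝ) ≤ D * r * c := by
  have h1 : ∑ y, FF G W f i c y ≤ ∑ t : Fin n × Fin r,
      if (t.1 < i ∧ G.Adj i t.1 ∧ (sg G W f t.1 i (f t) : ℝ) ≤ c) then sg G W f t.1 i (f t) else 0 := by
    unfold FF
    rw [sum_comm]
    refine sum_le_sum fun t _ => ?_
    split_ifs with h
    · unfold sg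
      refine sum_le_sum fun y _ => sum_le_sum fun p _ => sum_le_sum fun p' _ => ind_le ?_
      exact fun h2 => h2.2
    · refine le_of_eq ?_
      refine sum_eq_zero fun y _ => sum_eq_zero fun p _ => sum_eq_zero fun p' _ => ?_
      unfold ind
      rw [if_neg fun h2 => h h2.1]
  have h2 : (∑ y, (FF G W f i c y : ℝ)) ≤ ∑ t : Fin n × Fin r,
      if (t.1 < i ∧ G.Adj i t.1) then c else 0 := by
    calc (∑ y, (FF G W f i c y : ℝ)) = ((∑ y, FF G W f i c y : ℕ) : ℝ) := by push_cast; rfl
      _ ≤ ((∑ t : Fin n × Fin r,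
        if (t.1 < i ∧ G.Adj i t.1 ∧ (sg G W f t.1 i (f t) : ℝ) ≤ c) then sg G W f t.1 i (f t)
          else 0 : ℕ) : ℝ) := by exact_mod_cast h1
      _ = ∑ t : Fin n × Fin r,
        if (t.1 < i ∧ G.Adj i t.1 ∧ (sg G W f t.1 i (f t) : ℝ) ≤ c) then
          (sg G W f t.1 i (f t) : ℝ) else 0 := by
          push_cast
          rfl
      _ ≤ _ := by
          refine sum_le_sum fun t _ => ?_
          split_ifs with h3 h4 h5
          · exact h3.2.2
          · exact absurd ⟨h3.1, h3.2.1⟩ h4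
          · exact hc
          · exact le_rfl
  refine h2.trans ?_
  rw [← sum_filter, sum_const, nsmul_eq_mul]
  apply mul_le_mul_of_nonneg_right _ hc
  have h3 : univ.filter (fun t : Fin n × Fin r => t.1 < i ∧ G.Adj i t.1) =
      (univ.filter (fun j : Fin n => j < i ∧ G.Adj i j)) ×ˢ (univ : Finset (Fin r)) := by
    ext t
    simp
  rw [h3, card_product, card_univ, Fintype.card_fin]
  push_cast
  apply mul_le_mul_of_nonneg_right _ (Nat.cast_nonneg r)
  exact_mod_cast hD

lemma trip_le (f : Fin n × Fin r → P) (Z : Finset (Fin n × Fin r)) (c : ℝ)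
    (hZ : ∀ t, t ∉ Z → (sg G W f t.1 t.1 (f t) : ℝ) ≤ c) (u : Fin n × Fin r) :
    (trip G W f Z u).card ≤ FF G W f u.1 c (f u) := by
  unfold trip FF
  rw [card_filter, Fintype.sum_prod_type]
  refine sum_le_sum fun t _ => ?_
  rw [Fintype.sum_prod_type]
  refine sum_le_sum fun p _ => sum_le_sum fun p' _ => ?_
  unfold ind
  split_ifs with h1 h2
  · exact le_rfl
  · exfalso
    apply h2
    obtain ⟨a1, _, _, a4, a5, a6, a7, a8, a9, a10, a11⟩ := h1
    refine ⟨⟨a4, a5, ?_⟩, a6, a8, a10, a7, a9, a11⟩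
    refine le_trans ?_ (hZ t a1)
    exact_mod_cast sg_le G W f t.1 u.1 (f t)
  · exact zero_le_one
  · exact le_rfl

lemma sum_Gam [Nonempty P] (T : ℝ) (k : ℕ)
    (hT : ∀ y, ((univ.filter (fun t : P × P × P => W y t.1 t.2.1 t.2.2)).card : ℝ) ≤ T)
    (hk : G.edgeFinset.card ≤ k) :
    ∑ f : Fin n × Fin r → P, (Gam G W f : ℝ) ≤
      (1 / 16) * (32 * k * r ^ 2 * T / Fintype.card P) * (Fintype.card P : ℝ) ^ (n * r) := by
  have hP : (0 : ℝ) < Fintype.card P := by exact_mod_cast Fintype.card_pos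
  have hT0 : 0 ≤ T := (Nat.cast_nonneg _).trans (hT (Classical.arbitrary P))
  -- number of 4-tuples
  obtain ⟨N4, hN4⟩ : ∃ N4 : ℕ, N4 = ∑ y : P, ∑ z : P, ∑ b : P, ∑ c : P, ind (W y z b c) := ⟨_, rfl⟩
  have hN4T : (N4 : ℝ) ≤ Fintype.card P * T := by
    rw [hN4]
    push_cast
    calc ∑ y : P, ∑ z : P, ∑ b : P, ∑ c : P, (ind (W y z b c) : ℝ)
        ≤ ∑ y : P, T := by
          refine sum_le_sum fun y _ => ?_
          refine le_trans (le_of_eq ?_) (hT y)
          rw [card_filter, Fintype.sum_prod_type]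
          push_cast
          refine sum_congr rfl fun z _ => ?_
          rw [Fintype.sum_prod_type]
          refine sum_congr rfl fun b _ => sum_congr rfl fun c _ => ?_
          unfold ind
          push_cast
          rfl
      _ = _ := by rw [sum_const, card_univ, nsmul_eq_mul]
  -- one pair of items
  have hpair : ∀ p p' : Fin n × Fin r, G.Adj p.1 p'.1 →
      (∑ f : Fin n × Fin r → P, ∑ y : P, ∑ z : P, ind (W y z (f p) (f p'))) *
        Fintype.card P ^ 2 = N4 * Fintype.card P ^ (n * r) := by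
    intro p p' hpp
    have hne : p ≠ p' := by
      rintro rfl
      exact G.loopless.irrefl _ hpp
    have hinj : Function.Injective (![p, p'] : Fin 2 → Fin n × Fin r) := by
      intro a b hab
      fin_cases a <;> fin_cases b
      · rfl
      · exact absurd hab hne
      · exact absurd hab.symm hne
      · rfl
    have h1 : ∀ y z : P, (∑ f : Fin n × Fin r → P, ind (W y z (f p) (f p'))) *
        Fintype.card P ^ 2 = (∑ b : P, ∑ c : P, ind (W y z b c)) * Fintype.card P ^ (n * r) := by
      intro y z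
      have h2 := Pool.Agent.TH75.MP325P1.one (Fin n × Fin r) P 2 (fun t => W y z (t 0) (t 1))
        ![p, p'] hinj
      rw [card_filter, card_filter] at h2
      have h3 : Fintype.card (Fin n × Fin r) = n * r := by simp
      rw [h3] at h2
      have h4 : (∑ t : Fin 2 → P, if W y z (t 0) (t 1) then 1 else 0) =
          ∑ b : P, ∑ c : P, ind (W y z b c) := by
        rw [← Fintype.sum_prod_type' (f := fun b c => ind (W y z b c))]
        refine Fintype.sum_equiv (finTwoArrowEquiv P) _ _ fun t => ?_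
        rfl
      rw [h4] at h2
      exact h2
    have h5 : (∑ f : Fin n × Fin r → P, ∑ y : P, ∑ z : P, ind (W y z (f p) (f p'))) =
        ∑ y : P, ∑ z : P, ∑ f : Fin n × Fin r → P, ind (W y z (f p) (f p')) := by
      rw [sum_comm]
      refine sum_congr rfl fun y _ => ?_
      rw [sum_comm]
    rw [h5, hN4, sum_mul, sum_mul]
    refine sum_congr rfl fun y _ => ?_
    rw [sum_mul, sum_mul]
    refine sum_congr rfl fun z _ => h1 y z
  -- all pairs
  have hall : (∑ f : Fin n × Fin r → P, Gam G W f) * Fintype.card P ^ 2 =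
      (∑ p : Fin n × Fin r, ∑ p' : Fin n × Fin r, ind (G.Adj p.1 p'.1)) *
        (N4 * Fintype.card P ^ (n * r)) := by
    have h1 : (∑ f : Fin n × Fin r → P, Gam G W f) =
        ∑ p : Fin n × Fin r, ∑ p' : Fin n × Fin r, ind (G.Adj p.1 p'.1) *
          ∑ f : Fin n × Fin r → P, ∑ y : P, ∑ z : P, ind (W y z (f p) (f p')) := by
      unfold Gam
      have h2 : ∀ f : Fin n × Fin r → P, (∑ y : P, ∑ z : P, ∑ p : Fin n × Fin r,
          ∑ p' : Fin n × Fin r, ind (G.Adj p.1 p'.1 ∧ W y z (f p) (f p'))) =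
          ∑ p : Fin n × Fin r, ∑ p' : Fin n × Fin r, ∑ y : P, ∑ z : P,
            ind (G.Adj p.1 p'.1) * ind (W y z (f p) (f p')) := by
        intro f
        have h3 : ∀ (p p' : Fin n × Fin r) (y z : P), ind (G.Adj p.1 p'.1 ∧ W y z (f p) (f p')) =
            ind (G.Adj p.1 p'.1) * ind (W y z (f p) (f p')) := by
          intro p p' y z
          unfold ind
          by_cases h4 : G.Adj p.1 p'.1 <;> by_cases h5 : W y z (f p) (f p') <;> simp [h4, h5]
        simp only [h3]
        calc (∑ y : P, ∑ z : P, ∑ p : Fin n × Fin r, ∑ p' : Fin n × Fin r,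
              ind (G.Adj p.1 p'.1) * ind (W y z (f p) (f p')))
            = ∑ y : P, ∑ p : Fin n × Fin r, ∑ z : P, ∑ p' : Fin n × Fin r,
              ind (G.Adj p.1 p'.1) * ind (W y z (f p) (f p')) :=
              sum_congr rfl fun y _ => sum_comm
          _ = ∑ p : Fin n × Fin r, ∑ y : P, ∑ z : P, ∑ p' : Fin n × Fin r,
              ind (G.Adj p.1 p'.1) * ind (W y z (f p) (f p')) := sum_comm
          _ = ∑ p : Fin n × Fin r, ∑ y : P, ∑ p' : Fin n × Fin r, ∑ z : P,
              ind (G.Adj p.1 p'.1) * ind (W y z (f p) (f p')) :=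
              sum_congr rfl fun p _ => sum_congr rfl fun y _ => sum_comm
          _ = _ := sum_congr rfl fun p _ => sum_comm
      simp only [h2]
      rw [sum_comm]
      refine sum_congr rfl fun p _ => ?_
      rw [sum_comm]
      refine sum_congr rfl fun p' _ => ?_
      simp only [mul_sum]
    rw [h1, sum_mul, sum_mul]
    refine sum_congr rfl fun p _ => ?_
    rw [sum_mul, sum_mul]
    refine sum_congr rfl fun p' _ => ?_
    by_cases h : G.Adj p.1 p'.1
    · rw [mul_assoc, hpair p p' h]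
    · simp [ind, h]
  -- number of adjacent pairs of items
  have hadj : (∑ p : Fin n × Fin r, ∑ p' : Fin n × Fin r, ind (G.Adj p.1 p'.1)) =
      2 * G.edgeFinset.card * r ^ 2 := by
    have h1 : (∑ p : Fin n × Fin r, ∑ p' : Fin n × Fin r, ind (G.Adj p.1 p'.1)) =
        (∑ a : Fin n, ∑ b : Fin n, ind (G.Adj a b)) * r ^ 2 := by
      rw [Fintype.sum_prod_type]
      simp only [Fintype.sum_prod_type, sum_const, card_univ, Fintype.card_fin, smul_eq_mul]
      rw [sum_mul]
      refine sum_congr rfl fun a _ => ?_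
      rw [← mul_sum]
      ring
    have h2 : (∑ a : Fin n, ∑ b : Fin n, ind (G.Adj a b)) = ∑ a : Fin n, G.degree a := by
      refine sum_congr rfl fun a _ => ?_
      rw [← SimpleGraph.card_neighborFinset_eq_degree, SimpleGraph.neighborFinset_eq_filter,
        card_filter]
      rfl
    rw [h1, h2, SimpleGraph.sum_degrees_eq_twice_card_edges]
  rw [hadj] at hall
  have hall' : (∑ f : Fin n × Fin r → P, (Gam G W f : ℝ)) * (Fintype.card P : ℝ) ^ 2 =
      (2 * G.edgeFinset.card * r ^ 2) * (N4 * (Fintype.card P : ℝ) ^ (n * r)) := by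
    exact_mod_cast hall
  have hk' : (G.edgeFinset.card : ℝ) ≤ k := by exact_mod_cast hk
  have h10 : (∑ f : Fin n × Fin r → P, (Gam G W f : ℝ)) * (Fintype.card P : ℝ) ^ 2 ≤
      ((1 / 16) * (32 * k * r ^ 2 * T / Fintype.card P) * (Fintype.card P : ℝ) ^ (n * r)) *
        (Fintype.card P : ℝ) ^ 2 := by
    rw [hall']
    calc (2 * (G.edgeFinset.card : ℝ) * (r : ℝ) ^ 2) * (N4 * (Fintype.card P : ℝ) ^ (n * r))
        ≤ (2 * (k : ℝ) * (r : ℝ) ^ 2) * ((Fintype.card P * T) * (Fintype.card P : ℝ) ^ (n * r)) := by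
          gcongr
      _ = _ := by
          field_simp
          ring
  exact le_of_mul_le_mul_right h10 (by positivity)

end main

theorem two : P3_two := by
  intro n r P _ _ G W T D k hT hD hk hn
  have hP : (0 : ℝ) < Fintype.card P := by exact_mod_cast Fintype.card_pos
  have hT0 : 0 ≤ T := (Nat.cast_nonneg _).trans (hT (Classical.arbitrary P))
  obtain ⟨q, hq⟩ : ∃ q : ℝ, q = Fintype.card P := ⟨_, rfl⟩
  have hq0 : 0 < q := by rw [hq]; exact hP
  obtain ⟨Gs, hGs⟩ : ∃ Gs : ℝ, Gs = 32 * k * r ^ 2 * T / q := ⟨_, rfl⟩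
  have hGs0 : 0 ≤ Gs := by rw [hGs]; positivity
  obtain ⟨c1, hc1⟩ : ∃ c1 : ℝ, c1 = 1024 * Gs / q := ⟨_, rfl⟩
  have hc10 : 0 ≤ c1 := by rw [hc1]; positivity
  obtain ⟨c2, hc2⟩ : ∃ c2 : ℝ, c2 = 2 ^ 25 * D * k * T * (r : ℝ) ^ 3 / q ^ 3 := ⟨_, rfl⟩
  have hc20 : 0 ≤ c2 := by rw [hc2]; positivity
  rw [← hq, ← hc2]
  -- the three bad events
  obtain ⟨B1, hB1⟩ : ∃ B1 : Fin n → (Fin n × Fin r → P) → Finset P, B1 = fun j f =>
      if (∑ z, (sg G W f j j z : ℝ)) ≤ Gs then univ.filter (fun z => c1 < (sg G W f j j z : ℝ))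
        else ∅ := ⟨_, rfl⟩
  obtain ⟨B2, hB2⟩ : ∃ B2 : Fin n → (Fin n × Fin r → P) → Finset P, B2 = fun i f =>
      univ.filter (fun y => c2 < (FF G W f i c1 y : ℝ)) := ⟨_, rfl⟩
  have hE1 : ∀ j : Fin n, ((univ.filter (fun f : Fin n × Fin r → P =>
      r < 16 * (univ.filter (fun s : Fin r => f (j, s) ∈ B1 j f)).card)).card : ℝ) ≤
      (2 : ℝ) ^ (-((r : ℝ) / 4)) * (Fintype.card P : ℝ) ^ (n * r) := by
    intro j
    refine cond j (B1 j) ?_ ?_
    · intro f h
      rw [hB1]
      simp only [sg_rep]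
    · intro f
      rw [hB1]
      simp only
      split_ifs with h
      · have h1 := markov (fun z => (sg G W f j j z : ℝ)) (fun z => Nat.cast_nonneg _) c1
          (1 / 1024) hc10 (by norm_num) (by
            refine h.trans (le_of_eq ?_)
            rw [← hq, hc1]
            field_simp)
        have h2 : 1024 * ((univ.filter (fun z => c1 < (sg G W f j j z : ℝ))).card : ℝ) ≤
            Fintype.card P := by linarith
        exact_mod_cast h2
      · simp
  have hE2 : ∀ i : Fin n, ((univ.filter (fun f : Fin n × Fin r → P =>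
      r < 16 * (univ.filter (fun s : Fin r => f (i, s) ∈ B2 i f)).card)).card : ℝ) ≤
      (2 : ℝ) ^ (-((r : ℝ) / 4)) * (Fintype.card P : ℝ) ^ (n * r) := by
    intro i
    refine cond i (B2 i) ?_ ?_
    · intro f h
      rw [hB2]
      simp only [FF_rep]
    · intro f
      rw [hB2]
      simp only
      have h1 := markov (fun y => (FF G W f i c1 y : ℝ)) (fun z => Nat.cast_nonneg _) c2
        (1 / 1024) hc20 (by norm_num) (by
          refine (sum_FF G W f i c1 hc10 D (hD i)).trans (le_of_eq ?_)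
          rw [← hq, hc2, hc1, hGs]
          field_simp
          ring)
      have h2 : 1024 * ((univ.filter (fun y => c2 < (FF G W f i c1 y : ℝ))).card : ℝ) ≤
          Fintype.card P := by linarith
      exact_mod_cast h2
  have hE0 : ((univ.filter (fun f : Fin n × Fin r → P => Gs < (Gam G W f : ℝ))).card : ℝ) ≤
      1 / 16 * (Fintype.card P : ℝ) ^ (n * r) := by
    have hcard : (Fintype.card (Fin n × Fin r → P) : ℝ) = (Fintype.card P : ℝ) ^ (n * r) := by
      rw [Fintype.card_fun, Fintype.card_prod, Fintype.card_fin, Fintype.card_fin]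
      push_cast
      rfl
    have h1 := markov (fun f : Fin n × Fin r → P => (Gam G W f : ℝ)) (fun z => Nat.cast_nonneg _)
      Gs (1 / 16) hGs0 (by norm_num) (by
        rw [hcard, hGs, hq]
        exact sum_Gam G W T k hT hk)
    rw [hcard] at h1
    exact h1
  -- inclusion
  have hsub : univ.filter (fun f : Fin n × Fin r → P =>
      ¬ ∃ Z : Finset (Fin n × Fin r),
        (∀ i, 8 * (univ.filter (fun s : Fin r => (i, s) ∈ Z)).card ≤ r) ∧
        ∀ u, u ∉ Z → ((trip G W f Z u).card : ℝ) ≤ c2) ⊆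
      (univ.filter (fun f : Fin n × Fin r → P => Gs < (Gam G W f : ℝ))) ∪
      (((univ : Finset (Fin n)).biUnion fun j => univ.filter (fun f : Fin n × Fin r → P =>
        r < 16 * (univ.filter (fun s : Fin r => f (j, s) ∈ B1 j f)).card)) ∪
      ((univ : Finset (Fin n)).biUnion fun i => univ.filter (fun f : Fin n × Fin r → P =>
        r < 16 * (univ.filter (fun s : Fin r => f (i, s) ∈ B2 i f)).card))) := by
    intro f hf
    rw [mem_filter] at hf
    by_contra hcon
    simp only [mem_union, mem_filter, mem_univ, true_and, mem_biUnion, not_or, not_exists,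
      not_lt] at hcon
    obtain ⟨h0, h1, h2⟩ := hcon
    apply hf.2
    refine ⟨univ.filter (fun x : Fin n × Fin r => f x ∈ B1 x.1 f ∨ f x ∈ B2 x.1 f), ?_, ?_⟩
    · intro i
      have h3 := h1 i
      have h4 := h2 i
      have h5 : (univ.filter (fun s : Fin r => (i, s) ∈ univ.filter
          (fun x : Fin n × Fin r => f x ∈ B1 x.1 f ∨ f x ∈ B2 x.1 f))) ⊆
          (univ.filter (fun s : Fin r => f (i, s) ∈ B1 i f)) ∪
          (univ.filter (fun s : Fin r => f (i, s) ∈ B2 i f)) := by
        intro s hs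
        simp only [mem_filter, mem_univ, true_and, mem_union] at hs ⊢
        exact hs
      have h6 := (card_le_card h5).trans (card_union_le _ _)
      omega
    · intro u hu
      have hgood : ∀ t, t ∉ univ.filter
          (fun x : Fin n × Fin r => f x ∈ B1 x.1 f ∨ f x ∈ B2 x.1 f) →
          (sg G W f t.1 t.1 (f t) : ℝ) ≤ c1 := by
        intro t ht
        simp only [mem_filter, mem_univ, true_and, not_or] at ht
        have h3 := ht.1
        rw [hB1] at h3
        simp only at h3
        have h4 : (∑ z, (sg G W f t.1 t.1 z : ℝ)) ≤ Gs := by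
          refine le_trans ?_ h0
          exact_mod_cast sum_sg G W f t.1
        rw [if_pos h4, mem_filter] at h3
        push Not at h3
        exact h3 (mem_univ _)
      have h3 := trip_le G W f _ c1 hgood u
      simp only [mem_filter, mem_univ, true_and, not_or] at hu
      have h4 := hu.2
      rw [hB2] at h4
      simp only [mem_filter, mem_univ, true_and, not_lt] at h4
      refine le_trans ?_ h4
      exact_mod_cast h3
  have hfin : (8 : ℝ) * ((univ.filter (fun f : Fin n × Fin r → P =>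
      ¬ ∃ Z : Finset (Fin n × Fin r),
        (∀ i, 8 * (univ.filter (fun s : Fin r => (i, s) ∈ Z)).card ≤ r) ∧
        ∀ u, u ∉ Z → ((trip G W f Z u).card : ℝ) ≤ c2)).card : ℝ) ≤
        (Fintype.card P : ℝ) ^ (n * r) := by
    have h1 := card_le_card hsub
    have h2 := h1.trans ((card_union_le _ _).trans
      (add_le_add le_rfl ((card_union_le _ _).trans (add_le_add card_biUnion_le card_biUnion_le))))
    have h3 : ((univ.filter (fun f : Fin n × Fin r → P =>
      ¬ ∃ Z : Finset (Fin n × Fin r),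
        (∀ i, 8 * (univ.filter (fun s : Fin r => (i, s) ∈ Z)).card ≤ r) ∧
        ∀ u, u ∉ Z → ((trip G W f Z u).card : ℝ) ≤ c2)).card : ℝ) ≤
        ((univ.filter (fun f : Fin n × Fin r → P => Gs < (Gam G W f : ℝ))).card : ℝ) +
        ((∑ j : Fin n, ((univ.filter (fun f : Fin n × Fin r → P =>
          r < 16 * (univ.filter (fun s : Fin r => f (j, s) ∈ B1 j f)).card)).card : ℝ)) +
        (∑ i : Fin n, ((univ.filter (fun f : Fin n × Fin r → P =>
          r < 16 * (univ.filter (fun s : Fin r => f (i, s) ∈ B2 i f)).card)).card : ℝ))) := by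
      exact_mod_cast h2
    have h4 : (∑ j : Fin n, ((univ.filter (fun f : Fin n × Fin r → P =>
          r < 16 * (univ.filter (fun s : Fin r => f (j, s) ∈ B1 j f)).card)).card : ℝ)) ≤
          n * ((2 : ℝ) ^ (-((r : ℝ) / 4)) * (Fintype.card P : ℝ) ^ (n * r)) := by
      refine (sum_le_sum fun j _ => hE1 j).trans (le_of_eq ?_)
      rw [sum_const, card_univ, Fintype.card_fin, nsmul_eq_mul]
    have h5 : (∑ i : Fin n, ((univ.filter (fun f : Fin n × Fin r → P =>
          r < 16 * (univ.filter (fun s : Fin r => f (i, s) ∈ B2 i f)).card)).card : ℝ)) ≤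
          n * ((2 : ℝ) ^ (-((r : ℝ) / 4)) * (Fintype.card P : ℝ) ^ (n * r)) := by
      refine (sum_le_sum fun j _ => hE2 j).trans (le_of_eq ?_)
      rw [sum_const, card_univ, Fintype.card_fin, nsmul_eq_mul]
    have h6 : (n : ℝ) * (2 : ℝ) ^ (-((r : ℝ) / 4)) ≤ 1 / 32 := by
      rw [Real.rpow_neg (by norm_num), ← div_eq_mul_inv, div_le_div_iff₀ (by positivity)
        (by norm_num)]
      linarith
    have h7 : (n : ℝ) * ((2 : ℝ) ^ (-((r : ℝ) / 4)) * (Fintype.card P : ℝ) ^ (n * r)) ≤
        1 / 32 * (Fintype.card P : ℝ) ^ (n * r) := by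
      rw [← mul_assoc]
      exact mul_le_mul_of_nonneg_right h6 (by positivity)
    linarith
  exact_mod_cast hfin

end Pool.Agent.TH75.MP325P3

namespace Pool.Agent.TH490

theorem p3 : P3_two := Pool.Agent.TH75.MP325P3.two

end Pool.Agent.TH490
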