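import Pool.Agent.TH317.CC.Alg

/-!
# MP_86dbc7_gt, CC-A1: the cut operator satisfies the pre-Lie identity
-/

set_option autoImplicit false

namespace Pool.Agent.TH317.CC.TH75

open Finset

/-- the indicator of a Boolean -/
def bi (b : Bool) : ℤ := if b then 1 else 0

/-- constraint on three comparisons `p q`, `q r`, `p r` -/
def tri (pq qr pr : Bool) : Bool := (!(pq && qr) || pr) && (!(!pq && pr) || qr)

set_option synthInstance.maxSize 4096 in
set_option maxRecDepth 10000 in
lemma key1 : ∀ oaob oboc oaoc : Bool, tri oaob oboc oaoc = true →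
    ∀ obic oaic : Bool, tri oaob obic oaic = true →
    ∀ oaib iboc : Bool, tri oaib iboc oaoc = true →
    ∀ ibic : Bool, tri oaib ibic oaic = true →
    ∀ iaob iaoc : Bool, tri iaob oboc iaoc = true →
    ∀ iaic : Bool, tri iaob obic iaic = true →
    ∀ iaib : Bool, tri iaib iboc iaoc = true → tri iaib ibic iaic = true →
    (bi oaob - bi oaib - bi iaob + bi iaib) * (bi oboc - bi obic - bi iaoc + bi iaic)
      - (bi oboc - bi obic - bi iboc + bi ibic) * (bi oaoc - bi oaib - bi iaoc + bi iaib) =
    (bi oaoc - bi oaic - bi iaoc + bi iaic) * (bi oaob - bi oaib - bi (!obic) + bi (!ibic)) := by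
  decide

set_option synthInstance.maxSize 4096 in
set_option maxRecDepth 10000 in
lemma key2 : ∀ oaob oboc oaoc : Bool, tri oaob oboc oaoc = true →
    ∀ obic oaic : Bool, tri oaob obic oaic = true →
    ∀ oaib iboc : Bool, tri oaib iboc oaoc = true →
    ∀ ibic : Bool, tri oaib ibic oaic = true →
    ∀ iaob iaoc : Bool, tri iaob oboc iaoc = true →
    ∀ iaic : Bool, tri iaob obic iaic = true →
    ∀ iaib : Bool, tri iaib iboc iaoc = true → tri iaib ibic iaic = true →
    ∀ eab : Bool, (!iaib || eab) = true → (!(eab && ibic) || iaic) = true →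
      (!(eab && iboc) || iaoc) = true →
    ∀ eac : Bool, (!iaic || eac) = true → (!(!iaob && eac) || obic) = true →
      (!(!eab && eac) || ibic) = true → (!(!eab && iaic) || ibic) = true →
    (bi oaob - bi oaib - bi iaob + bi eab) * (bi oboc - bi obic - bi iaoc + bi eac)
      - (bi oboc - bi obic - bi iboc + bi ibic) * (bi oaoc - bi oaib - bi iaoc + bi eab) =
    (bi oaoc - bi oaic - bi iaoc + bi eac) * (bi oaob - bi oaib - bi (!obic) + bi (!ibic)) := by
  decide

section
variable {Λ : Type*} [LinearOrder Λ]

lemma bi_dec (p : Prop) [Decidable p] : (if p then (1 : ℤ) else 0) = bi (decide p) := by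
  by_cases h : p <;> simp [bi, h]

lemma tri_of {p q r : Prop} [Decidable p] [Decidable q] [Decidable r]
    (h1 : p → q → r) (h2 : ¬ p → r → q) : tri (decide p) (decide q) (decide r) = true := by
  by_cases hp : p <;> by_cases hq : q <;> by_cases hr : r <;> simp_all [tri]

lemma imp_of {p q : Prop} [Decidable p] [Decidable q] (h : p → q) :
    (!(decide p) || decide q) = true := by
  by_cases hp : p <;> by_cases hq : q <;> simp_all

lemma imp_of2 {p q r : Prop} [Decidable p] [Decidable q] [Decidable r] (h : p → q → r) :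
    (!(decide p && decide q) || decide r) = true := by
  by_cases hp : p <;> by_cases hq : q <;> by_cases hr : r <;> simp_all

lemma imp_of3 {p q r : Prop} [Decidable p] [Decidable q] [Decidable r] (h : ¬ p → q → r) :
    (!(!decide p && decide q) || decide r) = true := by
  by_cases hp : p <;> by_cases hq : q <;> by_cases hr : r <;> simp_all

lemma dec_not {p q : Prop} [Decidable p] [Decidable q] (h : p ↔ ¬ q) :
    decide p = !(decide q) := by
  by_cases hp : p <;> by_cases hq : q <;> simp_all

/-- the coefficient identity, `a > 0` -/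
lemma ident1 (ia oa ib ob ic oc : Λ) :
    lk (ia, oa) (ib, ob) * lk (ia, ob) (ic, oc) - lk (ib, ob) (ic, oc) * lk (ia, oa) (ib, oc) =
      lk (ia, oa) (ic, oc) * lkb (ic, oa) (ib, ob) := by
  simp only [lk, lkb, bi_dec]
  rw [dec_not (p := ic < ob) (q := ob ≤ ic) not_le.symm,
    dec_not (p := ic ≤ ib) (q := ib < ic) not_lt.symm]
  refine key1 _ _ _ (tri_of ?_ ?_) _ _ (tri_of ?_ ?_) _ _ (tri_of ?_ ?_) _ (tri_of ?_ ?_)
    _ _ (tri_of ?_ ?_) _ (tri_of ?_ ?_) _ (tri_of ?_ ?_) (tri_of ?_ ?_)
  all_goals intro h1 h2
  all_goals order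

/-- the coefficient identity, `a = 0` -/
lemma ident2 (ia oa ib ob ic oc : Λ) :
    lkb (ia, oa) (ib, ob) * lkb (ia, ob) (ic, oc) - lk (ib, ob) (ic, oc) * lkb (ia, oa) (ib, oc) =
      lkb (ia, oa) (ic, oc) * lkb (ic, oa) (ib, ob) := by
  simp only [lk, lkb, bi_dec]
  rw [dec_not (p := ic < ob) (q := ob ≤ ic) not_le.symm,
    dec_not (p := ic ≤ ib) (q := ib < ic) not_lt.symm]
  refine key2 _ _ _ (tri_of ?_ ?_) _ _ (tri_of ?_ ?_) _ _ (tri_of ?_ ?_) _ (tri_of ?_ ?_)
    _ _ (tri_of ?_ ?_) (decide (ia < ic)) (tri_of ?_ ?_) (decide (ia < ib)) (tri_of ?_ ?_)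
    (tri_of ?_ ?_)
    (decide (ia ≤ ib)) (imp_of ?_) (imp_of2 ?_) (imp_of2 ?_) (decide (ia ≤ ic)) (imp_of ?_)
    (imp_of3 ?_) (imp_of3 ?_) (imp_of3 ?_)
  all_goals intros
  all_goals order

end

/-! ### Lists -/

section Lists

variable {D : Type*}

lemma length_leaf {w : List D} {j k : ℕ} (hk : k ≤ w.length) : (leaf w j k).length = k - j := by
  simp [leaf, hk]

lemma length_rest {w : List D} {j k : ℕ} (hj : j ≤ k) (hk : k ≤ w.length) :
    (rest w j k).length = w.length - (k - j) := by
  simp [rest]
  omega

variable [Inhabited D]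

lemma getD_leaf {w : List D} {j k t : ℕ} (_hk : k ≤ w.length) (ht : t < k - j) :
    (leaf w j k).getD t default = w.getD (j + t) default := by
  unfold leaf
  rw [List.getD_eq_getElem?_getD, List.getD_eq_getElem?_getD, List.getElem?_drop,
    List.getElem?_take, if_pos (by omega)]

lemma getD_rest {w : List D} {j k : ℕ} (t : ℕ) (hj : j ≤ k) (hk : k ≤ w.length) :
    (rest w j k).getD t default = w.getD (if t < j then t else t + (k - j)) default := by
  unfold rest
  rw [List.getD_eq_getElem?_getD, List.getD_eq_getElem?_getD, List.getElem?_append,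
    List.length_take, min_eq_left (by omega)]
  split_ifs with h
  · rw [List.getElem?_take, if_pos h]
  · rw [List.getElem?_drop, show k + (t - j) = t + (k - j) by omega]

lemma getD_append (u v : List D) (t : ℕ) :
    (u ++ v).getD t default = if t < u.length then u.getD t default
      else v.getD (t - u.length) default := by
  simp only [List.getD_eq_getElem?_getD, List.getElem?_append]
  split_ifs <;> rfl

lemma ext_getD {u v : List D} (hl : u.length = v.length)
    (h : ∀ t, t < u.length → u.getD t default = v.getD t default) : u = v := by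
  refine List.ext_getElem hl fun t h1 h2 => ?_
  have := h t h1
  rwa [List.getD_eq_getElem _ _ h1, List.getD_eq_getElem _ _ h2] at this

variable {w : List D} {a b c d : ℕ}

/-- removing `[c, d)` and then `[a, b)`, or the other way round -/
lemma rest_rest_swap (hab : a ≤ b) (hbc : b ≤ c) (hcd : c ≤ d) (hd : d ≤ w.length) :
    rest (rest w a b) (c - (b - a)) (d - (b - a)) = rest (rest w c d) a b := by
  have l1 := length_rest (w := w) hab (by omega)
  have l2 := length_rest (w := w) hcd hd
  have l3 := length_rest (w := rest w a b) (j := c - (b - a)) (k := d - (b - a)) (by omega)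
    (by omega)
  have l4 := length_rest (w := rest w c d) (j := a) (k := b) (by omega) (by omega)
  refine ext_getD ?_ fun t ht => ?_
  · omega
  · rw [getD_rest _ (by omega) (by omega), getD_rest _ (by omega) (by omega),
      getD_rest _ (by omega) (by omega), getD_rest _ (by omega) (by omega)]
    congr 1
    split_ifs <;> omega

lemma rest_rest_adj (hab : a ≤ b) (hbc : b ≤ c) (hc : c ≤ w.length) :
    rest (rest w b c) a b = rest w a c := by
  have l2 := length_rest (w := w) hbc hc
  have l3 := length_rest (w := w) (j := a) (k := c) (by omega) (by omega)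
  have l4 := length_rest (w := rest w b c) (j := a) (k := b) (by omega) (by omega)
  refine ext_getD ?_ fun t ht => ?_
  · omega
  · rw [getD_rest _ (by omega) (by omega), getD_rest _ (by omega) (by omega),
      getD_rest _ (by omega) (by omega)]
    congr 1
    split_ifs <;> omega

lemma rest_rest_adj' (hab : a ≤ b) (hbc : b ≤ c) (hc : c ≤ w.length) :
    rest (rest w a b) a (c - (b - a)) = rest w a c := by
  have l2 := length_rest (w := w) hab (by omega)
  have l3 := length_rest (w := w) (j := a) (k := c) (by omega) (by omega)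
  have l4 := length_rest (w := rest w a b) (j := a) (k := c - (b - a)) (by omega) (by omega)
  refine ext_getD ?_ fun t ht => ?_
  · omega
  · rw [getD_rest _ (by omega) (by omega), getD_rest _ (by omega) (by omega),
      getD_rest _ (by omega) (by omega)]
    congr 1
    split_ifs <;> omega

lemma rest_rest_nest (hab : a ≤ b) (hbc : b ≤ c) (hcd : c ≤ d) (hd : d ≤ w.length) :
    rest (rest w b c) a (d - (c - b)) = rest w a d := by
  have l2 := length_rest (w := w) hbc (by omega)
  have l3 := length_rest (w := w) (j := a) (k := d) (by omega) (by omega)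
  have l4 := length_rest (w := rest w b c) (j := a) (k := d - (c - b)) (by omega) (by omega)
  refine ext_getD ?_ fun t ht => ?_
  · omega
  · rw [getD_rest _ (by omega) (by omega), getD_rest _ (by omega) (by omega),
      getD_rest _ (by omega) (by omega)]
    congr 1
    split_ifs <;> omega

lemma leaf_rest_left (hab : a ≤ b) (hbc : b ≤ c) (hcd : c ≤ d) (hd : d ≤ w.length) :
    leaf (rest w c d) a b = leaf w a b := by
  have l2 := length_rest (w := w) hcd hd
  have l3 := length_leaf (w := rest w c d) (j := a) (k := b) (by omega)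
  refine ext_getD ?_ fun t ht => ?_
  · rw [length_leaf (by omega), length_leaf (by omega)]
  · rw [getD_leaf (by omega) (by omega), getD_leaf (by omega) (by omega),
      getD_rest _ (by omega) (by omega)]
    congr 1
    split_ifs <;> omega

lemma leaf_rest_right (hab : a ≤ b) (hbc : b ≤ c) (hcd : c ≤ d) (hd : d ≤ w.length) :
    leaf (rest w a b) (c - (b - a)) (d - (b - a)) = leaf w c d := by
  have l2 := length_rest (w := w) hab (by omega)
  have l3 := length_leaf (w := rest w a b) (j := c - (b - a)) (k := d - (b - a)) (by omega)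
  refine ext_getD ?_ fun t ht => ?_
  · rw [length_leaf (by omega), length_leaf (by omega)]
    omega
  · rw [getD_leaf (by omega) (by omega), getD_leaf (by omega) (by omega),
      getD_rest _ (by omega) (by omega)]
    congr 1
    split_ifs <;> omega

lemma leaf_rest_nest (hab : a ≤ b) (hbc : b ≤ c) (hcd : c ≤ d) (hd : d ≤ w.length) :
    leaf (rest w b c) a (d - (c - b)) = leaf w a b ++ leaf w c d := by
  have l2 := length_rest (w := w) hbc (by omega)
  have l3 := length_leaf (w := rest w b c) (j := a) (k := d - (c - b)) (by omega)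
  have l4 := length_leaf (w := w) (j := a) (k := b) (by omega)
  have l5 := length_leaf (w := w) (j := c) (k := d) (by omega)
  refine ext_getD ?_ fun t ht => ?_
  · rw [List.length_append, l3, l4, l5]
    omega
  · rw [getD_leaf (by omega) (by omega), getD_append, l4, getD_rest _ (by omega) (by omega)]
    split_ifs with h1 h2 h2
    · rw [getD_leaf (by omega) (by omega)]
    · omega
    · omega
    · rw [getD_leaf (by omega) (by omega)]
      congr 1
      omega

lemma leaf_leaf (hab : a ≤ b) (hbc : b ≤ c) (hcd : c ≤ d) (hd : d ≤ w.length) :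
    leaf (leaf w a d) (b - a) (c - a) = leaf w b c := by
  have l2 := length_leaf (w := w) (j := a) (k := d) (by omega)
  have l3 := length_leaf (w := leaf w a d) (j := b - a) (k := c - a) (by omega)
  refine ext_getD ?_ fun t ht => ?_
  · rw [length_leaf (by omega), length_leaf (by omega)]
    omega
  · rw [getD_leaf (by omega) (by omega), getD_leaf (by omega) (by omega),
      getD_leaf (by omega) (by omega)]
    congr 1
    omega

lemma rest_leaf (hab : a ≤ b) (hbc : b ≤ c) (hcd : c ≤ d) (hd : d ≤ w.length) :
    rest (leaf w a d) (b - a) (c - a) = leaf w a b ++ leaf w c d := by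
  have l2 := length_leaf (w := w) (j := a) (k := d) (by omega)
  have l3 := length_rest (w := leaf w a d) (j := b - a) (k := c - a) (by omega) (by omega)
  have l4 := length_leaf (w := w) (j := a) (k := b) (by omega)
  have l5 := length_leaf (w := w) (j := c) (k := d) (by omega)
  refine ext_getD ?_ fun t ht => ?_
  · rw [List.length_append, l3, l4, l5]
    omega
  · rw [getD_append, l4, getD_rest _ (by omega) (by omega)]
    split_ifs with h1
    · rw [getD_leaf (by omega) (by omega), getD_leaf (by omega) (by omega)]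
    · rw [getD_leaf (by omega) (by omega), getD_leaf (by omega) (by omega)]
      congr 1
      omega

end Lists

/-! ### The coefficients -/

section Coef

variable {D Λ : Type*} [Inhabited D] (i o : D → Λ) {w : List D} {a b c d : ℕ}

lemma pass_rest_lt {j k t : ℕ} (ht : t < j) (hj : j ≤ k) (hk : k < w.length) :
    pass i o (rest w j k) t = pass i o w t := by
  unfold pass
  rw [length_rest hj hk.le, getD_rest _ hj hk.le, getD_rest _ hj hk.le, if_pos ht]
  congr 3
  split_ifs <;> omega

lemma pass_rest_eq {j k : ℕ} (hj : j ≤ k) (hk : k < w.length) :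
    pass i o (rest w j k) j = ((pass i o w j).1, (pass i o w k).2) := by
  unfold pass
  rw [length_rest hj hk.le, getD_rest _ hj hk.le, getD_rest _ hj hk.le, if_neg (lt_irrefl _)]
  congr 3
  · split_ifs <;> omega
  · omega

lemma pass_rest_gt {j k t : ℕ} (ht : j < t) (hj : j ≤ k) (hk : k < w.length) :
    pass i o (rest w j k) t = pass i o w (t + (k - j)) := by
  unfold pass
  rw [length_rest hj hk.le, getD_rest _ hj hk.le, getD_rest _ hj hk.le, if_neg (by omega : ¬ t < j)]
  congr 3
  split_ifs <;> omega

lemma pass_leaf_zero {j k : ℕ} (hj : j < k) (hk : k ≤ w.length) :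
    pass i o (leaf w j k) 0 = ((pass i o w k).1, (pass i o w j).2) := by
  unfold pass
  rw [if_pos rfl, length_leaf hk, getD_leaf hk (by omega), getD_leaf hk (by omega)]
  congr 3
  split_ifs <;> omega

lemma pass_leaf_pos {j k t : ℕ} (ht : 0 < t) (htk : t < k - j) (hk : k ≤ w.length) :
    pass i o (leaf w j k) t = pass i o w (j + t) := by
  unfold pass
  rw [length_leaf hk, if_neg (by omega), if_neg (by omega), getD_leaf hk (by omega),
    getD_leaf hk htk]
  congr 3
  omega

variable [LinearOrder Λ]

/-- the coefficient -/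
def Cf (a : ℕ) (x y : Λ × Λ) : ℤ := if a = 0 then lkb x y else lk x y

lemma cf_eq (w : List D) (j k : ℕ) : cf i o w j k = Cf j (pass i o w j) (pass i o w k) := rfl

lemma cf1 (hab : a < b) (hbc : b < c) (hcd : c < d) (hd : d < w.length) :
    cf i o (rest w c d) a b = cf i o w a b := by
  rw [cf_eq, cf_eq, pass_rest_lt i o (by omega) hcd.le hd, pass_rest_lt i o (by omega) hcd.le hd]

lemma cf2 (hab : a < b) (hbc : b < c) (hcd : c < d) (hd : d < w.length) :
    cf i o (rest w a b) (c - (b - a)) (d - (b - a)) = cf i o w c d := by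
  rw [cf_eq, cf_eq, pass_rest_gt i o (by omega) hab.le (by omega),
    pass_rest_gt i o (by omega) hab.le (by omega), show c - (b - a) + (b - a) = c by omega,
    show d - (b - a) + (b - a) = d by omega]
  unfold Cf
  rw [if_neg (by omega), if_neg (by omega)]

lemma cf3 (hab : a < b) (hbc : b < c) (hcd : c < d) (hd : d < w.length) :
    cf i o (rest w b c) a (d - (c - b)) = cf i o w a d := by
  rw [cf_eq, cf_eq, pass_rest_lt i o (by omega) hbc.le (by omega),
    pass_rest_gt i o (by omega) hbc.le (by omega), show d - (c - b) + (c - b) = d by omega]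

lemma cf4 (hab : a < b) (hbc : b < c) (hc : c < w.length) :
    cf i o (rest w b c) a b =
      Cf a (pass i o w a) ((pass i o w b).1, (pass i o w c).2) := by
  rw [cf_eq, pass_rest_lt i o (by omega) hbc.le (by omega), pass_rest_eq i o hbc.le hc]

lemma cf5 (hab : a < b) (hbc : b < c) (hc : c < w.length) :
    cf i o (rest w a b) a (c - (b - a)) =
      Cf a ((pass i o w a).1, (pass i o w b).2) (pass i o w c) := by
  rw [cf_eq, pass_rest_eq i o hab.le (by omega), pass_rest_gt i o (by omega) hab.le (by omega),
    show c - (b - a) + (b - a) = c by omega]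

lemma cf6 (hab : a < b) (hbc : b < c) (hcd : c < d) (hd : d < w.length) :
    cf i o (leaf w a d) (b - a) (c - a) = cf i o w b c := by
  rw [cf_eq, cf_eq, pass_leaf_pos i o (by omega) (by omega) hd.le,
    pass_leaf_pos i o (by omega) (by omega) hd.le, show a + (b - a) = b by omega,
    show a + (c - a) = c by omega]
  unfold Cf
  rw [if_neg (by omega), if_neg (by omega)]

lemma cf7 (hab : a < b) (hbc : b < c) (hc : c < w.length) :
    cf i o (leaf w a c) 0 (b - a) =
      lkb ((pass i o w c).1, (pass i o w a).2) (pass i o w b) := by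
  rw [cf_eq, pass_leaf_zero i o (by omega) hc.le, pass_leaf_pos i o (by omega) (by omega) hc.le,
    show a + (b - a) = b by omega]
  rfl

/-- the coefficient identity -/
lemma ident (hab : a < b) :
    cf i o w a b * Cf a ((pass i o w a).1, (pass i o w b).2) (pass i o w c)
      - cf i o w b c * Cf a (pass i o w a) ((pass i o w b).1, (pass i o w c).2) =
    cf i o w a c * lkb ((pass i o w c).1, (pass i o w a).2) (pass i o w b) := by
  rw [cf_eq, cf_eq, cf_eq]
  have hb : b ≠ 0 := by omega
  simp only [Cf, if_neg hb]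
  rcases pass i o w a with ⟨ia, oa⟩
  rcases pass i o w b with ⟨ib, ob⟩
  rcases pass i o w c with ⟨ic, oc⟩
  split_ifs with h
  · exact ident2 ia oa ib ob ic oc
  · exact ident1 ia oa ib ob ic oc

end Coef

/-! ### Sums -/

section Sums

variable {R : Type*} [CommRing R]

/-- sum over the triples `a < b < c < n` -/
def S3 (n : ℕ) (f : ℕ → ℕ → ℕ → R) : R := ∑ c ∈ range n, ∑ b ∈ range c, ∑ a ∈ range b, f a b c

/-- sum over the quadruples `a < b < c < d < n` -/
def S4 (n : ℕ) (f : ℕ → ℕ → ℕ → ℕ → R) : R :=
  ∑ d ∈ range n, ∑ c ∈ range d, ∑ b ∈ range c, ∑ a ∈ range b, f a b c d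

lemma S3_congr {n : ℕ} {f g : ℕ → ℕ → ℕ → R}
    (h : ∀ a b c, a < b → b < c → c < n → f a b c = g a b c) : S3 n f = S3 n g := by
  refine sum_congr rfl fun c hc => sum_congr rfl fun b hb => sum_congr rfl fun a ha => ?_
  exact h a b c (mem_range.1 ha) (mem_range.1 hb) (mem_range.1 hc)

lemma S4_congr {n : ℕ} {f g : ℕ → ℕ → ℕ → ℕ → R}
    (h : ∀ a b c d, a < b → b < c → c < d → d < n → f a b c d = g a b c d) :
    S4 n f = S4 n g := by
  refine sum_congr rfl fun d hd => sum_congr rfl fun c hc => sum_congr rfl fun b hb =>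
    sum_congr rfl fun a ha => ?_
  exact h a b c d (mem_range.1 ha) (mem_range.1 hb) (mem_range.1 hc) (mem_range.1 hd)

lemma S3_add (n : ℕ) (f g : ℕ → ℕ → ℕ → R) :
    S3 n (fun a b c => f a b c + g a b c) = S3 n f + S3 n g := by
  simp only [S3, sum_add_distrib]

lemma S4_add (n : ℕ) (f g : ℕ → ℕ → ℕ → ℕ → R) :
    S4 n (fun a b c d => f a b c d + g a b c d) = S4 n f + S4 n g := by
  simp only [S4, sum_add_distrib]

lemma S3_sub (n : ℕ) (f g : ℕ → ℕ → ℕ → R) :
    S3 n (fun a b c => f a b c - g a b c) = S3 n f - S3 n g := by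
  simp only [S3, sum_sub_distrib]

lemma S4_sub (n : ℕ) (f g : ℕ → ℕ → ℕ → ℕ → R) :
    S4 n (fun a b c d => f a b c d - g a b c d) = S4 n f - S4 n g := by
  simp only [S4, sum_sub_distrib]

/-- exchange of two nested sums -/
lemma swap_sum (n : ℕ) (f : ℕ → ℕ → R) :
    ∑ k ∈ range n, ∑ d ∈ Ico (k + 1) n, f k d = ∑ d ∈ range n, ∑ k ∈ range d, f k d := by
  refine sum_comm' fun k d => ?_
  simp only [mem_range, mem_Ico]
  omega

/-- exchange of two nested sums -/
lemma swap_sum' (k n : ℕ) (f : ℕ → ℕ → R) :
    ∑ c ∈ Ico k n, ∑ d ∈ Ico (c + 1) n, f c d = ∑ d ∈ Ico k n, ∑ c ∈ Ico k d, f c d := by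
  refine sum_comm' fun c d => ?_
  simp only [mem_Ico]
  omega

/-- the inner double sum -/
lemma inner (n j k : ℕ) (hjk : j < k) (hk : k < n) (F : ℕ → ℕ → R) :
    ∑ k' ∈ range (n - (k - j)), ∑ j' ∈ range k', F j' k' =
      ∑ k' ∈ range j, ∑ j' ∈ range k', F j' k' + ∑ j' ∈ range j, F j' j +
      ∑ d ∈ Ico (k + 1) n, (∑ j' ∈ range j, F j' (d - (k - j)) + F j (d - (k - j)) +
        ∑ c ∈ Ico (k + 1) d, F (c - (k - j)) (d - (k - j))) := by
  have h1 : n - (k - j) = j + (1 + (n - (k + 1))) := by omega
  rw [h1, sum_range_add, sum_range_add, sum_range_one, add_zero, ← add_assoc]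
  congr 1
  rw [sum_Ico_eq_sum_range]
  refine sum_congr rfl fun t ht => ?_
  have h2 : k + 1 + t - (k - j) = j + (1 + t) := by omega
  rw [h2, sum_range_add, sum_range_add, sum_range_one, add_zero, ← add_assoc]
  congr 1
  rw [sum_Ico_eq_sum_range, show k + 1 + t - (k + 1) = t by omega]
  refine sum_congr rfl fun s hs => ?_
  have h3 : k + 1 + s - (k - j) = j + (1 + s) := by omega
  rw [h3]

/-- two successive cuts -/
lemma two_cuts (n : ℕ) (F : ℕ → ℕ → ℕ → ℕ → R) :
    ∑ k ∈ range n, ∑ j ∈ range k, ∑ k' ∈ range (n - (k - j)), ∑ j' ∈ range k', F j k j' k' =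
      S4 n (fun a b c d => F c d a b) + S3 n (fun a b c => F b c a b) +
      (S4 n (fun a b c d => F b c a (d - (c - b))) +
        S3 n (fun a b c => F a b a (c - (b - a))) +
        S4 n (fun a b c d => F a b (c - (b - a)) (d - (b - a)))) := by
  have h1 : ∀ k ∈ range n, ∀ j ∈ range k,
      ∑ k' ∈ range (n - (k - j)), ∑ j' ∈ range k', F j k j' k' =
      ∑ k' ∈ range j, ∑ j' ∈ range k', F j k j' k' + ∑ j' ∈ range j, F j k j' j +
      ∑ d ∈ Ico (k + 1) n, (∑ j' ∈ range j, F j k j' (d - (k - j)) + F j k j (d - (k - j)) +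
        ∑ c ∈ Ico (k + 1) d, F j k (c - (k - j)) (d - (k - j))) := fun k hk j hj =>
    inner n j k (mem_range.1 hj) (mem_range.1 hk) (F j k)
  rw [sum_congr rfl fun k hk => sum_congr rfl fun j hj => h1 k hk j hj]
  simp only [sum_add_distrib]
  congr 1
  congr 1
  · congr 1
    · unfold S4
      refine (sum_congr rfl fun k _ => ?_).trans (swap_sum n fun k d =>
        ∑ j ∈ range k, ∑ a ∈ range j, F j k a (d - (k - j)))
      exact sum_comm
    · unfold S3
      refine (sum_congr rfl fun k _ => ?_).trans (swap_sum n fun k d =>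
        ∑ j ∈ range k, F j k j (d - (k - j)))
      exact sum_comm
  · unfold S4
    have h2 : ∀ k ∈ range n, ∑ j ∈ range k, ∑ d ∈ Ico (k + 1) n, ∑ c ∈ Ico (k + 1) d,
        F j k (c - (k - j)) (d - (k - j)) = ∑ d ∈ Ico (k + 1) n, ∑ c ∈ Ico (k + 1) d,
          ∑ j ∈ range k, F j k (c - (k - j)) (d - (k - j)) := by
      intro k _
      rw [sum_comm]
      refine sum_congr rfl fun d _ => ?_
      rw [sum_comm]
    rw [sum_congr rfl h2, swap_sum]
    refine sum_congr rfl fun d _ => ?_
    rw [swap_sum]

/-- a cut and a cut of the leaf -/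
lemma leaf_cuts (n : ℕ) (F : ℕ → ℕ → ℕ → ℕ → R) :
    ∑ d ∈ range n, ∑ a ∈ range d, ∑ k ∈ range (d - a), ∑ j ∈ range k, F a d j k =
      S3 n (fun a b c => F a c 0 (b - a)) + S4 n (fun a b c d => F a d (b - a) (c - a)) := by
  have h1 : ∀ d ∈ range n, ∀ a ∈ range d, ∑ k ∈ range (d - a), ∑ j ∈ range k, F a d j k =
      ∑ c ∈ Ico (a + 1) d, (F a d 0 (c - a) + ∑ b ∈ Ico (a + 1) c, F a d (b - a) (c - a)) := by
    intro d _ a ha
    rw [mem_range] at ha
    have h2 : d - a = 1 + (d - (a + 1)) := by omega
    rw [h2, sum_range_add, sum_range_one, sum_range_zero, zero_add, sum_Ico_eq_sum_range]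
    refine sum_congr rfl fun t ht => ?_
    have h3 : a + 1 + t - a = 1 + t := by omega
    rw [h3, sum_range_add, sum_range_one, sum_Ico_eq_sum_range,
      show a + 1 + t - (a + 1) = t by omega]
    congr 1
    refine sum_congr rfl fun s hs => ?_
    rw [show a + 1 + s - a = 1 + s by omega]
  rw [sum_congr rfl fun d hd => sum_congr rfl fun a ha => h1 d hd a ha]
  simp only [sum_add_distrib]
  congr 1
  · unfold S3
    refine sum_congr rfl fun d _ => ?_
    rw [swap_sum]
  · unfold S4
    refine sum_congr rfl fun d _ => ?_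
    rw [swap_sum]
    refine sum_congr rfl fun c _ => ?_
    rw [swap_sum]

end Sums

end Pool.Agent.TH317.CC.TH75

namespace Pool.Agent.TH317.CC

open Finset

section

variable {D Λ R : Type*} [LinearOrder Λ] [CommRing R] [Inhabited D] (i o : D → Λ)

/-- the operator applied twice -/
lemma TH75.L_L (X Y g : List D → R) (w : List D) :
    L i o X (L i o Y g) w =
      TH75.S4 w.length (fun a b c d => (cf i o w c d : R) * X (leaf w c d) *
        ((cf i o w a b : R) * Y (leaf w a b) * g (rest (rest w c d) a b))) +
      TH75.S3 w.length (fun a b c => (cf i o w b c : R) * X (leaf w b c) *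
        ((TH75.Cf a (pass i o w a) ((pass i o w b).1, (pass i o w c).2) : R) * Y (leaf w a b) *
          g (rest w a c))) +
      (TH75.S4 w.length (fun a b c d => (cf i o w b c : R) * X (leaf w b c) *
        ((cf i o w a d : R) * Y (leaf w a b ++ leaf w c d) * g (rest w a d))) +
      TH75.S3 w.length (fun a b c => (cf i o w a b : R) * X (leaf w a b) *
        ((TH75.Cf a ((pass i o w a).1, (pass i o w b).2) (pass i o w c) : R) * Y (leaf w b c) *
          g (rest w a c))) +
      TH75.S4 w.length (fun a b c d => (cf i o w a b : R) * X (leaf w a b) *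
        ((cf i o w c d : R) * Y (leaf w c d) * g (rest (rest w c d) a b)))) := by
  have h0 : L i o X (L i o Y g) w = ∑ k ∈ range w.length, ∑ j ∈ range k,
      ∑ k' ∈ range (w.length - (k - j)), ∑ j' ∈ range k', (cf i o w j k : R) * X (leaf w j k) *
        ((cf i o (rest w j k) j' k' : R) * Y (leaf (rest w j k) j' k') *
          g (rest (rest w j k) j' k')) := by
    unfold L
    refine sum_congr rfl fun k hk => sum_congr rfl fun j hj => ?_
    rw [mem_range] at hk hj
    rw [TH75.length_rest hj.le hk.le, mul_sum]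
    refine sum_congr rfl fun k' _ => ?_
    rw [mul_sum]
  rw [h0, TH75.two_cuts]
  congr 1
  · congr 1
    · refine TH75.S4_congr fun a b c d hab hbc hcd hd => ?_
      rw [TH75.cf1 i o hab hbc hcd hd, TH75.leaf_rest_left hab.le hbc.le hcd.le hd.le]
    · refine TH75.S3_congr fun a b c hab hbc hc => ?_
      rw [TH75.cf4 i o hab hbc hc, TH75.leaf_rest_left hab.le le_rfl hbc.le hc.le,
        TH75.rest_rest_adj hab.le hbc.le hc.le]
  congr 1
  · congr 1
    · refine TH75.S4_congr fun a b c d hab hbc hcd hd => ?_
      rw [TH75.cf3 i o hab hbc hcd hd, TH75.leaf_rest_nest hab.le hbc.le hcd.le hd.le,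
        TH75.rest_rest_nest hab.le hbc.le hcd.le hd.le]
    · refine TH75.S3_congr fun a b c hab hbc hc => ?_
      have h1 : leaf (rest w a b) a (c - (b - a)) = leaf w b c := by
        have := TH75.leaf_rest_right (w := w) hab.le le_rfl hbc.le hc.le
        rwa [show b - (b - a) = a by omega] at this
      rw [TH75.cf5 i o hab hbc hc, h1, TH75.rest_rest_adj' hab.le hbc.le hc.le]
  · refine TH75.S4_congr fun a b c d hab hbc hcd hd => ?_
    rw [TH75.cf2 i o hab hbc hcd hd, TH75.leaf_rest_right hab.le hbc.le hcd.le hd.le,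
      TH75.rest_rest_swap hab.le hbc.le hcd.le hd.le]

/-- the operator applied to the operator -/
lemma TH75.LL_ (X Y g : List D → R) (w : List D) :
    L i o (L i o X Y) g w =
      TH75.S3 w.length (fun a b c => (cf i o w a c : R) *
        ((lkb ((pass i o w c).1, (pass i o w a).2) (pass i o w b) : R) * X (leaf w a b) *
          Y (leaf w b c)) * g (rest w a c)) +
      TH75.S4 w.length (fun a b c d => (cf i o w a d : R) *
        ((cf i o w b c : R) * X (leaf w b c) * Y (leaf w a b ++ leaf w c d)) *
          g (rest w a d)) := by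
  have h0 : L i o (L i o X Y) g w = ∑ d ∈ range w.length, ∑ a ∈ range d,
      ∑ k ∈ range (d - a), ∑ j ∈ range k, (cf i o w a d : R) *
        ((cf i o (leaf w a d) j k : R) * X (leaf (leaf w a d) j k) *
          Y (rest (leaf w a d) j k)) * g (rest w a d) := by
    rw [L]
    refine sum_congr rfl fun d hd => sum_congr rfl fun a ha => ?_
    rw [mem_range] at hd ha
    rw [L, TH75.length_leaf hd.le, mul_sum, sum_mul]
    refine sum_congr rfl fun k _ => ?_
    rw [mul_sum, sum_mul]
  rw [h0, TH75.leaf_cuts]
  congr 1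
  · refine TH75.S3_congr fun a b c hab hbc hc => ?_
    have h1 : leaf (leaf w a c) 0 (b - a) = leaf w a b := by
      have := TH75.leaf_leaf (w := w) le_rfl hab.le hbc.le hc.le
      rwa [Nat.sub_self] at this
    have h2 : rest (leaf w a c) 0 (b - a) = leaf w b c := by
      have := TH75.rest_leaf (w := w) le_rfl hab.le hbc.le hc.le
      rw [Nat.sub_self] at this
      rw [this]
      have h3 : leaf w a a = [] := by
        rw [← List.length_eq_zero_iff, TH75.length_leaf (by omega), Nat.sub_self]
      rw [h3, List.nil_append]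
    rw [TH75.cf7 i o hab hbc hc, h1, h2]
  · refine TH75.S4_congr fun a b c d hab hbc hcd hd => ?_
    rw [TH75.cf6 i o hab hbc hcd hd, TH75.leaf_leaf hab.le hbc.le hcd.le hd.le,
      TH75.rest_leaf hab.le hbc.le hcd.le hd.le]

theorem L_preLie (X Y g : List D → R) (w : List D) :
    L i o X (L i o Y g) w - L i o Y (L i o X g) w = L i o (br i o X Y) g w := by
  have h0 : L i o (br i o X Y) g w = L i o (L i o X Y) g w - L i o (L i o Y X) g w := by
    unfold br
    rw [L, L, L]
    simp only [mul_sub, sub_mul, sum_sub_distrib]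
  have h3 : TH75.S3 w.length (fun a b c => (cf i o w b c : R) * X (leaf w b c) *
        ((TH75.Cf a (pass i o w a) ((pass i o w b).1, (pass i o w c).2) : R) * Y (leaf w a b) *
          g (rest w a c))) +
      TH75.S3 w.length (fun a b c => (cf i o w a b : R) * X (leaf w a b) *
        ((TH75.Cf a ((pass i o w a).1, (pass i o w b).2) (pass i o w c) : R) * Y (leaf w b c) *
          g (rest w a c))) -
      (TH75.S3 w.length (fun a b c => (cf i o w b c : R) * Y (leaf w b c) *
        ((TH75.Cf a (pass i o w a) ((pass i o w b).1, (pass i o w c).2) : R) * X (leaf w a b) *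
          g (rest w a c))) +
      TH75.S3 w.length (fun a b c => (cf i o w a b : R) * Y (leaf w a b) *
        ((TH75.Cf a ((pass i o w a).1, (pass i o w b).2) (pass i o w c) : R) * X (leaf w b c) *
          g (rest w a c)))) =
      TH75.S3 w.length (fun a b c => (cf i o w a c : R) *
        ((lkb ((pass i o w c).1, (pass i o w a).2) (pass i o w b) : R) * X (leaf w a b) *
          Y (leaf w b c)) * g (rest w a c)) -
      TH75.S3 w.length (fun a b c => (cf i o w a c : R) *
        ((lkb ((pass i o w c).1, (pass i o w a).2) (pass i o w b) : R) * Y (leaf w a b) *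
          X (leaf w b c)) * g (rest w a c)) := by
    rw [← TH75.S3_add, ← TH75.S3_add, ← TH75.S3_sub, ← TH75.S3_sub]
    refine TH75.S3_congr fun a b c hab hbc hc => ?_
    have h := congrArg (fun x : ℤ => (x : R)) (TH75.ident i o (w := w) (c := c) hab)
    push_cast at h
    linear_combination (X (leaf w a b) * Y (leaf w b c) - Y (leaf w a b) * X (leaf w b c)) *
      g (rest w a c) * h
  have h4 : TH75.S4 w.length (fun a b c d => (cf i o w b c : R) * X (leaf w b c) *
        ((cf i o w a d : R) * Y (leaf w a b ++ leaf w c d) * g (rest w a d))) =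
      TH75.S4 w.length (fun a b c d => (cf i o w a d : R) *
        ((cf i o w b c : R) * X (leaf w b c) * Y (leaf w a b ++ leaf w c d)) *
          g (rest w a d)) := TH75.S4_congr fun a b c d _ _ _ _ => by ring
  have h5 : TH75.S4 w.length (fun a b c d => (cf i o w b c : R) * Y (leaf w b c) *
        ((cf i o w a d : R) * X (leaf w a b ++ leaf w c d) * g (rest w a d))) =
      TH75.S4 w.length (fun a b c d => (cf i o w a d : R) *
        ((cf i o w b c : R) * Y (leaf w b c) * X (leaf w a b ++ leaf w c d)) *
          g (rest w a d)) := TH75.S4_congr fun a b c d _ _ _ _ => by ring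
  have h6 : TH75.S4 w.length (fun a b c d => (cf i o w c d : R) * X (leaf w c d) *
        ((cf i o w a b : R) * Y (leaf w a b) * g (rest (rest w c d) a b))) =
      TH75.S4 w.length (fun a b c d => (cf i o w a b : R) * Y (leaf w a b) *
        ((cf i o w c d : R) * X (leaf w c d) * g (rest (rest w c d) a b))) :=
    TH75.S4_congr fun a b c d _ _ _ _ => by ring
  have h7 : TH75.S4 w.length (fun a b c d => (cf i o w a b : R) * X (leaf w a b) *
        ((cf i o w c d : R) * Y (leaf w c d) * g (rest (rest w c d) a b))) =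
      TH75.S4 w.length (fun a b c d => (cf i o w c d : R) * Y (leaf w c d) *
        ((cf i o w a b : R) * X (leaf w a b) * g (rest (rest w c d) a b))) :=
    TH75.S4_congr fun a b c d _ _ _ _ => by ring
  rw [h0, TH75.L_L, TH75.L_L, TH75.LL_, TH75.LL_]
  linear_combination h3 + h4 - h5 + h6 + h7

end

end Pool.Agent.TH317.CC
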