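import Pool.Agent.TH317.CC.Geo

/-!
# MP_86dbc7_gt, CC-G3: from walk moves back to polygon moves
-/

set_option autoImplicit false

universe u

namespace Pool.Agent.TH317.CC

namespace H75G3

section Poly

variable {M : Type u} [MetricSpace M]

lemma chl_nonneg : ∀ l : List M, 0 ≤ chl l
  | [] => le_rfl
  | [_] => le_rfl
  | _ :: y :: l => add_nonneg dist_nonneg (chl_nonneg (y :: l))

lemma chl_append (a : M) (v : List M) :
    ∀ u : List M, chl (u ++ a :: v) = chl (u ++ [a]) + chl (a :: v)
  | [] => by simp [chl]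
  | [_] => by simp [chl]
  | x :: y :: u => by
    have := chl_append a v (y :: u)
    simp only [List.cons_append, chl] at this ⊢
    linarith

lemma chl_cons_cons (x y : M) (l : List M) : chl (x :: y :: l) = dist x y + chl (y :: l) := rfl

/-- the relation on consecutive vertices -/
abbrev Rr (r : ℝ) (a b : M) : Prop := dist a b ≤ r

lemma good_iff {r ℓ : ℝ} {S : Set M} {P : List M} {x : M} (h : ∃ l, P = x :: l) :
    Good r ℓ S P ↔ List.IsChain (Rr r) (P ++ [x]) ∧ chl (P ++ [x]) < ℓ ∧ ∀ y ∈ P, y ∈ S := by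
  obtain ⟨l, rfl⟩ := h
  rfl

lemma good_mono {r ℓ ℓ' : ℝ} {S : Set M} (h : ℓ ≤ ℓ') {P : List M} (hP : Good r ℓ S P) :
    Good r ℓ' S P := by
  cases P with
  | nil => exact hP
  | cons x l => exact ⟨hP.1, hP.2.1.trans_le h, hP.2.2⟩

lemma pstep_mono {r ℓ ℓ' : ℝ} {S : Set M} (h : ℓ ≤ ℓ') {P P' : List M} (hP : PStep r ℓ S P P') :
    PStep r ℓ' S P P' :=
  ⟨good_mono h hP.1, good_mono h hP.2.1, hP.2.2⟩

lemma pstep_symm {r ℓ : ℝ} {S : Set M} {P P' : List M} (hP : PStep r ℓ S P P') :
    PStep r ℓ S P' P :=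
  ⟨hP.2.1, hP.1, hP.2.2.symm⟩

/-- connected through good polygons -/
abbrev Cn (r ℓ : ℝ) (S : Set M) : List M → List M → Prop := Relation.ReflTransGen (PStep r ℓ S)

lemma cn_mono {r ℓ ℓ' : ℝ} {S : Set M} (h : ℓ ≤ ℓ') {P P' : List M} (hP : Cn r ℓ S P P') :
    Cn r ℓ' S P P' := by
  induction hP with
  | refl => exact Relation.ReflTransGen.refl
  | tail _ h2 ih => exact ih.tail (pstep_mono h h2)

lemma cn_symm {r ℓ : ℝ} {S : Set M} {P P' : List M} (hP : Cn r ℓ S P P') : Cn r ℓ S P' P := by
  induction hP with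
  | refl => exact Relation.ReflTransGen.refl
  | tail _ h2 ih => exact ih.head (pstep_symm h2)

lemma good_rot1 {r ℓ : ℝ} {S : Set M} {x : M} {l : List M} (h : Good r ℓ S (x :: l)) :
    Good r ℓ S (l ++ [x]) := by
  cases l with
  | nil => exact h
  | cons y l =>
    rw [good_iff ⟨_, rfl⟩] at h
    obtain ⟨h1, h2, h3⟩ := h
    refine (good_iff (x := y) ⟨l ++ [x], rfl⟩).2 ⟨?_, ?_, ?_⟩
    · have e : y :: (l ++ [x]) ++ [y] = (y :: l) ++ x :: [y] := by simp
      rw [e, List.isChain_split]
      have e2 : (x :: y :: l) ++ [x] = x :: y :: (l ++ [x]) := by simp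
      rw [e2, List.isChain_cons_cons] at h1
      refine ⟨h1.2, ?_⟩
      rw [List.isChain_cons_cons]
      exact ⟨h1.1, List.isChain_singleton _⟩
    · have e : y :: (l ++ [x]) ++ [y] = (y :: l) ++ x :: [y] := by simp
      rw [e, chl_append]
      have e2 : (x :: y :: l) ++ [x] = x :: y :: (l ++ [x]) := by simp
      rw [e2, chl_cons_cons] at h2
      have e3 : chl [x, y] = dist x y := by simp [chl]
      rw [e3]
      have e4 : (y :: l) ++ [x] = y :: (l ++ [x]) := rfl
      rw [e4]
      linarith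
    · intro z hz
      apply h3
      simp only [List.mem_append, List.mem_cons] at hz ⊢
      tauto

lemma good_rot {r ℓ : ℝ} {S : Set M} : ∀ (u v : List M), Good r ℓ S (u ++ v) → Good r ℓ S (v ++ u)
  | [], v, h => by simpa using h
  | a :: u, v, h => by
    have h1 : Good r ℓ S ((u ++ v) ++ [a]) := good_rot1 h
    have h2 := good_rot u (v ++ [a]) (by simpa using h1)
    simpa using h2

lemma cn_rot {r ℓ : ℝ} {S : Set M} :
    ∀ (u v : List M), Good r ℓ S (u ++ v) → Cn r ℓ S (u ++ v) (v ++ u)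
  | [], v, h => by
    rw [List.nil_append, List.append_nil]
  | a :: u, v, h => by
    have h1 : Good r ℓ S ((u ++ v) ++ [a]) := good_rot1 h
    have h2 := cn_rot u (v ++ [a]) (by simpa using h1)
    have h3 : PStep r ℓ S (a :: u ++ v) ((u ++ v) ++ [a]) := ⟨h, h1, Or.inl (PMove.rot a (u ++ v))⟩
    have h4 : (u ++ v) ++ [a] = u ++ (v ++ [a]) := by simp
    rw [h4] at h3
    have h5 : (v ++ [a]) ++ u = v ++ a :: u := by simp
    rw [h5] at h2
    exact Relation.ReflTransGen.head h3 h2

lemma cn_ins {r ℓ : ℝ} {S : Set M} (u v : List M) (a y : M) (h1 : Good r ℓ S (u ++ a :: v))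
    (h2 : Good r ℓ S (u ++ a :: y :: v)) : Cn r ℓ S (u ++ a :: v) (u ++ a :: y :: v) := by
  have h3 := cn_rot u (a :: v) h1
  have h4 := cn_rot u (a :: y :: v) h2
  have h5 : PStep r ℓ S (a :: v ++ u) (a :: y :: v ++ u) :=
    ⟨good_rot _ _ h1, good_rot _ _ h2, Or.inl (PMove.ins a y (v ++ u))⟩
  exact (h3.tail h5).trans (cn_symm h4)

lemma del_all {r ℓ : ℝ} {S : Set M} (a : M) (u v : List M) (x : M) (hx : ∃ l, u ++ [a] = x :: l)
    (hc : ∀ c l, v ++ [x] = c :: l → dist a c ≤ r) : ∀ L : List M,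
    Good r ℓ S (u ++ a :: (L ++ v)) → (∀ q ∈ L, dist a q ≤ r) →
    Good r ℓ S (u ++ a :: v) ∧ Cn r ℓ S (u ++ a :: (L ++ v)) (u ++ a :: v)
  | [], h, _ => ⟨h, Relation.ReflTransGen.refl⟩
  | q :: L, h, hL => by
    have hx' : ∀ w : List M, ∃ l, u ++ a :: w = x :: l := by
      intro w
      obtain ⟨l, hl⟩ := hx
      refine ⟨l ++ w, ?_⟩
      rw [← List.cons_append, ← hl]
      simp
    have h0 := h
    rw [good_iff (hx' _)] at h
    obtain ⟨h1, h2, h3⟩ := h
    obtain ⟨c, l, hcl⟩ : ∃ c l, (L ++ v) ++ [x] = c :: l := by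
      cases hh : (L ++ v) ++ [x] with
      | nil => simp at hh
      | cons c l => exact ⟨c, l, rfl⟩
    have hac : dist a c ≤ r := by
      cases L with
      | nil => exact hc c l hcl
      | cons q' L' =>
        simp only [List.cons_append, List.cons.injEq] at hcl
        rw [← hcl.1]
        exact hL q' (by simp)
    have e1 : (u ++ a :: (q :: L ++ v)) ++ [x] = u ++ a :: q :: (c :: l) := by
      rw [← hcl]
      simp
    have e2 : (u ++ a :: (L ++ v)) ++ [x] = u ++ a :: (c :: l) := by
      rw [← hcl]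
      simp
    have hg : Good r ℓ S (u ++ a :: (L ++ v)) := by
      rw [good_iff (hx' _), e2]
      rw [e1] at h1 h2
      refine ⟨?_, ?_, ?_⟩
      · rw [List.isChain_split] at h1 ⊢
        rw [List.isChain_cons_cons, List.isChain_cons_cons] at h1
        rw [List.isChain_cons_cons]
        exact ⟨h1.1, hac, h1.2.2.2⟩
      · rw [chl_append, chl_cons_cons, chl_cons_cons] at h2
        rw [chl_append, chl_cons_cons]
        have := dist_triangle a q c
        linarith
      · intro y hy
        apply h3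
        simp only [List.mem_append, List.mem_cons, List.cons_append] at hy ⊢
        tauto
    have ih := del_all a u v x hx hc L hg (fun q' hq' => hL q' (List.mem_cons_of_mem _ hq'))
    refine ⟨ih.1, ?_⟩
    refine Relation.ReflTransGen.trans ?_ ih.2
    exact cn_symm (cn_ins u (L ++ v) a q hg h0)

end Poly

section Walks0

variable {M : Type u} {D Λ : Type u} [LinearOrder Λ] {G : Rib D M Λ}

lemma walk_append {x z : M} {u v : List D} :
    Walk G x z (u ++ v) ↔ ∃ y, Walk G x y u ∧ Walk G y z v := by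
  induction u generalizing x with
  | nil =>
    constructor
    · intro h
      exact ⟨x, rfl, h⟩
    · rintro ⟨y, h1, h2⟩
      have h1' : x = y := h1
      rw [h1']
      exact h2
  | cons d u ih =>
    constructor
    · rintro ⟨h1, h2⟩
      obtain ⟨y, h3, h4⟩ := ih.1 h2
      exact ⟨y, ⟨h1, h3⟩, h4⟩
    · rintro ⟨y, ⟨h1, h3⟩, h4⟩
      exact ⟨h1, ih.2 ⟨y, h3, h4⟩⟩

lemma walk_unique {x y z : M} {u : List D} (h1 : Walk G x y u) (h2 : Walk G x z u) : y = z := by
  induction u generalizing x with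
  | nil =>
    have h1' : x = y := h1
    have h2' : x = z := h2
    rw [← h1', ← h2']
  | cons d u ih => exact ih h1.2 h2.2

lemma walk_start {x x' y y' : M} {u : List D} (hu : u ≠ []) (h1 : Walk G x y u)
    (h2 : Walk G x' y' u) : x = x' := by
  cases u with
  | nil => exact absurd rfl hu
  | cons d u => rw [← h1.1, ← h2.1]

/-- the vertices of a walk -/
def vs (G : Rib D M Λ) (x : M) (b : List D) : List M := x :: b.map G.hd

lemma walk_end_mem {x y : M} {u : List D} (h : Walk G x y u) : y ∈ vs G x u := by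
  induction u generalizing x with
  | nil =>
    have h' : x = y := h
    rw [h']
    exact List.mem_cons_self
  | cons d u ih =>
    have := ih h.2
    unfold vs at this ⊢
    rw [List.map_cons]
    exact List.mem_cons_of_mem _ this

lemma vs_append_left {x p : M} {b c : List D} (hp : p ∈ vs G x b) : p ∈ vs G x (b ++ c) := by
  unfold vs at hp ⊢
  rw [List.map_append, ← List.cons_append]
  exact List.mem_append_left _ hp

lemma vs_append_right {x y p : M} {b c : List D} (h : Walk G x y b) (hp : p ∈ vs G y c) :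
    p ∈ vs G x (b ++ c) := by
  unfold vs at hp
  rcases List.mem_cons.1 hp with rfl | hp
  · exact vs_append_left (walk_end_mem h)
  · unfold vs
    rw [List.map_append]
    exact List.mem_cons_of_mem _ (List.mem_append_right _ hp)

lemma vs_mem {K' : Set M} (hK' : ∀ d, G.tl d ∈ K') {x : M} (hx : x ∈ K') {w : List D} {p : M}
    (hp : p ∈ vs G x w) : p ∈ K' := by
  unfold vs at hp
  rcases List.mem_cons.1 hp with rfl | hp
  · exact hx
  · obtain ⟨d, _, rfl⟩ := List.mem_map.1 hp
    exact hK' _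

end Walks0

section Walks

variable {M : Type u} [MetricSpace M] {D Λ : Type u} [LinearOrder Λ] {G : Rib D M Λ}

lemma small_left {r : ℝ} {x : M} {b c : List D} (h : SmallW G r x (b ++ c)) : SmallW G r x b :=
  fun p hp q hq => h p (vs_append_left hp) q (vs_append_left hq)

lemma small_right {r : ℝ} {x y : M} {b c : List D} (hw : Walk G x y b)
    (h : SmallW G r x (b ++ c)) : SmallW G r y c :=
  fun p hp q hq => h p (vs_append_right hw hp) q (vs_append_right hw hq)

lemma small_dist {r : ℝ} {x y : M} {b : List D} (hw : Walk G x y b) (h : SmallW G r x b) :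
    dist x y ≤ r := h x List.mem_cons_self y (walk_end_mem hw)

lemma small_nonneg {r : ℝ} {x : M} {b : List D} (h : SmallW G r x b) : 0 ≤ r := by
  have := h x List.mem_cons_self x List.mem_cons_self
  rwa [dist_self] at this

lemma bw_walk {r : ℝ} {x z : M} {w : List D} {P : List M} (h : BW G r x z w P) :
    Walk G x z w := by
  induction h with
  | nil x => rfl
  | cons x y z b w P h1 h2 h3 ih => exact walk_append.2 ⟨y, h1, ih⟩

lemma bw_append {r : ℝ} {x y z : M} {w w' : List D} {P P' : List M} (h : BW G r x y w P)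
    (h' : BW G r y z w' P') : BW G r x z (w ++ w') (P ++ P') := by
  induction h with
  | nil x => exact h'
  | cons x y z b w P h1 h2 h3 ih =>
    rw [List.append_assoc, List.cons_append]
    exact BW.cons _ _ _ _ _ _ h1 h2 (ih h')

lemma bw_head {r : ℝ} {x z : M} {w : List D} {P : List M} (h : BW G r x z w P) :
    ∃ l, P ++ [z] = x :: l := by
  cases h with
  | nil x => exact ⟨[], rfl⟩
  | cons x y z b w P h1 h2 h3 => exact ⟨P ++ [z], rfl⟩

lemma bw_one {r : ℝ} {x y : M} {b : List D} (h1 : Walk G x y b) (h2 : SmallW G r x b) :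
    BW G r x y b [x] := by
  have := BW.cons x y y b [] [] h1 h2 (BW.nil y)
  rwa [List.append_nil] at this

lemma bw_chain {r : ℝ} {x z : M} {w : List D} {P : List M} (h : BW G r x z w P) :
    List.IsChain (Rr r) (P ++ [z]) := by
  induction h with
  | nil x => exact List.isChain_singleton _
  | cons x y z b w P h1 h2 h3 ih =>
    obtain ⟨l, hl⟩ := bw_head h3
    rw [List.cons_append, hl, List.isChain_cons_cons, ← hl]
    exact ⟨small_dist h1 h2, ih⟩

lemma bw_mem {r : ℝ} {x z : M} {w : List D} {P : List M} (h : BW G r x z w P) :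
    ∀ p ∈ P ++ [z], p ∈ vs G x w := by
  induction h with
  | nil x => intro p hp; exact hp
  | cons x y z b w P h1 h2 h3 ih =>
    intro p hp
    rw [List.cons_append, List.mem_cons] at hp
    rcases hp with rfl | hp
    · exact List.mem_cons_self
    · exact vs_append_right h1 (ih p hp)

lemma good_bw {r ℓ : ℝ} {K' : Set M} (hK' : ∀ d, G.tl d ∈ K') {x : M} (hx : x ∈ K')
    {w : List D} {P : List M} (hP : P ≠ []) (h : BW G r x x w P) (hl : chl (P ++ [x]) < ℓ) :
    Good r ℓ K' P := by
  have h0 : ∃ l, P = x :: l := by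
    cases h with
    | nil x => exact absurd rfl hP
    | cons x y z b w P h1 h2 h3 => exact ⟨P, rfl⟩
  rw [good_iff h0]
  exact ⟨bw_chain h, hl, fun p hp => vs_mem hK' hx (bw_mem h p (List.mem_append_left _ hp))⟩

/-- splitting of a block decomposition -/
lemma bw_split {r : ℝ} {s t : M} {w : List D} {C : List M} (h : BW G r s t w C) :
    ∀ a c : List D, w = a ++ c → (C = [] ∧ a = [] ∧ c = []) ∨
      ∃ (C1 : List M) (p : M) (C2 : List M) (wa b1 b2 wc : List D) (y p' : M),
        C = C1 ++ p :: C2 ∧ BW G r s p wa C1 ∧ Walk G p y b1 ∧ Walk G y p' b2 ∧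
        SmallW G r p (b1 ++ b2) ∧ BW G r p' t wc C2 ∧ a = wa ++ b1 ∧ c = b2 ++ wc := by
  induction h with
  | nil x =>
    intro a c h
    left
    have := List.append_eq_nil_iff.1 h.symm
    exact ⟨rfl, this.1, this.2⟩
  | cons s p'' t b w P h1 h2 h3 ih =>
    intro a c h
    right
    rcases List.append_eq_append_iff.1 h with ⟨a'', h4, h5⟩ | ⟨c', h4, h5⟩
    · -- `a = b ++ a''`, `w = a'' ++ c`
      rcases ih a'' c h5 with ⟨h6, h7, h8⟩ | ⟨C1, p, C2, wa, b1, b2, wc, y, p', h6, h7, h8, h9,
        h10, h11, h12, h13⟩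
      · subst h6 h7 h8
        refine ⟨[], s, [], [], b, [], [], p'', p'', rfl, BW.nil s, h1, rfl, ?_, ?_, ?_, rfl⟩
        · rwa [List.append_nil]
        · have h5' : w = [] := h5
          rwa [h5'] at h3
        · rw [h4, List.append_nil, List.nil_append]
      · refine ⟨s :: C1, p, C2, b ++ wa, b1, b2, wc, y, p', ?_, ?_, h8, h9, h10, h11, ?_, h13⟩
        · rw [h6, List.cons_append]
        · exact BW.cons _ _ _ _ _ _ h1 h2 h7
        · rw [h4, h12, List.append_assoc]
    · -- `b = a ++ c'`, `c = c' ++ w`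
      subst h4
      obtain ⟨y, h6, h7⟩ := walk_append.1 h1
      exact ⟨[], s, P, [], a, c', w, y, p'', rfl, BW.nil s, h6, h7, h2, h3, rfl, h5⟩

lemma bw_head' {r : ℝ} {x z : M} {w : List D} {P : List M} (h : BW G r x z w P) (hP : P ≠ []) :
    ∃ l, P = x :: l := by
  cases h with
  | nil x => exact absurd rfl hP
  | cons x y z b w P h1 h2 h3 => exact ⟨P, rfl⟩

/-- the mixed polygons are good -/
lemma mix_good {r m σ : ℝ} {K' : Set M} (hK' : ∀ d, G.tl d ∈ K') {x : M} (hx : x ∈ K')
    {w : List D} {PP : List M}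
    (hopt : ∀ T, BW G r x x w T → chl (PP ++ [x]) ≤ chl (T ++ [x]) + r)
    (hσ : σ < m) {y : M} {wr : List D} {P' : List M} (h : BW G r y x wr P')
    {A B C : List M} {wl wa b' b'' wc : List D} {pj pk : M} (e1 : PP = A ++ P')
    (hA : BW G r x y wl A) (e2 : w = wl ++ wr) (e3 : wl = wa ++ b') (hB : BW G r x pj wa B)
    (h1 : Walk G pj y b') (h2 : Walk G y pk b'') (h3 : SmallW G r pj (b' ++ b''))
    (hC : BW G r pk x wc C) (e5 : σ = chl (B ++ pj :: (C ++ [x]))) :
    chl ((A ++ y :: C) ++ [x]) < m + 3 * r ∧ Good r (m + 3 * r) K' (A ++ y :: C) := by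
  have hlen : chl ((A ++ y :: C) ++ [x]) < m + 3 * r := by
    obtain ⟨l', hl'⟩ := bw_head h
    obtain ⟨l'', hl''⟩ := bw_head hC
    have hT : BW G r x x w ((B ++ [pj]) ++ P') := by
      rw [e2, e3]
      exact bw_append (bw_append hB (bw_one h1 (small_left h3))) h
    have h4 := hopt _ hT
    have e6 : PP ++ [x] = A ++ y :: l' := by
      rw [e1, List.append_assoc, hl']
    have e7 : ((B ++ [pj]) ++ P') ++ [x] = B ++ pj :: y :: l' := by
      rw [List.append_assoc, hl']
      simp
    rw [e6, e7, chl_append y l' A, chl_append pj (y :: l') B, chl_cons_cons] at h4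
    have e8 : (A ++ y :: C) ++ [x] = A ++ y :: pk :: l'' := by
      rw [← hl'']
      simp
    rw [e8, chl_append, chl_cons_cons]
    rw [hl'', chl_append, chl_cons_cons] at e5
    have h5 := small_dist h1 (small_left h3)
    have h6 := small_dist h2 (small_right h1 h3)
    have h7 : (0 : ℝ) ≤ dist pj pk := dist_nonneg
    linarith
  refine ⟨hlen, ?_⟩
  refine good_bw hK' hx (by simp) (bw_append hA (BW.cons _ _ _ _ _ _ h2 (small_right h1 h3) hC))
    hlen

/-- two decompositions of the same walk, one of them nearly optimal -/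
lemma mix {r m σ : ℝ} {K' : Set M} (hK' : ∀ d, G.tl d ∈ K') {x : M} (hx : x ∈ K')
    {w : List D} {PP : List M}
    (hopt : ∀ T, BW G r x x w T → chl (PP ++ [x]) ≤ chl (T ++ [x]) + r) (hPP : PP ≠ [])
    (hσ : σ < m) {y x' : M} {wr : List D} {P' : List M} (h : BW G r y x' wr P') : x' = x →
    ∀ (A B C : List M) (wl wa b' b'' wc : List D) (pj pk : M), PP = A ++ P' → BW G r x y wl A →
      w = wl ++ wr → wl = wa ++ b' → wr = b'' ++ wc → BW G r x pj wa B → Walk G pj y b' →
      Walk G y pk b'' → SmallW G r pj (b' ++ b'') → BW G r pk x wc C →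
      σ = chl (B ++ pj :: (C ++ [x])) →
      Cn r (m + 5 * r) K' (A ++ y :: C) PP := by
  induction h with
  | nil y =>
    intro hyx A B C wl wa b' b'' wc pj pk e1 hA e2 e3 e4 hB h1 h2 h3 hC e5
    subst hyx
    have hg := (mix_good hK' hx hopt hσ (BW.nil y) e1 hA e2 e3 hB h1 h2 h3 hC e5).2
    have hr : 0 ≤ r := small_nonneg h3
    rw [List.append_nil] at e1
    obtain ⟨e6, e7⟩ := List.append_eq_nil_iff.1 e4.symm
    subst e6 e7
    have h2' : y = pk := h2
    subst h2'
    have hCy : ∀ q ∈ C, q = y := by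
      intro q hq
      have := bw_mem hC q (List.mem_append_left _ hq)
      unfold vs at this
      simpa using this
    rw [e1] at hPP ⊢
    obtain ⟨A', a, hA'⟩ : ∃ A' a, A = A' ++ [a] :=
      ⟨A.dropLast, A.getLast hPP, (List.dropLast_append_getLast hPP).symm⟩
    have hch := bw_chain hA
    obtain ⟨l, hl⟩ := bw_head' hA hPP
    rw [hA', List.append_assoc, List.singleton_append, List.isChain_split,
      List.isChain_cons_cons] at hch
    have hay : dist a y ≤ r := hch.2.1
    have hdel := del_all (r := r) (ℓ := m + 5 * r) (S := K') a A' [] y ⟨l, by rw [← hA', hl]⟩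
      (by
        intro c l hcl
        simp only [List.nil_append, List.cons.injEq] at hcl
        rw [← hcl.1]
        exact hay) (y :: C) (by
          have := good_mono (ℓ' := m + 5 * r) (by linarith) hg
          rw [hA'] at this
          simpa using this) (by
          intro q hq
          rcases List.mem_cons.1 hq with rfl | hq
          · exact hay
          · rw [hCy q hq]
            exact hay)
    have := hdel.2
    rw [hA']
    simpa using this
  | cons y y' x' b w' P'' g1 g2 g3 ih =>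
    intro hxx A B C wl wa b' b'' wc pj pk e1 hA e2 e3 e4 hB h1 h2 h3 hC e5
    subst hxx
    have ih := ih rfl
    have hr : 0 ≤ r := small_nonneg h3
    have hgood := mix_good hK' hx hopt hσ (BW.cons _ _ _ _ _ _ g1 g2 g3) e1 hA e2 e3 hB h1 h2 h3
      hC e5
    have hAy : BW G r x' y' (wl ++ b) (A ++ [y]) := bw_append hA (bw_one g1 g2)
    have e1' : PP = (A ++ [y]) ++ P'' := by
      rw [e1]
      simp
    have e2' : w = (wl ++ b) ++ w' := by
      rw [e2, List.append_assoc]
    have key2 : ∀ c' : List D, b'' = b ++ c' → w' = c' ++ wc →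
        Cn r (m + 5 * r) K' (A ++ y :: C) PP := by
      intro c' e6 e7
      rw [e6] at h2 h3
      obtain ⟨y1, h5, h6⟩ := walk_append.1 h2
      have hy1 : y1 = y' := walk_unique h5 g1
      rw [hy1] at h5 h6
      have e3' : wl ++ b = wa ++ (b' ++ b) := by
        rw [e3, List.append_assoc]
      have h1' : Walk G pj y' (b' ++ b) := walk_append.2 ⟨y, h1, h5⟩
      have h3' : SmallW G r pj ((b' ++ b) ++ c') := by
        rwa [List.append_assoc]
      have h7 := ih (A ++ [y]) B C (wl ++ b) wa (b' ++ b) c' wc pj pk e1' hAy e2' e3' e7 hB h1' h6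
        h3' hC e5
      have h8 := mix_good hK' hx hopt hσ g3 e1' hAy e2' e3' hB h1' h6 h3' hC e5
      have e8 : (A ++ [y]) ++ y' :: C = A ++ y :: y' :: C := by simp
      rw [e8] at h7 h8
      exact (cn_ins A C y y' (good_mono (by linarith) hgood.2)
        (good_mono (by linarith) h8.2)).trans h7
    rcases List.append_eq_append_iff.1 e4 with ⟨c', e6, e7⟩ | ⟨a', e6, e7⟩
    · exact key2 c' e6 e7
    · rcases bw_split hC a' w' e7 with ⟨e8, e9, e10⟩ | ⟨C1, p, C2, wa', b1, b2, wc', y1, p', e8,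
        g4, g5, g6, g7, g8, e9, e10⟩
      · refine key2 [] ?_ ?_
        · rw [e6, e9]
          simp
        · rw [e7, e9, e10]
          rfl
      · have hy1 : y1 = y' := by
          refine walk_unique (G := G) (x := y) (u := b) ?_ g1
          rw [e6, e9]
          exact walk_append.2 ⟨pk, h2, walk_append.2 ⟨p, bw_walk g4, g5⟩⟩
        subst hy1
        have e3' : wl ++ b = (wa ++ ((b' ++ b'') ++ wa')) ++ b1 := by
          rw [e3, e6, e9]
          simp only [List.append_assoc]
        have hpk : Walk G pj pk (b' ++ b'') := walk_append.2 ⟨y, h1, h2⟩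
        have hB' : BW G r x' p (wa ++ ((b' ++ b'') ++ wa')) (B ++ pj :: C1) :=
          bw_append hB (BW.cons _ _ _ _ _ _ hpk h3 g4)
        have e5' : σ = chl ((B ++ pj :: C1) ++ p :: (C2 ++ [x'])) := by
          rw [e5, e8]
          congr 1
          simp
        have h7 := ih (A ++ [y]) (B ++ pj :: C1) C2 (wl ++ b) (wa ++ ((b' ++ b'') ++ wa')) b1 b2
          wc' p p' e1' hAy e2' e3' e10 hB' g5 g6 g7 g8 e5'
        have e11 : (A ++ [y]) ++ y1 :: C2 = A ++ y :: y1 :: C2 := by simp
        rw [e11] at h7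
        refine Relation.ReflTransGen.trans ?_ h7
        -- the long polygon
        have e12 : A ++ y :: C = (A ++ y :: C1) ++ p :: C2 := by
          rw [e8]
          simp
        have e13 : A ++ y :: ((C1 ++ [p]) ++ y1 :: C2) = (A ++ y :: C1) ++ p :: y1 :: C2 := by
          simp
        obtain ⟨l, hl⟩ := bw_head g8
        have hlong : chl (((A ++ y :: C1) ++ p :: y1 :: C2) ++ [x']) < m + 5 * r := by
          have h9 := hgood.1
          rw [e12] at h9
          have e14 : ((A ++ y :: C1) ++ p :: C2) ++ [x'] = (A ++ y :: C1) ++ p :: p' :: l := by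
            rw [← hl]
            simp
          have e15 : ((A ++ y :: C1) ++ p :: y1 :: C2) ++ [x'] =
              (A ++ y :: C1) ++ p :: y1 :: p' :: l := by
            rw [← hl]
            simp
          rw [e14, chl_append, chl_cons_cons] at h9
          rw [e15, chl_append, chl_cons_cons, chl_cons_cons]
          have h10 := small_dist g5 (small_left g7)
          have h11 := small_dist g6 (small_right g5 g7)
          have h12 : (0 : ℝ) ≤ dist p p' := dist_nonneg
          linarith
        have hbwlong : BW G r x' x' (wl ++ (b'' ++ (wa' ++ (b1 ++ (b2 ++ wc')))))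
            (A ++ y :: (C1 ++ p :: y1 :: C2)) :=
          bw_append hA (BW.cons _ _ _ _ _ _ h2 (small_right h1 h3) (bw_append g4
            (BW.cons _ _ _ _ _ _ g5 (small_left g7) (BW.cons _ _ _ _ _ _ g6
              (small_right g5 g7) g8))))
        have e16 : A ++ y :: (C1 ++ p :: y1 :: C2) = (A ++ y :: C1) ++ p :: y1 :: C2 := by simp
        rw [e16] at hbwlong
        have hglong : Good r (m + 5 * r) K' ((A ++ y :: C1) ++ p :: y1 :: C2) :=
          good_bw hK' hx (by simp) hbwlong hlong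
        have s1 : Cn r (m + 5 * r) K' (A ++ y :: C) ((A ++ y :: C1) ++ p :: y1 :: C2) := by
          rw [e12]
          refine cn_ins _ _ _ _ ?_ hglong
          have := good_mono (ℓ' := m + 5 * r) (by linarith) hgood.2
          rwa [e12] at this
        have s2 := (del_all (r := r) (ℓ := m + 5 * r) (S := K') y A (y1 :: C2) x' (bw_head hA)
          (by
            intro c l hcl
            simp only [List.cons_append, List.cons.injEq] at hcl
            rw [← hcl.1]
            exact small_dist g1 g2) (C1 ++ [p]) (by rw [e13]; exact hglong) (by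
            intro q hq
            have h13 := bw_mem g4 q hq
            refine g2 y List.mem_cons_self q ?_
            have h14 := vs_append_left (c := b1) h13
            have h15 := vs_append_right h2 h14
            have e17 : b'' ++ (wa' ++ b1) = b := by rw [e6, e9]
            rwa [e17] at h15)).2
        rw [e13] at s2
        exact s1.trans s2

/-- change of the base point -/
lemma rot_struct {r m : ℝ} {K' : Set M} (hK' : ∀ d, G.tl d ∈ K') {x : M} (hx : x ∈ K')
    {a c : List D} {P : List M} (hne : P ≠ []) (h : BW G r x x (a ++ c) P)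
    (hl : chl (P ++ [x]) < m) :
    ∃ (y : M) (Q : List M), y ∈ K' ∧ Q ≠ [] ∧ BW G r y y (c ++ a) Q ∧
      chl (Q ++ [y]) < m + 2 * r ∧ Cn r (m + 2 * r) K' P Q := by
  have hgP : Good r m K' P := good_bw hK' hx hne h hl
  rcases bw_split h a c rfl with ⟨e1, _⟩ | ⟨C1, p, C2, wa, b1, b2, wc, y, p', e1, g1, g2, g3, g4,
    g5, e2, e3⟩
  · exact absurd e1 hne
  have hr : 0 ≤ r := small_nonneg g4
  have hp : p ∈ K' := by
    refine vs_mem hK' hx (bw_mem h p ?_)
    rw [e1]
    simp
  have hy : y ∈ K' := vs_mem hK' hp (walk_end_mem g2)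
  have hbw : BW G r y y (c ++ a) (y :: (C2 ++ (C1 ++ [p]))) := by
    have := BW.cons _ _ _ _ _ _ g3 (small_right g2 g4)
      (bw_append g5 (bw_append g1 (bw_one g2 (small_left g4))))
    rw [e2, e3]
    have e4 : b2 ++ wc ++ (wa ++ b1) = b2 ++ (wc ++ (wa ++ b1)) := by simp
    rw [e4]
    exact this
  obtain ⟨l1, hl1⟩ := bw_head g1
  obtain ⟨l2, hl2⟩ := bw_head g5
  have d1 := small_dist g2 (small_left g4)
  have d2 := small_dist g3 (small_right g2 g4)
  have hlen : chl ((y :: (C2 ++ (C1 ++ [p]))) ++ [y]) < m + 2 * r := by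
    have e5 : (y :: (C2 ++ (C1 ++ [p]))) ++ [y] = (y :: C2) ++ x :: (l1 ++ [y]) := by
      rw [hl1]
      simp
    have e6 : (y :: C2) ++ [x] = y :: p' :: l2 := by
      rw [List.cons_append, hl2]
    have e7 : x :: (l1 ++ [y]) = C1 ++ p :: [y] := by
      rw [← List.cons_append, ← hl1]
      simp
    have e8 : P ++ [x] = C1 ++ p :: p' :: l2 := by
      rw [e1, ← hl2]
      simp
    rw [e8, chl_append, chl_cons_cons] at hl
    rw [e5, chl_append, e6, e7, chl_append p [y] C1, chl_cons_cons, chl_cons_cons]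
    have : chl [y] = 0 := rfl
    have d3 : (0 : ℝ) ≤ dist p p' := dist_nonneg
    linarith
  refine ⟨y, y :: (C2 ++ (C1 ++ [p])), hy, by simp, hbw, hlen, ?_⟩
  have hgQ : Good r (m + 2 * r) K' (y :: (C2 ++ (C1 ++ [p]))) :=
    good_bw hK' hy (by simp) hbw hlen
  have e9 : y :: (C2 ++ (C1 ++ [p])) = (y :: C2) ++ (C1 ++ [p]) := rfl
  rw [e9] at hgQ ⊢
  have hgR := good_rot _ _ hgQ
  have e10 : (C1 ++ [p]) ++ (y :: C2) = C1 ++ p :: y :: C2 := by simp
  have s1 := cn_rot _ _ hgR
  rw [e10] at hgR s1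
  have s2 : Cn r (m + 2 * r) K' P (C1 ++ p :: y :: C2) := by
    rw [e1]
    refine cn_ins _ _ _ _ ?_ hgR
    have := good_mono (ℓ' := m + 2 * r) (by linarith) hgP
    rwa [e1] at this
  exact s2.trans s1

lemma rotated_split {w w' : List D} (h : w ~r w') : ∃ a c, w = a ++ c ∧ w' = c ++ a := by
  obtain ⟨n, hn⟩ := h
  rw [← List.rotate_mod] at hn
  by_cases hw : w = []
  · subst hw
    refine ⟨[], [], rfl, ?_⟩
    rw [← hn]
    simp
  · have hlen : 0 < w.length := List.length_pos_iff.2 hw
    rw [List.rotate_eq_drop_append_take (Nat.mod_lt _ hlen).le] at hn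
    exact ⟨w.take (n % w.length), w.drop (n % w.length), (List.take_append_drop _ _).symm, hn.symm⟩

lemma bw_ne {r : ℝ} {x z : M} {w : List D} {P : List M} (h : BW G r x z w P) (hw : w ≠ []) :
    P ≠ [] := by
  cases h with
  | nil x => exact absurd rfl hw
  | cons x y z b w P h1 h2 h3 => exact List.cons_ne_nil _ _

/-- two decompositions of a closed word, the second one being nearly optimal -/
lemma conn2 {r m : ℝ} {K' : Set M} (hK' : ∀ d, G.tl d ∈ K') {w1 w2 : List D} (hw : w1 ≠ [])
    (hrot : w1 ~r w2) {x x' : M} {P P' : List M} (hx : x ∈ K')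
    (h : BW G r x x w1 P) (hl : chl (P ++ [x]) < m) (h' : BW G r x' x' w2 P')
    (hopt : ∀ T, BW G r x' x' w2 T → chl (P' ++ [x']) ≤ chl (T ++ [x']) + r) :
    Cn r (m + 7 * r) K' P P' := by
  obtain ⟨a, c, e1, e2⟩ := rotated_split hrot
  have hw2 : w2 ≠ [] := by
    intro h0
    apply hw
    rw [h0] at e2
    obtain ⟨h1, h2⟩ := List.append_eq_nil_iff.1 e2.symm
    rw [e1, h1, h2]
    rfl
  rw [e1] at h
  obtain ⟨y, Q, hy, hQ, hbw, hlen, hcn⟩ := rot_struct hK' hx (bw_ne h (by rwa [← e1])) h hl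
  rw [← e2] at hbw
  have hyx : y = x' := walk_start hw2 (bw_walk hbw) (bw_walk h')
  subst hyx
  have hP' := bw_ne h' hw2
  cases hbw with
  | nil x => exact absurd rfl hw2
  | cons x pk z b wc C g1 g2 g3 =>
    have hr : 0 ≤ r := small_nonneg g2
    have := mix (m := m + 2 * r) hK' hy hopt hP' hlen h' rfl [] [] C [] [] [] b wc y pk rfl
      (BW.nil y) rfl rfl rfl (BW.nil y) rfl g1 g2 g3 rfl
    exact (cn_mono (by linarith) hcn).trans (cn_mono (by linarith) this)

/-- near-optimal decompositions -/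
lemma nearopt {r ℓ : ℝ} (hr : 0 < r) {w : List D} (h : Rl G r ℓ 0 w) :
    ∃ (w' : List D) (x : M) (P : List M), w ~r w' ∧ BW G r x x w' P ∧ chl (P ++ [x]) < ℓ ∧
      ∀ (w'' : List D) (x' : M) (T : List M), w ~r w'' → BW G r x' x' w'' T →
        chl (P ++ [x]) ≤ chl (T ++ [x']) + r := by
  set S : Set ℝ := {σ | ∃ (w' : List D) (x : M) (P : List M), w ~r w' ∧ BW G r x x w' P ∧
    σ = chl (P ++ [x])} with hS
  have hbd : BddBelow S := ⟨0, by
    rintro σ ⟨w', x, P, _, _, rfl⟩
    exact chl_nonneg _⟩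
  obtain ⟨k, x, P, h1, h2⟩ := h
  have hmem : chl (P ++ [x]) ∈ S := ⟨w.rotate k, x, P, ⟨k, rfl⟩, h1, rfl⟩
  have h3 : sInf S < min (sInf S + r) ℓ := by
    refine lt_min (by linarith) (lt_of_le_of_lt (csInf_le hbd hmem) ?_)
    simpa using h2
  obtain ⟨σ, ⟨w', x', P', h4, h5, h6⟩, h7⟩ := exists_lt_of_csInf_lt ⟨_, hmem⟩ h3
  refine ⟨w', x', P', h4, h5, ?_, ?_⟩
  · rw [← h6]
    exact h7.trans_le (min_le_right _ _)
  · intro w'' x'' T h8 h9
    rw [← h6]
    have h10 : sInf S ≤ chl (T ++ [x'']) := csInf_le hbd ⟨w'', x'', T, h8, h9, rfl⟩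
    have h11 := h7.trans_le (min_le_left _ _)
    linarith

omit [MetricSpace M] in
lemma vs_tl {x y p : M} {w : List D} (h : Walk G x y w) (hp : p ∈ vs G x w) :
    p = y ∨ ∃ c ∈ w, p = G.tl c := by
  induction w generalizing x with
  | nil =>
    have h' : x = y := h
    left
    unfold vs at hp
    rw [List.map_nil, List.mem_singleton] at hp
    rw [hp, h']
  | cons d w ih =>
    unfold vs at hp
    rw [List.map_cons, List.mem_cons] at hp
    rcases hp with rfl | hp
    · right
      exact ⟨d, List.mem_cons_self, h.1.symm⟩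
    · rcases ih h.2 hp with h1 | ⟨c, hc, h1⟩
      · left; exact h1
      · right; exact ⟨c, List.mem_cons_of_mem _ hc, h1⟩

omit [MetricSpace M] in
lemma closed_tl {x p : M} {w : List D} (h : Walk G x x w) (hw : w ≠ []) (hp : p ∈ vs G x w) :
    ∃ c ∈ w, p = G.tl c := by
  rcases vs_tl h hp with h1 | h1
  · cases w with
    | nil => exact absurd rfl hw
    | cons d w => exact ⟨d, List.mem_cons_self, by rw [h1, h.1]⟩
  · exact h1

lemma closed_small {r : ℝ} {x : M} {z : List D} (h : Walk G x x z) (hz : z ≠ [])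
    (ht : ∀ c ∈ z, ∀ c' ∈ z, dist (G.tl c) (G.tl c') ≤ r) : SmallW G r x z := by
  intro p hp q hq
  obtain ⟨c, hc, h1⟩ := closed_tl h hz hp
  obtain ⟨c', hc', h2⟩ := closed_tl h hz hq
  rw [h1, h2]
  exact ht c hc c' hc'

omit [MetricSpace M] in
lemma walk_rot {x : M} {a c : List D} (h : Walk G x x (a ++ c)) : ∃ y, Walk G y y (c ++ a) := by
  obtain ⟨y, h1, h2⟩ := walk_append.1 h
  exact ⟨y, walk_append.2 ⟨x, h2, h1⟩⟩

/-- small closed words -/
lemma contr_small {r ℓ : ℝ} {K' : Set M} (hK' : ∀ d, G.tl d ∈ K') {x : M} (hx : x ∈ K')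
    {w : List D} {P : List M} (hP : P ≠ []) (h : BW G r x x w P) (hl : chl (P ++ [x]) < ℓ)
    (hs : ∀ p ∈ vs G x w, dist x p ≤ r) : PContr r ℓ K' P := by
  have hg := good_bw hK' hx hP h hl
  obtain ⟨l, hl'⟩ := bw_head' h hP
  refine ⟨x, ?_⟩
  have := (del_all (r := r) (ℓ := ℓ) (S := K') x [] [] x ⟨[], rfl⟩ (by
    intro c l' hcl
    simp only [List.nil_append, List.cons.injEq] at hcl
    rw [← hcl.1]
    exact hs x List.mem_cons_self) l (by
      rw [List.append_nil, List.nil_append, ← hl']
      exact hg) (by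
      intro q hq
      refine hs q (bw_mem h q (List.mem_append_left _ ?_))
      rw [hl']
      exact List.mem_cons_of_mem _ hq)).2
  rw [List.append_nil, List.nil_append, ← hl'] at this
  exact this

lemma piece {Fc : Set (List D)} {r : ℝ} (hm : ∀ d, dist (G.tl d) (G.hd d) ≤ r)
    (hr : 0 ≤ r) (hF : ∀ f ∈ Fc, CW G f)
    (hf : ∀ f ∈ Fc, ∀ c ∈ f, ∀ c' ∈ f, dist (G.tl c) (G.tl c') ≤ r) {w w' : List D}
    (h : Del G Fc w w') : ∃ u z v, w = u ++ (z ++ v) ∧ w' = u ++ v ∧ CW G z ∧
      ∀ c ∈ z, ∀ c' ∈ z, dist (G.tl c) (G.tl c') ≤ r := by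
  cases h with
  | spur u a v =>
    refine ⟨u, [a, G.inv a], v, by simp, rfl, ⟨G.tl a, rfl, rfl, ?_⟩, ?_⟩
    · show G.tl (G.inv (G.inv a)) = G.tl a
      rw [G.inv_inv]
    · intro c hc c' hc'
      have h1 : dist (G.tl a) (G.tl (G.inv a)) ≤ r := hm a
      simp only [List.mem_cons, List.not_mem_nil, or_false] at hc hc'
      rcases hc with rfl | rfl <;> rcases hc' with rfl | rfl
      · rw [dist_self]; exact hr
      · exact h1
      · rw [dist_comm]; exact h1
      · rw [dist_self]; exact hr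
  | face u f v hfc =>
    exact ⟨u, f, v, by simp, rfl, hF f hfc, hf f hfc⟩

/-- transport of a decomposition along an elementary step -/
lemma c3 {Fc : Set (List D)} {r m ℓ : ℝ} {K' : Set M} (hr : 0 ≤ r) (hK' : ∀ d, G.tl d ∈ K')
    (hm : ∀ d, dist (G.tl d) (G.hd d) ≤ r) (hF : ∀ f ∈ Fc, CW G f)
    (hf : ∀ f ∈ Fc, ∀ c ∈ f, ∀ c' ∈ f, dist (G.tl c) (G.tl c') ≤ r) {w w' : List D}
    (hs : Step G Fc (Rl G r ℓ) 0 w w') (hw : w ≠ []) (hw' : w' ≠ []) {w1 : List D} {x : M}
    {P : List M} (h1 : w ~r w1) (h2 : BW G r x x w1 P) (hx : x ∈ K') (hl : chl (P ++ [x]) < m) :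
    ∃ (w2 : List D) (y : M) (Q : List M), w' ~r w2 ∧ BW G r y y w2 Q ∧ y ∈ K' ∧
      chl (Q ++ [y]) < m + 4 * r ∧ Cn r (m + 4 * r) K' P Q := by
  obtain ⟨-, hRw', hs⟩ := hs
  have hw1 : w1 ≠ [] := by
    intro h0
    rw [h0] at h1
    exact hw (List.isRotated_nil_iff.1 h1)
  have hPne := bw_ne h2 hw1
  rcases hs with hs | hs | ⟨a, l, e1, e2⟩
  · -- deletion
    obtain ⟨u, z, v, e1, e2, hz, hzs⟩ := piece hm hr hF hf hs
    by_cases hz0 : z = []
    · subst hz0
      have e3 : w' = w := by rw [e1, e2]; rfl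
      rw [e3]
      exact ⟨w1, x, P, h1, h2, hx, by linarith, Relation.ReflTransGen.refl⟩
    have hrot : w1 ~r z ++ (v ++ u) := by
      refine h1.symm.trans ?_
      rw [e1, ← List.append_assoc z v u]
      exact List.isRotated_append
    obtain ⟨a, c, e3, e4⟩ := rotated_split hrot
    rw [e3] at h2
    obtain ⟨y, P1, hy, hP1, hbw, hlen, hcn⟩ := rot_struct hK' hx hPne h2 hl
    rw [← e4] at hbw
    rcases bw_split hbw z (v ++ u) rfl with ⟨e5, _⟩ | ⟨C1, p, C2, wa, b1, b2, wc, y1, p', e5, g1,
      g2, g3, g4, g5, e6, e7⟩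
    · exact absurd e5 hP1
    obtain ⟨v0, hv0⟩ := hz
    have hwz : Walk G y y1 z := by
      rw [e6]
      exact walk_append.2 ⟨p, bw_walk g1, g2⟩
    have hv0y : v0 = y := walk_start hz0 hv0 hwz
    subst hv0y
    have hy1 : y1 = v0 := walk_unique hwz hv0
    subst hy1
    have hzsm : SmallW G r y1 z := closed_small hv0 hz0 hzs
    obtain ⟨l1, hl1⟩ := bw_head g1
    obtain ⟨l2, hl2⟩ := bw_head g5
    have d1 := small_dist g2 (small_left g4)
    have d2 := small_dist g3 (small_right g2 g4)
    have hQ : BW G r y1 y1 (v ++ u) (y1 :: C2) := by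
      rw [e7]
      exact BW.cons _ _ _ _ _ _ g3 (small_right g2 g4) g5
    have hlen2 : chl ((C1 ++ p :: y1 :: C2) ++ [y1]) < m + 4 * r := by
      have e8 : (C1 ++ p :: y1 :: C2) ++ [y1] = C1 ++ p :: y1 :: p' :: l2 := by
        rw [← hl2]
        simp
      have e9 : P1 ++ [y1] = C1 ++ p :: p' :: l2 := by
        rw [e5, ← hl2]
        simp
      rw [e9, chl_append, chl_cons_cons] at hlen
      rw [e8, chl_append, chl_cons_cons, chl_cons_cons]
      have d3 : (0 : ℝ) ≤ dist p p' := dist_nonneg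
      linarith
    have hbw2 : BW G r y1 y1 (z ++ (v ++ u)) (C1 ++ p :: y1 :: C2) := by
      have := bw_append g1 (BW.cons _ _ _ _ _ _ g2 (small_left g4) hQ)
      rw [e6, List.append_assoc]
      exact this
    have hg2 : Good r (m + 4 * r) K' (C1 ++ p :: y1 :: C2) := good_bw hK' hy (by simp) hbw2 hlen2
    have hlen3 : chl ((y1 :: C2) ++ [y1]) < m + 4 * r := by
      have e8 : (C1 ++ p :: y1 :: C2) ++ [y1] = C1 ++ p :: y1 :: (C2 ++ [y1]) := by simp
      rw [e8, chl_append, chl_cons_cons] at hlen2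
      have d3 := chl_nonneg (C1 ++ [p])
      have d4 : (0 : ℝ) ≤ dist p y1 := dist_nonneg
      rw [List.cons_append]
      linarith
    refine ⟨v ++ u, y1, y1 :: C2, ?_, hQ, hy, hlen3, ?_⟩
    · rw [e2]
      exact List.isRotated_append
    · have s1 : Cn r (m + 4 * r) K' P1 (C1 ++ p :: y1 :: C2) := by
        rw [e5]
        refine cn_ins _ _ _ _ ?_ hg2
        have := good_mono (ℓ' := m + 4 * r) (by linarith) (good_bw hK' hy hP1 hbw hlen)
        rwa [e5] at this
      have e8 : C1 ++ p :: y1 :: C2 = [] ++ y1 :: ((l1 ++ [y1]) ++ C2) := by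
        have : C1 ++ p :: y1 :: C2 = (C1 ++ [p]) ++ y1 :: C2 := by simp
        rw [this, hl1]
        simp
      have s2 := (del_all (r := r) (ℓ := m + 4 * r) (S := K') y1 [] C2 y1 ⟨[], rfl⟩ (by
        intro c' l' hcl
        rw [hl2] at hcl
        simp only [List.cons.injEq] at hcl
        rw [← hcl.1]
        exact d2) (l1 ++ [y1]) (by rw [← e8]; exact hg2) (by
        intro q hq
        refine hzsm y1 List.mem_cons_self q ?_
        rw [List.mem_append, List.mem_singleton] at hq
        rcases hq with hq | rfl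
        · rw [e6]
          refine vs_append_left (bw_mem g1 q ?_)
          rw [hl1]
          exact List.mem_cons_of_mem _ hq
        · exact List.mem_cons_self)).2
      rw [← e8, List.nil_append] at s2
      exact (cn_mono (by linarith) hcn).trans (s1.trans s2)
  · -- insertion
    obtain ⟨u, z, v, e1, e2, hz, hzs⟩ := piece hm hr hF hf hs
    by_cases hz0 : z = []
    · subst hz0
      have e3 : w' = w := by rw [e1, e2]; rfl
      rw [e3]
      exact ⟨w1, x, P, h1, h2, hx, by linarith, Relation.ReflTransGen.refl⟩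
    have hrot : w1 ~r v ++ u := by
      refine h1.symm.trans ?_
      rw [e2]
      exact List.isRotated_append
    obtain ⟨a, c, e3, e4⟩ := rotated_split hrot
    rw [e3] at h2
    obtain ⟨y, P1, hy, hP1, hbw, hlen, hcn⟩ := rot_struct hK' hx hPne h2 hl
    rw [← e4] at hbw
    have hvu : v ++ u ≠ [] := by
      intro h0
      obtain ⟨h3, h4⟩ := List.append_eq_nil_iff.1 h0
      apply hw
      rw [e2, h3, h4]
      rfl
    have hwz : Walk G y y z := by
      obtain ⟨k, x', P', hb', _⟩ := hRw'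
      have hrot' : w'.rotate k ~r z ++ (v ++ u) := by
        refine (List.IsRotated.symm ⟨k, rfl⟩).trans ?_
        rw [e1, ← List.append_assoc z v u]
        exact List.isRotated_append
      obtain ⟨a', c', e5, e6⟩ := rotated_split hrot'
      have hwk := bw_walk hb'
      rw [e5] at hwk
      obtain ⟨s, hs'⟩ := walk_rot hwk
      rw [← e6] at hs'
      obtain ⟨t, h3, h4⟩ := walk_append.1 hs'
      obtain ⟨v0, hv0⟩ := hz
      have e7 : v0 = s := walk_start hz0 hv0 h3
      subst e7
      have e8 : t = v0 := walk_unique h3 hv0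
      subst e8
      have e9 : t = y := walk_start hvu h4 (bw_walk hbw)
      rw [← e9]
      exact hv0
    have hzsm : SmallW G r y z := closed_small hwz hz0 hzs
    obtain ⟨l, hl1⟩ := bw_head' hbw hP1
    have hQ : BW G r y y (z ++ (v ++ u)) (y :: P1) := BW.cons _ _ _ _ _ _ hwz hzsm hbw
    have hlen2 : chl ((y :: P1) ++ [y]) < m + 4 * r := by
      rw [hl1]
      rw [hl1] at hlen
      rw [List.cons_append, List.cons_append, chl_cons_cons, dist_self]
      rw [List.cons_append] at hlen
      linarith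
    refine ⟨z ++ (v ++ u), y, y :: P1, ?_, hQ, hy, hlen2, ?_⟩
    · rw [e1, ← List.append_assoc z v u]
      exact List.isRotated_append
    · have hg1 := good_mono (ℓ' := m + 4 * r) (by linarith) (good_bw hK' hy hP1 hbw hlen)
      have hg2 : Good r (m + 4 * r) K' (y :: P1) := good_bw hK' hy (by simp) hQ hlen2
      rw [hl1] at hg1 hg2
      have s1 := cn_ins [] l y y hg1 hg2
      rw [List.nil_append, List.nil_append, ← hl1] at s1
      exact (cn_mono (by linarith) hcn).trans s1
  · -- rotation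
    refine ⟨w1, x, P, ?_, h2, hx, by linarith, Relation.ReflTransGen.refl⟩
    refine List.IsRotated.trans ?_ h1
    rw [e1, e2]
    have : a :: l = [a] ++ l := rfl
    rw [this]
    exact List.isRotated_append

end Walks

end H75G3

open H75G3 in
theorem descend {M : Type u} [MetricSpace M] {D Λ : Type u} [LinearOrder Λ] [Inhabited D]
    (G : Rib D M Λ) (Fc : Set (List D)) (K' : Set M) (r ℓ : ℝ) (hr : 0 < r)
    (hm : ∀ d, dist (G.tl d) (G.hd d) ≤ r) (hF : ∀ f ∈ Fc, CW G f)
    (hf : ∀ f ∈ Fc, ∀ c ∈ f, ∀ c' ∈ f, dist (G.tl c) (G.tl c') ≤ r)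
    (hK' : ∀ d, G.tl d ∈ K') (w z : List D) (x : M) (hx : x ∈ K') (P : List M) (hP : P ≠ [])
    (hBW : BW G r x x w P) (hlen : chl (P ++ [x]) < ℓ)
    (hch : Relation.ReflTransGen (Step G Fc (Rl G r ℓ) 0) w z)
    (hz : ∀ c ∈ z, ∀ c' ∈ z, dist (G.tl c) (G.tl c') ≤ r) :
    PContr r (ℓ + 20 * r) K' P := by
  have small_case : ∀ (w w1 : List D) (x : M) (P : List M), w ≠ [] → w ~r w1 → BW G r x x w1 P →
      x ∈ K' → chl (P ++ [x]) < ℓ + 20 * r →
      (∀ c ∈ w, ∀ c' ∈ w, dist (G.tl c) (G.tl c') ≤ r) → PContr r (ℓ + 20 * r) K' P := by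
    intro w w1 x P hw hrot hb hx hl hsm
    have hw1 : w1 ≠ [] := by
      intro h0
      rw [h0] at hrot
      exact hw (List.isRotated_nil_iff.1 hrot)
    refine contr_small hK' hx (bw_ne hb hw1) hb hl ?_
    intro p hp
    refine closed_small (bw_walk hb) hw1 ?_ x List.mem_cons_self p hp
    intro c hc c' hc'
    exact hsm c (hrot.mem_iff.2 hc) c' (hrot.mem_iff.2 hc')
  have claim : ∀ w : List D, Relation.ReflTransGen (Step G Fc (Rl G r ℓ) 0) w z → w ≠ [] →
      ∀ (w1 : List D) (x : M) (P : List M), w ~r w1 → BW G r x x w1 P → x ∈ K' →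
        chl (P ++ [x]) < ℓ → PContr r (ℓ + 20 * r) K' P := by
    intro w hch
    induction hch using Relation.ReflTransGen.head_induction_on with
    | refl =>
      intro hw w1 x P hrot hb hx hl
      exact small_case z w1 x P hw hrot hb hx (by linarith) hz
    | head hstep htail ih =>
      rename_i w w'
      intro hw w1 x P hrot hb hx hl
      by_cases hsm : ∀ c ∈ w, ∀ c' ∈ w, dist (G.tl c) (G.tl c') ≤ r
      · exact small_case w w1 x P hw hrot hb hx (by linarith) hsm
      have hw' : w' ≠ [] := by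
        intro h0
        subst h0
        rcases hstep.2.2 with hs | hs | ⟨a, l, e1, e2⟩
        · obtain ⟨u, z', v, e1, e2, hz', hzs⟩ := piece hm hr.le hF hf hs
          obtain ⟨h3, h4⟩ := List.append_eq_nil_iff.1 e2.symm
          rw [h3, h4, List.nil_append, List.append_nil] at e1
          apply hsm
          rw [e1]
          exact hzs
        · obtain ⟨u, z', v, e1, e2, hz', hzs⟩ := piece hm hr.le hF hf hs
          obtain ⟨h3, h4⟩ := List.append_eq_nil_iff.1 e1.symm
          obtain ⟨h5, h6⟩ := List.append_eq_nil_iff.1 h4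
          rw [h3, h6] at e2
          exact hw e2
        · simp at e2
      obtain ⟨w2, y, Q, g1, g2, g3, g4, g5⟩ := c3 hr.le hK' hm hF hf hstep hw hw' hrot hb hx hl
      obtain ⟨w3, x3, P3, k1, k2, k3, k4⟩ := nearopt hr hstep.2.1
      have hw2 : w2 ≠ [] := by
        intro h0
        rw [h0] at g1
        exact hw' (List.isRotated_nil_iff.1 g1)
      have hw3 : w3 ≠ [] := by
        intro h0
        rw [h0] at k1
        exact hw' (List.isRotated_nil_iff.1 k1)
      have hx3 : x3 ∈ K' := by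
        obtain ⟨c, _, hc⟩ := closed_tl (bw_walk k2) hw3 (List.mem_cons_self (a := x3))
        rw [hc]
        exact hK' c
      have s1 := conn2 hK' hw2 (g1.symm.trans k1) g3 g2 g4 k2 (fun T hT => k4 w3 x3 T k1 hT)
      obtain ⟨x4, s2⟩ := ih hw' w3 x3 P3 k1 k2 hx3 k3
      exact ⟨x4, (cn_mono (by linarith) g5).trans ((cn_mono (by linarith) s1).trans s2)⟩
  by_cases hw : w = []
  · subst hw
    refine contr_small hK' hx hP hBW (by linarith) ?_
    intro p hp
    have hp' : p = x := by
      unfold vs at hp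
      simpa using hp
    rw [hp', dist_self]
    exact hr.le
  · exact claim w hch hw w x P (List.IsRotated.refl w) hBW hx hlen

end Pool.Agent.TH317.CC
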