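import Pool.Agent.TH32.H.Fast
import Pool.Agent.TH692.TZH_T2
import Pool.Agent.TH740.TZH_FIN

set_option autoImplicit false

/-! Job 2981 (TZH-FQc): fast cone phase. -/

namespace Pool.Agent.TH75.TZH

open Polynomial Pool.Agent.TH32 Pool.Agent.TH692.TZHT2

theorem polOK_nil (Λ : ℤ) : PolOK Λ [] [] := by
  refine ⟨0, 1, by simp, fun s _ _ => ?_⟩
  simp [pval]

theorem polOK_append {Λ : ℤ} {L1 L2 : List Tm} {l1 l2 : List ℤ} (h1 : PolOK Λ L1 l1)
    (h2 : PolOK Λ L2 l2) : PolOK Λ (L1 ++ L2) (addF l1 l2) := by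
  obtain ⟨N1, D1, hD1, h1⟩ := h1
  obtain ⟨N2, D2, hD2, h2⟩ := h2
  refine ⟨N1 * D2 + N2 * D1, D1 * D2, by rw [eval_mul]; exact mul_ne_zero hD1 hD2,
    fun s hs hr => ?_⟩
  obtain ⟨a1, a2⟩ := h1 s hs (fun t ht => hr t (List.mem_append_left _ ht))
  obtain ⟨b1, b2⟩ := h2 s hs (fun t ht => hr t (List.mem_append_right _ ht))
  refine ⟨by rw [eval_mul]; exact mul_ne_zero a1 b1, ?_⟩
  rw [List.map_append, List.sum_append, a2, b2, Pool.Agent.TH740.TZH.pval_addF, eval_add, eval_mul,
    eval_mul, eval_mul]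
  field_simp
  ring

theorem top_append (u : ℕ) (L1 L2 : List Tm) : top u (L1 ++ L2) = top u L1 ++ top u L2 := by
  unfold top
  rw [List.filter_append]

/-- the combined statement -/
def Gd (K u : ℕ) (Λ : ℤ) (M : List ℕ) (C : List Fm) (w e f : Fm) (l : List ℤ) : Prop :=
  ∃ L : List Tm, Good K M C w e f L ∧ (∀ t ∈ L, t.ds.length ≤ 4 + u) ∧ PolOK Λ (top u L) l

theorem len_append {u : ℕ} {L1 L2 : List Tm} (h1 : ∀ t ∈ L1, t.ds.length ≤ 4 + u)
    (h2 : ∀ t ∈ L2, t.ds.length ≤ 4 + u) : ∀ t ∈ L1 ++ L2, t.ds.length ≤ 4 + u := by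
  intro t ht
  rcases List.mem_append.1 ht with h | h
  · exact h1 t h
  · exact h2 t h

theorem good_msk {K : ℕ} {M M' : List ℕ} {C : List Fm} {w e f : Fm} {L : List Tm}
    (h : ∀ v : Fin K → ℕ, Msk M v ↔ Msk M' v) (hg : Good K M C w e f L) : Good K M' C w e f L :=
  good_congr (fun v => by rw [h v]) hg

theorem gd_zero {K u : ℕ} {Λ : ℤ} {M M1 : List ℕ} {C : List Fm} {w e f : Fm} {l1 l2 : List ℤ}
    (i : Fin K) (hi : i.1 + 1 ∉ M)
    (hM : ∀ v : Fin K → ℕ, Msk M1 v ↔ Msk ((i.1 + 1) :: M) v)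
    (h1 : Gd K u Λ M1 (C.map (fun c => c.set (i.1 + 1) 0)) (w.set (i.1 + 1) 0)
      (e.set (i.1 + 1) 0) (f.set (i.1 + 1) 0) l1)
    (h2 : Gd K u Λ M (C.map (fun c => bump c 0 (i.1 + 1))) (bump w 0 (i.1 + 1))
      (bump e 0 (i.1 + 1)) (bump f 0 (i.1 + 1)) l2) :
    Gd K u Λ M C w e f (addF l1 l2) := by
  obtain ⟨L1, g1, n1, p1⟩ := h1
  obtain ⟨L2, g2, n2, p2⟩ := h2
  refine ⟨L1 ++ L2, good_zero i hi (good_msk hM g1) g2, len_append n1 n2, ?_⟩
  rw [top_append]
  exact polOK_append p1 p2

theorem gd_cmp {K u : ℕ} {Λ : ℤ} {M : List ℕ} {C : List Fm} {w e f : Fm} {l1 l2 : List ℤ}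
    (i j : Fin K) (hij : i ≠ j) (hi : i.1 + 1 ∉ M) (hj : j.1 + 1 ∉ M)
    (h1 : Gd K u Λ M (C.map (fun c => bump c (i.1 + 1) (j.1 + 1))) (bump w (i.1 + 1) (j.1 + 1))
      (bump e (i.1 + 1) (j.1 + 1)) (bump f (i.1 + 1) (j.1 + 1)) l1)
    (h2 : Gd K u Λ M (C.map (fun c => bump (bump c 0 (i.1 + 1)) (j.1 + 1) (i.1 + 1)))
      (bump (bump w 0 (i.1 + 1)) (j.1 + 1) (i.1 + 1))
      (bump (bump e 0 (i.1 + 1)) (j.1 + 1) (i.1 + 1))
      (bump (bump f 0 (i.1 + 1)) (j.1 + 1) (i.1 + 1)) l2) :
    Gd K u Λ M C w e f (addF l1 l2) := by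
  obtain ⟨L1, g1, n1, p1⟩ := h1
  obtain ⟨L2, g2, n2, p2⟩ := h2
  refine ⟨L1 ++ L2, good_cmp i j hij hi hj g1 g2, len_append n1 n2, ?_⟩
  rw [top_append]
  exact polOK_append p1 p2

/-! ### The mask -/

theorem testBit_sub (i : ℕ) : ∀ A : ℕ, A.testBit i = true → ∀ k,
    (A - 2 ^ i).testBit k = (A.testBit k && decide (k ≠ i)) := by
  induction i with
  | zero =>
    intro A hA k
    rw [Nat.testBit_zero, decide_eq_true_eq] at hA
    rw [pow_zero]
    cases k with
    | zero =>
      rw [Nat.testBit_zero, Nat.testBit_zero]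
      simp
      omega
    | succ k =>
      rw [Nat.testBit_succ, Nat.testBit_succ, show (A - 1) / 2 = A / 2 by omega]
      simp
  | succ i ih =>
    intro A hA k
    rw [Nat.testBit_succ] at hA
    have hle : 2 ^ i ≤ A / 2 := Nat.ge_two_pow_of_testBit hA
    have h2 : 2 ^ (i + 1) = 2 * 2 ^ i := by rw [pow_succ, mul_comm]
    cases k with
    | zero =>
      rw [Nat.testBit_zero, Nat.testBit_zero]
      have : (A - 2 ^ (i + 1)) % 2 = A % 2 := by omega
      rw [this]
      simp
    | succ k =>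
      rw [Nat.testBit_succ, Nat.testBit_succ, show (A - 2 ^ (i + 1)) / 2 = A / 2 - 2 ^ i by omega,
        ih _ hA]
      congr 1
      simp

theorem mem_mQ (A j : ℕ) : ∀ n i : ℕ, j ∈ mQ A i n ↔ i ≤ j ∧ j < i + n ∧ A.testBit j = false := by
  intro n
  induction n with
  | zero =>
    intro i
    simp only [mQ, List.not_mem_nil, false_iff]
    omega
  | succ n ih =>
    intro i
    rw [mQ]
    cases h : A.testBit i with
    | true =>
      rw [cond_true, ih]
      constructor
      · rintro ⟨h1, h2, h3⟩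
        exact ⟨by omega, by omega, h3⟩
      · rintro ⟨h1, h2, h3⟩
        refine ⟨?_, by omega, h3⟩
        rcases Nat.eq_or_lt_of_le h1 with rfl | h4
        · rw [h] at h3
          cases h3
        · exact h4
    | false =>
      rw [cond_false, List.mem_cons, ih]
      constructor
      · rintro (rfl | ⟨h1, h2, h3⟩)
        · exact ⟨le_rfl, by omega, h⟩
        · exact ⟨by omega, by omega, h3⟩
      · rintro ⟨h1, h2, h3⟩
        rcases Nat.eq_or_lt_of_le h1 with rfl | h4
        · exact Or.inl rfl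
        · exact Or.inr ⟨h4, by omega, h3⟩

/-! ### Bounds -/

/-- the entries of a form are bounded -/
def Bg (b : ℤ) (f : Fm) : Prop := ∀ k, |f.getD k 0| < b

theorem bg_of_mem {b : ℤ} (hb : 0 < b) {f : Fm} (h : ∀ a ∈ f, |a| < b) : Bg b f := by
  intro k
  rcases lt_or_ge k f.length with hk | hk
  · rw [List.getD_eq_getElem _ _ hk]
    exact h _ (List.getElem_mem _)
  · rw [List.getD_eq_default _ _ hk, abs_zero]
    exact hb

theorem mem_of_bg {b : ℤ} {f : Fm} (h : Bg b f) : ∀ a ∈ f, |a| < b := by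
  intro a ha
  obtain ⟨k, hk, rfl⟩ := List.mem_iff_getElem.1 ha
  have := h k
  rwa [List.getD_eq_getElem _ _ hk] at this

theorem bg_bump {b : ℤ} {f : Fm} (h : Bg b f) (i j : ℕ) : Bg (2 * b) (bump f i j) := by
  intro k
  unfold bump
  rw [putF_getD]
  have h1 := abs_lt.1 (h k)
  have h2 := abs_lt.1 (h j)
  rw [abs_lt]
  split_ifs <;> constructor <;> linarith [h1.1, h1.2, h2.1, h2.2]

theorem bg_bump2 {b : ℤ} {f : Fm} (h : Bg b f) (i j : ℕ) (hi : i ≠ 0) (hj : j ≠ 0) :
    Bg (2 * b) (bump (bump f 0 i) j i) := by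
  intro k
  unfold bump
  rw [putF_getD, putF_getD, putF_getD, if_neg hi]
  have h1 := abs_lt.1 (h k)
  have h2 := abs_lt.1 (h i)
  rw [abs_lt]
  split_ifs
  · omega
  all_goals constructor <;> linarith [h1.1, h1.2, h2.1, h2.2]

theorem getD_set (f : Fm) (i k : ℕ) : (f.set i 0).getD k 0 = if k = i then 0 else f.getD k 0 := by
  rw [List.getD_eq_getElem?_getD, List.getD_eq_getElem?_getD, List.getElem?_set]
  by_cases h : i = k
  · subst h
    rw [if_pos rfl, if_pos rfl]
    split_ifs <;> simp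
  · rw [if_neg h, if_neg (fun h' => h h'.symm)]

theorem bg_set {b : ℤ} (hb : 0 < b) {f : Fm} (h : Bg b f) (i : ℕ) : Bg b (f.set i 0) := by
  intro k
  rw [getD_set]
  split_ifs
  · rw [abs_zero]
    exact hb
  · exact h k

theorem bd_map {b b' : ℤ} {fs : List Fm} (hb : 0 < b) (h : Bd b fs) (φ : Fm → Fm)
    (hφ : ∀ f, Bg b f → Bg b' (φ f)) : Bd b' (fs.map φ) := by
  intro g hg
  obtain ⟨f, hf, rfl⟩ := List.mem_map.1 hg
  exact mem_of_bg (hφ f (bg_of_mem hb (h f hf)))

theorem bd_mono {b b' : ℤ} (hbb : b ≤ b') {fs : List Fm} (h : Bd b fs) : Bd b' fs :=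
  fun f hf a ha => lt_of_lt_of_le (h f hf a ha) hbb

/-! ### Decoding -/

theorem getD_unW (S sh P : ℕ) : ∀ n i j : ℕ, j < n →
    (unW S sh P i n).getD j 0 = (entW (ent S sh P (i + j)) : ℤ) - 549755813888 := by
  intro n
  induction n with
  | zero => intro i j h; omega
  | succ n ih =>
    intro i j h
    rw [unW]
    cases j with
    | zero => simp
    | succ j =>
      rw [List.getD_cons_succ, ih (i + 1) j (by omega), show i + 1 + j = i + (j + 1) by omega]

theorem getD_unE (S sh P : ℕ) : ∀ n i j : ℕ, j < n →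
    (unE S sh P i n).getD j 0 = (entE (ent S sh P (i + j)) : ℤ) - 549755813888 := by
  intro n
  induction n with
  | zero => intro i j h; omega
  | succ n ih =>
    intro i j h
    rw [unE]
    cases j with
    | zero => simp
    | succ j =>
      rw [List.getD_cons_succ, ih (i + 1) j (by omega), show i + 1 + j = i + (j + 1) by omega]

theorem getD_unF (S sh P : ℕ) : ∀ n i j : ℕ, j < n →
    (unF S sh P i n).getD j 0 = (entF (ent S sh P (i + j)) : ℤ) - 549755813888 := by
  intro n
  induction n with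
  | zero => intro i j h; omega
  | succ n ih =>
    intro i j h
    rw [unF]
    cases j with
    | zero => simp
    | succ j =>
      rw [List.getD_cons_succ, ih (i + 1) j (by omega), show i + 1 + j = i + (j + 1) by omega]

theorem ev_congr {K : ℕ} {f g : Fm} (h : ∀ j ≤ K, f.getD j 0 = g.getD j 0) (v : Fin K → ℕ) :
    ev f v = ev g v := by
  unfold ev
  rw [h 0 (Nat.zero_le _)]
  congr 1
  refine Finset.sum_congr rfl fun i _ => ?_
  rw [h (i.1 + 1) i.2]

theorem good_ev {K : ℕ} {M : List ℕ} {C : List Fm} {w e f w' e' f' : Fm} {L : List Tm}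
    (hw : ∀ v : Fin K → ℕ, ev w v = ev w' v) (he : ∀ v : Fin K → ℕ, ev e v = ev e' v)
    (hf : ∀ v : Fin K → ℕ, ev f v = ev f' v) (hg : Good K M C w e f L) : Good K M C w' e' f' L := by
  refine ⟨hg.1, fun q x hq hx hx2 => ⟨(hg.2 q x hq hx hx2).1, ?_⟩⟩
  rw [← (hg.2 q x hq hx hx2).2]
  apply tsum_congr
  intro v
  rw [hw v, he v, hf v]

theorem enq_lt {C : List Fm} {w e f : Fm} {k : ℕ} (hk : k < C.length) (i : ℕ) :
    enq (C ++ [w, e, f]) k i = (C.getD k []).getD i 0 := by
  unfold enq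
  rw [List.getD_append _ _ _ _ hk]

theorem enq_w {C : List Fm} {w e f : Fm} (i : ℕ) :
    enq (C ++ [w, e, f]) C.length i = w.getD i 0 := by
  unfold enq
  rw [List.getD_append_right _ _ _ _ le_rfl, Nat.sub_self]
  rfl

theorem enq_e {C : List Fm} {w e f : Fm} (i : ℕ) :
    enq (C ++ [w, e, f]) (C.length + 1) i = e.getD i 0 := by
  unfold enq
  rw [List.getD_append_right _ _ _ _ (by omega), Nat.add_sub_cancel_left]
  rfl

theorem enq_f {C : List Fm} {w e f : Fm} (i : ℕ) :
    enq (C ++ [w, e, f]) (C.length + 2) i = f.getD i 0 := by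
  unfold enq
  rw [List.getD_append_right _ _ _ _ (by omega), Nat.add_sub_cancel_left]
  rfl

theorem addO_some {a b : Option (List ℤ)} {l : List ℤ} (h : addO a b = some l) :
    ∃ l1 l2, a = some l1 ∧ b = some l2 ∧ addF l1 l2 = l := by
  cases a with
  | none => simp [addO] at h
  | some a =>
    cases b with
    | none => simp [addO] at h
    | some b =>
      simp only [addO, Option.some.injEq] at h
      exact ⟨a, b, rfl, rfl, h⟩

/-- the conditions on the state -/
structure Inv (K nc d A : ℕ) (C : List Fm) (w e f : Fm) : Prop where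
  len : C.length = nc
  bd : Bd (2 ^ (38 - d)) (C ++ [w, e, f])
  al : ∀ i, A.testBit i = true → 1 ≤ i ∧ i ≤ K
  de : ∀ i, 1 ≤ i → i ≤ K → A.testBit i = false → w.getD i 0 = 0

theorem leaf_good (hl : LeafStmt) (ha : FQaStmt) (hb : FQbStmt) {K u Λ nc d A : ℕ} (hΛ : Λ ≠ 0)
    (hK7 : K ≤ 7) (hKu : K ≤ 4 + u) {C : List Fm} {w e f : Fm} {l : List ℤ}
    (hi : Inv K nc d A C w e f)
    (h : runQ K u Λ (Nat.ble (K + 1) (4 + u)) (40 * (nc + 3)) (40 * nc) (zQ (nc + 3))
        (repQ (2 * zQ (nc + 3)) (40 * (nc + 3)) 8 - oQ (nc + 3)) (zQ nc) CT.e d A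
        (stP (C ++ [w, e, f])) = some l) :
    Gd K u Λ (mQ A 1 K) C w e f l := by
  have hlen : (C ++ [w, e, f]).length = nc + 3 := by
    rw [List.length_append, hi.len]
    rfl
  have hbd : Bd 274877906944 (C ++ [w, e, f]) := by
    refine bd_mono ?_ hi.bd
    calc (2 : ℤ) ^ (38 - d) ≤ 2 ^ 38 := pow_le_pow_right₀ (by norm_num) (by omega)
      _ = 274877906944 := by norm_num
  obtain ⟨-, -, a3, a4, a5⟩ := ha (C ++ [w, e, f]) (nc + 3) (40 * (nc + 3)) hlen rfl hbd
  have a3 := a3 nc (by omega)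
  have a4 := a4 nc (by omega)
  have a5 := a5 nc rfl
  rw [runQ] at h
  generalize Nat.land (foldQ (40 * (nc + 3)) (repQ (2 * zQ (nc + 3)) (40 * (nc + 3)) 8 -
    oQ (nc + 3) - stP (C ++ [w, e, f]))) (zQ nc) = X at a4 h
  generalize Nat.land (foldQ (40 * (nc + 3)) (stP (C ++ [w, e, f]))) (zQ nc) = Y at a3 h
  cases hX : Nat.beq X 0 with
  | false =>
    rw [hX, cond_false, Option.some.injEq] at h
    subst h
    have hX' : X ≠ 0 := Nat.ne_of_beq_eq_false hX
    obtain ⟨k, hk, hk0, hk1⟩ := a4 hX'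
    have hkC : k < C.length := by rw [hi.len]; exact hk
    refine ⟨[], ⟨by simp [okL], fun q x _ _ _ => ⟨by simp [sv], ?_⟩⟩, by simp, polOK_nil _⟩
    have h0 : sv q x [] = 0 := by simp [sv]
    rw [h0, ENNReal.ofReal_zero, ENNReal.tsum_eq_zero]
    intro v
    rw [if_neg]
    rintro ⟨-, h2⟩
    have h3 := h2 (C.getD k []) (by
      rw [List.getD_eq_getElem _ _ hkC]
      exact List.getElem_mem _)
    rw [enq_lt hkC] at hk0
    unfold ev at h3
    have h4 : ∑ i : Fin K, (C.getD k []).getD (i.1 + 1) 0 * (v i : ℤ) ≤ 0 := by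
      refine Finset.sum_nonpos fun i _ => ?_
      have h5 := hk1 (i.1 + 1) (by omega) (by have := i.2; omega)
      rw [enq_lt hkC] at h5
      exact mul_nonpos_of_nonpos_of_nonneg h5 (by positivity)
    linarith
  | true =>
    rw [hX, cond_true] at h
    cases hY : Nat.beq Y (zQ nc) with
    | false =>
      rw [hY, cond_false] at h
      cases h
    | true =>
      rw [hY, cond_true] at h
      have h3 := a3 (Nat.eq_of_beq_eq_true hY)
      obtain ⟨L, hL, hn, hp⟩ := hb K u Λ (40 * (nc + 3)) (40 * nc) (stP (C ++ [w, e, f])) A l hΛ hKu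
        (by
          intro i h1 h2 hA
          have h5 := (a5 i (by omega)).1
          rw [← hi.len, enq_w, hi.de i h1 h2 hA, add_zero, hi.len] at h5
          have : (entW (ent (40 * (nc + 3)) (40 * nc) (stP (C ++ [w, e, f])) i)) = 549755813888 := by
            exact_mod_cast h5
          rw [this]) h
      refine ⟨L, ?_, hn, hp⟩
      have hg : Good K (mQ A 1 K) C _ _ _ L := good_congr (fun v => and_congr_right fun _ => by
        constructor
        · intro _ c hc
          obtain ⟨k, hk, rfl⟩ := List.mem_iff_getElem.1 hc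
          have h6 : ∀ i < 8, 0 ≤ (C[k]).getD i 0 := by
            intro i hi8
            have h7 := h3 k (by rw [← hi.len]; exact hk) i hi8
            rwa [enq_lt hk, List.getD_eq_getElem _ _ hk] at h7
          unfold ev
          refine add_nonneg (h6 0 (by norm_num)) (Finset.sum_nonneg fun i _ => ?_)
          exact mul_nonneg (h6 (i.1 + 1) (by have := i.2; omega)) (by positivity)
        · intro _ c hc
          cases hc) (good_leaf hl hL)
      refine good_ev ?_ ?_ ?_ hg
      · refine ev_congr fun j hj => ?_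
        rw [getD_unW _ _ _ _ _ _ (by omega), Nat.zero_add, (a5 j (by omega)).1]
        have := enq_w (C := C) (w := w) (e := e) (f := f) j
        rw [hi.len] at this
        rw [this]
        ring
      · refine ev_congr fun j hj => ?_
        rw [getD_unE _ _ _ _ _ _ (by omega), Nat.zero_add, (a5 j (by omega)).2.1]
        have := enq_e (C := C) (w := w) (e := e) (f := f) j
        rw [hi.len] at this
        rw [this]
        ring
      · refine ev_congr fun j hj => ?_
        rw [getD_unF _ _ _ _ _ _ (by omega), Nat.zero_add, (a5 j (by omega)).2.2]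
        have := enq_f (C := C) (w := w) (e := e) (f := f) j
        rw [hi.len] at this
        rw [this]
        ring

theorem map3 (C : List Fm) (w e f : Fm) (φ : Fm → Fm) :
    (C ++ [w, e, f]).map φ = C.map φ ++ [φ w, φ e, φ f] := by
  simp

theorem run_good (hl : LeafStmt) (ha : FQaStmt) (hb : FQbStmt) {K u Λ nc : ℕ} (hΛ : Λ ≠ 0)
    (hK7 : K ≤ 7) (hKu : K ≤ 4 + u) : ∀ (t : CT) (d A : ℕ) (C : List Fm) (w e f : Fm) (l : List ℤ),
    Inv K nc d A C w e f → d ≤ 33 →
    runQ K u Λ (Nat.ble (K + 1) (4 + u)) (40 * (nc + 3)) (40 * nc) (zQ (nc + 3))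
        (repQ (2 * zQ (nc + 3)) (40 * (nc + 3)) 8 - oQ (nc + 3)) (zQ nc) t d A
        (stP (C ++ [w, e, f])) = some l →
    Gd K u Λ (mQ A 1 K) C w e f l := by
  intro t
  induction t with
  | e =>
    intro d A C w e f l hi _ h
    exact leaf_good hl ha hb hΛ hK7 hKu hi h
  | n i j tl tr ihl ihr =>
    intro d A C w e f l hi hd h
    have hlen : (C ++ [w, e, f]).length = nc + 3 := by
      rw [List.length_append, hi.len]
      rfl
    have hb0 : (0 : ℤ) < 2 ^ (38 - d) := by positivity
    have hbd : Bd 274877906944 (C ++ [w, e, f]) := by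
      refine bd_mono ?_ hi.bd
      calc (2 : ℤ) ^ (38 - d) ≤ 2 ^ 38 := pow_le_pow_right₀ (by norm_num) (by omega)
        _ = 274877906944 := by norm_num
    obtain ⟨a1, a2, -, -, -⟩ := ha (C ++ [w, e, f]) (nc + 3) (40 * (nc + 3)) hlen rfl hbd
    rw [runQ] at h
    cases hc : (Nat.ble 1 d && (Nat.testBit A i && Nat.testBit A j)) with
    | false =>
      rw [hc, cond_false] at h
      cases h
    | true =>
      rw [hc, cond_true] at h
      rw [Bool.and_eq_true, Bool.and_eq_true] at hc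
      obtain ⟨hd1, hAi, hAj⟩ := hc
      have hd1 : 1 ≤ d := Nat.le_of_ble_eq_true hd1
      obtain ⟨hi1, hiK⟩ := hi.al i hAi
      obtain ⟨hj1, hjK⟩ := hi.al j hAj
      have h2b : (2 : ℤ) * 2 ^ (38 - d) = 2 ^ (38 - (d - 1)) := by
        rw [← pow_succ', show 38 - d + 1 = 38 - (d - 1) by omega]
      have hni : i ∉ mQ A 1 K := by
        rw [mem_mQ]
        rintro ⟨-, -, h3⟩
        rw [hAi] at h3
        cases h3
      have hnj : j ∉ mQ A 1 K := by
        rw [mem_mQ]
        rintro ⟨-, -, h3⟩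
        rw [hAj] at h3
        cases h3
      obtain ⟨i', rfl⟩ : ∃ i' : Fin K, i = i'.1 + 1 := ⟨⟨i - 1, by omega⟩, by simp; omega⟩
      obtain ⟨j', rfl⟩ : ∃ j' : Fin K, j = j'.1 + 1 := ⟨⟨j - 1, by omega⟩, by simp; omega⟩
      -- the invariant after adding
      have hbump : ∀ φ : Fm → Fm, (∀ f, Bg (2 ^ (38 - d)) f → Bg (2 * 2 ^ (38 - d)) (φ f)) →
          (∀ k, 1 ≤ k → A.testBit k = false → (φ w).getD k 0 = w.getD k 0) →
          Inv K nc (d - 1) A (C.map φ) (φ w) (φ e) (φ f) := by
        intro φ h1 h2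
        refine ⟨by rw [List.length_map, hi.len], ?_, hi.al, ?_⟩
        · rw [← map3, ← h2b]
          exact bd_map hb0 hi.bd φ h1
        · intro k hk1 hk2 hk
          rw [h2 k hk1 hk]
          exact hi.de k hk1 hk2 hk
      have hw0 : ∀ (g : Fm) (k m : ℕ), 1 ≤ k → (bump g 0 m).getD k 0 = g.getD k 0 := by
        intro g k m hk
        unfold bump
        rw [putF_getD, if_neg (by omega), add_zero]
      cases hij : Nat.beq (i'.1 + 1) (j'.1 + 1) with
      | true =>
        rw [hij, cond_true] at h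
        obtain ⟨l1, l2, h1, h2, rfl⟩ := addO_some h
        rw [a2 (i'.1 + 1) (by omega), map3] at h1
        rw [a1 0 (i'.1 + 1) (by omega) (by omega), map3] at h2
        have hA2 : Nat.shiftLeft 1 (i'.1 + 1) = 2 ^ (i'.1 + 1) := by
          change 1 <<< (i'.1 + 1) = _
          rw [Nat.shiftLeft_eq, one_mul]
        rw [hA2] at h1
        have hts := testBit_sub (i'.1 + 1) A hAi
        refine gd_zero i' hni ?_ (ihl (d - 1) (A - 2 ^ (i'.1 + 1)) _ _ _ _ _ ?_ (by omega) h1)
          (ihr (d - 1) A _ _ _ _ _ (hbump (fun f => bump f 0 (i'.1 + 1))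
            (fun f hf => bg_bump hf _ _) (fun k hk _ => hw0 _ _ _ hk)) (by omega) h2)
        · intro v
          unfold Msk
          refine forall_congr' fun k => ?_
          rw [List.mem_cons, mem_mQ, mem_mQ, hts]
          have hkK := k.2
          by_cases hk : k.1 + 1 = i'.1 + 1
          · rw [hk]
            simp
            omega
          · have hk' : k.1 ≠ i'.1 := fun h => hk (by rw [h])
            simp [hk']
        · refine ⟨by rw [List.length_map, hi.len], ?_, ?_, ?_⟩
          · rw [← map3]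
            refine bd_mono ?_ (bd_map hb0 hi.bd (fun f => f.set (i'.1 + 1) 0)
              (fun f hf => bg_set hb0 hf _))
            exact pow_le_pow_right₀ (by norm_num) (by omega)
          · intro k hk
            rw [hts, Bool.and_eq_true] at hk
            exact hi.al k hk.1
          · intro k hk1 hk2 hk
            rw [getD_set]
            split_ifs with hki
            · rfl
            · rw [hts, decide_eq_true hki, Bool.and_true] at hk
              exact hi.de k hk1 hk2 hk
      | false =>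
        rw [hij, cond_false] at h
        have hij' : i' ≠ j' := by
          rintro rfl
          exact Nat.ne_of_beq_eq_false hij rfl
        obtain ⟨l1, l2, h1, h2, rfl⟩ := addO_some h
        rw [a1 (i'.1 + 1) (j'.1 + 1) (by omega) (by omega), map3] at h1
        rw [a1 0 (i'.1 + 1) (by omega) (by omega)] at h2
        have hlen2 : ((C ++ [w, e, f]).map (fun f => bump f 0 (i'.1 + 1))).length = nc + 3 := by
          rw [List.length_map, hlen]
        have hbd2 : Bd 274877906944 ((C ++ [w, e, f]).map (fun f => bump f 0 (i'.1 + 1))) := by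
          refine bd_mono ?_ (bd_map (b' := 2 * 2 ^ (38 - d)) hb0 hi.bd _ (fun f hf => bg_bump hf _ _))
          rw [h2b]
          calc (2 : ℤ) ^ (38 - (d - 1)) ≤ 2 ^ 38 := pow_le_pow_right₀ (by norm_num) (by omega)
            _ = 274877906944 := by norm_num
        obtain ⟨b1, -, -, -, -⟩ := ha _ (nc + 3) (40 * (nc + 3)) hlen2 rfl hbd2
        rw [b1 (j'.1 + 1) (i'.1 + 1) (by omega) (by omega), List.map_map, map3] at h2
        refine gd_cmp i' j' hij' hni hnj
          (ihl (d - 1) A _ _ _ _ _ (hbump (fun f => bump f (i'.1 + 1) (j'.1 + 1))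
            (fun f hf => bg_bump hf _ _) ?_) (by omega) h1)
          (ihr (d - 1) A _ _ _ _ _ (hbump
            (fun f => bump (bump f 0 (i'.1 + 1)) (j'.1 + 1) (i'.1 + 1))
            (fun f hf => bg_bump2 hf _ _ (by omega) (by omega)) ?_) (by omega) h2)
        · intro k _ hk
          unfold bump
          rw [putF_getD, if_neg, add_zero]
          rintro rfl
          rw [hAi] at hk
          cases hk
        · intro k hk1 hk
          have hkj : k ≠ j'.1 + 1 := by
            rintro rfl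
            rw [hAj] at hk
            cases hk
          unfold bump
          rw [putF_getD, if_neg hkj, putF_getD, if_neg (by omega), add_zero, add_zero]

end Pool.Agent.TH75.TZH

namespace Pool.Agent.TH75

open Pool.Agent.TH32 Pool.Agent.TH692.TZHT2 Pool.Agent.TH75.TZH

theorem fqc : FQcAsm := by
  intro hl ha hb K u Λ t C w e f l hΛ h
  unfold startQ at h
  simp only at h
  set C' := C.filter (fun c => !allNN c) with hC'
  cases hc : ((C' ++ [w, e, f]).all (smallF K) && Nat.ble K 7 && Nat.ble K (4 + u)) with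
  | false =>
    rw [hc, cond_false] at h
    cases h
  | true =>
    rw [hc, cond_true] at h
    rw [Bool.and_eq_true, Bool.and_eq_true] at hc
    obtain ⟨⟨hs, hK7⟩, hKu⟩ := hc
    have hK7 : K ≤ 7 := Nat.le_of_ble_eq_true hK7
    have hKu : K ≤ 4 + u := Nat.le_of_ble_eq_true hKu
    have hlen : (C' ++ [w, e, f]).length = C'.length + 3 := by
      rw [List.length_append]
      rfl
    have hst : stQ (C' ++ [w, e, f]) (40 * (C'.length + 3)) 0 8 = stP (C' ++ [w, e, f]) := by
      unfold stP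
      rw [hlen]
    rw [hst] at h
    have hA : Nat.shiftLeft 1 (K + 1) - 2 = 2 ^ (K + 1) - 2 := by
      change 1 <<< (K + 1) - 2 = _
      rw [Nat.shiftLeft_eq, one_mul]
    rw [hA] at h
    have hAt : ∀ i, (2 ^ (K + 1) - 2).testBit i = true ↔ 1 ≤ i ∧ i ≤ K := by
      intro i
      have h1 : (2 ^ (K + 1) - 1).testBit i = decide (i < K + 1) := Nat.testBit_two_pow_sub_one _ _
      have h0 : (2 ^ (K + 1) - 1).testBit 0 = true := by
        rw [Nat.testBit_two_pow_sub_one]
        simp
      have h2 := testBit_sub 0 _ h0 i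
      rw [pow_zero, show 2 ^ (K + 1) - 1 - 1 = 2 ^ (K + 1) - 2 by omega, h1] at h2
      rw [h2]
      simp
      omega
    have hinv : Inv K C'.length 33 (2 ^ (K + 1) - 2) C' w e f := by
      refine ⟨rfl, ?_, fun i hi => (hAt i).1 hi, ?_⟩
      · intro g hg a ha
        have h1 := List.all_eq_true.1 hs g hg
        unfold smallF at h1
        rw [Bool.and_eq_true] at h1
        have h2 := List.all_eq_true.1 h1.1 a ha
        rw [Bool.and_eq_true, decide_eq_true_eq, decide_eq_true_eq] at h2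
        rw [abs_lt]
        norm_num
        omega
      · intro i h1 h2 h3
        rw [(hAt i).2 ⟨h1, h2⟩] at h3
        cases h3
    obtain ⟨L, hg, hn, hp⟩ := run_good hl ha hb hΛ hK7 hKu t 33 _ C' w e f l hinv le_rfl h
    have hg2 := good_filter hg
    refine ⟨L, hg2.1, hn, hp, fun q x hq hx hx5 => ?_⟩
    obtain ⟨h1, h2⟩ := hg2.2 q x hq hx hx5
    refine ⟨h1, ?_⟩
    rw [← h2]
    apply tsum_congr
    intro v
    have hM : Msk (mQ (2 ^ (K + 1) - 2) 1 K) v := by
      intro i hi
      rw [mem_mQ] at hi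
      rw [(hAt _).2 ⟨hi.1, by omega⟩] at hi
      cases hi.2.2
    by_cases hv : ∀ c ∈ C, 0 ≤ ev c v
    · rw [if_pos hv, if_pos ⟨hM, hv⟩]
      rfl
    · rw [if_neg hv, if_neg (fun h => hv h.2)]

end Pool.Agent.TH75
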