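import Pool.Agent.TH336.ER.Defs

/-!
# ER-GAUSSZ (MP_91b7ff_nt): the Gaussian integral with zeta
-/

set_option autoImplicit false

open Complex MeasureTheory Set Filter Topology

namespace Pool.Agent.TH75.GaussZeta

open Pool.Agent.W188.QS Pool.Agent.H306R2 Pool.Agent.TH336.ER

def GaussFp : Prop := ∃ B T₀ : ℝ, 1 ≤ B ∧ 100 ≤ T₀ ∧ ∀ T Δ a b z : ℝ, T₀ ≤ T → 1 ≤ Δ →
    B * Δ * √(Real.log T) ≤ T → |a - T / 2| ≤ 1 → |b - 3 * T / 2| ≤ 1 → 0 < z →
    ‖(∫ y in a..b, (z : ℂ) ^ (-fp y) * GG T Δ (fp y)) -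
      ((√Real.pi * Δ * Real.exp (-(Δ ^ 2 * Real.log z ^ 2 / 4)) : ℝ) : ℂ) * (z : ℂ) ^ (-cp T)‖ ≤
      z ^ (-(4 : ℝ)) * T ^ (-(6 : ℝ))

/-- the point `m n / l` -/
noncomputable def zz (n l k : ℕ) : ℝ := ((k : ℝ) + 1) * ((n : ℝ) / (l : ℝ))

lemma zz_pos {n l : ℕ} (hn : 1 ≤ n) (hl : 1 ≤ l) (k : ℕ) : 0 < zz n l k := by
  have h1 : (0 : ℝ) < n := by exact_mod_cast hn
  have h2 : (0 : ℝ) < l := by exact_mod_cast hl
  unfold zz
  positivity

lemma zz_inv {n l Z : ℕ} (hn : 1 ≤ n) (hl : 1 ≤ l) (hlZ : l ≤ Z) (k : ℕ) :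
    1 / zz n l k ≤ Z / ((k : ℝ) + 1) := by
  have h1 : (1 : ℝ) ≤ n := by exact_mod_cast hn
  have h2 : (0 : ℝ) < l := by exact_mod_cast hl
  have h3 : (l : ℝ) ≤ Z := by exact_mod_cast hlZ
  have hk : (0 : ℝ) < (k : ℝ) + 1 := by positivity
  unfold zz
  rw [div_le_div_iff₀ (by positivity) hk, one_mul]
  have h4 : (l : ℝ) ≤ Z * n := by nlinarith
  have h5 : (1 : ℝ) ≤ Z * (n / l) := by
    rw [mul_div_assoc', le_div_iff₀ h2, one_mul]
    exact h4
  nlinarith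

/-- the summable majorant -/
noncomputable def cc (k : ℕ) : ℝ := 1 / ((k : ℝ) + 1) ^ 2

lemma cc_nonneg (k : ℕ) : 0 ≤ cc k := by
  unfold cc
  positivity

lemma summable_cc : Summable cc := by
  have h1 : Summable (fun k : ℕ => 1 / (k : ℝ) ^ 2) := Real.summable_one_div_nat_pow.2 (by norm_num)
  have h2 := (summable_nat_add_iff 1).2 h1
  refine h2.congr fun k => ?_
  unfold cc
  push_cast
  rfl

lemma pow4 {n l Z : ℕ} (hn : 1 ≤ n) (hl : 1 ≤ l) (hlZ : l ≤ Z) (k : ℕ) :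
    (zz n l k) ^ (-(4 : ℝ)) ≤ (Z : ℝ) ^ 4 * cc k := by
  have hz := zz_pos hn hl k
  have h1 := zz_inv hn hl hlZ k
  have hk : (1 : ℝ) ≤ (k : ℝ) + 1 := by
    have : (0 : ℝ) ≤ k := Nat.cast_nonneg k
    linarith
  have e : (zz n l k) ^ (-(4 : ℝ)) = (1 / zz n l k) ^ 4 := by
    rw [Real.rpow_neg hz.le, Real.rpow_ofNat, one_div, inv_pow]
  rw [e]
  calc (1 / zz n l k) ^ 4 ≤ (Z / ((k : ℝ) + 1)) ^ 4 :=
        pow_le_pow_left₀ (by positivity) h1 4
    _ = (Z : ℝ) ^ 4 * (1 / ((k : ℝ) + 1) ^ 4) := by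
        rw [div_pow]
        ring
    _ ≤ (Z : ℝ) ^ 4 * cc k := by
        unfold cc
        refine mul_le_mul_of_nonneg_left ?_ (by positivity)
        refine one_div_le_one_div_of_le (by positivity) ?_
        exact pow_le_pow_right₀ hk (by norm_num)

lemma log_zz {n l Z k : ℕ} (hn : 1 ≤ n) (hl : 1 ≤ l) (hlZ : l ≤ Z) (hne : (k + 1) * n ≠ l) :
    1 / (2 * (Z : ℝ)) ≤ |Real.log (zz n l k)| := by
  obtain ⟨M, hM⟩ : ∃ M, M = (k + 1) * n := ⟨_, rfl⟩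
  rw [← hM] at hne
  have hM1 : 1 ≤ M := by
    rw [hM]
    exact Nat.one_le_iff_ne_zero.2 (by positivity)
  have hM0 : (0 : ℝ) < M := by exact_mod_cast hM1
  have hl0 : (0 : ℝ) < l := by exact_mod_cast hl
  have hZ0 : (0 : ℝ) < Z := by exact_mod_cast (by omega : 0 < Z)
  have hlZ' : (l : ℝ) ≤ Z := by exact_mod_cast hlZ
  have hl1 : (1 : ℝ) ≤ l := by exact_mod_cast hl
  have e : zz n l k = (M : ℝ) / l := by
    rw [hM]
    unfold zz
    push_cast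
    ring
  rw [e]
  rcases lt_or_gt_of_ne hne with h | h
  · -- `M < l`
    have h1 := Real.one_sub_inv_le_log_of_pos (x := (l : ℝ) / M) (by positivity)
    have h2 : Real.log ((M : ℝ) / l) = -Real.log ((l : ℝ) / M) := by
      rw [← Real.log_inv, inv_div]
    have h3 : ((l : ℝ) / M)⁻¹ = M / l := inv_div _ _
    have h4 : (M : ℝ) + 1 ≤ l := by exact_mod_cast h
    have h5 : (M : ℝ) / l ≤ 1 - 1 / l := by
      rw [div_le_iff₀ hl0]
      have : (1 - 1 / (l : ℝ)) * l = l - 1 := by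
        field_simp
      rw [this]
      linarith
    have h6 : 1 / (2 * (Z : ℝ)) ≤ 1 / l := by
      refine one_div_le_one_div_of_le hl0 ?_
      linarith
    rw [h2, abs_neg]
    refine le_trans ?_ (le_abs_self _)
    rw [h3] at h1
    linarith
  · -- `l < M`
    have h1 := Real.one_sub_inv_le_log_of_pos (x := (M : ℝ) / l) (by positivity)
    have h3 : ((M : ℝ) / l)⁻¹ = l / M := inv_div _ _
    have h4 : (l : ℝ) + 1 ≤ M := by exact_mod_cast h
    have h5 : (l : ℝ) / M ≤ l / (l + 1) := by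
      refine div_le_div_of_nonneg_left hl0.le (by positivity) h4
    have h6 : (l : ℝ) / (l + 1) = 1 - 1 / (l + 1) := by
      field_simp
      ring
    have h7 : 1 / (2 * (Z : ℝ)) ≤ 1 / ((l : ℝ) + 1) := by
      refine one_div_le_one_div_of_le (by positivity) ?_
      linarith
    refine le_trans ?_ (le_abs_self _)
    rw [h3] at h1
    linarith

/-- the main terms with `z ≠ 1` -/
lemma main_small {T Δ : ℝ} {n l Z k : ℕ} (hT : 1 ≤ T) (hn : 1 ≤ n) (hl : 1 ≤ l) (hlZ : l ≤ Z)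
    (hne : (k + 1) * n ≠ l) (hΔ : 1 ≤ Δ) (hΔT : Δ ≤ T) (hZ : (Z : ℝ) * Real.log T ≤ Δ) :
    ‖((√Real.pi * Δ * Real.exp (-(Δ ^ 2 * Real.log (zz n l k) ^ 2 / 4)) : ℝ) : ℂ) *
      ((zz n l k : ℝ) : ℂ) ^ (-cp T)‖ ≤
      2 * T * Real.exp (9 / 2) * Real.exp (-(Real.log T ^ 2 / 32)) * (Z : ℝ) ^ 2 * cc k := by
  have hz := zz_pos hn hl k
  have hL := log_zz hn hl hlZ hne
  have hinv := zz_inv hn hl hlZ k
  set z := zz n l k with hzdef
  set L := Real.log z with hLdef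
  have hZ0 : (0 : ℝ) < Z := by exact_mod_cast (by omega : 0 < Z)
  have hlogT : 0 ≤ Real.log T := Real.log_nonneg hT
  have hΔ0 : 0 < Δ := by linarith
  rw [norm_mul, norm_real, Real.norm_eq_abs, abs_of_nonneg (by positivity),
    Complex.norm_cpow_eq_rpow_re_of_pos hz]
  have hre : (-cp T).re = -(1 / 2) := by
    unfold cp
    simp
  rw [hre, Real.rpow_def_of_pos hz, ← hLdef]
  have h1 : Real.log T / 2 ≤ Δ * |L| := by
    calc Real.log T / 2 = (Z : ℝ) * Real.log T * (1 / (2 * (Z : ℝ))) := by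
          field_simp
      _ ≤ Δ * |L| := mul_le_mul hZ hL (by positivity) hΔ0.le
  have h2 : Real.log T ^ 2 / 4 ≤ Δ ^ 2 * L ^ 2 := by
    have h3 : (Real.log T / 2) ^ 2 ≤ (Δ * |L|) ^ 2 := pow_le_pow_left₀ (by positivity) h1 2
    rw [mul_pow, sq_abs] at h3
    linarith [h3]
  have h4 : L ^ 2 ≤ Δ ^ 2 * L ^ 2 := by
    have : 1 ≤ Δ ^ 2 := one_le_pow₀ hΔ
    nlinarith [sq_nonneg L]
  have h5 : -(Δ ^ 2 * L ^ 2 / 4) + L * -(1 / 2) ≤ 9 / 2 + -(Real.log T ^ 2 / 32) + (-(2 * L)) := by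
    nlinarith [sq_nonneg (L - 6)]
  have hpi : √Real.pi ≤ 2 := by
    rw [Real.sqrt_le_left (by norm_num)]
    have := Real.pi_le_four
    linarith
  have h6 : Real.exp (-(2 * L)) = (1 / z) ^ 2 := by
    rw [hLdef, Real.exp_neg, mul_comm, Real.exp_mul, Real.exp_log hz, one_div, inv_pow,
      Real.rpow_ofNat]
  have h7 : (1 / z) ^ 2 ≤ (Z : ℝ) ^ 2 * cc k := by
    calc (1 / z) ^ 2 ≤ (Z / ((k : ℝ) + 1)) ^ 2 := pow_le_pow_left₀ (by positivity) hinv 2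
      _ = (Z : ℝ) ^ 2 * cc k := by
          unfold cc
          rw [div_pow]
          ring
  calc √Real.pi * Δ * Real.exp (-(Δ ^ 2 * L ^ 2 / 4)) * Real.exp (L * -(1 / 2)) =
        √Real.pi * Δ * Real.exp (-(Δ ^ 2 * L ^ 2 / 4) + L * -(1 / 2)) := by
        rw [Real.exp_add]
        ring
    _ ≤ (2 * T) * Real.exp (9 / 2 + -(Real.log T ^ 2 / 32) + (-(2 * L))) := by
        refine mul_le_mul ?_ (Real.exp_le_exp.2 h5) (Real.exp_pos _).le (by positivity)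
        exact mul_le_mul hpi hΔT hΔ0.le (by norm_num)
    _ = 2 * T * Real.exp (9 / 2) * Real.exp (-(Real.log T ^ 2 / 32)) * (1 / z) ^ 2 := by
        rw [Real.exp_add, Real.exp_add, h6]
        ring
    _ ≤ 2 * T * Real.exp (9 / 2) * Real.exp (-(Real.log T ^ 2 / 32)) * ((Z : ℝ) ^ 2 * cc k) :=
        mul_le_mul_of_nonneg_left h7 (by positivity)
    _ = _ := by ring

lemma cont_GG (T Δ : ℝ) : Continuous (fun y : ℝ => GG T Δ (fp y)) := by
  unfold GG fp cp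
  fun_prop

lemma cont_F (T Δ : ℝ) {z : ℝ} (hz : 0 < z) :
    Continuous (fun y : ℝ => (z : ℂ) ^ (-fp y) * GG T Δ (fp y)) := by
  refine Continuous.mul ?_ (cont_GG T Δ)
  refine Continuous.const_cpow ?_ (Or.inl (by exact_mod_cast hz.ne'))
  unfold fp
  fun_prop

lemma fp_re (y : ℝ) : (fp y).re = 4 := by
  unfold fp
  simp

/-- expansion of zeta -/
lemma zeta_sum {T Δ : ℝ} {n l : ℕ} (hn : 1 ≤ n) (hl : 1 ≤ l) (y : ℝ) :
    HasSum (fun k : ℕ => ((zz n l k : ℝ) : ℂ) ^ (-fp y) * GG T Δ (fp y))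
      (riemannZeta (fp y) * (((n : ℝ) / (l : ℝ) : ℝ) : ℂ) ^ (-fp y) * GG T Δ (fp y)) := by
  have h1 : 1 < (fp y).re := by
    rw [fp_re]
    norm_num
  have h2 : Summable (fun k : ℕ => 1 / ((k : ℂ) + 1) ^ (fp y)) := by
    have h3 := (summable_nat_add_iff 1).2 (Complex.summable_one_div_nat_cpow.2 h1)
    refine h3.congr fun k => ?_
    push_cast
    rfl
  have h3 := h2.hasSum
  rw [← zeta_eq_tsum_one_div_nat_add_one_cpow h1] at h3
  have h4 := (h3.mul_right ((((n : ℝ) / (l : ℝ) : ℝ) : ℂ) ^ (-fp y))).mul_right (GG T Δ (fp y))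
  refine h4.congr_fun ?_
  intro k
  congr 1
  have hn0 : (0 : ℝ) < n := by exact_mod_cast hn
  have hl0 : (0 : ℝ) < l := by exact_mod_cast hl
  have e1 : ((zz n l k : ℝ) : ℂ) = (((k : ℝ) + 1 : ℝ) : ℂ) * (((n : ℝ) / (l : ℝ) : ℝ) : ℂ) := by
    unfold zz
    push_cast
    rfl
  rw [e1, Complex.mul_cpow_ofReal_nonneg (by positivity) (by positivity)]
  congr 1
  rw [Complex.cpow_neg, one_div]
  push_cast
  rfl

theorem gauss_zeta (hg : GaussFp) : ∃ B T₀ : ℝ, 1 ≤ B ∧ 100 ≤ T₀ ∧ ∀ (T Δ a b : ℝ) (n l Z : ℕ), T₀ ≤ T →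
    B * Δ * √(Real.log T) ≤ T → |a - T / 2| ≤ 1 → |b - 3 * T / 2| ≤ 1 →
    1 ≤ n → n ≤ Z → 1 ≤ l → l ≤ Z → (Z : ℝ) ^ 8 ≤ T → (Z : ℝ) * Real.log T ≤ Δ →
    ‖(∫ y in a..b, riemannZeta (fp y) * (((n : ℝ) / (l : ℝ) : ℝ) : ℂ) ^ (-fp y) * GG T Δ (fp y)) -
      (if n ∣ l then ((√Real.pi * Δ : ℝ) : ℂ) else 0)‖ ≤ T ^ (-(2 : ℝ)) := by
  obtain ⟨B, T₀, hB, hT₀, hg⟩ := hg
  obtain ⟨C, hC⟩ := summable_cc
  have hC0 : 0 ≤ C := hC.nonneg cc_nonneg
  refine ⟨B, max (max T₀ (Real.exp 160)) ((1 + 2 * Real.exp (9 / 2)) * C), hB,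
    hT₀.trans ((le_max_left _ _).trans (le_max_left _ _)), ?_⟩
  intro T Δ a b n l Z hT hBΔ ha hb hn hnZ hl hlZ hZT hZΔ
  have hT1 : T₀ ≤ T := ((le_max_left _ _).trans (le_max_left _ _)).trans hT
  have hT2 : Real.exp 160 ≤ T := ((le_max_right _ _).trans (le_max_left _ _)).trans hT
  have hT3 : (1 + 2 * Real.exp (9 / 2)) * C ≤ T := (le_max_right _ _).trans hT
  have hT0 : 0 < T := lt_of_lt_of_le (Real.exp_pos _) hT2
  have hT100 : (100 : ℝ) ≤ T := hT₀.trans hT1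
  have hlog : 160 ≤ Real.log T := by
    rw [← Real.log_exp 160]
    exact Real.log_le_log (Real.exp_pos _) hT2
  have hZ1 : (1 : ℝ) ≤ Z := by exact_mod_cast (hl.trans hlZ)
  have hΔ1 : 1 ≤ Δ := by nlinarith
  have hΔT : Δ ≤ T := by
    refine le_trans ?_ hBΔ
    have h1 : 1 ≤ √(Real.log T) := Real.one_le_sqrt.2 (by linarith)
    have h2 : 1 ≤ B * √(Real.log T) := by nlinarith
    nlinarith
  -- the sum over `k`
  have hsum : HasSum (fun k : ℕ => ∫ y in a..b, ((zz n l k : ℝ) : ℂ) ^ (-fp y) * GG T Δ (fp y))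
      (∫ y in a..b, riemannZeta (fp y) * (((n : ℝ) / (l : ℝ) : ℝ) : ℂ) ^ (-fp y) *
        GG T Δ (fp y)) := by
    refine intervalIntegral.hasSum_integral_of_dominated_convergence
      (fun k y => (Z : ℝ) ^ 4 * cc k * ‖GG T Δ (fp y)‖) ?_ ?_ ?_ ?_ ?_
    · intro k
      exact (cont_F T Δ (zz_pos hn hl k)).aestronglyMeasurable
    · intro k
      refine Filter.Eventually.of_forall fun y _ => ?_
      rw [norm_mul, Complex.norm_cpow_eq_rpow_re_of_pos (zz_pos hn hl k), neg_re, fp_re]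
      exact mul_le_mul_of_nonneg_right (pow4 hn hl hlZ k) (norm_nonneg _)
    · refine Filter.Eventually.of_forall fun y _ => ?_
      exact (summable_cc.mul_left _).mul_right _
    · have e : (fun y : ℝ => ∑' k : ℕ, (Z : ℝ) ^ 4 * cc k * ‖GG T Δ (fp y)‖) =
          fun y : ℝ => (∑' k : ℕ, (Z : ℝ) ^ 4 * cc k) * ‖GG T Δ (fp y)‖ := by
        funext y
        rw [tsum_mul_right]
      rw [e]
      exact (continuous_const.mul (cont_GG T Δ).norm).intervalIntegrable _ _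
    · refine Filter.Eventually.of_forall fun y _ => ?_
      exact zeta_sum hn hl y
  have hdel : HasSum (fun k : ℕ => if (k + 1) * n = l then ((√Real.pi * Δ : ℝ) : ℂ) else 0)
      (if n ∣ l then ((√Real.pi * Δ : ℝ) : ℂ) else 0) := by
    by_cases hd : n ∣ l
    · obtain ⟨m, hm⟩ := hd
      have hm1 : 1 ≤ m := by
        rcases Nat.eq_zero_or_pos m with h | h
        · rw [h] at hm
          omega
        · exact h
      rw [if_pos ⟨m, hm⟩]
      have h1 : ∀ k : ℕ, ((k + 1) * n = l) ↔ k = m - 1 := by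
        intro k
        rw [hm, mul_comm n m]
        constructor
        · intro h
          have := Nat.eq_of_mul_eq_mul_right (by omega) h
          omega
        · intro h
          rw [h, Nat.sub_add_cancel hm1]
      have h2 : (fun k : ℕ => if (k + 1) * n = l then ((√Real.pi * Δ : ℝ) : ℂ) else 0) =
          fun k : ℕ => if k = m - 1 then ((√Real.pi * Δ : ℝ) : ℂ) else 0 := by
        funext k
        by_cases h : k = m - 1
        · rw [if_pos h, if_pos ((h1 k).2 h)]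
        · rw [if_neg h, if_neg (fun h' => h ((h1 k).1 h'))]
      rw [h2]
      exact hasSum_ite_eq (m - 1) _
    · rw [if_neg hd]
      have h2 : (fun k : ℕ => if (k + 1) * n = l then ((√Real.pi * Δ : ℝ) : ℂ) else 0) =
          fun _ : ℕ => 0 := by
        funext k
        rw [if_neg]
        intro h
        exact hd ⟨k + 1, by rw [← h, mul_comm]⟩
      rw [h2]
      exact hasSum_zero
  have hkey : ∀ k : ℕ, ‖(∫ y in a..b, ((zz n l k : ℝ) : ℂ) ^ (-fp y) * GG T Δ (fp y)) -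
      (if (k + 1) * n = l then ((√Real.pi * Δ : ℝ) : ℂ) else 0)‖ ≤
      ((Z : ℝ) ^ 4 * T ^ (-(6 : ℝ)) +
        2 * T * Real.exp (9 / 2) * Real.exp (-(Real.log T ^ 2 / 32)) * (Z : ℝ) ^ 2) * cc k := by
    intro k
    have h1 := hg T Δ a b (zz n l k) hT1 hΔ1 hBΔ ha hb (zz_pos hn hl k)
    have h2 : (zz n l k) ^ (-(4 : ℝ)) * T ^ (-(6 : ℝ)) ≤ (Z : ℝ) ^ 4 * cc k * T ^ (-(6 : ℝ)) :=
      mul_le_mul_of_nonneg_right (pow4 hn hl hlZ k) (by positivity)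
    have h3 : 0 ≤ 2 * T * Real.exp (9 / 2) * Real.exp (-(Real.log T ^ 2 / 32)) * (Z : ℝ) ^ 2 *
        cc k := mul_nonneg (by positivity) (cc_nonneg k)
    split_ifs with h
    · have hz1 : zz n l k = 1 := by
        have hl0 : (l : ℝ) ≠ 0 := by
          have : (0 : ℝ) < l := by exact_mod_cast hl
          exact this.ne'
        unfold zz
        rw [mul_div_assoc', div_eq_one_iff_eq hl0]
        exact_mod_cast h
      rw [hz1] at h1 h2 ⊢
      have e : ((√Real.pi * Δ * Real.exp (-(Δ ^ 2 * Real.log 1 ^ 2 / 4)) : ℝ) : ℂ) *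
          ((1 : ℝ) : ℂ) ^ (-cp T) = ((√Real.pi * Δ : ℝ) : ℂ) := by
        simp
      rw [e] at h1
      refine (h1.trans h2).trans ?_
      linarith
    · have h4 := main_small (T := T) (by linarith) hn hl hlZ h hΔ1 hΔT hZΔ
      rw [sub_zero]
      set J := ((√Real.pi * Δ * Real.exp (-(Δ ^ 2 * Real.log (zz n l k) ^ 2 / 4)) : ℝ) : ℂ) *
        ((zz n l k : ℝ) : ℂ) ^ (-cp T) with hJ
      set I := ∫ y in a..b, ((zz n l k : ℝ) : ℂ) ^ (-fp y) * GG T Δ (fp y) with hI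
      have h5 : ‖I‖ ≤ ‖I - J‖ + ‖J‖ := by
        have : I = (I - J) + J := by ring
        calc ‖I‖ = ‖(I - J) + J‖ := by rw [← this]
          _ ≤ _ := norm_add_le _ _
      refine (h5.trans (add_le_add (h1.trans h2) h4)).trans (le_of_eq ?_)
      ring
  have hbound := (hsum.sub hdel).norm_le_of_bounded (hC.mul_left _) hkey
  refine hbound.trans ?_
  -- numerical bounds
  have e6 : T ^ (-(6 : ℝ)) = (T ^ 6)⁻¹ := by
    rw [Real.rpow_neg hT0.le, Real.rpow_ofNat]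
  have e2 : T ^ (-(2 : ℝ)) = (T ^ 2)⁻¹ := by
    rw [Real.rpow_neg hT0.le, Real.rpow_ofNat]
  have hZ4 : (Z : ℝ) ^ 4 ≤ T := (pow_le_pow_right₀ hZ1 (by norm_num)).trans hZT
  have hZ2 : (Z : ℝ) ^ 2 ≤ T := (pow_le_pow_right₀ hZ1 (by norm_num)).trans hZT
  have hexp : Real.exp (-(Real.log T ^ 2 / 32)) ≤ (T ^ 5)⁻¹ := by
    have h1 : (T ^ 5)⁻¹ = Real.exp (-(5 * Real.log T)) := by
      rw [Real.exp_neg, mul_comm, Real.exp_mul, Real.exp_log hT0, Real.rpow_ofNat]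
    rw [h1]
    refine Real.exp_le_exp.2 ?_
    nlinarith
  have h1 : (Z : ℝ) ^ 4 * T ^ (-(6 : ℝ)) ≤ (T ^ 3)⁻¹ := by
    rw [e6]
    calc (Z : ℝ) ^ 4 * (T ^ 6)⁻¹ ≤ T * (T ^ 6)⁻¹ := mul_le_mul_of_nonneg_right hZ4 (by positivity)
      _ = (T ^ 5)⁻¹ := by
          field_simp
      _ ≤ (T ^ 3)⁻¹ := by
          refine inv_anti₀ (by positivity) ?_
          exact pow_le_pow_right₀ (by linarith) (by norm_num)
  have h2 : 2 * T * Real.exp (9 / 2) * Real.exp (-(Real.log T ^ 2 / 32)) * (Z : ℝ) ^ 2 ≤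
      2 * Real.exp (9 / 2) * (T ^ 3)⁻¹ := by
    calc 2 * T * Real.exp (9 / 2) * Real.exp (-(Real.log T ^ 2 / 32)) * (Z : ℝ) ^ 2 ≤
        2 * T * Real.exp (9 / 2) * (T ^ 5)⁻¹ * T := by
          refine mul_le_mul ?_ hZ2 (by positivity) (by positivity)
          exact mul_le_mul_of_nonneg_left hexp (by positivity)
      _ = 2 * Real.exp (9 / 2) * (T ^ 3)⁻¹ := by
          field_simp
  calc ((Z : ℝ) ^ 4 * T ^ (-(6 : ℝ)) +
        2 * T * Real.exp (9 / 2) * Real.exp (-(Real.log T ^ 2 / 32)) * (Z : ℝ) ^ 2) * C ≤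
      ((T ^ 3)⁻¹ + 2 * Real.exp (9 / 2) * (T ^ 3)⁻¹) * C :=
        mul_le_mul_of_nonneg_right (add_le_add h1 h2) hC0
    _ = ((1 + 2 * Real.exp (9 / 2)) * C) * (T ^ 3)⁻¹ := by ring
    _ ≤ T * (T ^ 3)⁻¹ := mul_le_mul_of_nonneg_right hT3 (by positivity)
    _ = T ^ (-(2 : ℝ)) := by
        rw [e2]
        field_simp

end Pool.Agent.TH75.GaussZeta
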