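import Pool.Agent.TH75.FI_CONTRACT

/-!
Replacing the inside of connected classes of a tree.
-/

set_option autoImplicit false

namespace Pool.Agent.TH75.FI

open MeasureTheory Set Filter Pool.Agent.TH722.FI
open scoped Topology ENNReal

section Gate

variable {V : Type*}

/-- `A` without the edges inside `Z` -/
def outG (A : SimpleGraph V) (Z : Set V) : SimpleGraph V where
  Adj a b := A.Adj a b ∧ ¬ (a ∈ Z ∧ b ∈ Z)
  symm := ⟨fun _ _ h => ⟨h.1.symm, fun h' => h.2 ⟨h'.2, h'.1⟩⟩⟩
  loopless := ⟨fun a h => A.loopless.irrefl a h.1⟩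

theorem outG_le (A : SimpleGraph V) (Z : Set V) : outG A Z ≤ A := fun _ _ h => h.1

/-- two points of `Z` are not joined outside `Z` -/
theorem gate_unique {A : SimpleGraph V} (hA : A.IsAcyclic) {Z : Set V}
    (hZ : (A.induce Z).Preconnected) {z z' : V} (hz : z ∈ Z) (hz' : z' ∈ Z)
    (h : (outG A Z).Reachable z z') : z = z' := by
  obtain ⟨p, hp⟩ := h.exists_isPath
  obtain ⟨q, hq⟩ := (hZ ⟨z, hz⟩ ⟨z', hz'⟩).exists_isPath
  have hp' : (p.mapLe (outG_le A Z)).IsPath := SimpleGraph.Walk.IsPath.mapLe _ hp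
  let f : A.induce Z →g A := (SimpleGraph.Embedding.induce Z).toHom
  have hf : Function.Injective f := Subtype.val_injective
  have hq' : (q.map f).IsPath := SimpleGraph.Walk.IsPath.map hf hq
  have heq : p.mapLe (outG_le A Z) = q.map f :=
    congrArg Subtype.val ((hA.subsingleton_path z z').elim ⟨_, hp'⟩ ⟨q.map f, hq'⟩)
  cases p with
  | nil => rfl
  | @cons _ v _ hadj p' =>
    exfalso
    have h1 : s(z, v) ∈ (q.map f).edges := by
      rw [← heq]
      exact List.mem_cons_self
    rw [SimpleGraph.Walk.edges_map, List.mem_map] at h1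
    obtain ⟨e, -, he⟩ := h1
    induction e using Sym2.ind with
    | _ a b =>
      rw [Sym2.map_mk] at he
      have h2 := hadj.2
      rw [Sym2.eq_iff] at he
      rcases he with ⟨h3, h4⟩ | ⟨h3, h4⟩
      · exact h2 ⟨h3 ▸ a.2, h4 ▸ b.2⟩
      · exact h2 ⟨h4 ▸ b.2, h3 ▸ a.2⟩

theorem gate_exists {A : SimpleGraph V} (hA : A.Preconnected) {Z : Set V} {x : V} (hx : x ∈ Z)
    (v : V) : ∃ z : Z, (outG A Z).Reachable v z := by
  refine reach_closed (G := A) (S := fun v => ∃ z : Z, (outG A Z).Reachable v z) ?_ (hA x v)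
    ⟨⟨x, hx⟩, SimpleGraph.Reachable.refl _⟩
  rintro a b hab ⟨z, hz⟩
  by_cases h : a ∈ Z ∧ b ∈ Z
  · exact ⟨⟨b, h.2⟩, SimpleGraph.Reachable.refl _⟩
  · have h1 : (outG A Z).Adj b a := ⟨hab.symm, fun h' => h ⟨h'.2, h'.1⟩⟩
    exact ⟨z, h1.reachable.trans hz⟩

/-- the gate map -/
theorem gate {A B : SimpleGraph V} (hA : A.IsTree) {R : V → V → Prop} (hR : Equivalence R)
    (hconn : ∀ x, (A.induce {z | R x z}).Connected)
    (hext : ∀ x y, ¬ R x y → (A.Adj x y ↔ B.Adj x y)) (x : V) :
    ∃ f : V → {z | R x z}, (∀ z : {z | R x z}, f z = z) ∧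
      ∀ u v, B.Adj u v → ¬ (R x u ∧ R x v) → f u = f v := by
  classical
  have hx : x ∈ {z | R x z} := hR.refl x
  choose f hf using gate_exists hA.connected.preconnected hx
  have huniq : ∀ z z' : {z | R x z}, (outG A {z | R x z}).Reachable z z' → z = z' :=
    fun z z' h => Subtype.ext (gate_unique hA.isAcyclic (hconn x).preconnected z.2 z'.2 h)
  have hadj : ∀ u v, A.Adj u v → ¬ (R x u ∧ R x v) → f u = f v := by
    intro u v huv hn
    apply huniq
    have h1 : (outG A {z | R x z}).Adj u v := ⟨huv, hn⟩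
    exact ((hf u).symm.trans h1.reachable).trans (hf v)
  refine ⟨f, fun z => (huniq _ _ (hf z)).symm, ?_⟩
  intro u v huv hn
  by_cases h : R u v
  · have hu : ¬ R x u := fun h' => hn ⟨h', hR.trans h' h⟩
    have key := reach_closed (G := A.induce {z | R u z}) (S := fun t => f u = f t) ?_
      ((hconn u).preconnected ⟨u, hR.refl u⟩ ⟨v, h⟩) rfl
    · exact key
    · intro c d hcd hc
      rw [hc]
      refine hadj c.1 d.1 hcd ?_
      rintro ⟨h1, -⟩
      exact hu (hR.trans h1 (hR.symm c.2))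
  · exact hadj u v ((hext u v h).2 huv) hn

end Gate

variable {V W : Type*}

theorem glue (A B : SimpleGraph V) (hA : A.IsTree) (R : V → V → Prop) (hR : Equivalence R)
    (hconn : ∀ x, (A.induce {z | R x z}).Connected)
    (hext : ∀ x y, ¬ R x y → (A.Adj x y ↔ B.Adj x y)) :
    ((∀ x, (B.induce {z | R x z}).IsTree) → B.IsTree) ∧
    (B.Connected → ∀ x, (B.induce {z | R x z}).Connected) := by
  constructor
  · intro hB
    have hne : Nonempty V := hA.connected.nonempty
    have hBc : B.Connected := by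
      refine ⟨?_⟩
      intro x y
      refine reach_closed (G := A) (S := fun t => B.Reachable x t) ?_
        (hA.connected.preconnected x y) (SimpleGraph.Reachable.refl _)
      intro c d hcd h
      refine h.trans ?_
      by_cases hr : R c d
      · have h1 := (hB c).connected.preconnected ⟨c, hR.refl c⟩ ⟨d, hr⟩
        exact h1.map (SimpleGraph.Embedding.induce {z | R c z}).toHom
      · exact SimpleGraph.Adj.reachable ((hext c d hr).1 hcd)
    refine ⟨hBc, acyclic_of_cut ?_⟩
    intro x y hxy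
    by_cases hr : R x y
    · obtain ⟨f, hf1, hf2⟩ := gate hA hR hconn hext x
      have hadj : (B.induce {z | R x z}).Adj ⟨x, hR.refl x⟩ ⟨y, hr⟩ := hxy
      obtain ⟨P, hP⟩ := cut_of_acyclic (hB x).isAcyclic hadj
      refine ⟨fun t => P (f t), ?_, ?_, ?_⟩
      · change P (f (⟨x, hR.refl x⟩ : {z | R x z}))
        rw [hf1]
        exact hP.1
      · change ¬ P (f (⟨y, hr⟩ : {z | R x z}))
        rw [hf1]
        exact hP.2.1
      · intro u v huv hu hv
        change P (f u) at hu
        change ¬ P (f v) at hv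
        by_cases hb : R x u ∧ R x v
        · have e1 : f u = ⟨u, hb.1⟩ := hf1 ⟨u, hb.1⟩
          have e2 : f v = ⟨v, hb.2⟩ := hf1 ⟨v, hb.2⟩
          rw [e1] at hu
          rw [e2] at hv
          have h1 := hP.2.2 ⟨u, hb.1⟩ ⟨v, hb.2⟩ huv hu hv
          have h2 := congrArg (Sym2.map Subtype.val) h1
          simpa using h2
        · exact absurd (hf2 u v huv hb ▸ hu) hv
    · obtain ⟨S, hS⟩ := cut_of_acyclic hA.isAcyclic ((hext x y hr).2 hxy)
      refine ⟨S, hS.1, hS.2.1, ?_⟩
      intro u v huv hu hv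
      by_cases hb : R u v
      · exfalso
        apply hv
        refine cut_side hS (Z := {z | R u z}) (hconn u).preconnected ?_ (hR.refl u) hb hu
        rintro ⟨h1, h2⟩
        exact hr (hR.trans (hR.symm h1) h2)
      · exact hS.2.2 u v ((hext u v hb).2 huv) hu hv
  · intro hB x
    obtain ⟨f, hf1, hf2⟩ := gate hA hR hconn hext x
    have hne : Nonempty {z | R x z} := ⟨⟨x, hR.refl x⟩⟩
    refine ⟨?_⟩
    intro z z'
    have key := reach_closed (G := B)
      (S := fun t => (B.induce {z | R x z}).Reachable z (f t)) ?_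
      (hB.preconnected z z') (by rw [hf1])
    · rwa [hf1] at key
    · intro u v huv hu
      by_cases hb : R x u ∧ R x v
      · have e1 : f u = ⟨u, hb.1⟩ := hf1 ⟨u, hb.1⟩
        have e2 : f v = ⟨v, hb.2⟩ := hf1 ⟨v, hb.2⟩
        rw [e1] at hu
        rw [e2]
        exact hu.trans (SimpleGraph.Adj.reachable (show (B.induce {z | R x z}).Adj
          ⟨u, hb.1⟩ ⟨v, hb.2⟩ from huv))
      · rw [← hf2 u v huv hb]
        exact hu

/-- the number of pairs of adjacent vertices in a finite subtree -/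
theorem tree_count (B : SimpleGraph V) (Z : Set V) (hZ : Z.Finite) (hB : (B.induce Z).IsTree) :
    Set.ncard {p : V × V | p.1 ∈ Z ∧ p.2 ∈ Z ∧ B.Adj p.1 p.2} = 2 * (Z.ncard - 1) := by
  classical
  have : Fintype Z := hZ.fintype
  have h1 := hB.card_edgeFinset
  have h2 := (B.induce Z).dart_card_eq_twice_card_edges
  have h3 : Fintype.card Z = Z.ncard := by
    rw [Set.ncard_eq_toFinset_card', Set.toFinset_card]
  let f : (B.induce Z).Dart → V × V := fun d => ((d.fst : V), (d.snd : V))
  have hf : Function.Injective f := by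
    intro d e h
    have h4 : (d.fst : V) = e.fst := congrArg Prod.fst h
    have h5 : (d.snd : V) = e.snd := congrArg Prod.snd h
    apply SimpleGraph.Dart.ext
    exact Prod.ext (Subtype.ext h4) (Subtype.ext h5)
  have hr : {p : V × V | p.1 ∈ Z ∧ p.2 ∈ Z ∧ B.Adj p.1 p.2} = Set.range f := by
    ext p
    constructor
    · rintro ⟨h4, h5, h6⟩
      exact ⟨⟨(⟨p.1, h4⟩, ⟨p.2, h5⟩), h6⟩, rfl⟩
    · rintro ⟨d, rfl⟩
      exact ⟨d.fst.2, d.snd.2, d.adj⟩
  rw [hr, ← Nat.card_coe_set_eq, Nat.card_range_of_injective hf, Nat.card_eq_fintype_card,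
    h2]
  omega

theorem glue_count (A B : SimpleGraph V) (hA : A.IsTree) (hB : B.IsTree) (R : V → V → Prop)
    (hR : Equivalence R) (hconn : ∀ x, (A.induce {z | R x z}).Connected)
    (hext : ∀ x y, ¬ R x y → (A.Adj x y ↔ B.Adj x y)) (x : V) (hfin : {z | R x z}.Finite) :
    Set.ncard {p : V × V | R x p.1 ∧ R x p.2 ∧ A.Adj p.1 p.2} =
      Set.ncard {p : V × V | R x p.1 ∧ R x p.2 ∧ B.Adj p.1 p.2} := by
  have h1 := tree_count A {z | R x z} hfin ⟨hconn x, hA.isAcyclic.induce _⟩
  have h2 := tree_count B {z | R x z} hfin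
    ⟨(glue A B hA R hR hconn hext).2 hB.connected x, hB.isAcyclic.induce _⟩
  exact h1.trans h2.symm

end Pool.Agent.TH75.FI
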