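import Pool.Agent.TH371.Harm.Defs

/-!
# MP_35dab7_an, HARM1: level curves of `FF`
-/

set_option autoImplicit false

namespace Pool.Agent.TH75.HarmLevel

open Complex Filter Topology Set Pool.Agent.TH371.Harm

lemma hasDerivAt_FF (A B : ℝ) {z : ℂ} (hz : 0 < z.im) : HasDerivAt (FF A B) (DF A B z) z := by
  have h1 : z + 1 ∈ slitPlane := by
    rw [mem_slitPlane_iff]
    right
    simp only [add_im, one_im, add_zero]
    exact hz.ne'
  have h2 : HasDerivAt (fun z : ℂ => Complex.log (z + 1)) (1 / (z + 1)) z :=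
    ((hasDerivAt_id z).add_const (1 : ℂ)).clog h1
  have h3 : HasDerivAt (fun z : ℂ => -((A : ℂ) / 2) * z ^ 2 + B * z) (-(A : ℂ) * z + B) z := by
    have h4 : HasDerivAt (fun z : ℂ => -((A : ℂ) / 2) * z ^ 2 + B * z)
        (-((A : ℂ) / 2) * (((2 : ℕ) : ℂ) * z ^ (2 - 1)) + B * 1) z :=
      ((hasDerivAt_pow 2 z).const_mul (-((A : ℂ) / 2))).add ((hasDerivAt_id z).const_mul (B : ℂ))
    have e : -((A : ℂ) / 2) * (((2 : ℕ) : ℂ) * z ^ (2 - 1)) + B * 1 = -(A : ℂ) * z + B := by
      norm_num
      ring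
    rwa [e] at h4
  exact h3.add h2

lemma DF_im (A B x h : ℝ) : (DF A B (x + h * I)).im =
    -A * h - h / ((x + 1) ^ 2 + h ^ 2) := by
  have e1 : (1 / ((x : ℂ) + h * I + 1)).im = -h / ((x + 1) ^ 2 + h ^ 2) := by
    rw [one_div, inv_im, normSq_apply]
    simp only [add_im, add_re, ofReal_re, ofReal_im, mul_re, mul_im, I_re, I_im, one_re, one_im]
    congr 1
    · ring
    · ring
  unfold DF
  rw [add_im, e1]
  simp only [add_im, neg_mul, neg_im, mul_im, ofReal_re, ofReal_im, add_re, mul_re, I_re, I_im]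
  ring

lemma DF_im_neg (A B x h : ℝ) (hA : 0 < A) (hh : 0 < h) : (DF A B (x + h * I)).im < 0 := by
  rw [DF_im A B x h]
  have h1 : 0 < A * h := mul_pos hA hh
  have h2 : 0 < h / ((x + 1) ^ 2 + h ^ 2) := by positivity
  linarith

lemma FF_im (A B x h : ℝ) : (FF A B (x + h * I)).im =
    h * (B - A * x) + Complex.arg (x + h * I + 1) := by
  unfold FF
  rw [add_im, log_im]
  congr 1
  simp only [add_im, mul_im, mul_re, neg_re, neg_im, pow_two, add_re, ofReal_re, ofReal_im, I_re,
    I_im, div_ofNat_re, div_ofNat_im]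
  ring

lemma pos_im {x h : ℝ} (hh : 0 < h) : 0 < ((x : ℂ) + h * I).im := by
  simpa using hh

/-- the function on a horizontal line -/
lemma deriv_x (A B h x : ℝ) (hh : 0 < h) :
    HasDerivAt (fun x : ℝ => (FF A B (x + h * I)).im) (DF A B (x + h * I)).im x := by
  have h1 : HasDerivAt (fun x : ℝ => ((x : ℂ) + h * I)) 1 x := by
    have := (Complex.ofRealCLM.hasDerivAt (x := x)).add_const ((h : ℂ) * I)
    simpa using this
  have h2 := (hasDerivAt_FF A B (pos_im (x := x) hh)).comp x h1
  rw [mul_one] at h2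
  exact (Complex.imCLM.hasFDerivAt (x := FF A B (x + h * I))).comp_hasDerivAt x h2

lemma anti (A B h : ℝ) (hA : 0 < A) (hh : 0 < h) :
    StrictAnti (fun x : ℝ => (FF A B (x + h * I)).im) := by
  refine strictAnti_of_deriv_neg fun x => ?_
  rw [(deriv_x A B h x hh).deriv]
  exact DF_im_neg A B x h hA hh

lemma exists_x (A B h y : ℝ) (hA : 0 < A) (hh : 0 < h) : ∃ x : ℝ, (FF A B (x + h * I)).im = y := by
  have hcont : Continuous (fun x : ℝ => (FF A B (x + h * I)).im) :=
    continuous_iff_continuousAt.2 fun x => (deriv_x A B h x hh).continuousAt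
  refine mem_range_of_exists_le_of_exists_ge hcont ⟨(B - (y - Real.pi) / h) / A, ?_⟩
    ⟨(B - (y + Real.pi) / h) / A, ?_⟩
  · rw [FF_im]
    have h1 := Complex.arg_le_pi ((((B - (y - Real.pi) / h) / A : ℝ) : ℂ) + h * I + 1)
    have h2 : h * (B - A * ((B - (y - Real.pi) / h) / A)) = y - Real.pi := by
      field_simp
      ring
    rw [h2]
    linarith
  · rw [FF_im]
    have h1 := Complex.neg_pi_lt_arg ((((B - (y + Real.pi) / h) / A : ℝ) : ℂ) + h * I + 1)
    have h2 : h * (B - A * ((B - (y + Real.pi) / h) / A)) = y + Real.pi := by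
      field_simp
      ring
    rw [h2]
    linarith

lemma cont_h (A B x h0 : ℝ) (hh : 0 < h0) :
    ContinuousAt (fun h : ℝ => (FF A B (x + h * I)).im) h0 := by
  have h1 : ContinuousAt (fun h : ℝ => ((x : ℂ) + h * I)) h0 := by fun_prop
  have h2 := (hasDerivAt_FF A B (pos_im (x := x) hh)).continuousAt
  have h3 : ContinuousAt (fun h : ℝ => FF A B (x + h * I)) h0 :=
    ContinuousAt.comp (g := FF A B) (f := fun h : ℝ => (x : ℂ) + h * I) h2 h1
  exact Complex.continuous_im.continuousAt.comp h3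

theorem level_curve (A B : ℝ) (hA : 0 < A) (y : ℝ) :
    ∃ X : ℝ → ℝ, (∀ h : ℝ, 0 < h → (FF A B (X h + h * I)).im = y) ∧
      (∀ h : ℝ, 0 < h → ∀ x : ℝ, (FF A B (x + h * I)).im = y → x = X h) ∧
      (∀ h : ℝ, 0 < h →
        HasDerivAt X (-(DF A B (X h + h * I)).re / (DF A B (X h + h * I)).im) h) := by
  have hex : ∀ h : ℝ, ∃ x : ℝ, 0 < h → (FF A B (x + h * I)).im = y := by
    intro h
    by_cases hh : 0 < h
    · obtain ⟨x, hx⟩ := exists_x A B h y hA hh
      exact ⟨x, fun _ => hx⟩
    · exact ⟨0, fun h' => absurd h' hh⟩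
  choose X hX using hex
  refine ⟨X, hX, ?_, ?_⟩
  · intro h hh x hx
    exact (anti A B h hA hh).injective (hx.trans (hX h hh).symm)
  · intro h0 hh0
    have hpos : ∀ᶠ h : ℝ in 𝓝 h0, 0 < h := lt_mem_nhds hh0
    -- continuity
    have hcont : ContinuousAt X h0 := by
      rw [Metric.continuousAt_iff']
      intro ε hε
      have a1 : y < (FF A B (((X h0 - ε : ℝ) : ℂ) + h0 * I)).im := by
        rw [← hX h0 hh0]
        exact anti A B h0 hA hh0 (by linarith)
      have a2 : (FF A B (((X h0 + ε : ℝ) : ℂ) + h0 * I)).im < y := by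
        rw [← hX h0 hh0]
        exact anti A B h0 hA hh0 (by linarith)
      have b1 := (cont_h A B (X h0 - ε) h0 hh0).eventually (lt_mem_nhds a1)
      have b2 := (cont_h A B (X h0 + ε) h0 hh0).eventually (gt_mem_nhds a2)
      filter_upwards [b1, b2, hpos] with h c1 c2 c3
      rw [← hX h c3] at c1 c2
      have d1 : X h0 - ε < X h := (anti A B h hA c3).lt_iff_gt.1 c1
      have d2 : X h < X h0 + ε := (anti A B h hA c3).lt_iff_gt.1 c2
      rw [Real.dist_eq, abs_lt]
      constructor <;> linarith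
    set z0 : ℂ := (X h0 : ℂ) + h0 * I with hz0
    set c := DF A B z0 with hc
    have hcim : c.im < 0 := DF_im_neg A B (X h0) h0 hA hh0
    set q : ℝ := c.re / c.im with hq
    have hγ : ContinuousAt (fun h : ℝ => (X h : ℂ) + h * I) h0 := by
      have h1 : ContinuousAt (fun h : ℝ => ((X h : ℝ) : ℂ)) h0 :=
        Complex.continuous_ofReal.continuousAt.comp hcont
      have h2 : ContinuousAt (fun h : ℝ => (h : ℂ) * I) h0 := by fun_prop
      exact h1.add h2
    have hd := (hasDerivAt_iff_isLittleO.1 (hasDerivAt_FF A B (pos_im (x := X h0) hh0))).comp_tendsto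
      hγ
    rw [hasDerivAt_iff_isLittleO, Asymptotics.isLittleO_iff]
    intro ε hε
    set K : ℝ := 1 + |q| with hK
    have hK0 : 0 < K := by positivity
    set δ : ℝ := min (1 / 2) (ε / (2 * K)) with hδ
    have hδ0 : 0 < δ := by
      rw [hδ]
      exact lt_min (by norm_num) (by positivity)
    have hδ1 : δ ≤ 1 / 2 := min_le_left _ _
    have hδ2 : 2 * δ * K ≤ ε := by
      have : δ ≤ ε / (2 * K) := min_le_right _ _
      rw [le_div_iff₀ (by positivity)] at this
      linarith
    have hev := Asymptotics.isLittleO_iff.1 hd (c := δ * |c.im|)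
      (mul_pos hδ0 (abs_pos.2 hcim.ne))
    filter_upwards [hev, hpos] with h h1 h2
    simp only [Function.comp_apply] at h1
    set e : ℝ := (X h - X h0) + q * (h - h0) with he
    have h3 : ((X h : ℂ) + h * I) - z0 = ((e - q * (h - h0) : ℝ) : ℂ) + ((h - h0 : ℝ) : ℂ) * I := by
      rw [hz0, he]
      push_cast
      ring
    have h4 : ‖((X h : ℂ) + h * I) - z0‖ ≤ |e| + K * |h - h0| := by
      rw [h3]
      refine (norm_add_le _ _).trans ?_
      rw [norm_mul, norm_I, mul_one, norm_real, norm_real, Real.norm_eq_abs, Real.norm_eq_abs]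
      have h5 : |e - q * (h - h0)| ≤ |e| + |q| * |h - h0| := by
        refine (abs_sub _ _).trans ?_
        rw [abs_mul]
      rw [hK]
      linarith
    have h6 : c.im * e = (((X h : ℂ) + h * I - z0) * c).im := by
      rw [mul_im]
      have h7 : ((X h : ℂ) + h * I - z0).re = X h - X h0 := by
        rw [hz0]
        simp
      have h8 : ((X h : ℂ) + h * I - z0).im = h - h0 := by
        rw [hz0]
        simp
      have hcne : c.im ≠ 0 := hcim.ne
      rw [h7, h8, he, hq]
      field_simp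
    have h9 : |c.im| * |e| ≤ δ * |c.im| * ‖((X h : ℂ) + h * I) - z0‖ := by
      refine le_trans ?_ h1
      have h10 : (FF A B ((X h : ℂ) + h * I) - FF A B z0 - ((X h : ℂ) + h * I - z0) • c).im =
          -(c.im * e) := by
        rw [sub_im, sub_im, hX h h2, hz0, hX h0 hh0, h6, hz0, smul_eq_mul]
        ring
      have h11 := Complex.abs_im_le_norm
        (FF A B ((X h : ℂ) + h * I) - FF A B z0 - ((X h : ℂ) + h * I - z0) • c)
      rw [h10, abs_neg, abs_mul] at h11
      exact h11
    have hcabs : 0 < |c.im| := abs_pos.2 hcim.ne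
    have h12 : |e| ≤ δ * (|e| + K * |h - h0|) := by
      have h13 : |c.im| * |e| ≤ |c.im| * (δ * (|e| + K * |h - h0|)) := by
        refine h9.trans ?_
        have h14 := mul_le_mul_of_nonneg_left h4 (mul_nonneg hδ0.le hcabs.le)
        linarith
      exact le_of_mul_le_mul_left h13 hcabs
    have h15 : |e| ≤ 2 * δ * K * |h - h0| := by
      have h16 : δ * |e| ≤ 1 / 2 * |e| := mul_le_mul_of_nonneg_right hδ1 (abs_nonneg _)
      nlinarith
    have h17 : X h - X h0 - (h - h0) • (-c.re / c.im) = e := by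
      rw [he, hq, smul_eq_mul]
      ring
    rw [h17, Real.norm_eq_abs, Real.norm_eq_abs]
    exact h15.trans (mul_le_mul_of_nonneg_right hδ2 (abs_nonneg _))

end Pool.Agent.TH75.HarmLevel
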