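import Mathlib

set_option autoImplicit false

/-! N4-S1 J4: powers of an element transcendental over an intermediate field. -/

open Module

namespace Pool.Agent.TH75.J4609

theorem powers {F K : Type*} [Field F] [Field K] [Algebra F K] (κ : IntermediateField F K)
    {w s : K} (hw : Transcendental κ w) (hs : s ≠ 0) {U : Submodule F K} [FiniteDimensional F U]
    (hU : ∀ u ∈ U, u / s ∈ κ) (T : ℕ) {V : Submodule F K} [FiniteDimensional F V]
    (hV : ∀ u ∈ U, ∀ i ≤ T, u * w ^ i ∈ V) : (T + 1) * finrank F U ≤ finrank F V := by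
  let Φ : (Fin (T + 1) → U) →ₗ[F] K :=
    ∑ i : Fin (T + 1), (LinearMap.mulRight F (w ^ (i : ℕ))) ∘ₗ U.subtype ∘ₗ LinearMap.proj i
  have hΦ : ∀ u, Φ u = ∑ i : Fin (T + 1), (u i : K) * w ^ (i : ℕ) := by
    intro u
    simp [Φ, LinearMap.sum_apply]
  have hΦV : ∀ u, Φ u ∈ V := by
    intro u
    rw [hΦ]
    exact V.sum_mem fun i _ => hV _ (u i).2 _ (Nat.lt_succ_iff.1 i.2)
  have hinj : Function.Injective (Φ.codRestrict V hΦV) := by
    rw [injective_iff_map_eq_zero]
    intro u hu
    have h0 : ∑ i : Fin (T + 1), (u i : K) * w ^ (i : ℕ) = 0 := by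
      rw [← hΦ]
      exact congrArg Subtype.val hu
    let c : ℕ → κ := fun n => if h : n < T + 1 then ⟨(u ⟨n, h⟩ : K) / s, hU _ (u ⟨n, h⟩).2⟩ else 0
    let p : Polynomial κ := ∑ i ∈ Finset.range (T + 1), Polynomial.monomial i (c i)
    have hp : Polynomial.aeval w p = 0 := by
      simp only [p, map_sum, Polynomial.aeval_monomial]
      rw [Finset.sum_range]
      have h1 : ∀ i : Fin (T + 1), (algebraMap κ K) (c i) * w ^ (i : ℕ)
          = s⁻¹ * ((u i : K) * w ^ (i : ℕ)) := by
        intro i
        have h2 : (algebraMap κ K) (c i) = (u i : K) / s := by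
          simp only [c, dif_pos i.2]
          rfl
        rw [h2]
        field_simp
      rw [Finset.sum_congr rfl fun i _ => h1 i, ← Finset.mul_sum, h0, mul_zero]
    have hp0 : p = 0 := by
      by_contra hne
      exact hw ⟨p, hne, hp⟩
    funext i
    have h3 : p.coeff i = c i := by
      simp only [p, Polynomial.finsetSum_coeff, Polynomial.coeff_monomial]
      rw [Finset.sum_ite_eq' (Finset.range (T + 1)) (i : ℕ)]
      rw [if_pos (Finset.mem_range.2 i.2)]
    rw [hp0, Polynomial.coeff_zero] at h3
    have h4 : (u i : K) / s = 0 := by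
      have h5 := congrArg (algebraMap κ K) h3
      rw [map_zero] at h5
      simp only [c, dif_pos i.2] at h5
      exact h5.symm
    rw [div_eq_zero_iff] at h4
    exact Subtype.ext (h4.resolve_right hs)
  have h1 := LinearMap.finrank_le_finrank_of_injective hinj
  rwa [Module.finrank_pi_fintype, Finset.sum_const, Finset.card_univ, Fintype.card_fin,
    smul_eq_mul] at h1

end Pool.Agent.TH75.J4609
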