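import Pool.Agent.TH75.PAUnion

set_option autoImplicit false

namespace Pool.Agent.TH75.J812

open Finset Pool.Agent.TH477.PA Pool.Agent.TH75.PAUnion

theorem J23_count_upper (k D r : ℕ) (ℓ : ℝ) (hO : Opt k D r ℓ)
    (hUpper : ∀ ε : ℝ, 0 < ε → ∃ ε' : ℝ, 0 < ε' ∧ ∃ n0 : ℕ, ∀ (V : Type)
      (P : V → V → Finset (Fin r)), (∀ x y, P x y = P y x) → (∀ x, P x x = ∅) →
      ∀ W : Finset V, n0 ≤ W.card →
      ∑ x ∈ Fintype.piFinset (fun _ : Fin k => W),
        ind (SCol (k.choose 2 + 1 - D) (fun i j => P (x i) (x j))) ≤ ε' * (W.card : ℝ) ^ k →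
      (ℓ - ε) * (W.card : ℝ) ^ 2 ≤ ∑ x ∈ W, ∑ y ∈ W, ls (P x y))
    (ε : ℝ) (hε : 0 < ε) :
    ∃ n0 : ℕ, ∀ n, n0 ≤ n → ∀ G : SimpleGraph (Fin n),
      ∑ ψ : Sym2 (Fin n) → Fin r, ind (Good k (k.choose 2 + 1 - D) G Set.univ ψ) ≤
        (r : ℝ) ^ (Fintype.card (Sym2 (Fin n)) - Nat.card G.edgeSet) *
          Real.exp (((Real.log r - ℓ) / 2 + ε) * (n : ℝ) ^ 2) := by
  have hr2 : 2 ≤ r := by have h1 := hO.hr; have h2 := hO.hDC; omega
  obtain ⟨ε', hε', n1, hU⟩ := hUpper (ε / 2) (by positivity)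
  obtain ⟨η, hη, hE⟩ := exc_count hr2 (ε / 4) (by positivity)
  obtain ⟨ε0, hε0⟩ : ∃ ε0 : ℝ, ε0 = min ε' η := ⟨_, rfl⟩
  have hε00 : 0 < ε0 := by rw [hε0]; positivity
  obtain ⟨M, hM⟩ := Pool.Agent.TH241.J651.J12_structure k (k.choose 2 + 1 - D) r
    (by have := hO.hk; omega) (by omega) ε0 hε00
  obtain ⟨n2, hn2⟩ := absorb M r (ε / 4) (by positivity)
  refine ⟨max n1 n2, ?_⟩
  intro n hn G
  obtain ⟨hab, hn1⟩ := hn2 n ((le_max_right _ _).trans hn)
  have hub := union_bound G ε0 (fun ψ hψ => hM n G ψ hψ)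
    (fun ψ => Good k (k.choose 2 + 1 - D) G Set.univ ψ)
    ((r : ℝ) ^ (Fintype.card (Sym2 (Fin n)) - Nat.card G.edgeSet) *
      Real.exp (1 / 2 * (Real.log r - ℓ + ε / 2) * (n : ℝ) ^ 2 + ε / 4 * (n : ℝ) ^ 2))
    (by
      intro κ d hd hSC
      have hsymm := Pst_symm G κ d hd
      have hemp := Pst_empty G κ d
      have h1 : ∑ ψ : Sym2 (Fin n) → Fin r,
          ind (Good k (k.choose 2 + 1 - D) G Set.univ ψ ∧ Exc G (Pst G κ d) ε0 ψ) ≤
          ∑ ψ : Sym2 (Fin n) → Fin r, ind (Exc G (Pst G κ d) ε0 ψ) :=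
        Finset.sum_le_sum fun ψ _ => ind_mono fun h => h.2
      refine h1.trans ((hE n G (Pst G κ d) hsymm hemp ε0
        (by rw [hε0]; exact min_le_right _ _)).trans ?_)
      apply mul_le_mul_of_nonneg_left _ (by positivity)
      apply Real.exp_le_exp.mpr
      have h2 := hU (Fin n) (Pst G κ d) hsymm (fun x => hemp x x (G.loopless.irrefl x)) univ
        (by rw [Finset.card_univ, Fintype.card_fin]; exact (le_max_left _ _).trans hn)
        (by
          rw [Fintype.piFinset_univ, Finset.card_univ, Fintype.card_fin]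
          refine hSC.trans ?_
          apply mul_le_mul_of_nonneg_right _ (by positivity)
          rw [hε0]; exact min_le_left _ _)
      rw [Finset.card_univ, Fintype.card_fin] at h2
      rw [sum_log]
      linarith)
    (by positivity) (fun ψ h => h)
  refine hub.trans ?_
  rw [mul_left_comm, ← Real.exp_add]
  apply mul_le_mul_of_nonneg_left _ (by positivity)
  apply Real.exp_le_exp.mpr
  have hnn : 0 ≤ ε * (n : ℝ) ^ 2 := by positivity
  linarith

end Pool.Agent.TH75.J812
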