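import Pool.Agent.TH75.PAUnion

set_option autoImplicit false

namespace Pool.Agent.TH75.J813

open Finset Pool.Agent.TH477.PA Pool.Agent.TH75.PAUnion

theorem J24_valid_count (k D r : ℕ) (ℓ : ℝ) (hO : Opt k D r ℓ)
    (hStab : ∀ η : ℝ, 0 < η → ∃ ε : ℝ, 0 < ε ∧ ∃ n0 : ℕ, ∀ (V : Type)
      (P : V → V → Finset (Fin r)), (∀ x y, P x y = P y x) → (∀ x, P x x = ∅) →
      ∀ W : Finset V, n0 ≤ W.card →
      ∑ x ∈ Fintype.piFinset (fun _ : Fin k => W),
        ind (SCol (k.choose 2 + 1 - D) (fun i j => P (x i) (x j))) ≤ ε * (W.card : ℝ) ^ k →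
      ∑ x ∈ W, ∑ y ∈ W, ls (P x y) ≤ (ℓ + ε) * (W.card : ℝ) ^ 2 →
      ∃ (p : ℕ) (A : Finset (Fin r)) (cls : V → ℕ), IsType k D r ℓ p ∧ A.card = ct k D p ∧
        (∀ x, cls x < p) ∧
        (∀ i, i < p → |∑ x ∈ W, ind (cls x = i) - (W.card : ℝ) / p| ≤ η * W.card) ∧
        ∑ x ∈ W, ∑ y ∈ W, ind (P x y ≠ if cls x = cls y then A else univ) ≤
          η * (W.card : ℝ) ^ 2)
    (hUpper : ∀ ε : ℝ, 0 < ε → ∃ ε' : ℝ, 0 < ε' ∧ ∃ n0 : ℕ, ∀ (V : Type)
      (P : V → V → Finset (Fin r)), (∀ x y, P x y = P y x) → (∀ x, P x x = ∅) →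
      ∀ W : Finset V, n0 ≤ W.card →
      ∑ x ∈ Fintype.piFinset (fun _ : Fin k => W),
        ind (SCol (k.choose 2 + 1 - D) (fun i j => P (x i) (x j))) ≤ ε' * (W.card : ℝ) ^ k →
      (ℓ - ε) * (W.card : ℝ) ^ 2 ≤ ∑ x ∈ W, ∑ y ∈ W, ls (P x y)) :
    ∃ β : ℝ, 0 < β ∧ β ≤ 1 ∧ ∀ η ε δ : ℝ, 0 < η → 0 < ε → 0 < δ →
    ∃ c : ℝ, 0 < c ∧ ∃ n0 : ℕ, ∀ n, n0 ≤ n → ∀ G : SimpleGraph (Fin n),
      ∑ ψ : Sym2 (Fin n) → Fin r, ind (Good k (k.choose 2 + 1 - D) G Set.univ ψ ∧
        ¬ ∃ (p : ℕ) (A : Finset (Fin r)) (cls : Fin n → ℕ), IsType k D r ℓ p ∧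
          A.card = ct k D p ∧ Valid G p A cls Set.univ η ε β δ ψ) ≤
        (r : ℝ) ^ (Fintype.card (Sym2 (Fin n)) - Nat.card G.edgeSet) *
          Real.exp (((Real.log r - ℓ) / 2 - c) * (n : ℝ) ^ 2) := by
  have hr2 : 2 ≤ r := by have h1 := hO.hr; have h2 := hO.hDC; omega
  obtain ⟨β, hβ, hβ1, hJ10⟩ := Pool.Agent.TH75.J649.J10_pr_count r hr2
  refine ⟨β, hβ, hβ1, ?_⟩
  intro η ε δ hη hε hδ
  obtain ⟨η1, hη1, c1, hc1, n1, hJ⟩ := hJ10 δ hδ
  obtain ⟨η2, hη2⟩ : ∃ η2 : ℝ, η2 = min η1 (min η (ε / 2)) := ⟨_, rfl⟩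
  have hη20 : 0 < η2 := by rw [hη2]; positivity
  have hη2a : η2 ≤ η1 := by rw [hη2]; exact min_le_left _ _
  have hη2b : η2 ≤ η := by rw [hη2]; exact (min_le_right _ _).trans (min_le_left _ _)
  have hη2c : η2 ≤ ε / 2 := by rw [hη2]; exact (min_le_right _ _).trans (min_le_right _ _)
  obtain ⟨εs, hεs, n2, hS⟩ := hStab η2 hη20
  obtain ⟨ε', hε', n3, hU⟩ := hUpper c1 hc1
  obtain ⟨ηe, hηe, hE⟩ := exc_count hr2 (εs / 8) (by positivity)
  obtain ⟨ε0, hε0⟩ : ∃ ε0 : ℝ, ε0 = min (min εs η1) (min (ε / 2) (min ε' ηe)) := ⟨_, rfl⟩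
  have hε00 : 0 < ε0 := by rw [hε0]; positivity
  have ha1 : ε0 ≤ εs := by rw [hε0]; exact (min_le_left _ _).trans (min_le_left _ _)
  have ha2 : ε0 ≤ η1 := by rw [hε0]; exact (min_le_left _ _).trans (min_le_right _ _)
  have ha3 : ε0 ≤ ε / 2 := by rw [hε0]; exact (min_le_right _ _).trans (min_le_left _ _)
  have ha4 : ε0 ≤ ε' := by
    rw [hε0]; exact ((min_le_right _ _).trans (min_le_right _ _)).trans (min_le_left _ _)
  have ha5 : ε0 ≤ ηe := by
    rw [hε0]; exact ((min_le_right _ _).trans (min_le_right _ _)).trans (min_le_right _ _)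
  obtain ⟨M, hM⟩ := Pool.Agent.TH241.J651.J12_structure k (k.choose 2 + 1 - D) r
    (by have := hO.hk; omega) (by omega) ε0 hε00
  obtain ⟨c, hc⟩ : ∃ c : ℝ, c = min (c1 / 4) (εs / 8) := ⟨_, rfl⟩
  have hc0 : 0 < c := by rw [hc]; positivity
  have hca : c ≤ c1 / 4 := by rw [hc]; exact min_le_left _ _
  have hcb : c ≤ εs / 8 := by rw [hc]; exact min_le_right _ _
  obtain ⟨n4, hn4⟩ := absorb M r c hc0
  refine ⟨c, hc0, max (max n1 n2) (max n3 n4), ?_⟩
  intro n hn G
  have hnn1 : n1 ≤ n := ((le_max_left _ _).trans (le_max_left _ _)).trans hn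
  have hnn2 : n2 ≤ n := ((le_max_right _ _).trans (le_max_left _ _)).trans hn
  have hnn3 : n3 ≤ n := ((le_max_left _ _).trans (le_max_right _ _)).trans hn
  have hnn4 : n4 ≤ n := ((le_max_right _ _).trans (le_max_right _ _)).trans hn
  obtain ⟨hab, hn1⟩ := hn4 n hnn4
  have hnsq : 0 ≤ (n : ℝ) ^ 2 := by positivity
  have hub := union_bound (k := k) (s := k.choose 2 + 1 - D) G ε0 (fun ψ hψ => hM n G ψ hψ)
    (fun ψ => Good k (k.choose 2 + 1 - D) G Set.univ ψ ∧
        ¬ ∃ (p : ℕ) (A : Finset (Fin r)) (cls : Fin n → ℕ), IsType k D r ℓ p ∧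
          A.card = ct k D p ∧ Valid G p A cls Set.univ η ε β δ ψ)
    ((r : ℝ) ^ (Fintype.card (Sym2 (Fin n)) - Nat.card G.edgeSet) *
      Real.exp ((Real.log r - ℓ) / 2 * (n : ℝ) ^ 2 - 2 * c * (n : ℝ) ^ 2))
    (by
      intro κ d hd hSC
      have hsymm := Pst_symm G κ d hd
      have hemp := Pst_empty G κ d
      have hdiag : ∀ x, Pst G κ d x x = ∅ := fun x => hemp x x (G.loopless.irrefl x)
      by_cases hls : ∑ x, ∑ y, ls (Pst G κ d x y) ≤ (ℓ + εs) * (n : ℝ) ^ 2
      · obtain ⟨p, A, cls, hty, hA, hlt, hsize, hcnt⟩ := hS (Fin n) (Pst G κ d) hsymm hdiag univ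
          (by rw [Finset.card_univ, Fintype.card_fin]; exact hnn2)
          (by
            rw [Fintype.piFinset_univ, Finset.card_univ, Fintype.card_fin]
            exact hSC.trans (mul_le_mul_of_nonneg_right ha1 (by positivity)))
          (by rw [Finset.card_univ, Fintype.card_fin]; exact hls)
        rw [Finset.card_univ, Fintype.card_fin] at hsize hcnt
        have hA2 : 2 ≤ A.card ∨ A = ∅ := by
          obtain ⟨hp1, hp2, hp3, -⟩ := hty
          rw [hA]
          unfold ct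
          rcases hp3 with h | ⟨h, h'⟩
          · left
            rw [if_pos h]
            have := hO.hDC
            omega
          · by_cases hpp : p = 1
            · left
              rw [if_pos hpp]
              have := hO.hDC
              omega
            · rw [if_neg hpp]
              rcases h' with h' | h'
              · right
                have hA0 : A.card = 0 := by
                  rw [hA]
                  unfold ct
                  rw [if_neg hpp]
                  have := hO.hD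
                  omega
                exact Finset.card_eq_zero.mp hA0
              · left
                unfold ct at h'
                rw [if_neg hpp] at h'
                exact h'
        have h1 : ∀ ψ : Sym2 (Fin n) → Fin r,
            ind ((Good k (k.choose 2 + 1 - D) G Set.univ ψ ∧
              ¬ ∃ (p : ℕ) (A : Finset (Fin r)) (cls : Fin n → ℕ), IsType k D r ℓ p ∧
                A.card = ct k D p ∧ Valid G p A cls Set.univ η ε β δ ψ) ∧
              Exc G (Pst G κ d) ε0 ψ) ≤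
            ind (∑ x, ∑ y, ind (G.Adj x y ∧ ψ s(x, y) ∉ Pst G κ d x y) ≤ η1 * (n : ℝ) ^ 2 ∧
              ¬ PR G A cls Set.univ β δ ψ) := by
          intro ψ
          apply ind_mono
          rintro ⟨⟨-, hnot⟩, hexc⟩
          unfold Exc at hexc
          refine ⟨hexc.trans (mul_le_mul_of_nonneg_right ha2 hnsq), fun hPR => hnot ?_⟩
          refine ⟨p, A, cls, hty, hA, hlt, ?_, ?_, hPR⟩
          · intro i hi
            exact (hsize i hi).trans (mul_le_mul_of_nonneg_right hη2b (by positivity))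
          · have h2 : ∑ x, ∑ y, ind (x ∈ Set.univ ∧ y ∈ Set.univ ∧ cls x = cls y ∧ G.Adj x y ∧
                ψ s(x, y) ∉ A) ≤
                ∑ x, ∑ y, (ind (Pst G κ d x y ≠ if cls x = cls y then A else univ) +
                  ind (G.Adj x y ∧ ψ s(x, y) ∉ Pst G κ d x y)) := by
              refine Finset.sum_le_sum fun x _ => Finset.sum_le_sum fun y _ => ?_
              refine le_trans (ind_mono ?_) (ind_or_le _ _)
              rintro ⟨-, -, hcl, hadj, hnA⟩
              by_cases hP : Pst G κ d x y = A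
              · right; rw [hP]; exact ⟨hadj, hnA⟩
              · left; rw [if_pos hcl]; exact hP
            refine h2.trans ?_
            simp only [Finset.sum_add_distrib]
            have h3 : η2 * (n : ℝ) ^ 2 ≤ ε / 2 * (n : ℝ) ^ 2 :=
              mul_le_mul_of_nonneg_right hη2c hnsq
            have h4 : ε0 * (n : ℝ) ^ 2 ≤ ε / 2 * (n : ℝ) ^ 2 :=
              mul_le_mul_of_nonneg_right ha3 hnsq
            linarith
        refine (Finset.sum_le_sum fun ψ _ => h1 ψ).trans ?_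
        refine (hJ n hnn1 G (Pst G κ d) A cls hsymm hemp hA2
          (hcnt.trans (mul_le_mul_of_nonneg_right hη2a hnsq))).trans ?_
        apply mul_le_mul_of_nonneg_left _ (by positivity)
        apply Real.exp_le_exp.mpr
        have h2 := hU (Fin n) (Pst G κ d) hsymm hdiag univ
          (by rw [Finset.card_univ, Fintype.card_fin]; exact hnn3)
          (by
            rw [Fintype.piFinset_univ, Finset.card_univ, Fintype.card_fin]
            exact hSC.trans (mul_le_mul_of_nonneg_right ha4 (by positivity)))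
        rw [Finset.card_univ, Fintype.card_fin] at h2
        rw [sum_log]
        have h5 : c * (n : ℝ) ^ 2 ≤ c1 / 4 * (n : ℝ) ^ 2 := mul_le_mul_of_nonneg_right hca hnsq
        linarith
      · have h1 : ∑ ψ : Sym2 (Fin n) → Fin r,
            ind ((Good k (k.choose 2 + 1 - D) G Set.univ ψ ∧
              ¬ ∃ (p : ℕ) (A : Finset (Fin r)) (cls : Fin n → ℕ), IsType k D r ℓ p ∧
                A.card = ct k D p ∧ Valid G p A cls Set.univ η ε β δ ψ) ∧
              Exc G (Pst G κ d) ε0 ψ) ≤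
            ∑ ψ : Sym2 (Fin n) → Fin r, ind (Exc G (Pst G κ d) ε0 ψ) :=
          Finset.sum_le_sum fun ψ _ => ind_mono fun h => h.2
        refine h1.trans ((hE n G (Pst G κ d) hsymm hemp ε0 ha5).trans ?_)
        apply mul_le_mul_of_nonneg_left _ (by positivity)
        apply Real.exp_le_exp.mpr
        rw [sum_log]
        push Not at hls
        have h5 : c * (n : ℝ) ^ 2 ≤ εs / 8 * (n : ℝ) ^ 2 := mul_le_mul_of_nonneg_right hcb hnsq
        have h6 : 0 ≤ εs * (n : ℝ) ^ 2 := by positivity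
        linarith)
    (by positivity) (fun ψ h => h.1)
  refine hub.trans ?_
  rw [mul_left_comm, ← Real.exp_add]
  apply mul_le_mul_of_nonneg_left _ (by positivity)
  apply Real.exp_le_exp.mpr
  linarith

end Pool.Agent.TH75.J813
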