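import Pool.Agent.TH477.PA.Defs

set_option autoImplicit false

namespace Pool.Agent.TH75.J648

open Finset Pool.Agent.TH477.PA

/-- the pairs `i < j` -/
def II (k : ℕ) : Finset (Fin k × Fin k) := univ.filter (fun p : Fin k × Fin k => p.1 < p.2)

theorem card_II (k : ℕ) : (II k).card = k.choose 2 := by
  unfold II
  rw [Finset.card_filter, Fintype.sum_prod_type_right]
  have h : ∀ j : Fin k, ∑ i : Fin k, (if i < j then 1 else 0) = (j : ℕ) := by
    intro j
    rw [← Finset.card_filter]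
    have : univ.filter (fun i : Fin k => i < j) = Finset.Iio j := by ext i; simp
    rw [this, Fin.card_Iio]
  rw [Finset.sum_congr rfl fun j _ => h j, Fin.sum_univ_eq_sum_range (fun i => i) k,
    Finset.sum_range_id, Nat.choose_two_right]

/-- Lemma A: if two same-class palettes differ, there is a colouring with many colours -/
theorem scol_of_ne {k r : ℕ} (c D : ℕ) (hc : 1 ≤ c) (hD : 1 ≤ D) (hr : k.choose 2 < r + D)
    (Q : Fin k → Fin k → Finset (Fin r)) (S : Finset (Fin k × Fin k)) (hS : S ⊆ II k)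
    (hcard : S.card = c + D) (h1 : ∀ p ∈ S, (Q p.1 p.2).card = c)
    (h2 : ∀ p ∈ II k, p ∉ S → Q p.1 p.2 = univ) (p q : Fin k × Fin k) (hp : p ∈ S) (hq : q ∈ S)
    (hne : Q p.1 p.2 ≠ Q q.1 q.2) : SCol (k.choose 2 + 1 - D) Q := by
  classical
  have hpq : p ≠ q := fun h => hne (by rw [h])
  have hC : c + D ≤ k.choose 2 := by
    rw [← hcard, ← card_II]; exact Finset.card_le_card hS
  obtain ⟨S', hS'1, hS'2, hS'3⟩ := Finset.exists_subsuperset_card_eq
    (s := {p, q}) (t := S) (n := c + 1)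
    (by intro x hx; rcases Finset.mem_insert.mp hx with h | h
        · exact h ▸ hp
        · exact (Finset.mem_singleton.mp h) ▸ hq)
    (by rw [Finset.card_pair hpq]; omega) (by omega)
  have hpS' : p ∈ S' := hS'1 (Finset.mem_insert_self _ _)
  have hqS' : q ∈ S' := hS'1 (Finset.mem_insert_of_mem (Finset.mem_singleton_self _))
  let T : Finset (Fin k × Fin k) := S' ∪ (II k \ S)
  have hTcard : T.card = k.choose 2 + 1 - D := by
    have hdisj : Disjoint S' (II k \ S) :=
      Finset.disjoint_left.mpr fun x hx hx' => (Finset.mem_sdiff.mp hx').2 (hS'2 hx)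
    rw [Finset.card_union_of_disjoint hdisj, hS'3, Finset.card_sdiff_of_subset hS, card_II, hcard]
    omega
  have hHall : ∀ s : Finset {t // t ∈ T}, s.card ≤
      (s.biUnion (fun t => Q t.1.1 t.1.2)).card := by
    intro s
    rcases s.eq_empty_or_nonempty with h | ⟨t0, ht0⟩
    · rw [h]; simp
    by_cases hcr : ∃ t ∈ s, t.1 ∉ S
    · obtain ⟨t, ht, htS⟩ := hcr
      have h3 : Q t.1.1 t.1.2 = univ := by
        have := t.2
        rcases Finset.mem_union.mp this with h | h
        · exact absurd (hS'2 h) htS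
        · exact h2 _ (Finset.mem_sdiff.mp h).1 htS
      have h4 : s.biUnion (fun t => Q t.1.1 t.1.2) = univ := by
        apply Finset.eq_univ_of_forall
        intro col
        exact Finset.mem_biUnion.mpr ⟨t, ht, by rw [h3]; exact Finset.mem_univ _⟩
      rw [h4, Finset.card_univ, Fintype.card_fin]
      have h5 : s.card ≤ T.card := by
        have := Finset.card_le_univ s
        rwa [Fintype.card_coe] at this
      omega
    · push Not at hcr
      have hsS' : ∀ t ∈ s, t.1 ∈ S' := by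
        intro t ht
        rcases Finset.mem_union.mp t.2 with h | h
        · exact h
        · exact absurd (hcr t ht) (Finset.mem_sdiff.mp h).2
      have hle : s.card ≤ c + 1 := by
        rw [← hS'3, ← Finset.card_image_of_injective s Subtype.val_injective]
        apply Finset.card_le_card
        intro x hx
        obtain ⟨t, ht, rfl⟩ := Finset.mem_image.mp hx
        exact hsS' t ht
      rcases Nat.lt_or_ge c s.card with hlt | hge
      · -- s = S'
        have himg : s.image Subtype.val = S' := by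
          apply Finset.eq_of_subset_of_card_le
          · intro x hx
            obtain ⟨t, ht, rfl⟩ := Finset.mem_image.mp hx
            exact hsS' t ht
          · rw [Finset.card_image_of_injective s Subtype.val_injective, hS'3]; omega
        have hmem : ∀ x ∈ S', Q x.1 x.2 ⊆ s.biUnion (fun t => Q t.1.1 t.1.2) := by
          intro x hx col hcol
          rw [← himg] at hx
          obtain ⟨t, ht, rfl⟩ := Finset.mem_image.mp hx
          exact Finset.mem_biUnion.mpr ⟨t, ht, hcol⟩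
        have h6 : Q p.1 p.2 ⊂ s.biUnion (fun t => Q t.1.1 t.1.2) := by
          refine ⟨hmem p hpS', fun hsub => ?_⟩
          have h7 : Q q.1 q.2 ⊆ Q p.1 p.2 := (hmem q hqS').trans hsub
          exact hne (Finset.eq_of_subset_of_card_le h7 (by rw [h1 p hp, h1 q hq])).symm
        have := Finset.card_lt_card h6
        rw [h1 p hp] at this
        omega
      · have h8 : Q t0.1.1 t0.1.2 ⊆ s.biUnion (fun t => Q t.1.1 t.1.2) := by
          intro col hcol
          exact Finset.mem_biUnion.mpr ⟨t0, ht0, hcol⟩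
        have := Finset.card_le_card h8
        rw [h1 t0.1 (hcr t0 ht0)] at this
        omega
  obtain ⟨f, hfinj, hf⟩ := (Finset.all_card_le_biUnion_card_iff_exists_injective
    (fun t : {t // t ∈ T} => Q t.1.1 t.1.2)).mp hHall
  have hne' : ∀ x : Fin k × Fin k, x ∈ II k → (Q x.1 x.2).Nonempty := by
    intro x hx
    by_cases hxT : x ∈ T
    · exact ⟨_, hf ⟨x, hxT⟩⟩
    · have hxS : x ∈ S := by
        by_contra h
        exact hxT (Finset.mem_union_right _ (Finset.mem_sdiff.mpr ⟨hx, h⟩))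
      rw [← Finset.card_pos, h1 x hxS]; omega
  have hr0 : 0 < r := by
    have : c ≤ r := by
      rw [← h1 p hp]
      have := Finset.card_le_univ (Q p.1 p.2)
      rwa [Fintype.card_fin] at this
    omega
  refine ⟨fun i j => if h : (i, j) ∈ T then f ⟨(i, j), h⟩ else
    if h' : (Q i j).Nonempty then h'.choose else ⟨0, hr0⟩, ?_, ?_⟩
  · intro i j hij
    by_cases h : (i, j) ∈ T
    · simp only [dif_pos h]
      exact hf ⟨(i, j), h⟩
    · have h' := hne' (i, j) (Finset.mem_filter.mpr ⟨Finset.mem_univ _, hij⟩)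
      simp only [dif_neg h, dif_pos h']
      exact h'.choose_spec
  · rw [← hTcard]
    calc T.card = (univ : Finset {t // t ∈ T}).card := by rw [Finset.card_univ, Fintype.card_coe]
      _ = (univ.image f).card := (Finset.card_image_of_injective _ hfinj).symm
      _ ≤ _ := by
        apply Finset.card_le_card
        intro col hcol
        obtain ⟨t, _, rfl⟩ := Finset.mem_image.mp hcol
        refine Finset.mem_image.mpr ⟨t.1, ?_, ?_⟩
        · rcases Finset.mem_union.mp t.2 with h | h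
          · exact hS (hS'2 h)
          · exact (Finset.mem_sdiff.mp h).1
        · simp only [Prod.mk.eta, Subtype.coe_eta]
          rw [dif_pos t.2]

/-! ### sums over tuples -/

theorem peel {V : Type} {k : ℕ} (S : Fin (k + 1) → Finset V) (g : (Fin (k + 1) → V) → ℝ) :
    ∑ x ∈ Fintype.piFinset S, g x =
      ∑ u ∈ S 0, ∑ y ∈ Fintype.piFinset (fun a => S a.succ), g (Fin.cons u y) := by
  classical
  rw [← Finset.sum_product']
  refine Finset.sum_nbij' (fun x => (x 0, Fin.tail x)) (fun p => Fin.cons p.1 p.2) ?_ ?_ ?_ ?_ ?_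
  · intro x hx
    rw [Fintype.mem_piFinset] at hx
    rw [Finset.mem_product, Fintype.mem_piFinset]
    exact ⟨hx 0, fun a => hx a.succ⟩
  · rintro ⟨u, y⟩ hp
    rw [Finset.mem_product, Fintype.mem_piFinset] at hp
    rw [Fintype.mem_piFinset]
    intro a
    refine Fin.cases ?_ ?_ a
    · exact hp.1
    · intro b; exact hp.2 b
  · intro x _
    exact Fin.cons_self_tail x
  · rintro ⟨u, y⟩ _
    simp
  · intro x _
    rw [Fin.cons_self_tail]

theorem sum3 {V : Type} {l : ℕ} (S : Fin (l + 3) → Finset V) (g : V → V → V → ℝ) :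
    ∑ x ∈ Fintype.piFinset S, g (x 0) (x 1) (x 2) =
      (∏ b : Fin l, ((S b.succ.succ.succ).card : ℝ)) *
        ∑ u0 ∈ S 0, ∑ u1 ∈ S 1, ∑ u2 ∈ S 2, g u0 u1 u2 := by
  rw [peel, Finset.mul_sum]
  refine Finset.sum_congr rfl fun u0 _ => ?_
  rw [peel, Finset.mul_sum]
  refine Finset.sum_congr rfl fun u1 _ => ?_
  rw [peel, Finset.mul_sum]
  refine Finset.sum_congr rfl fun u2 _ => ?_
  have : ∀ y ∈ Fintype.piFinset (fun a : Fin l => S a.succ.succ.succ),
      g ((Fin.cons u0 (Fin.cons u1 (Fin.cons u2 y)) : Fin (l + 3) → V) 0)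
        ((Fin.cons u0 (Fin.cons u1 (Fin.cons u2 y)) : Fin (l + 3) → V) 1)
        ((Fin.cons u0 (Fin.cons u1 (Fin.cons u2 y)) : Fin (l + 3) → V) 2) = g u0 u1 u2 := by
    intro y _
    rfl
  rw [Finset.sum_congr rfl this, Finset.sum_const, Fintype.card_piFinset, nsmul_eq_mul]
  push_cast
  rfl

theorem sum4 {V : Type} {l : ℕ} (S : Fin (l + 4) → Finset V) (g : V → V → V → V → ℝ) :
    ∑ x ∈ Fintype.piFinset S, g (x 0) (x 1) (x 2) (x 3) =
      (∏ b : Fin l, ((S b.succ.succ.succ.succ).card : ℝ)) *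
        ∑ u0 ∈ S 0, ∑ u1 ∈ S 1, ∑ u2 ∈ S 2, ∑ u3 ∈ S 3, g u0 u1 u2 u3 := by
  rw [peel, Finset.mul_sum]
  refine Finset.sum_congr rfl fun u0 _ => ?_
  rw [peel, Finset.mul_sum]
  refine Finset.sum_congr rfl fun u1 _ => ?_
  rw [peel, Finset.mul_sum]
  refine Finset.sum_congr rfl fun u2 _ => ?_
  rw [peel, Finset.mul_sum]
  refine Finset.sum_congr rfl fun u3 _ => ?_
  have : ∀ y ∈ Fintype.piFinset (fun a : Fin l => S a.succ.succ.succ.succ),
      g ((Fin.cons u0 (Fin.cons u1 (Fin.cons u2 (Fin.cons u3 y))) : Fin (l + 4) → V) 0)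
        ((Fin.cons u0 (Fin.cons u1 (Fin.cons u2 (Fin.cons u3 y))) : Fin (l + 4) → V) 1)
        ((Fin.cons u0 (Fin.cons u1 (Fin.cons u2 (Fin.cons u3 y))) : Fin (l + 4) → V) 2)
        ((Fin.cons u0 (Fin.cons u1 (Fin.cons u2 (Fin.cons u3 y))) : Fin (l + 4) → V) 3)
        = g u0 u1 u2 u3 := by
    intro y _
    rfl
  rw [Finset.sum_congr rfl this, Finset.sum_const, Fintype.card_piFinset, nsmul_eq_mul]
  push_cast
  rfl

theorem sum2 {V : Type} {k : ℕ} (W : Finset V) (a b : Fin k) (hab : a ≠ b) (h : V → V → ℝ) :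
    ∑ x ∈ Fintype.piFinset (fun _ : Fin k => W), h (x a) (x b) =
      (W.card : ℝ) ^ (k - 2) * ∑ u ∈ W, ∑ v ∈ W, h u v := by
  classical
  have h1 : ∀ x ∈ Fintype.piFinset (fun _ : Fin k => W), h (x a) (x b) =
      ∑ u ∈ W, ∑ v ∈ W, ind (x a = u ∧ x b = v) * h u v := by
    intro x hx
    rw [Fintype.mem_piFinset] at hx
    rw [Finset.sum_eq_single (x a), Finset.sum_eq_single (x b)]
    · rw [ind_pos ⟨rfl, rfl⟩, one_mul]
    · intro v _ hv
      rw [ind_neg (fun h => hv h.2.symm), zero_mul]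
    · intro h; exact absurd (hx b) h
    · intro u _ hu
      apply Finset.sum_eq_zero
      intro v _
      rw [ind_neg (fun h => hu h.1.symm), zero_mul]
    · intro h; exact absurd (hx a) h
  rw [Finset.sum_congr rfl h1, Finset.sum_comm, Finset.mul_sum]
  refine Finset.sum_congr rfl fun u hu => ?_
  rw [Finset.sum_comm, Finset.mul_sum]
  refine Finset.sum_congr rfl fun v hv => ?_
  rw [← Finset.sum_mul]
  congr 1
  have h2 : ∑ x ∈ Fintype.piFinset (fun _ : Fin k => W), ind (x a = u ∧ x b = v) =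
      ((Fintype.piFinset (fun t : Fin k => if t = a then {u} else if t = b then {v} else W)).card
        : ℝ) := by
    rw [← card_filter_ind]
    congr 2
    ext x
    simp only [Finset.mem_filter, Fintype.mem_piFinset]
    constructor
    · rintro ⟨h3, h4, h5⟩ t
      by_cases hta : t = a
      · rw [if_pos hta, hta, h4]; exact Finset.mem_singleton_self _
      · rw [if_neg hta]
        by_cases htb : t = b
        · rw [if_pos htb, htb, h5]; exact Finset.mem_singleton_self _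
        · rw [if_neg htb]; exact h3 t
    · intro h3
      refine ⟨fun t => ?_, ?_, ?_⟩
      · have h4 := h3 t
        by_cases hta : t = a
        · rw [if_pos hta, Finset.mem_singleton] at h4; rw [h4]; exact hu
        · rw [if_neg hta] at h4
          by_cases htb : t = b
          · rw [if_pos htb, Finset.mem_singleton] at h4; rw [h4]; exact hv
          · rw [if_neg htb] at h4; exact h4
      · have h4 := h3 a
        rw [if_pos rfl, Finset.mem_singleton] at h4; exact h4
      · have h4 := h3 b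
        rw [if_neg (Ne.symm hab), if_pos rfl, Finset.mem_singleton] at h4; exact h4
  rw [h2, Fintype.card_piFinset]
  push_cast
  have h3 : ∀ t : Fin k, (((if t = a then {u} else if t = b then {v} else W) : Finset V).card : ℝ) =
      if t ∈ ({a, b} : Finset (Fin k)) then 1 else (W.card : ℝ) := by
    intro t
    by_cases hta : t = a
    · rw [if_pos hta, if_pos (by rw [hta]; exact Finset.mem_insert_self _ _)]; simp
    · rw [if_neg hta]
      by_cases htb : t = b
      · rw [if_pos htb, if_pos (by rw [htb]; simp)]; simp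
      · rw [if_neg htb, if_neg (by simp [hta, htb])]
  rw [Finset.prod_congr rfl fun t _ => h3 t, Finset.prod_ite, Finset.prod_const_one, one_mul,
    Finset.prod_const]
  congr 1
  have h4 : (univ.filter (fun t : Fin k => t ∉ ({a, b} : Finset (Fin k)))) =
      ({a, b} : Finset (Fin k))ᶜ := by
    ext t; simp
  rw [h4, Finset.card_compl, Fintype.card_fin, Finset.card_pair hab]

/-- averaging -/
theorem avg {α : Type} (T : Finset α) (f : α → ℝ) (hf : ∀ t ∈ T, 0 ≤ f t) (g : α → Prop)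
    (K m θ : ℝ) (hθ : 0 ≤ θ) (h1 : ∑ t ∈ T, f t ≤ K) (h2 : ∑ t ∈ T, ind (¬ g t) ≤ m)
    (h3 : K < (T.card - m) * θ) : ∃ t ∈ T, g t ∧ f t ≤ θ := by
  by_contra hcon
  push Not at hcon
  have h4 : ∑ t ∈ T, (1 - ind (¬ g t)) * θ ≤ ∑ t ∈ T, f t := by
    refine Finset.sum_le_sum fun t ht => ?_
    by_cases hg : g t
    · rw [ind_neg (not_not.mpr hg)]
      have := hcon t ht hg
      linarith
    · rw [ind_pos hg]
      have := hf t ht
      linarith
  rw [← Finset.sum_mul, Finset.sum_sub_distrib, Finset.sum_const, nsmul_eq_mul, mul_one] at h4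
  nlinarith

section main

variable {V : Type} {r : ℕ}

/-- wrong palette size -/
def Wr (c : ℕ) (P : V → V → Finset (Fin r)) (cls : V → ℕ) (x y : V) : Prop :=
  ¬ (if cls x = cls y then (P x y).card = c else P x y = univ)

theorem tupleBound {k : ℕ} (c D : ℕ) (hc : 1 ≤ c) (hD : 1 ≤ D) (hr : k.choose 2 < r + D)
    (hk : 2 ≤ k)
    (P : V → V → Finset (Fin r)) (W : Finset V) (cls : V → ℕ) (ε : ℝ)
    (h1 : ∑ x ∈ W, ∑ y ∈ W, ind (Wr c P cls x y) ≤ ε * (W.card : ℝ) ^ 2)
    (h2 : ∑ x ∈ Fintype.piFinset (fun _ : Fin k => W),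
        ind (SCol (k.choose 2 + 1 - D) (fun i j => P (x i) (x j))) ≤ ε * (W.card : ℝ) ^ k)
    (τ : Fin k → ℕ) (hτ : ((II k).filter (fun p => τ p.1 = τ p.2)).card = c + D)
    (a b a' b' : Fin k) (hab : a < b) (hab' : a' < b') (hτab : τ a = τ b) (hτab' : τ a' = τ b') :
    ∑ x ∈ Fintype.piFinset (fun t => W.filter (fun v => cls v = τ t)),
      ind (P (x a) (x b) ≠ P (x a') (x b')) ≤ ((k.choose 2 : ℝ) + 1) * ε * (W.card : ℝ) ^ k := by
  classical
  have hpt : ∀ x ∈ Fintype.piFinset (fun t => W.filter (fun v => cls v = τ t)),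
      ind (P (x a) (x b) ≠ P (x a') (x b')) ≤
        ind (SCol (k.choose 2 + 1 - D) (fun i j => P (x i) (x j))) +
        ∑ p ∈ II k, ind (Wr c P cls (x p.1) (x p.2)) := by
    intro x hx
    rw [Fintype.mem_piFinset] at hx
    have hxc : ∀ t, cls (x t) = τ t := fun t => (Finset.mem_filter.mp (hx t)).2
    have hn1 : 0 ≤ ∑ p ∈ II k, ind (Wr c P cls (x p.1) (x p.2)) :=
      Finset.sum_nonneg fun _ _ => ind_nonneg _
    by_cases hne : P (x a) (x b) ≠ P (x a') (x b')
    · rw [ind_pos hne]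
      by_cases hw : ∃ p ∈ II k, Wr c P cls (x p.1) (x p.2)
      · obtain ⟨p, hp, hpw⟩ := hw
        have := Finset.single_le_sum (f := fun p => ind (Wr c P cls (x p.1) (x p.2)))
          (fun _ _ => ind_nonneg _) hp
        rw [ind_pos hpw] at this
        have := ind_nonneg (SCol (k.choose 2 + 1 - D) (fun i j => P (x i) (x j)))
        linarith
      · push Not at hw
        unfold Wr at hw
        push Not at hw
        have hS : SCol (k.choose 2 + 1 - D) (fun i j => P (x i) (x j)) := by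
          apply scol_of_ne c D hc hD hr _ ((II k).filter (fun p => τ p.1 = τ p.2))
            (Finset.filter_subset _ _) hτ _ _ (a, b) (a', b')
          · exact Finset.mem_filter.mpr ⟨Finset.mem_filter.mpr ⟨Finset.mem_univ _, hab⟩, hτab⟩
          · exact Finset.mem_filter.mpr ⟨Finset.mem_filter.mpr ⟨Finset.mem_univ _, hab'⟩, hτab'⟩
          · exact hne
          · intro p hp
            obtain ⟨hp1, hp2⟩ := Finset.mem_filter.mp hp
            have := hw p hp1
            rw [hxc, hxc, if_pos hp2] at this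
            exact this
          · intro p hp hp'
            have hp2 : τ p.1 ≠ τ p.2 := fun h => hp' (Finset.mem_filter.mpr ⟨hp, h⟩)
            have := hw p hp
            rw [hxc, hxc, if_neg hp2] at this
            exact this
        rw [ind_pos hS]
        linarith
    · rw [ind_neg hne]
      have := ind_nonneg (SCol (k.choose 2 + 1 - D) (fun i j => P (x i) (x j)))
      linarith
  refine (Finset.sum_le_sum hpt).trans ?_
  have hsub : Fintype.piFinset (fun t => W.filter (fun v => cls v = τ t)) ⊆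
      Fintype.piFinset (fun _ : Fin k => W) :=
    Fintype.piFinset_subset _ _ fun t => Finset.filter_subset _ _
  refine (Finset.sum_le_sum_of_subset_of_nonneg hsub fun x _ _ => ?_).trans ?_
  · exact add_nonneg (ind_nonneg _) (Finset.sum_nonneg fun _ _ => ind_nonneg _)
  rw [Finset.sum_add_distrib, Finset.sum_comm]
  have h3 : ∀ p ∈ II k, ∑ x ∈ Fintype.piFinset (fun _ : Fin k => W),
      ind (Wr c P cls (x p.1) (x p.2)) ≤ ε * (W.card : ℝ) ^ k := by
    intro p hp
    have hp' : p.1 ≠ p.2 := (Finset.mem_filter.mp hp).2.ne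
    rw [sum2 W p.1 p.2 hp' (fun u v => ind (Wr c P cls u v))]
    calc (W.card : ℝ) ^ (k - 2) * ∑ u ∈ W, ∑ v ∈ W, ind (Wr c P cls u v)
        ≤ (W.card : ℝ) ^ (k - 2) * (ε * (W.card : ℝ) ^ 2) :=
          mul_le_mul_of_nonneg_left h1 (by positivity)
      _ = ε * ((W.card : ℝ) ^ (k - 2) * (W.card : ℝ) ^ 2) := by ring
      _ = ε * (W.card : ℝ) ^ k := by rw [← pow_add]; congr 2; omega
  have h4 := Finset.sum_le_sum h3
  rw [Finset.sum_const, card_II, nsmul_eq_mul] at h4
  linarith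

/-- number of pairs inside class `i` whose palette is not `A` -/
noncomputable def bad (P : V → V → Finset (Fin r)) (W : Finset V) (cls : V → ℕ) (i : ℕ)
    (A : Finset (Fin r)) : ℝ :=
  ∑ u ∈ W.filter (fun v => cls v = i), ∑ v ∈ W.filter (fun v => cls v = i), ind (P u v ≠ A)

theorem bad_nonneg (P : V → V → Finset (Fin r)) (W : Finset V) (cls : V → ℕ) (i : ℕ)
    (A : Finset (Fin r)) : 0 ≤ bad P W cls i A :=
  Finset.sum_nonneg fun _ _ => Finset.sum_nonneg fun _ _ => ind_nonneg _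

theorem bad_eq (P : V → V → Finset (Fin r)) (W : Finset V) (cls : V → ℕ) (i : ℕ)
    (A : Finset (Fin r)) : bad P W cls i A =
      ∑ u ∈ W, ∑ v ∈ W, ind (cls u = i ∧ cls v = i ∧ P u v ≠ A) := by
  unfold bad
  rw [Finset.sum_filter]
  refine Finset.sum_congr rfl fun u _ => ?_
  by_cases hu : cls u = i
  · rw [if_pos hu, Finset.sum_filter]
    refine Finset.sum_congr rfl fun v _ => ?_
    by_cases hv : cls v = i
    · rw [if_pos hv]
      exact ind_congr ⟨fun h => ⟨hu, hv, h⟩, fun h => h.2.2⟩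
    · rw [if_neg hv, ind_neg (fun h => hv h.2.1)]
  · rw [if_neg hu]
    symm
    apply Finset.sum_eq_zero
    intro v _
    exact ind_neg (fun h => hu h.1)

theorem final_sum {p : ℕ} (c : ℕ) (P : V → V → Finset (Fin r)) (W : Finset V) (cls : V → ℕ)
    (hcls : ∀ x, cls x < p) (A : Finset (Fin r)) :
    ∑ x ∈ W, ∑ y ∈ W, ind (P x y ≠ if cls x = cls y then A else univ) ≤
      ∑ x ∈ W, ∑ y ∈ W, ind (Wr c P cls x y) + ∑ i ∈ range p, bad P W cls i A := by
  have h1 : ∑ i ∈ range p, bad P W cls i A =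
      ∑ x ∈ W, ∑ y ∈ W, ∑ i ∈ range p, ind (cls x = i ∧ cls y = i ∧ P x y ≠ A) := by
    rw [Finset.sum_congr rfl fun i _ => bad_eq P W cls i A, Finset.sum_comm]
    refine Finset.sum_congr rfl fun x _ => ?_
    rw [Finset.sum_comm]
  rw [h1, ← Finset.sum_add_distrib]
  refine Finset.sum_le_sum fun x _ => ?_
  rw [← Finset.sum_add_distrib]
  refine Finset.sum_le_sum fun y _ => ?_
  have hn1 : 0 ≤ ∑ i ∈ range p, ind (cls x = i ∧ cls y = i ∧ P x y ≠ A) :=
    Finset.sum_nonneg fun _ _ => ind_nonneg _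
  have hn2 := ind_nonneg (Wr c P cls x y)
  by_cases hxy : cls x = cls y
  · rw [if_pos hxy]
    by_cases hA : P x y ≠ A
    · rw [ind_pos hA]
      have h3 := Finset.single_le_sum (f := fun i => ind (cls x = i ∧ cls y = i ∧ P x y ≠ A))
        (fun _ _ => ind_nonneg _) (Finset.mem_range.mpr (hcls x))
      rw [ind_pos ⟨rfl, hxy.symm, hA⟩] at h3
      linarith
    · rw [ind_neg hA]; linarith
  · rw [if_neg hxy]
    have h4 : ind (P x y ≠ univ) = ind (Wr c P cls x y) := by
      apply ind_congr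
      unfold Wr
      rw [if_neg hxy]
    rw [h4]; linarith

theorem case_one (k D c : ℕ) (hk : 3 ≤ k) (hD : 1 ≤ D) (hc : 2 ≤ c)
    (hr : k.choose 2 < r + D) (hcD : c + D = k.choose 2) (η : ℝ)
    (P : V → V → Finset (Fin r)) (W : Finset V) (cls : V → ℕ) (hcls : ∀ x, cls x < 1)
    (hW : 1 ≤ W.card) (ε : ℝ) (hε0 : 0 < ε) (hε1 : ε ≤ 1 / 2)
    (hε2 : ε * (16 * ((k.choose 2 : ℝ) + 1)) ≤ η)
    (h1 : ∑ x ∈ W, ∑ y ∈ W, ind (Wr c P cls x y) ≤ ε * (W.card : ℝ) ^ 2)
    (h2 : ∑ x ∈ Fintype.piFinset (fun _ : Fin k => W),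
        ind (SCol (k.choose 2 + 1 - D) (fun i j => P (x i) (x j))) ≤ ε * (W.card : ℝ) ^ k) :
    ∃ A : Finset (Fin r), A.card = c ∧
        ∑ x ∈ W, ∑ y ∈ W, ind (P x y ≠ if cls x = cls y then A else univ) ≤
          η * (W.card : ℝ) ^ 2 := by
  classical
  have hn : (1 : ℝ) ≤ (W.card : ℝ) := by exact_mod_cast hW
  set n : ℝ := (W.card : ℝ) with hndef
  have hC0 : (0 : ℝ) ≤ (k.choose 2 : ℝ) := by positivity
  obtain ⟨l, rfl⟩ : ∃ l, k = l + 3 := ⟨k - 3, by omega⟩
  have hcls0 : ∀ x, cls x = 0 := fun x => by have := hcls x; omega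
  have hfil : W.filter (fun v => cls v = 0) = W :=
    Finset.filter_true_of_mem fun x _ => hcls0 x
  have hT := tupleBound c D (by omega) hD hr (by omega) P W cls ε h1 h2 (fun _ => 0)
    (by rw [Finset.filter_true_of_mem (fun _ _ => rfl), card_II]; exact hcD.symm)
    (0 : Fin (l + 3)) (1 : Fin (l + 3)) (1 : Fin (l + 3)) (2 : Fin (l + 3))
    (by rw [Fin.lt_def]; simp)
    (by
      rw [Fin.lt_def]
      show 1 % (l + 3) < 2 % (l + 3)
      rw [Nat.mod_eq_of_lt (by omega), Nat.mod_eq_of_lt (by omega)]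
      norm_num) rfl rfl
  rw [hfil] at hT
  have hs3 := sum3 (fun _ : Fin (l + 3) => W) (fun u v z => ind (P u v ≠ P v z))
  rw [hs3, Finset.prod_const, Finset.card_univ, Fintype.card_fin, ← hndef] at hT
  have hT3 : ∑ u ∈ W, ∑ v ∈ W, ∑ z ∈ W, ind (P u v ≠ P v z) ≤
      (((l + 3).choose 2 : ℝ) + 1) * ε * n ^ 3 := by
    have hnl : 0 < n ^ l := by positivity
    have h3 : n ^ l * ∑ u ∈ W, ∑ v ∈ W, ∑ z ∈ W, ind (P u v ≠ P v z) ≤
        n ^ l * ((((l + 3).choose 2 : ℝ) + 1) * ε * n ^ 3) := by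
      refine hT.trans (le_of_eq ?_)
      rw [pow_add]; ring
    exact le_of_mul_le_mul_left h3 hnl
  -- the four fold sum
  have h4 : ∑ u ∈ W, ∑ v ∈ W, ∑ z ∈ W, ∑ w ∈ W, ind (P z w ≠ P u v) ≤
      2 * ((((l + 3).choose 2 : ℝ) + 1) * ε * n ^ 3) * n := by
    have h5 : ∑ u ∈ W, ∑ v ∈ W, ∑ z ∈ W, ∑ w ∈ W, ind (P z w ≠ P u v) ≤
        ∑ u ∈ W, ∑ v ∈ W, ∑ z ∈ W, ∑ w ∈ W, (ind (P u v ≠ P v z) + ind (P v z ≠ P z w)) := by
      refine Finset.sum_le_sum fun u _ => Finset.sum_le_sum fun v _ => Finset.sum_le_sum fun z _ =>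
        Finset.sum_le_sum fun w _ => ?_
      refine le_trans (ind_mono ?_) (ind_or_le _ _)
      intro h
      by_contra hcon
      push Not at hcon
      exact h (hcon.2.symm.trans hcon.1.symm)
    refine h5.trans ?_
    simp only [Finset.sum_add_distrib, Finset.sum_const, nsmul_eq_mul]
    rw [← hndef]
    have h6 : ∑ u ∈ W, ∑ v ∈ W, ∑ z ∈ W, n * ind (P u v ≠ P v z) =
        n * ∑ u ∈ W, ∑ v ∈ W, ∑ z ∈ W, ind (P u v ≠ P v z) := by
      simp only [Finset.mul_sum]
    rw [h6]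
    nlinarith
  -- choose the pair
  obtain ⟨⟨u, v⟩, huv, hcard, hbad⟩ := avg (W ×ˢ W) (fun t => bad P W cls 0 (P t.1 t.2))
    (fun t _ => bad_nonneg _ _ _ _ _) (fun t => (P t.1 t.2).card = c)
    (2 * ((((l + 3).choose 2 : ℝ) + 1) * ε * n ^ 3) * n) (ε * n ^ 2) (η / 2 * n ^ 2)
    (by have : 0 < η := by nlinarith
        positivity)
    (by
      rw [Finset.sum_product]
      unfold bad
      rw [hfil]
      exact h4)
    (by
      rw [Finset.sum_product]
      refine le_trans (le_of_eq ?_) h1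
      refine Finset.sum_congr rfl fun x _ => Finset.sum_congr rfl fun y _ => ?_
      apply ind_congr
      unfold Wr
      rw [if_pos (by rw [hcls0, hcls0])])
    (by
      rw [Finset.card_product]
      push_cast
      rw [← hndef]
      have hη0 : 0 < η := by nlinarith
      have e1 : (((l + 3).choose 2 : ℝ) + 1) * ε ≤ η / 16 := by linarith
      have e2 : η / 4 ≤ (1 - ε) * (η / 2) := by nlinarith
      have e3 : 0 < n ^ 4 := by positivity
      have e4 : 2 * ((((l + 3).choose 2 : ℝ) + 1) * ε) < (1 - ε) * (η / 2) := by linarith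
      calc 2 * ((((l + 3).choose 2 : ℝ) + 1) * ε * n ^ 3) * n =
            2 * ((((l + 3).choose 2 : ℝ) + 1) * ε) * n ^ 4 := by ring
        _ < (1 - ε) * (η / 2) * n ^ 4 := mul_lt_mul_of_pos_right e4 e3
        _ = _ := by ring)
  refine ⟨P u v, hcard, ?_⟩
  refine (final_sum c P W cls hcls (P u v)).trans ?_
  rw [Finset.sum_range_one]
  have hη0 : 0 < η := by nlinarith
  have e5 : ε ≤ η / 2 := by nlinarith
  have hn2 : 0 ≤ n ^ 2 := by positivity
  have e6 : bad P W cls 0 (P u v) ≤ η / 2 * n ^ 2 := hbad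
  nlinarith

/-! ### p ≥ 2 -/

def tau0 (e t : ℕ) : ℕ := if t < 2 * e then t / 2 else t - e

theorem card_tau0 (e k : ℕ) (he : 2 * e ≤ k) :
    ((II k).filter (fun p => tau0 e p.1.val = tau0 e p.2.val)).card = e := by
  classical
  have hmain : (range e).card =
      ((II k).filter (fun p => tau0 e p.1.val = tau0 e p.2.val)).card := by
    refine Finset.card_bij (fun t ht => (⟨2 * t, by have := Finset.mem_range.mp ht; omega⟩,
      ⟨2 * t + 1, by have := Finset.mem_range.mp ht; omega⟩)) ?_ ?_ ?_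
    · intro t ht
      have ht' := Finset.mem_range.mp ht
      rw [Finset.mem_filter]
      refine ⟨Finset.mem_filter.mpr ⟨Finset.mem_univ _, ?_⟩, ?_⟩
      · rw [Fin.lt_def]; simp
      · simp only [tau0]
        rw [if_pos (by omega), if_pos (by omega)]
        omega
    · intro t ht t' ht' h
      simp only [Prod.mk.injEq, Fin.mk.injEq] at h
      omega
    · rintro ⟨⟨a, ha⟩, ⟨b, hb⟩⟩ h
      rw [Finset.mem_filter] at h
      obtain ⟨h1, h2⟩ := h
      have h3 : a < b := (Finset.mem_filter.mp h1).2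
      simp only [tau0] at h2
      have h4 : a < 2 * e ∧ b = a + 1 ∧ a % 2 = 0 := by
        split_ifs at h2 <;> omega
      refine ⟨a / 2, Finset.mem_range.mpr (by omega), ?_⟩
      simp only [Prod.mk.injEq, Fin.mk.injEq]
      omega
  rw [← hmain, Finset.card_range]

theorem exists_perm (p i j : ℕ) (hp : 2 ≤ p) (hi : i < p) (hj : j < p) (hij : i ≠ j) :
    ∃ σ : Equiv.Perm ℕ, σ 0 = i ∧ σ 1 = j ∧ ∀ t, t < p → σ t < p := by
  have hsw : ∀ a b t : ℕ, a < p → b < p → t < p → Equiv.swap a b t < p := by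
    intro a b t ha hb ht
    rw [Equiv.swap_apply_def]
    split_ifs <;> assumption
  refine ⟨(Equiv.swap 1 (Equiv.swap 0 i j)).trans (Equiv.swap 0 i), ?_, ?_, ?_⟩
  · have h0 : Equiv.swap 0 i j ≠ 0 := by
      intro h
      have h1 : Equiv.swap 0 i (Equiv.swap 0 i j) = Equiv.swap 0 i 0 := by rw [h]
      rw [Equiv.swap_apply_self, Equiv.swap_apply_left] at h1
      exact hij h1.symm
    rw [Equiv.trans_apply, Equiv.swap_apply_of_ne_of_ne (by norm_num) h0.symm,
      Equiv.swap_apply_left]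
  · rw [Equiv.trans_apply, Equiv.swap_apply_left, Equiv.swap_apply_self]
  · intro t ht
    rw [Equiv.trans_apply]
    exact hsw _ _ _ (by omega) hi (hsw _ _ _ (by omega) (hsw _ _ _ (by omega) hi hj) ht)

theorem pairE {k : ℕ} (c D p : ℕ) (hc : 2 ≤ c) (hD : 1 ≤ D) (hr : k.choose 2 < r + D)
    (hp : 2 ≤ p) (hkp : k ≤ 2 * p) (hpc : p + c + D = k)
    (P : V → V → Finset (Fin r)) (W : Finset V) (cls : V → ℕ) (ε : ℝ) (hε : 0 < ε)
    (hW : 1 ≤ W.card)
    (hsize : ∀ i, i < p → (W.card : ℝ) / (2 * p) ≤ ∑ x ∈ W, ind (cls x = i))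
    (h1 : ∑ x ∈ W, ∑ y ∈ W, ind (Wr c P cls x y) ≤ ε * (W.card : ℝ) ^ 2)
    (h2 : ∑ x ∈ Fintype.piFinset (fun _ : Fin k => W),
        ind (SCol (k.choose 2 + 1 - D) (fun i j => P (x i) (x j))) ≤ ε * (W.card : ℝ) ^ k)
    (i j : ℕ) (hi : i < p) (hj : j < p) (hij : i ≠ j) :
    ∑ u ∈ W.filter (fun v => cls v = i), ∑ v ∈ W.filter (fun v => cls v = i),
      bad P W cls j (P u v) ≤ ((k.choose 2 : ℝ) + 1) * (2 * p) ^ k * ε * (W.card : ℝ) ^ 4 := by
  classical
  have hn : (1 : ℝ) ≤ (W.card : ℝ) := by exact_mod_cast hW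
  obtain ⟨l, rfl⟩ : ∃ l, k = l + 4 := ⟨k - 4, by omega⟩
  obtain ⟨σ, hσ0, hσ1, hσp⟩ := exists_perm p i j hp hi hj hij
  obtain ⟨e, he⟩ : ∃ e, e = c + D := ⟨_, rfl⟩
  have v0 : ((0 : Fin (l + 4)) : ℕ) = 0 := rfl
  have v1 : ((1 : Fin (l + 4)) : ℕ) = 1 := by
    show 1 % (l + 4) = 1
    exact Nat.mod_eq_of_lt (by omega)
  have v2 : ((2 : Fin (l + 4)) : ℕ) = 2 := by
    show 2 % (l + 4) = 2
    exact Nat.mod_eq_of_lt (by omega)
  have v3 : ((3 : Fin (l + 4)) : ℕ) = 3 := by
    show 3 % (l + 4) = 3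
    exact Nat.mod_eq_of_lt (by omega)
  obtain ⟨τ, hτ⟩ : ∃ τ : Fin (l + 4) → ℕ, τ = fun t => σ (tau0 e t.val) := ⟨_, rfl⟩
  have t0 : τ 0 = i := by
    rw [hτ]; simp only [v0, tau0]; rw [if_pos (by omega)]; exact hσ0
  have t1 : τ 1 = i := by
    rw [hτ]; simp only [v1, tau0]; rw [if_pos (by omega)]; exact hσ0
  have t2 : τ 2 = j := by
    rw [hτ]; simp only [v2, tau0]; rw [if_pos (by omega)]; exact hσ1
  have t3 : τ 3 = j := by
    rw [hτ]; simp only [v3, tau0]; rw [if_pos (by omega)]; exact hσ1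
  have htp : ∀ t : Fin (l + 4), τ t < p := by
    intro t
    rw [hτ]
    apply hσp
    have := t.2
    simp only [tau0]
    split_ifs <;> omega
  have hcard : ((II (l + 4)).filter (fun p => τ p.1 = τ p.2)).card = c + D := by
    have h3 : (II (l + 4)).filter (fun p => τ p.1 = τ p.2) =
        (II (l + 4)).filter (fun p => tau0 e p.1.val = tau0 e p.2.val) := by
      apply Finset.filter_congr
      intro x _
      rw [hτ]
      exact σ.injective.eq_iff
    rw [h3, card_tau0 e (l + 4) (by omega), he]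
  have hT := tupleBound c D (by omega) hD hr (by omega) P W cls ε h1 h2 τ hcard
    (0 : Fin (l + 4)) (1 : Fin (l + 4)) (2 : Fin (l + 4)) (3 : Fin (l + 4))
    (by rw [Fin.lt_def, v0, v1]; norm_num) (by rw [Fin.lt_def, v2, v3]; norm_num)
    (by rw [t0, t1]) (by rw [t2, t3])
  have hs4 := sum4 (fun t : Fin (l + 4) => W.filter (fun v => cls v = τ t))
    (fun u v z w => ind (P u v ≠ P z w))
  rw [hs4] at hT
  rw [t0, t1, t2, t3] at hT
  set Q := ∑ u0 ∈ W.filter (fun v => cls v = i), ∑ u1 ∈ W.filter (fun v => cls v = i),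
    ∑ u2 ∈ W.filter (fun v => cls v = j), ∑ u3 ∈ W.filter (fun v => cls v = j),
      ind (P u0 u1 ≠ P u2 u3) with hQ
  have hQ0 : 0 ≤ Q := Finset.sum_nonneg fun _ _ => Finset.sum_nonneg fun _ _ =>
    Finset.sum_nonneg fun _ _ => Finset.sum_nonneg fun _ _ => ind_nonneg _
  have hp0 : (0 : ℝ) < 2 * p := by
    have : (2 : ℝ) ≤ p := by exact_mod_cast hp
    linarith
  have hprod : ((W.card : ℝ) / (2 * p)) ^ l ≤
      ∏ b : Fin l, ((W.filter (fun v => cls v = τ b.succ.succ.succ.succ)).card : ℝ) := by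
    calc ((W.card : ℝ) / (2 * p)) ^ l = ∏ _b : Fin l, (W.card : ℝ) / (2 * p) := by
          rw [Finset.prod_const, Finset.card_univ, Fintype.card_fin]
      _ ≤ _ := by
          apply Finset.prod_le_prod
          · intro b _; positivity
          · intro b _
            rw [card_filter_ind]
            exact hsize _ (htp _)
  have h3 : ((W.card : ℝ) / (2 * p)) ^ l * Q ≤
      ((W.card : ℝ) / (2 * p)) ^ l *
        ((((l + 4).choose 2 : ℝ) + 1) * (2 * p) ^ l * ε * (W.card : ℝ) ^ 4) := by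
    refine ((mul_le_mul_of_nonneg_right hprod hQ0).trans hT).trans (le_of_eq ?_)
    rw [div_pow, pow_add]
    field_simp
  have h4 := le_of_mul_le_mul_left h3 (by positivity)
  have h5 : ∑ u ∈ W.filter (fun v => cls v = i), ∑ v ∈ W.filter (fun v => cls v = i),
      bad P W cls j (P u v) = Q := by
    unfold bad
    rw [hQ]
    refine Finset.sum_congr rfl fun u _ => Finset.sum_congr rfl fun v _ =>
      Finset.sum_congr rfl fun z _ => Finset.sum_congr rfl fun w _ => ?_
    exact ind_congr ⟨fun h h' => h h'.symm, fun h h' => h h'.symm⟩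
  rw [h5]
  refine h4.trans ?_
  have h6 : (2 * (p : ℝ)) ^ l ≤ (2 * p) ^ (l + 4) := by
    apply pow_le_pow_right₀ _ (by omega)
    have : (2 : ℝ) ≤ p := by exact_mod_cast hp
    linarith
  have h7 : 0 ≤ (((l + 4).choose 2 : ℝ) + 1) := by positivity
  have h8 := mul_le_mul_of_nonneg_left h6 h7
  have h9 : 0 ≤ ε * (W.card : ℝ) ^ 4 := by positivity
  nlinarith [mul_le_mul_of_nonneg_right h8 h9]

theorem case_two {k : ℕ} (c D p : ℕ) (hc : 2 ≤ c) (hD : 1 ≤ D) (hr : k.choose 2 < r + D)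
    (hp : 2 ≤ p) (hkp : k ≤ 2 * p) (hpc : p + c + D = k)
    (P : V → V → Finset (Fin r)) (W : Finset V) (cls : V → ℕ) (hcls : ∀ x, cls x < p)
    (ε η θ : ℝ) (hε : 0 < ε) (hθ : 0 < θ) (hW : 1 ≤ W.card)
    (hsize : ∀ i, i < p → (W.card : ℝ) / (2 * p) ≤ ∑ x ∈ W, ind (cls x = i))
    (h1 : ∑ x ∈ W, ∑ y ∈ W, ind (Wr c P cls x y) ≤ ε * (W.card : ℝ) ^ 2)
    (h2 : ∑ x ∈ Fintype.piFinset (fun _ : Fin k => W),
        ind (SCol (k.choose 2 + 1 - D) (fun i j => P (x i) (x j))) ≤ ε * (W.card : ℝ) ^ k)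
    (hθ1 : θ ≤ η / 4) (hθ2 : θ ≤ 1 / (8 * (p : ℝ) ^ 2)) (hε1 : ε ≤ η / 4)
    (hε2 : ε ≤ 1 / (8 * (p : ℝ) ^ 2))
    (hε3 : p * (((k.choose 2 : ℝ) + 1) * (2 * p) ^ k * ε) < θ * (1 / (8 * (p : ℝ) ^ 2))) :
    ∃ A : Finset (Fin r), A.card = c ∧
        ∑ x ∈ W, ∑ y ∈ W, ind (P x y ≠ if cls x = cls y then A else univ) ≤
          η * (W.card : ℝ) ^ 2 := by
  classical
  have hn : (1 : ℝ) ≤ (W.card : ℝ) := by exact_mod_cast hW
  have hE := pairE c D p hc hD hr hp hkp hpc P W cls ε hε hW hsize h1 h2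
  set n : ℝ := (W.card : ℝ) with hndef
  set K : ℝ := ((k.choose 2 : ℝ) + 1) * (2 * p) ^ k * ε with hK
  have hp2 : (2 : ℝ) ≤ p := by exact_mod_cast hp
  have hp0 : (0 : ℝ) < p := by linarith
  have hK0 : 0 ≤ K := by rw [hK]; positivity
  have hn4 : 0 < n ^ 4 := by positivity
  have hq0 : 0 < 1 / (8 * (p : ℝ) ^ 2) := by positivity
  have hTcard : ∀ i, i < p → n ^ 2 * (2 * (1 / (8 * (p : ℝ) ^ 2))) ≤
      (((W.filter (fun v => cls v = i)) ×ˢ (W.filter (fun v => cls v = i))).card : ℝ) := by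
    intro i hi
    rw [Finset.card_product]
    push_cast
    have h3 := hsize i hi
    rw [← card_filter_ind] at h3
    have h4 : 0 ≤ n / (2 * p) := by positivity
    calc n ^ 2 * (2 * (1 / (8 * (p : ℝ) ^ 2))) = (n / (2 * p)) * (n / (2 * p)) := by
          field_simp; ring
      _ ≤ _ := mul_le_mul h3 h3 h4 (h4.trans h3)
  -- first choice
  obtain ⟨⟨u, v⟩, huv, hcard, hbad⟩ := avg
    ((W.filter (fun v => cls v = 0)) ×ˢ (W.filter (fun v => cls v = 0)))
    (fun t => ∑ i ∈ (range p).erase 0, bad P W cls i (P t.1 t.2))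
    (fun t _ => Finset.sum_nonneg fun _ _ => bad_nonneg _ _ _ _ _)
    (fun t => (P t.1 t.2).card = c)
    (p * K * n ^ 4) (ε * n ^ 2) (θ * n ^ 2) (by positivity)
    (by
      rw [Finset.sum_comm]
      have h3 : ∀ i ∈ (range p).erase 0,
          ∑ t ∈ (W.filter (fun v => cls v = 0)) ×ˢ (W.filter (fun v => cls v = 0)),
            bad P W cls i (P t.1 t.2) ≤ K * n ^ 4 := by
        intro i hi
        obtain ⟨hi0, hip⟩ := Finset.mem_erase.mp hi
        rw [Finset.sum_product]
        exact hE 0 i (by omega) (Finset.mem_range.mp hip) (Ne.symm hi0)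
      refine (Finset.sum_le_sum h3).trans ?_
      rw [Finset.sum_const, nsmul_eq_mul]
      have h4 : (((range p).erase 0).card : ℝ) ≤ p := by
        have := Finset.card_erase_le (s := range p) (a := 0)
        rw [Finset.card_range] at this
        exact_mod_cast this
      have h5 : 0 ≤ K * n ^ 4 := by positivity
      nlinarith)
    (by
      rw [Finset.sum_product]
      refine le_trans ?_ h1
      have h3 : ∀ x ∈ W.filter (fun v => cls v = 0), ∀ y ∈ W.filter (fun v => cls v = 0),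
          ind (¬ (P x y).card = c) ≤ ind (Wr c P cls x y) := by
        intro x hx y hy
        apply ind_mono
        intro h
        unfold Wr
        rw [if_pos (by rw [(Finset.mem_filter.mp hx).2, (Finset.mem_filter.mp hy).2])]
        exact h
      refine (Finset.sum_le_sum fun x hx => Finset.sum_le_sum fun y hy => h3 x hx y hy).trans ?_
      refine le_trans (Finset.sum_le_sum fun x _ => Finset.sum_le_sum_of_subset_of_nonneg
          (Finset.filter_subset _ W) fun y _ _ => ind_nonneg _) ?_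
      exact Finset.sum_le_sum_of_subset_of_nonneg
          (Finset.filter_subset _ W) fun y _ _ => Finset.sum_nonneg fun i _ => ind_nonneg _)
    (by
      have h3 := hTcard 0 (by omega)
      have h4 : n ^ 2 * (1 / (8 * (p : ℝ) ^ 2)) ≤
        (((W.filter (fun v => cls v = 0)) ×ˢ (W.filter (fun v => cls v = 0))).card : ℝ) -
          ε * n ^ 2 := by nlinarith [sq_nonneg n]
      calc p * K * n ^ 4 < θ * (1 / (8 * (p : ℝ) ^ 2)) * n ^ 4 :=
            mul_lt_mul_of_pos_right hε3 hn4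
        _ = (n ^ 2 * (1 / (8 * (p : ℝ) ^ 2))) * (θ * n ^ 2) := by ring
        _ ≤ _ := mul_le_mul_of_nonneg_right h4 (by positivity))
  have hcard' : (P u v).card = c := hcard
  obtain ⟨A, hA⟩ : ∃ A, A = P u v := ⟨_, rfl⟩
  have hbadi : ∀ i ∈ (range p).erase 0, bad P W cls i A ≤ θ * n ^ 2 := by
    intro i hi
    refine le_trans ?_ hbad
    rw [hA]
    exact Finset.single_le_sum (f := fun i => bad P W cls i (P u v))
      (fun _ _ => bad_nonneg _ _ _ _ _) hi
  -- second choice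
  obtain ⟨⟨u', v'⟩, huv', hPA, hbad0⟩ := avg
    ((W.filter (fun v => cls v = 1)) ×ˢ (W.filter (fun v => cls v = 1)))
    (fun t => bad P W cls 0 (P t.1 t.2))
    (fun t _ => bad_nonneg _ _ _ _ _)
    (fun t => P t.1 t.2 = A)
    (K * n ^ 4) (θ * n ^ 2) (θ * n ^ 2) (by positivity)
    (by
      rw [Finset.sum_product]
      exact hE 1 0 (by omega) (by omega) (by norm_num))
    (by
      rw [Finset.sum_product]
      exact hbadi 1 (Finset.mem_erase.mpr ⟨by norm_num, Finset.mem_range.mpr (by omega)⟩))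
    (by
      have h3 := hTcard 1 (by omega)
      have h4 : n ^ 2 * (1 / (8 * (p : ℝ) ^ 2)) ≤
        (((W.filter (fun v => cls v = 1)) ×ˢ (W.filter (fun v => cls v = 1))).card : ℝ) -
          θ * n ^ 2 := by nlinarith [sq_nonneg n]
      have h5 : K ≤ p * K := by nlinarith
      calc K * n ^ 4 < θ * (1 / (8 * (p : ℝ) ^ 2)) * n ^ 4 :=
            mul_lt_mul_of_pos_right (lt_of_le_of_lt h5 hε3) hn4
        _ = (n ^ 2 * (1 / (8 * (p : ℝ) ^ 2))) * (θ * n ^ 2) := by ring
        _ ≤ _ := mul_le_mul_of_nonneg_right h4 (by positivity))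
  have hPA' : P u' v' = A := hPA
  have hbad0' : bad P W cls 0 A ≤ θ * n ^ 2 := by rw [← hPA']; exact hbad0
  refine ⟨A, by rw [hA]; exact hcard', ?_⟩
  refine (final_sum c P W cls hcls A).trans ?_
  have h6 : ∑ i ∈ range p, bad P W cls i A =
      bad P W cls 0 A + ∑ i ∈ (range p).erase 0, bad P W cls i A :=
    (Finset.add_sum_erase _ _ (Finset.mem_range.mpr (by omega))).symm
  have h7 : ∑ i ∈ (range p).erase 0, bad P W cls i A ≤ θ * n ^ 2 := by rw [hA]; exact hbad
  rw [h6]
  have hn2 : 0 ≤ n ^ 2 := by positivity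
  nlinarith

end main

theorem J9_pal_eq (k D r p c : ℕ) (hk : 3 ≤ k) (hD : 1 ≤ D) (hc : 2 ≤ c)
    (hr : k.choose 2 < r + D)
    (hpc : (p = 1 ∧ c + D = k.choose 2) ∨ (2 ≤ p ∧ k ≤ 2 * p ∧ p + c + D = k)) (η : ℝ) (hη : 0 < η) :
    ∃ ε : ℝ, 0 < ε ∧ ∃ n0 : ℕ, ∀ (V : Type) (P : V → V → Finset (Fin r)) (W : Finset V)
      (cls : V → ℕ), n0 ≤ W.card → (∀ x y, P x y = P y x) → (∀ x, cls x < p) →
      (∀ i, i < p → (W.card : ℝ) / (2 * p) ≤ ∑ x ∈ W, ind (cls x = i)) →
      ∑ x ∈ W, ∑ y ∈ W, ind (¬ (if cls x = cls y then (P x y).card = c else P x y = univ)) ≤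
        ε * (W.card : ℝ) ^ 2 →
      ∑ x ∈ Fintype.piFinset (fun _ : Fin k => W),
        ind (SCol (k.choose 2 + 1 - D) (fun i j => P (x i) (x j))) ≤ ε * (W.card : ℝ) ^ k →
      ∃ A : Finset (Fin r), A.card = c ∧
        ∑ x ∈ W, ∑ y ∈ W, ind (P x y ≠ if cls x = cls y then A else univ) ≤
          η * (W.card : ℝ) ^ 2 := by
  rcases hpc with ⟨hp, hcD⟩ | ⟨hp, hkp, hpk⟩
  · subst hp
    have hC : (0 : ℝ) < 16 * ((k.choose 2 : ℝ) + 1) := by positivity
    refine ⟨min (1 / 2) (η / (16 * ((k.choose 2 : ℝ) + 1))), by positivity, 1, ?_⟩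
    intro V P W cls hW _ hcls _ h1 h2
    refine case_one k D c hk hD hc hr hcD η P W cls hcls hW _ (by positivity)
      (min_le_left _ _) ?_ h1 h2
    rw [← le_div_iff₀ hC]
    exact min_le_right _ _
  · have hp2 : (2 : ℝ) ≤ p := by exact_mod_cast hp
    have hp0 : (0 : ℝ) < p := by linarith
    have hq : 0 < 1 / (8 * (p : ℝ) ^ 2) := by positivity
    obtain ⟨θ, hθ⟩ : ∃ θ : ℝ, θ = min (η / 4) (1 / (8 * (p : ℝ) ^ 2)) := ⟨_, rfl⟩
    have hθ0 : 0 < θ := by rw [hθ]; positivity
    obtain ⟨L, hL⟩ : ∃ L : ℝ, L = p * (((k.choose 2 : ℝ) + 1) * (2 * p) ^ k) := ⟨_, rfl⟩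
    have hL0 : 0 < L := by rw [hL]; positivity
    obtain ⟨ε, hεdef⟩ : ∃ ε : ℝ, ε = min (min (η / 4) (1 / (8 * (p : ℝ) ^ 2)))
      (θ * (1 / (8 * (p : ℝ) ^ 2)) / (2 * L)) := ⟨_, rfl⟩
    have hε0 : 0 < ε := by rw [hεdef]; positivity
    refine ⟨ε, hε0, 1, ?_⟩
    intro V P W cls hW _ hcls hsize h1 h2
    refine case_two c D p hc hD hr hp hkp hpk P W cls hcls ε η θ hε0 hθ0 hW hsize h1 h2
      (by rw [hθ]; exact min_le_left _ _) (by rw [hθ]; exact min_le_right _ _)
      (by rw [hεdef]; exact (min_le_left _ _).trans (min_le_left _ _))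
      (by rw [hεdef]; exact (min_le_left _ _).trans (min_le_right _ _)) ?_
    have h3 : ε ≤ θ * (1 / (8 * (p : ℝ) ^ 2)) / (2 * L) := by rw [hεdef]; exact min_le_right _ _
    rw [le_div_iff₀ (by positivity)] at h3
    have h4 : p * (((k.choose 2 : ℝ) + 1) * (2 * p) ^ k * ε) = L * ε := by rw [hL]; ring
    rw [h4]
    have h5 : 0 < L * ε := by positivity
    have h6 : 0 < θ * (1 / (8 * (p : ℝ) ^ 2)) := by positivity
    nlinarith

end Pool.Agent.TH75.J648
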