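import Mathlib

/-!
# Finite groups with self-centralizing elements of prime order (helper75, job 1243 BL-H)
-/

set_option autoImplicit false

namespace Pool.Agent.TH75.BLH

theorem fin_sylow {G : Type*} [Group G] [Finite G]
    (pr : ∀ a : G, a ≠ 1 → (orderOf a).Prime ∧ ∀ g, a * g = g * a → g ∈ Subgroup.zpowers a) :
    IsZGroup G := by
  refine ⟨fun r hr P => ?_⟩
  have : Fact r.Prime := ⟨hr⟩
  by_cases hP : Nontrivial P
  · have hPG : IsPGroup r P := P.isPGroup'
    have := hPG.center_nontrivial
    obtain ⟨c, hc⟩ := exists_ne (1 : Subgroup.center P)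
    have hc1 : ((c : P) : G) ≠ 1 := by
      intro h
      apply hc
      ext
      simpa using h
    have hcom : ∀ y : P, ((c : P) : G) * (y : G) = (y : G) * ((c : P) : G) := by
      intro y
      have h := Subgroup.mem_center_iff.1 c.2 y
      have h2 := congrArg (fun t : P => (t : G)) h
      simp only [Subgroup.coe_mul] at h2
      exact h2.symm
    have hle : (P : Subgroup G) ≤ Subgroup.zpowers ((c : P) : G) := by
      intro y hy
      exact (pr _ hc1).2 y (hcom ⟨y, hy⟩)
    exact Subgroup.isCyclic_of_le hle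
  · rw [not_nontrivial_iff_subsingleton] at hP
    infer_instance

theorem fin_comm {G : Type*} [Group G] [Finite G]
    (pr : ∀ a : G, a ≠ 1 → (orderOf a).Prime ∧ ∀ g, a * g = g * a → g ∈ Subgroup.zpowers a)
    (sep : ∀ a b : G, a ≠ 1 → b ≠ 1 → ¬ orderOf a ∣ orderOf b - 1) (a b : G) : a * b = b * a := by
  have := fin_sylow pr
  have := IsZGroup.isCyclic_commutator G
  obtain ⟨g, hg⟩ := IsCyclic.exists_generator (α := commutator G)
  have hmem : ∀ y ∈ commutator G, y ∈ Subgroup.zpowers (g : G) := by
    intro y hy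
    obtain ⟨k, hk⟩ := Subgroup.mem_zpowers_iff.1 (hg ⟨y, hy⟩)
    refine Subgroup.mem_zpowers_iff.2 ⟨k, ?_⟩
    have := congrArg (fun t : commutator G => (t : G)) hk
    simpa using this
  have hab : a * b * a⁻¹ * b⁻¹ ∈ commutator G :=
    Subgroup.commutator_mem_commutator (Subgroup.mem_top a) (Subgroup.mem_top b)
  by_cases hc : (g : G) = 1
  · have h1 := hmem _ hab
    rw [hc, Subgroup.zpowers_one_eq_bot, Subgroup.mem_bot] at h1
    have h2 : a * b = (a * b * a⁻¹ * b⁻¹) * (b * a) := by group
    rw [h2, h1, one_mul]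
  · obtain ⟨hq, -⟩ := pr _ hc
    have hcen : ∀ h : G, h ∈ Subgroup.zpowers (g : G) := by
      intro h
      by_cases hh : h = 1
      · rw [hh]; exact Subgroup.one_mem _
      refine (pr _ hc).2 h ?_
      by_contra hne
      have hn : h * (g : G) * h⁻¹ ∈ Subgroup.zpowers (g : G) :=
        hmem _ ((inferInstance : (commutator G).Normal).conj_mem _ g.2 h)
      obtain ⟨k, hk⟩ := (mem_powers_iff_mem_zpowers (x := (g : G))).2 hn
      have hk' : (g : G) ^ k = h * (g : G) * h⁻¹ := hk
      have hpow : ∀ j : ℕ, h ^ j * (g : G) * (h ^ j)⁻¹ = (g : G) ^ (k ^ j) := by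
        intro j
        induction j with
        | zero => simp
        | succ j ih =>
          have e1 : h ^ (j + 1) * (g : G) * (h ^ (j + 1))⁻¹
              = h * (h ^ j * (g : G) * (h ^ j)⁻¹) * h⁻¹ := by
            rw [pow_succ']; group
          rw [e1, ih, ← conj_pow, ← hk', ← pow_mul, pow_succ', mul_comm]
      have hp := hpow (orderOf h)
      rw [pow_orderOf_eq_one, one_mul, inv_one, mul_one] at hp
      have : Fact (orderOf (g : G)).Prime := ⟨hq⟩
      have h1 : (k : ZMod (orderOf (g : G))) ^ (orderOf h) = 1 := by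
        have h2 : (g : G) ^ 1 = (g : G) ^ (k ^ orderOf h) := by rw [pow_one]; exact hp
        rw [pow_eq_pow_iff_modEq] at h2
        have h3 := (ZMod.natCast_eq_natCast_iff _ _ _).2 h2
        push_cast at h3
        exact h3.symm
      have h2 : (k : ZMod (orderOf (g : G))) ≠ 1 := by
        intro h2
        apply hne
        have h3 : ((k : ℕ) : ZMod (orderOf (g : G))) = ((1 : ℕ) : ZMod (orderOf (g : G))) := by
          rw [h2, Nat.cast_one]
        have h4 := (ZMod.natCast_eq_natCast_iff _ _ _).1 h3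
        rw [← pow_eq_pow_iff_modEq, pow_one, hk'] at h4
        conv_lhs => rw [← h4]
        group
      have hpr : Fact (orderOf h).Prime := ⟨(pr h hh).1⟩
      have h3 : orderOf (k : ZMod (orderOf (g : G))) = orderOf h := orderOf_eq_prime h1 h2
      have h4 : (k : ZMod (orderOf (g : G))) ≠ 0 := by
        intro h0
        rw [h0, zero_pow hpr.out.ne_zero] at h1
        exact zero_ne_one h1
      have h5 := ZMod.orderOf_dvd_card_sub_one h4
      rw [h3] at h5
      exact sep h g hh hc h5
    obtain ⟨i, hi⟩ := Subgroup.mem_zpowers_iff.1 (hcen a)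
    obtain ⟨j, hj⟩ := Subgroup.mem_zpowers_iff.1 (hcen b)
    rw [← hi, ← hj, ← zpow_add, ← zpow_add, add_comm]

end Pool.Agent.TH75.BLH
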