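import Pool.Agent.TH64.Ost2

/-!
# `s x ^ n` has infinite order for large `n` (helper75, job 1247 BL-M)
-/

set_option autoImplicit false

namespace Pool.Agent.TH75.BLM

open Pool.Agent.TH64

theorem len_zpow_le {G : Type*} [Group G] (H : Hyp G) (x : G) (m : ℕ) :
    H.len (x ^ m) ≤ m * H.len x := by
  induction m with
  | zero => simp [H.len_one]
  | succ m ih =>
    rw [pow_succ]
    have := H.len_mul (x ^ m) x
    rw [Nat.succ_mul]
    omega

theorem inf_mul {G : Type*} [Group G] {H : Hyp G} {x : G} (A : Ax H x) (s : G) :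
    ∃ n0 : ℕ, ∀ n : ℕ, n0 ≤ n → ¬ IsOfFinOrder (s * x ^ n) := by
  by_cases hs : s ∈ Subgroup.zpowers x
  · obtain ⟨i, hi⟩ := Subgroup.mem_zpowers_iff.1 hs
    refine ⟨i.natAbs + 1, fun n hn hfin => ?_⟩
    obtain ⟨k, hk, hk1⟩ := isOfFinOrder_iff_pow_eq_one.1 hfin
    rw [← hi, ← zpow_natCast x n, ← zpow_add, ← zpow_natCast, ← zpow_mul] at hk1
    have := A.toPAx.zpow_inj (hk1.trans (zpow_zero x).symm)
    rcases Int.mul_eq_zero.1 this with h | h <;> omega
  · -- constants
    obtain ⟨C0, hC0⟩ : ∃ C0 : ℕ, (C0 : ℤ) = A.c * (H.len s : ℤ) + A.c * A.c + A.c :=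
      ⟨A.c * H.len s + A.c * A.c + A.c, by push_cast; ring⟩
    obtain ⟨m, hm⟩ : ∃ m : ℕ, m = H.D + 1 + A.c + (C0 + A.c) * H.len x := ⟨_, rfl⟩
    refine ⟨2 * C0 + A.c + (A.c * m + A.c) + 1, fun n hn hfin => ?_⟩
    set γ := s * x ^ n with hγ
    have e1 : |A.s s 1 s| ≤ C0 := by
      have := A.lip_s s 1 s
      rw [H.d_one] at this
      omega
    have e2 : A.s s s γ = n := by
      have := A.s_line s s n
      rw [zpow_natCast, ← hγ, inv_mul_cancel, A.κ_one] at this
      rw [this]; ring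
    have e3 : |A.s s γ (γ * s)| ≤ C0 := by
      have := A.lip_s s γ (γ * s)
      have h2 : H.d γ (γ * s) = H.len s := by
        have := H.d_mul γ 1 s
        rw [mul_one, H.d_one] at this
        exact this
      rw [h2] at this
      omega
    have e4 : |A.s s (γ * s) (γ * γ)| ≤ A.c := by
      have h1 : s⁻¹ * (γ * s) ∉ Subgroup.zpowers x := by
        intro h
        apply hs
        have h2 : s = (x ^ n)⁻¹ * (s⁻¹ * (γ * s)) := by rw [hγ]; group
        rw [h2]
        exact Subgroup.mul_mem _ (Subgroup.inv_mem _ (Subgroup.pow_mem _ (Subgroup.mem_zpowers x) n)) h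
      have := A.ov_s h1 0 n
      rw [zpow_zero, mul_one, zpow_natCast, mul_assoc γ s (x ^ n), ← hγ] at this
      exact this
    have a1 := A.s_add s 1 s γ
    have a2 := A.s_add s γ (γ * s) (γ * γ)
    have a3 := A.s_add s 1 γ (γ * γ)
    have e5 : |A.s s γ (γ * γ)| ≤ C0 + A.c := by
      rw [← a2]
      exact (abs_add_le _ _).trans (add_le_add e3 e4)
    have e6 : (n : ℤ) - (2 * C0 + A.c) ≤ A.s s 1 (γ * γ) := by
      rw [abs_le] at e1 e5
      omega
    have e7 : (A.c : ℤ) * m + A.c < |A.s s 1 (γ * γ)| := by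
      have h1 := le_abs_self (A.s s 1 (γ * γ))
      have h2 : (2 * (C0 : ℤ) + A.c + (A.c * m + A.c) + 1) ≤ n := by exact_mod_cast hn
      omega
    have e8 := A.len_ge e7
    have e9 := A.proj_pr s 1 (γ * γ) (by
      have : (0 : ℤ) ≤ (A.c : ℤ) * m := by positivity
      omega)
    -- the projection of `γ ^ 2`
    have e10 : H.d γ (A.pr s (γ * γ)) ≤ (C0 + A.c) * H.len x := by
      have h1 := A.d_pr_pr s γ (γ * γ)
      have h2 : A.pr s γ = γ := by
        unfold PAx.pr
        rw [hγ, inv_mul_cancel_left, ← zpow_natCast, A.κ_zpow]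
      rw [h2, PAx.len_zpow] at h1
      rw [h1]
      refine (len_zpow_le H x _).trans (Nat.mul_le_mul_right _ ?_)
      rw [PAx.natAbs_abs] at e5
      exact_mod_cast e5
    have e11 : H.d γ (γ * γ) = H.len γ := by
      have := H.d_mul γ 1 γ
      rw [mul_one, H.d_one] at this
      exact this
    have e12 := H.d_tri γ (A.pr s (γ * γ)) (γ * γ)
    rw [H.d_comm (A.pr s (γ * γ)) (γ * γ), e11] at e12
    simp only [H.d_one] at e9
    have e13 : H.len γ + H.D + 1 ≤ H.len (γ ^ 2) := by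
      rw [pow_two]
      omega
    obtain ⟨k, hk, hk1⟩ := isOfFinOrder_iff_pow_eq_one.1 hfin
    have := H.lox_lin e13 k
    rw [hk1, H.len_one] at this
    omega

end Pool.Agent.TH75.BLM
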