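import Pool.Agent.TH64.Ost2

/-!
# Torsion subgroups of hyperbolic groups (helper75, job 1245 BL-J)
-/

set_option autoImplicit false

namespace Pool.Agent.TH75.BLJ

open Pool.Agent.TH64

variable {G : Type*} [Group G] (H : Hyp G)

theorem len_conj (z m : G) : H.len (m⁻¹ * z * m) = H.d m (z * m) := by
  unfold Hyp.d
  rw [mul_assoc]

theorem tors_sq {z : G} (hz : IsOfFinOrder z) (p : G) :
    H.d p (z * (z * p)) ≤ H.d p (z * p) + H.D := by
  by_contra hcon
  push Not at hcon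
  have h1 : H.len (p⁻¹ * z * p) + H.D + 1 ≤ H.len ((p⁻¹ * z * p) ^ 2) := by
    rw [len_conj, pow_two, show p⁻¹ * z * p * (p⁻¹ * z * p) = p⁻¹ * (z * z) * p by group,
      len_conj, mul_assoc]
    omega
  obtain ⟨k, hk, hk1⟩ := isOfFinOrder_iff_pow_eq_one.1 (fin_conj (g := p) hz)
  have := H.lox_lin h1 k
  rw [hk1, H.len_one] at this
  omega

/-- coarse midpoints of `p`, `z p` are moved a bounded distance -/
theorem mid {z : G} (hz : IsOfFinOrder z) (p m : G) (e : ℕ)
    (h1 : 2 * H.d p m ≤ H.d p (z * p) + e) (h2 : 2 * H.d m (z * p) ≤ H.d p (z * p) + e) :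
    H.d m (z * m) ≤ e + 3 * H.D := by
  have h3 := tors_sq H hz p
  have f1 := H.fp m (z * (z * p)) (z * p) p
  have f2 := H.fp m (z * m) (z * p) (z * (z * p))
  rw [H.d_mul z p (z * p), H.d_mul z m (z * p), H.d_mul z m p] at f2
  rw [H.d_comm (z * p) p, H.d_comm (z * (z * p)) p, H.d_comm (z * (z * p)) (z * p),
    H.d_mul z p (z * p), H.d_comm m p] at f1
  rw [H.d_comm m p] at f2
  omega

theorem exists_mid {z : G} (hz : IsOfFinOrder z) (p : G) :
    ∃ m, 2 * H.d p m ≤ H.d p (z * p) + 1 ∧ 2 * H.d m (z * p) ≤ H.d p (z * p) + 1 ∧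
      H.d m (z * m) ≤ 1 + 3 * H.D := by
  obtain ⟨m, hm1, hm2⟩ := H.between p (z * p) (H.d p (z * p) / 2) (by omega)
  refine ⟨m, by omega, by omega, mid H hz p m 1 (by omega) (by omega)⟩

theorem pair {a b : G} (ha : IsOfFinOrder a) (hb : IsOfFinOrder b) (hab : IsOfFinOrder (a * b)) :
    ∃ m, H.d m (a * m) ≤ 15 * H.D + 10 ∧ H.d m (b * m) ≤ 30 * H.D + 20 := by
  obtain ⟨q, -, -, hq⟩ := exists_mid H hb 1
  obtain ⟨m, hm1, hm2, hm3⟩ := exists_mid H hab q
  have e1 : H.d (a * q) (a * b * q) = H.d q (b * q) := by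
    rw [mul_assoc, H.d_mul]
  have t1 := H.d_tri q (a * q) (a * b * q)
  have t2 := H.d_tri q (a * b * q) (a * q)
  have t3 := H.d_tri m (a * b * q) (a * q)
  rw [H.d_comm (a * b * q) (a * q)] at t2 t3
  have h1 := mid H ha q m (4 + 9 * H.D) (by omega) (by omega)
  refine ⟨m, by omega, ?_⟩
  have e2 : H.d (a * m) (a * b * m) = H.d m (b * m) := by
    rw [mul_assoc, H.d_mul]
  have t4 := H.d_tri (a * m) m (a * b * m)
  rw [H.d_comm (a * m) m] at t4
  omega

theorem tors_fin {G : Type*} [Group G] (H : Hyp G)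
    (hc : ∀ a : G, a ≠ 1 → IsOfFinOrder a → {g : G | a * g = g * a}.Finite)
    (A : Subgroup G) (hA : ∀ a ∈ A, IsOfFinOrder a) : Finite A := by
  by_cases hbot : ∃ a ∈ A, a ≠ 1
  · obtain ⟨a, ha, ha1⟩ := hbot
    obtain ⟨R, hR⟩ : ∃ R, R = 30 * H.D + 20 := ⟨_, rfl⟩
    have hfix : {m : G | H.len (m⁻¹ * a * m) ≤ R}.Finite := by
      have h1 : {m : G | H.len (m⁻¹ * a * m) ≤ R} ⊆
          ⋃ y ∈ {g | H.len g ≤ R}, {m : G | m⁻¹ * a * m = y} := by
        intro m hm
        simp only [Set.mem_iUnion]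
        exact ⟨m⁻¹ * a * m, hm, rfl⟩
      refine Set.Finite.subset (Set.Finite.biUnion (H.fin R) ?_) h1
      intro y _
      by_cases hne : ({m : G | m⁻¹ * a * m = y} : Set G).Nonempty
      · obtain ⟨m0, hm0⟩ := hne
        have hm0' : m0⁻¹ * a * m0 = y := hm0
        refine Set.Finite.subset ((hc a ha1 (hA a ha)).image (fun g => g * m0)) ?_
        intro m hm
        have hm' : m⁻¹ * a * m = y := hm
        refine ⟨m * m0⁻¹, ?_, by simp⟩
        show a * (m * m0⁻¹) = m * m0⁻¹ * a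
        have e1 : a * m = m * y := by rw [← hm']; group
        have e2 : m0⁻¹ * a = y * m0⁻¹ := by rw [← hm0']; group
        rw [← mul_assoc, e1, mul_assoc m m0⁻¹ a, e2, mul_assoc]
      · rw [Set.not_nonempty_iff_eq_empty] at hne
        rw [hne]
        exact Set.finite_empty
    have hsub : (A : Set G) ⊆ Set.image2 (fun m y => m * y * m⁻¹)
        {m : G | H.len (m⁻¹ * a * m) ≤ R} {g | H.len g ≤ R} := by
      intro b hb
      obtain ⟨m, hm1, hm2⟩ := pair H (hA a ha) (hA b hb) (hA _ (A.mul_mem ha hb))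
      refine ⟨m, ?_, m⁻¹ * b * m, ?_, ?_⟩
      · show H.len (m⁻¹ * a * m) ≤ R
        rw [len_conj]
        omega
      · show H.len (m⁻¹ * b * m) ≤ R
        rw [len_conj]
        omega
      · show m * (m⁻¹ * b * m) * m⁻¹ = b
        group
    exact ((hfix.image2 _ (H.fin R)).subset hsub).to_subtype
  · push Not at hbot
    have : A = ⊥ := (Subgroup.eq_bot_iff_forall A).2 hbot
    rw [this]
    infer_instance

end Pool.Agent.TH75.BLJ
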