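import Pool.Agent.TH722.FI.Defs

/-!
Contraction of a tree along a partition into connected sets.
-/

set_option autoImplicit false

namespace Pool.Agent.TH75.FI

open MeasureTheory Set Filter Pool.Agent.TH722.FI
open scoped Topology ENNReal

section Cut

variable {V : Type*} {G : SimpleGraph V}

theorem reach_closed {S : V → Prop} (h : ∀ a b, G.Adj a b → S a → S b) {x y : V}
    (hr : G.Reachable x y) (hx : S x) : S y := by
  obtain ⟨w⟩ := hr
  induction w with
  | nil => exact hx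
  | cons hadj _ ih => exact ih (h _ _ hadj hx)

/-- a cut consisting of one edge -/
def IsCut (G : SimpleGraph V) (S : V → Prop) (x y : V) : Prop :=
  S x ∧ ¬ S y ∧ ∀ a b, G.Adj a b → S a → ¬ S b → s(a, b) = s(x, y)

theorem acyclic_of_cut (h : ∀ x y, G.Adj x y → ∃ S : V → Prop, IsCut G S x y) :
    G.IsAcyclic := by
  rw [SimpleGraph.isAcyclic_iff_forall_adj_isBridge]
  intro x y hxy
  rw [SimpleGraph.isBridge_iff]
  intro hr
  obtain ⟨S, h1, h2, h3⟩ := h x y hxy
  apply h2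
  refine reach_closed (S := S) ?_ hr h1
  intro a b hab ha
  by_contra hb
  rw [SimpleGraph.deleteEdges_adj] at hab
  exact hab.2 (h3 a b hab.1 ha hb)

theorem cut_of_acyclic (hG : G.IsAcyclic) {x y : V} (hxy : G.Adj x y) :
    ∃ S : V → Prop, IsCut G S x y := by
  rw [SimpleGraph.isAcyclic_iff_forall_adj_isBridge] at hG
  have h := hG hxy
  rw [SimpleGraph.isBridge_iff] at h
  refine ⟨fun z => (G.deleteEdges {s(x, y)}).Reachable x z, SimpleGraph.Reachable.refl _, h, ?_⟩
  intro a b hab ha hb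
  by_contra hne
  exact hb (ha.trans (SimpleGraph.Adj.reachable
    (SimpleGraph.deleteEdges_adj.2 ⟨hab, by simpa using hne⟩)))

/-- a connected set not containing both ends of the cut edge is on one side -/
theorem cut_side {S : V → Prop} {x y : V} (hS : IsCut G S x y) {Z : Set V}
    (hZ : (G.induce Z).Preconnected) (hxy : ¬ (x ∈ Z ∧ y ∈ Z)) {a b : V} (ha : a ∈ Z) (hb : b ∈ Z)
    (h : S a) : S b := by
  have key := reach_closed (G := G.induce Z) (S := fun z => S z.1) ?_ (hZ ⟨a, ha⟩ ⟨b, hb⟩) h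
  · exact key
  · intro c d hcd hc
    by_contra hd
    have h1 := hS.2.2 c.1 d.1 hcd hc hd
    rw [Sym2.eq_iff] at h1
    rcases h1 with ⟨h1, h2⟩ | ⟨h1, h2⟩
    · exact hxy ⟨h1 ▸ c.2, h2 ▸ d.2⟩
    · exact hxy ⟨h2 ▸ d.2, h1 ▸ c.2⟩

end Cut

variable {V W : Type*}

theorem contract (U : SimpleGraph V) (hU : U.IsTree) (p : V → W) (hp : Function.Surjective p)
    (hc : ∀ w, (U.induce (p ⁻¹' {w})).Connected) (H : SimpleGraph W)
    (hH : ∀ w w', H.Adj w w' ↔ w ≠ w' ∧ ∃ u v, U.Adj u v ∧ p u = w ∧ p v = w') : H.IsTree := by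
  have hne : Nonempty W := hU.connected.nonempty.map p
  have hconn : H.Connected := by
    refine ⟨?_⟩
    intro z z'
    obtain ⟨a, rfl⟩ := hp z
    obtain ⟨b, rfl⟩ := hp z'
    refine reach_closed (G := U) (S := fun t => H.Reachable (p a) (p t)) ?_
      (hU.connected.preconnected a b) (SimpleGraph.Reachable.refl _)
    intro c d hcd h
    by_cases he : p c = p d
    · rw [← he]
      exact h
    · exact h.trans (SimpleGraph.Adj.reachable ((hH _ _).2 ⟨he, c, d, hcd, rfl, rfl⟩))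
  refine ⟨hconn, acyclic_of_cut ?_⟩
  intro w w' hww
  obtain ⟨hne', u, v, huv, rfl, rfl⟩ := (hH _ _).1 hww
  obtain ⟨S, hS⟩ := cut_of_acyclic hU.isAcyclic huv
  have hside : ∀ a b, p a = p b → S a → S b := by
    intro a b hab ha
    refine cut_side hS (Z := p ⁻¹' {p b}) (hc (p b)).preconnected ?_ hab rfl ha
    rintro ⟨h1, h2⟩
    exact hne' (h1.trans h2.symm)
  refine ⟨fun z => ∃ t, p t = z ∧ S t, ⟨u, rfl, hS.1⟩, ?_, ?_⟩
  · rintro ⟨t, ht, hSt⟩
    exact hS.2.1 (hside t v ht hSt)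
  · rintro z z' hzz ⟨t, ht, hSt⟩ hnot
    obtain ⟨-, a, b, hab, rfl, rfl⟩ := (hH _ _).1 hzz
    have h1 := hS.2.2 a b hab (hside t a ht hSt) fun hb => hnot ⟨b, rfl, hb⟩
    have h2 := congrArg (Sym2.map p) h1
    simpa using h2

end Pool.Agent.TH75.FI
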