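import Mathlib
import Pool.Agent.TH775.AC.Stmts

/-!
# MP_1f2de8_an, AC-13: the algebraic inequality
-/

set_option autoImplicit false

namespace Pool.Agent.TH775.AC

lemma TH75.alg_real (a₁ a₂ b : ℂ) (m1 m2 : ℝ) (h1 : 0 < m1) (h2 : 0 < m2) (hx1 : 0 ≤ a₁.re)
    (hx2 : 0 ≤ a₂.re) (hxb : 0 ≤ b.re) :
    0 ≤ ((((m1 + m2 : ℝ) : ℂ) ^ 2 * (a₁ * a₂) + b * ((m2 : ℂ) * a₁ + (m1 : ℂ) * a₂)) *
        (starRingEnd ℂ) ((m1 : ℂ) * a₁ + (m2 : ℂ) * a₂ + b)).re := by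
  have e : ((((m1 + m2 : ℝ) : ℂ) ^ 2 * (a₁ * a₂) + b * ((m2 : ℂ) * a₁ + (m1 : ℂ) * a₂)) *
        (starRingEnd ℂ) ((m1 : ℂ) * a₁ + (m2 : ℂ) * a₂ + b)).re =
      m2 * a₁.re * ((m1 + m2) * a₂.im + b.im) ^ 2 + m1 * a₂.re * ((m1 + m2) * a₁.im + b.im) ^ 2 +
      m1 * m2 * b.re * (a₁.im - a₂.im) ^ 2 +
      ((m1 + m2) ^ 2 * (a₁.re * a₂.re) + b.re * (m2 * a₁.re + m1 * a₂.re)) *
        (m1 * a₁.re + m2 * a₂.re + b.re) := by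
    simp only [pow_two, Complex.mul_re, Complex.mul_im, Complex.add_re, Complex.add_im,
      Complex.ofReal_re, Complex.ofReal_im, Complex.conj_re, Complex.conj_im]
    ring
  rw [e]
  positivity

theorem alg : S_ALG := by
  intro a₁ a₂ b μ₁ μ₂ h1 h2 ha1 ha2 hb hD
  have hm1 : (μ₁ : ℂ) ≠ 0 := by exact_mod_cast h1.ne'
  have hm2 : (μ₂ : ℂ) ≠ 0 := by exact_mod_cast h2.ne'
  set D := (μ₁ : ℂ) * a₁ + μ₂ * a₂ + b with hDdef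
  set N := ((μ₁ + μ₂ : ℝ) : ℂ) ^ 2 * (a₁ * a₂) + b * ((μ₂ : ℂ) * a₁ + (μ₁ : ℂ) * a₂) with hN
  have hnorm : 0 < Complex.normSq D := Complex.normSq_pos.2 hD
  have e1 : a₁ / μ₁ + a₂ / μ₂ - (a₁ - a₂) ^ 2 / D = N / ((μ₁ : ℂ) * μ₂ * D) := by
    rw [eq_div_iff (mul_ne_zero (mul_ne_zero hm1 hm2) hD)]
    have : (a₁ / μ₁ + a₂ / μ₂ - (a₁ - a₂) ^ 2 / D) * ((μ₁ : ℂ) * μ₂ * D) =
        (μ₂ * a₁ + μ₁ * a₂) * D - μ₁ * μ₂ * (a₁ - a₂) ^ 2 := by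
      field_simp
    rw [this, hN, hDdef]
    push_cast
    ring
  have e2 : N / ((μ₁ : ℂ) * μ₂ * D) =
      (N * (starRingEnd ℂ) D) / ((μ₁ * μ₂ * Complex.normSq D : ℝ) : ℂ) := by
    have hc : (starRingEnd ℂ) D ≠ 0 := by
      rw [Ne, map_eq_zero]
      exact hD
    push_cast
    rw [← Complex.mul_conj]
    field_simp
  rw [e1, e2, Complex.div_ofReal_re]
  refine div_nonneg ?_ (by positivity)
  exact TH75.alg_real a₁ a₂ b μ₁ μ₂ h1 h2 ha1 ha2 hb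

end Pool.Agent.TH775.AC
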