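import Pool.Agent.TH614.HS.Defs2

/-!
Product of a binary quadratic form over the projective line of the subfield of `q` elements.
-/

set_option autoImplicit false

namespace Pool.Agent.TH75.J3617

open Polynomial
open Pool.Agent.TH614.HS

variable {L : Type} [Field L] (D : HD L)

lemma q_odd : Odd D.q := by
  have := D.h4
  rw [Nat.odd_iff]
  omega

include D in
lemma two_ne : (2 : L) ≠ 0 := by
  intro h
  obtain ⟨k, hk⟩ := q_odd D
  have h1 := D.qz
  rw [hk] at h1
  push_cast at h1
  rw [h, zero_mul, zero_add] at h1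
  exact one_ne_zero h1

lemma monic : (X ^ D.q - X : L[X]).Monic := by
  have := D.h5
  refine monic_X_pow_sub ?_
  rw [degree_X]
  exact_mod_cast (by omega : 1 < D.q)

lemma natDeg : (X ^ D.q - X : L[X]).natDegree = D.q :=
  FiniteField.X_pow_card_sub_X_natDegree_eq L (by have := D.h5; omega)

lemma sep : (X ^ D.q - X : L[X]).Separable := by
  have hd : derivative (X ^ D.q - X : L[X]) = -1 := by
    rw [derivative_sub, derivative_X_pow, derivative_X, D.qz, C_0, zero_mul, zero_sub]
  rw [Polynomial.Separable, hd]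
  exact ⟨0, -1, by ring⟩

lemma roots_val : (kset D).val = (X ^ D.q - X : L[X]).roots := by
  classical
  unfold kset
  rw [Multiset.toFinset_val]
  exact Multiset.dedup_eq_self.2 (nodup_roots (sep D))

variable [IsAlgClosed L]

lemma card_kset : (kset D).card = D.q := by
  rw [Finset.card_def, roots_val, ← (IsAlgClosed.splits (X ^ D.q - X : L[X])).natDegree_eq_card_roots,
    natDeg]

lemma prod_kset (r : L) : ∏ l ∈ kset D, (r - l) = r ^ D.q - r := by
  have h := (IsAlgClosed.splits (X ^ D.q - X : L[X])).eval_eq_prod_roots_of_monic (monic D) r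
  rw [eval_sub, eval_pow, eval_X] at h
  rw [h, Finset.prod_eq_multiset_prod, roots_val]

lemma prod_kset' (r : L) : ∏ l ∈ kset D, (l - r) = r - r ^ D.q := by
  have h : ∀ l ∈ kset D, l - r = (-1) * (r - l) := fun l _ => by ring
  rw [Finset.prod_congr rfl h, Finset.prod_mul_distrib, Finset.prod_const, card_kset, prod_kset,
    (q_odd D).neg_one_pow]
  ring

/-- the identity for elements -/
lemma elem (A B E : L) :
    2 * (A * ∏ l ∈ kset D, (E + l * B + l ^ 2 * A)) =
      (B ^ 2 - 4 * A * E) ^ ((D.q + 1) / 2) - B ^ (D.q + 1) + 2 * A * E ^ D.q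
        + 2 * E * A ^ D.q := by
  obtain ⟨k, hk⟩ := q_odd D
  have hk2 : (D.q + 1) / 2 = k + 1 := by omega
  have hq1 : D.q + 1 = 2 * (k + 1) := by omega
  have hq0 : D.q ≠ 0 := by omega
  have hpow : ∀ x : L, (x ^ 2) ^ ((D.q + 1) / 2) = x ^ (D.q + 1) := by
    intro x
    rw [hk2, hq1, pow_mul]
  by_cases hA : A = 0
  · subst hA
    rw [zero_mul, mul_zero, mul_zero, zero_mul, sub_zero, hpow, zero_mul, zero_pow hq0]
    ring
  · have h2 := two_ne D
    obtain ⟨δ, hδ⟩ := IsAlgClosed.exists_pow_nat_eq (B ^ 2 - 4 * A * E) (n := 2) two_pos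
    set r1 : L := (-B + δ) / (2 * A) with hr1
    set r2 : L := (-B - δ) / (2 * A) with hr2
    have h2A : 2 * A ≠ 0 := mul_ne_zero h2 hA
    have hB : B = -A * (r1 + r2) := by
      rw [hr1, hr2]
      field_simp
      ring
    have hd : δ = A * (r1 - r2) := by
      rw [hr1, hr2]
      field_simp
      ring
    have hE : E = A * (r1 * r2) := by
      have h4 : (4 : L) ≠ 0 := by
        have : (4 : L) = 2 * 2 := by norm_num
        rw [this]
        exact mul_ne_zero h2 h2
      have e1 : r1 * r2 = (B ^ 2 - δ ^ 2) / (4 * A ^ 2) := by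
        rw [hr1, hr2, div_mul_div_comm]
        congr 1 <;> ring
      rw [e1, hδ]
      field_simp
      ring
    have hfac : ∀ l ∈ kset D, E + l * B + l ^ 2 * A = A * ((l - r1) * (l - r2)) := by
      intro l _
      rw [hE, hB]
      ring
    have hr12 : (r1 - r2) ^ D.q = r1 ^ D.q - r2 ^ D.q := by
      rw [sub_eq_add_neg, D.add, (q_odd D).neg_pow, ← sub_eq_add_neg]
    rw [Finset.prod_congr rfl hfac, Finset.prod_mul_distrib, Finset.prod_mul_distrib,
      Finset.prod_const, card_kset, prod_kset', prod_kset', ← hδ, hpow, hd, hB, hE]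
    have e1 : (-A * (r1 + r2)) ^ (D.q + 1) = (A * (r1 + r2)) ^ (D.q + 1) := by
      have : -A * (r1 + r2) = -(A * (r1 + r2)) := by ring
      rw [this, Even.neg_pow]
      exact ⟨k + 1, by omega⟩
    rw [e1, mul_pow, mul_pow, pow_succ (r1 - r2), pow_succ (r1 + r2), hr12, D.add, mul_pow,
      mul_pow r1, pow_succ]
    ring

theorem pr1 : S_PR1 := by
  intro L _ _ D A B E
  have : Infinite L := IsAlgClosed.instInfinite
  refine Polynomial.funext fun x => ?_
  have h := elem D (A.eval x) (B.eval x) (E.eval x)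
  simp only [eval_mul, eval_prod, eval_add, eval_sub, eval_pow, eval_C, eval_ofNat]
  exact h

end Pool.Agent.TH75.J3617
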