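import Pool.Agent.TH477.PA.Defs

set_option autoImplicit false

namespace Pool.Agent.TH75.J649

open Finset Pool.Agent.TH477.PA

theorem sum_sym2 {V : Type} [Fintype V] [DecidableEq V] (f : Sym2 V → ℝ)
    (hf : ∀ x, f s(x, x) = 0) :
    ∑ x : V, ∑ y : V, f s(x, y) = 2 * ∑ e : Sym2 V, f e := by
  classical
  have h1 : ∑ x : V, ∑ y : V, f s(x, y) = ∑ p : V × V, f s(p.1, p.2) := by
    rw [Fintype.sum_prod_type]
  rw [h1, ← Finset.sum_fiberwise (s := univ) (g := fun p : V × V => s(p.1, p.2)), Finset.mul_sum]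
  refine Finset.sum_congr rfl fun e _ => ?_
  have h3 : ∑ p ∈ univ.filter (fun p : V × V => s(p.1, p.2) = e), f s(p.1, p.2) =
      ∑ p ∈ univ.filter (fun p : V × V => s(p.1, p.2) = e), f e :=
    Finset.sum_congr rfl fun p hp => by rw [(Finset.mem_filter.mp hp).2]
  rw [h3, Finset.sum_const, nsmul_eq_mul]
  induction e with
  | _ a b =>
    by_cases hab : a = b
    · subst hab
      rw [hf, mul_zero, mul_zero]
    · congr 1
      have : univ.filter (fun p : V × V => s(p.1, p.2) = s(a, b)) = {(a, b), (b, a)} := by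
        ext ⟨x, y⟩
        simp only [Finset.mem_filter, Finset.mem_univ, true_and, Sym2.eq_iff,
          Finset.mem_insert, Finset.mem_singleton, Prod.mk.injEq]
      rw [this, Finset.card_pair (by simp [hab])]
      norm_num

theorem sum_ind_card {α : Type} [Fintype α] [DecidableEq α] (S : Finset α) :
    ∑ a : α, ind (a ∈ S) = (S.card : ℝ) := by
  classical
  rw [← card_filter_ind]
  congr 2
  ext a; simp

theorem local_bound {r : ℕ} (hr : 2 ≤ r) (P : Finset (Fin r)) (a : Fin r) (J : Prop) (s : ℝ)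
    (hJ : J → a ∈ P ∧ 2 ≤ P.card) :
    ∑ col : Fin r, Real.exp (-(s * ind (col ∉ P) + ind (J ∧ col = a))) ≤
      Real.exp (r * Real.exp (-s) + Real.log (P.card : ℝ) - ind J / (2 * r)) := by
  classical
  have hes := Real.exp_pos (-s)
  have hr0 : (0 : ℝ) < r := by
    have : (2 : ℝ) ≤ r := by exact_mod_cast hr
    linarith
  set q : ℝ := r * Real.exp (-s) with hq
  have hq0 : 0 < q := by positivity
  have hexpq : 1 + q ≤ Real.exp q := by have := Real.add_one_le_exp q; linarith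
  by_cases hJJ : J
  · obtain ⟨haP, hP2⟩ := hJ hJJ
    have hP2' : (2 : ℝ) ≤ (P.card : ℝ) := by exact_mod_cast hP2
    have hPr : (P.card : ℝ) ≤ r := by
      have := Finset.card_le_univ P
      rw [Fintype.card_fin] at this
      exact_mod_cast this
    have h1 : ∑ col : Fin r, Real.exp (-(s * ind (col ∉ P) + ind (J ∧ col = a))) ≤
        ∑ col : Fin r, ((ind (col ∈ P) - 1 / 2 * ind (col = a)) + Real.exp (-s)) := by
      refine Finset.sum_le_sum fun col _ => ?_
      by_cases hcol : col ∈ P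
      · rw [ind_neg (not_not.mpr hcol), ind_pos hcol, mul_zero, zero_add]
        by_cases hca : col = a
        · rw [ind_pos ⟨hJJ, hca⟩, ind_pos hca]
          have h2 : Real.exp (-1) ≤ 1 / 2 := by
            rw [Real.exp_neg]
            have h3 : (2 : ℝ) ≤ Real.exp 1 := by
              have := Real.add_one_le_exp (1 : ℝ); linarith
            rw [one_div]
            exact inv_anti₀ (by norm_num) h3
          linarith
        · rw [ind_neg (fun h => hca h.2), ind_neg hca]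
          simp only [neg_zero, Real.exp_zero, mul_zero, sub_zero]
          linarith
      · have hca : col ≠ a := fun h => hcol (h ▸ haP)
        rw [ind_pos hcol, ind_neg hcol, ind_neg (fun h => hca h.2), ind_neg hca]
        simp
    refine h1.trans ?_
    rw [Finset.sum_add_distrib, Finset.sum_sub_distrib, sum_ind_card, ← Finset.mul_sum]
    have h4 : ∑ i : Fin r, ind (i = a) = 1 := by
      rw [Finset.sum_eq_single a]
      · exact ind_pos rfl
      · intro b _ hb; exact ind_neg hb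
      · intro h; exact absurd (Finset.mem_univ a) h
    rw [h4, Finset.sum_const, Finset.card_univ, Fintype.card_fin, nsmul_eq_mul, ← hq,
      ind_pos hJJ]
    have h5 : Real.exp (q + Real.log (P.card : ℝ) - 1 / (2 * r)) =
        Real.exp q * (P.card : ℝ) * Real.exp (-(1 / (2 * r))) := by
      rw [sub_eq_add_neg, Real.exp_add, Real.exp_add, Real.exp_log (by linarith)]
    rw [h5]
    have h6 : 1 - 1 / (2 * (r : ℝ)) ≤ Real.exp (-(1 / (2 * r))) := by
      have := Real.add_one_le_exp (-(1 / (2 * (r : ℝ)))); linarith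
    have h7 : (P.card : ℝ) - 1 / 2 ≤ (P.card : ℝ) * Real.exp (-(1 / (2 * r))) := by
      have h8 : (P.card : ℝ) * (1 / (2 * r)) ≤ 1 / 2 := by
        rw [mul_one_div, div_le_div_iff₀ (by positivity) (by norm_num)]
        linarith
      calc (P.card : ℝ) - 1 / 2 ≤ (P.card : ℝ) * (1 - 1 / (2 * (r : ℝ))) := by
            rw [mul_sub, mul_one]; linarith
        _ ≤ _ := mul_le_mul_of_nonneg_left h6 (by linarith)
    calc (P.card : ℝ) - 1 / 2 * 1 + q ≤ (1 + q) * ((P.card : ℝ) - 1 / 2) := by nlinarith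
      _ ≤ Real.exp q * ((P.card : ℝ) * Real.exp (-(1 / (2 * r)))) := by
          apply mul_le_mul hexpq h7 (by linarith) (Real.exp_pos _).le
      _ = _ := by ring
  · rw [ind_neg hJJ]
    have h1 : ∑ col : Fin r, Real.exp (-(s * ind (col ∉ P) + ind (J ∧ col = a))) ≤
        ∑ col : Fin r, (ind (col ∈ P) + Real.exp (-s)) := by
      refine Finset.sum_le_sum fun col _ => ?_
      rw [ind_neg (fun h : J ∧ col = a => hJJ h.1)]
      by_cases hcol : col ∈ P
      · rw [ind_neg (not_not.mpr hcol), ind_pos hcol]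
        simp only [mul_zero, add_zero, neg_zero, Real.exp_zero]
        linarith
      · rw [ind_pos hcol, ind_neg hcol]
        simp
    refine h1.trans ?_
    rw [Finset.sum_add_distrib, sum_ind_card, Finset.sum_const, Finset.card_univ, Fintype.card_fin,
      nsmul_eq_mul, ← hq]
    rcases Nat.eq_zero_or_pos P.card with h5 | h5
    · rw [h5]; simp only [Nat.cast_zero, Real.log_zero, add_zero, zero_div, sub_zero, zero_add]
      linarith
    · have h6 : (1 : ℝ) ≤ (P.card : ℝ) := by exact_mod_cast h5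
      rw [zero_div, sub_zero, Real.exp_add, Real.exp_log (by linarith)]
      nlinarith

theorem fixed_count {n r : ℕ} (hr : 2 ≤ r) (G : SimpleGraph (Fin n))
    (P : Fin n → Fin n → Finset (Fin r)) (hsymm : ∀ x y, P x y = P y x)
    (hP : ∀ x y, ¬ G.Adj x y → P x y = ∅) (X Y : Finset (Fin n)) (R : Finset (Fin r)) (a : Fin r)
    (haR : a ∈ R) (hR : 2 ≤ R.card) (s : ℝ) (hs : 0 ≤ s) (η β : ℝ)
    (hXY : ∑ x ∈ X, ∑ y ∈ Y, ind (P x y ≠ R) ≤ η * (n : ℝ) ^ 2) :
    ∑ ψ : Sym2 (Fin n) → Fin r,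
      ind (∑ x, ∑ y, ind (G.Adj x y ∧ ψ s(x, y) ∉ P x y) ≤ η * (n : ℝ) ^ 2 ∧
        ∑ x ∈ X, ∑ y ∈ Y, ind (G.Adj x y ∧ ψ s(x, y) = a) ≤ β * X.card * Y.card) ≤
      (r : ℝ) ^ (Fintype.card (Sym2 (Fin n)) - Nat.card G.edgeSet) *
        Real.exp (1 / 2 * ∑ x, ∑ y, Real.log ((P x y).card : ℝ) + s * (η * (n : ℝ) ^ 2 / 2) +
          β * X.card * Y.card + r * Real.exp (-s) * ((n : ℝ) ^ 2 / 2) -
          ((X.card : ℝ) * Y.card - η * (n : ℝ) ^ 2) / (4 * r)) := by
  classical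
  have hr0 : (0 : ℝ) < r := by
    have : (2 : ℝ) ≤ r := by exact_mod_cast hr
    linarith
  let Pe : Sym2 (Fin n) → Finset (Fin r) := Sym2.lift ⟨P, hsymm⟩
  have hPe : ∀ x y, Pe s(x, y) = P x y := fun x y => rfl
  let J : Sym2 (Fin n) → Prop := fun e => (∃ x ∈ X, ∃ y ∈ Y, e = s(x, y)) ∧ Pe e = R
  have hRne : R ≠ ∅ := fun h => by rw [h] at haR; exact absurd haR (Finset.notMem_empty a)
  have hPn : ∀ e, e ∉ G.edgeSet → Pe e = ∅ := by
    intro e he
    induction e with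
    | _ x y => exact hP x y he
  have hJn : ∀ e, e ∉ G.edgeSet → ¬ J e := by
    intro e he h
    exact hRne (h.2 ▸ hPn e he)
  -- the weights
  let w : Sym2 (Fin n) → Fin r → ℝ := fun e col =>
    Real.exp (-(s * ind (e ∈ G.edgeSet ∧ col ∉ Pe e) + ind (J e ∧ col = a)))
  -- lower bound for the weight of a bad colouring
  have hbad : ∀ ψ : Sym2 (Fin n) → Fin r,
      ind (∑ x, ∑ y, ind (G.Adj x y ∧ ψ s(x, y) ∉ P x y) ≤ η * (n : ℝ) ^ 2 ∧
        ∑ x ∈ X, ∑ y ∈ Y, ind (G.Adj x y ∧ ψ s(x, y) = a) ≤ β * X.card * Y.card) ≤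
      Real.exp (s * (η * (n : ℝ) ^ 2 / 2) + β * X.card * Y.card) * ∏ e, w e (ψ e) := by
    intro ψ
    by_cases h : (∑ x, ∑ y, ind (G.Adj x y ∧ ψ s(x, y) ∉ P x y) ≤ η * (n : ℝ) ^ 2 ∧
        ∑ x ∈ X, ∑ y ∈ Y, ind (G.Adj x y ∧ ψ s(x, y) = a) ≤ β * X.card * Y.card)
    · rw [ind_pos h]
      obtain ⟨h1, h2⟩ := h
      simp only [w]
      rw [← Real.exp_sum, ← Real.exp_add, ← Real.exp_zero]
      apply Real.exp_le_exp.mpr
      rw [Finset.sum_neg_distrib, Finset.sum_add_distrib, ← Finset.mul_sum]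
      have h3 : ∑ e : Sym2 (Fin n), ind (e ∈ G.edgeSet ∧ ψ e ∉ Pe e) ≤ η * (n : ℝ) ^ 2 / 2 := by
        have h4 := sum_sym2 (fun e => ind (e ∈ G.edgeSet ∧ ψ e ∉ Pe e)) (by
          intro x
          apply ind_neg
          rintro ⟨h, _⟩
          exact G.loopless.irrefl x h)
        have h5 : ∑ x, ∑ y, ind (G.Adj x y ∧ ψ s(x, y) ∉ P x y) =
            2 * ∑ e : Sym2 (Fin n), ind (e ∈ G.edgeSet ∧ ψ e ∉ Pe e) := by
          rw [← h4]
          rfl
        linarith
      have h6 : ∑ e : Sym2 (Fin n), ind (J e ∧ ψ e = a) ≤ β * X.card * Y.card := by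
        refine le_trans ?_ h2
        have h7 : ∀ e : Sym2 (Fin n), ind (J e ∧ ψ e = a) ≤
            ∑ x ∈ X, ∑ y ∈ Y, ind (e = s(x, y) ∧ (G.Adj x y ∧ ψ s(x, y) = a)) := by
          intro e
          by_cases hJe : J e ∧ ψ e = a
          · rw [ind_pos hJe]
            obtain ⟨⟨⟨x, hx, y, hy, hxy⟩, hRe⟩, hea⟩ := hJe
            have hadj : G.Adj x y := by
              by_contra hna
              have := hJn e (by rw [hxy]; exact hna)
              exact this ⟨⟨x, hx, y, hy, hxy⟩, hRe⟩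
            have h8 : (1 : ℝ) = ind (e = s(x, y) ∧ (G.Adj x y ∧ ψ s(x, y) = a)) := by
              rw [ind_pos ⟨hxy, hadj, by rw [← hxy]; exact hea⟩]
            rw [h8]
            refine le_trans ?_ (Finset.single_le_sum (f := fun x => ∑ y ∈ Y,
              ind (e = s(x, y) ∧ (G.Adj x y ∧ ψ s(x, y) = a)))
              (fun i _ => Finset.sum_nonneg fun j _ => ind_nonneg _) hx)
            exact Finset.single_le_sum (f := fun y =>
              ind (e = s(x, y) ∧ (G.Adj x y ∧ ψ s(x, y) = a)))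
              (fun i _ => ind_nonneg _) hy
          · rw [ind_neg hJe]
            exact Finset.sum_nonneg fun i _ => Finset.sum_nonneg fun j _ => ind_nonneg _
        refine (Finset.sum_le_sum fun e _ => h7 e).trans ?_
        rw [Finset.sum_comm]
        refine Finset.sum_le_sum fun x _ => ?_
        rw [Finset.sum_comm]
        refine Finset.sum_le_sum fun y _ => ?_
        rw [Finset.sum_eq_single s(x, y)]
        · exact ind_mono fun h => h.2
        · intro b _ hb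
          exact ind_neg fun h => hb h.1
        · intro h; exact absurd (Finset.mem_univ _) h
      nlinarith
    · rw [ind_neg h]
      apply mul_nonneg (Real.exp_pos _).le
      exact Finset.prod_nonneg fun e _ => (Real.exp_pos _).le
  refine (Finset.sum_le_sum fun ψ _ => hbad ψ).trans ?_
  rw [← Finset.mul_sum]
  have hprod : ∑ ψ : Sym2 (Fin n) → Fin r, ∏ e, w e (ψ e) = ∏ e : Sym2 (Fin n), ∑ col, w e col := by
    rw [Finset.prod_univ_sum, Fintype.piFinset_univ]
  rw [hprod]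
  -- bound each factor
  let h : Sym2 (Fin n) → ℝ := fun e =>
    if e ∈ G.edgeSet then r * Real.exp (-s) + Real.log ((Pe e).card : ℝ) - ind (J e) / (2 * r)
    else Real.log r
  have hfac : ∀ e, ∑ col, w e col ≤ Real.exp (h e) := by
    intro e
    by_cases he : e ∈ G.edgeSet
    · simp only [h, if_pos he, w]
      have h9 := local_bound hr (Pe e) a (J e) s (fun hJe => by rw [hJe.2]; exact ⟨haR, hR⟩)
      refine le_trans (le_of_eq ?_) h9
      refine Finset.sum_congr rfl fun col _ => ?_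
      rw [ind_congr (show (e ∈ G.edgeSet ∧ col ∉ Pe e) ↔ col ∉ Pe e from ⟨fun h => h.2,
        fun h => ⟨he, h⟩⟩)]
    · simp only [h, if_neg he, w]
      rw [Real.exp_log hr0]
      have : ∀ col : Fin r, Real.exp (-(s * ind (e ∈ G.edgeSet ∧ col ∉ Pe e) +
          ind (J e ∧ col = a))) = 1 := by
        intro col
        rw [ind_neg (fun h => he h.1), ind_neg (fun h => hJn e he h.1)]
        simp
      rw [Finset.sum_congr rfl fun col _ => this col]
      simp
  have hprod2 : ∏ e : Sym2 (Fin n), ∑ col, w e col ≤ Real.exp (∑ e, h e) := by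
    rw [Real.exp_sum]
    apply Finset.prod_le_prod
    · intro e _
      exact Finset.sum_nonneg fun col _ => (Real.exp_pos _).le
    · intro e _; exact hfac e
  -- evaluate the sum of the h e
  have hsum : ∑ e, h e ≤ Real.log r * ((Fintype.card (Sym2 (Fin n)) - Nat.card G.edgeSet : ℕ) : ℝ) +
      (1 / 2 * ∑ x, ∑ y, Real.log ((P x y).card : ℝ) + r * Real.exp (-s) * ((n : ℝ) ^ 2 / 2) -
          ((X.card : ℝ) * Y.card - η * (n : ℝ) ^ 2) / (4 * r)) := by
    have e1 : ∀ e, h e = ind (e ∉ G.edgeSet) * Real.log r + (ind (e ∈ G.edgeSet) *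
        (r * Real.exp (-s)) + Real.log ((Pe e).card : ℝ) - ind (J e) / (2 * r)) := by
      intro e
      by_cases he : e ∈ G.edgeSet
      · simp only [h, if_pos he]
        rw [ind_pos he, ind_neg (not_not.mpr he)]
        ring
      · simp only [h, if_neg he]
        rw [ind_neg he, ind_pos he, ind_neg (hJn e he), hPn e he]
        simp
    rw [Finset.sum_congr rfl fun e _ => e1 e, Finset.sum_add_distrib, ← Finset.sum_mul,
      Finset.sum_sub_distrib, Finset.sum_add_distrib, ← Finset.sum_mul, ← Finset.sum_div]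
    have e2 : ∑ e : Sym2 (Fin n), ind (e ∉ G.edgeSet) =
        ((Fintype.card (Sym2 (Fin n)) - Nat.card G.edgeSet : ℕ) : ℝ) := by
      rw [← natCard_ind]
      congr 1
      have : Nat.card {x : Sym2 (Fin n) // x ∉ G.edgeSet} =
          Fintype.card (Sym2 (Fin n)) - Nat.card G.edgeSet := by
        rw [Nat.card_eq_fintype_card, Nat.card_eq_fintype_card]
        exact Fintype.card_subtype_compl (fun x => x ∈ G.edgeSet)
      exact this
    have e3 : ∑ e : Sym2 (Fin n), ind (e ∈ G.edgeSet) ≤ (n : ℝ) ^ 2 / 2 := by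
      have h4 := sum_sym2 (fun e => ind (e ∈ G.edgeSet)) (by
          intro x
          apply ind_neg
          intro h
          exact G.loopless.irrefl x h)
      have h5 : ∑ x : Fin n, ∑ y : Fin n, ind (s(x, y) ∈ G.edgeSet) ≤
          ∑ x : Fin n, ∑ y : Fin n, (1 : ℝ) :=
        Finset.sum_le_sum fun x _ => Finset.sum_le_sum fun y _ => ind_le_one _
      have h6 : ∑ x : Fin n, ∑ y : Fin n, (1 : ℝ) = (n : ℝ) ^ 2 := by
        simp; ring
      linarith
    have e4 : ∑ e : Sym2 (Fin n), Real.log ((Pe e).card : ℝ) =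
        1 / 2 * ∑ x, ∑ y, Real.log ((P x y).card : ℝ) := by
      have h4 := sum_sym2 (fun e => Real.log ((Pe e).card : ℝ)) (by
          intro x
          rw [hPn s(x, x) (fun h => G.loopless.irrefl x h)]
          simp)
      have h5 : ∑ x : Fin n, ∑ y : Fin n, Real.log ((Pe s(x, y)).card : ℝ) =
          ∑ x, ∑ y, Real.log ((P x y).card : ℝ) := rfl
      linarith
    have e5 : ((X.card : ℝ) * Y.card - η * (n : ℝ) ^ 2) / 2 ≤ ∑ e : Sym2 (Fin n), ind (J e) := by
      have h4 := sum_sym2 (fun e => ind (J e)) (by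
          intro x
          apply ind_neg
          exact hJn s(x, x) (fun h => G.loopless.irrefl x h))
      have h5 : ∑ x ∈ X, ∑ y ∈ Y, ind (J s(x, y)) ≤ ∑ x : Fin n, ∑ y : Fin n, ind (J s(x, y)) := by
        refine le_trans (Finset.sum_le_sum fun x _ => Finset.sum_le_sum_of_subset_of_nonneg
          (Finset.subset_univ Y) fun y _ _ => ind_nonneg _) ?_
        exact Finset.sum_le_sum_of_subset_of_nonneg
          (Finset.subset_univ X) fun y _ _ => Finset.sum_nonneg fun i _ => ind_nonneg _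
      have h6 : ∑ x ∈ X, ∑ y ∈ Y, (1 - ind (P x y ≠ R)) ≤ ∑ x ∈ X, ∑ y ∈ Y, ind (J s(x, y)) := by
        refine Finset.sum_le_sum fun x hx => Finset.sum_le_sum fun y hy => ?_
        rw [← ind_not]
        apply ind_mono
        intro h
        exact ⟨⟨x, hx, y, hy, rfl⟩, not_not.mp h⟩
      have h7 : ∑ x ∈ X, ∑ y ∈ Y, (1 - ind (P x y ≠ R)) =
          (X.card : ℝ) * Y.card - ∑ x ∈ X, ∑ y ∈ Y, ind (P x y ≠ R) := by
        simp only [Finset.sum_sub_distrib, Finset.sum_const, nsmul_eq_mul, mul_one]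
      linarith
    rw [e2, e4]
    have e6 : (∑ e : Sym2 (Fin n), ind (e ∈ G.edgeSet)) * (r * Real.exp (-s)) ≤
        r * Real.exp (-s) * ((n : ℝ) ^ 2 / 2) := by
      have : 0 ≤ r * Real.exp (-s) := by positivity
      nlinarith
    have e7 : ((X.card : ℝ) * Y.card - η * (n : ℝ) ^ 2) / (4 * r) ≤
        (∑ e : Sym2 (Fin n), ind (J e)) / (2 * r) := by
      rw [div_le_div_iff₀ (by positivity) (by positivity)]
      nlinarith
    linarith
  have hfinal : ∏ e : Sym2 (Fin n), ∑ col, w e col ≤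
      (r : ℝ) ^ (Fintype.card (Sym2 (Fin n)) - Nat.card G.edgeSet) *
      Real.exp (1 / 2 * ∑ x, ∑ y, Real.log ((P x y).card : ℝ) +
        r * Real.exp (-s) * ((n : ℝ) ^ 2 / 2) -
          ((X.card : ℝ) * Y.card - η * (n : ℝ) ^ 2) / (4 * r)) := by
    refine hprod2.trans ?_
    refine (Real.exp_le_exp.mpr hsum).trans (le_of_eq ?_)
    rw [Real.exp_add]
    congr 1
    rw [mul_comm, Real.exp_nat_mul, Real.exp_log hr0]
  refine (mul_le_mul_of_nonneg_left hfinal (Real.exp_pos _).le).trans (le_of_eq ?_)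
  rw [mul_comm, mul_assoc, ← Real.exp_add]
  congr 2
  ring

theorem numeric {r : ℕ} (hr : 2 ≤ r) {δ s η : ℝ} (hδ : 0 < δ) (hs : s = 16 * (r : ℝ) ^ 2 / δ ^ 2)
    (hη : η = δ ^ 2 / (32 * r * (s + 1))) (n : ℕ) (a b : ℝ) (ha : δ * n ≤ a) (hb : δ * n ≤ b) :
    s * (η * (n : ℝ) ^ 2 / 2) + 1 / (16 * r) * a * b + r * Real.exp (-s) * ((n : ℝ) ^ 2 / 2) -
      (a * b - η * (n : ℝ) ^ 2) / (4 * r) ≤ -(9 / 64 * (δ ^ 2 / r)) * (n : ℝ) ^ 2 := by
  have hr2 : (2 : ℝ) ≤ r := by exact_mod_cast hr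
  have hr0 : (0 : ℝ) < r := by linarith
  have hs0 : 0 < s := by rw [hs]; positivity
  have hη0 : 0 < η := by rw [hη]; positivity
  have hab : δ ^ 2 * (n : ℝ) ^ 2 ≤ a * b := by
    have h0 : 0 ≤ δ * (n : ℝ) := by positivity
    calc δ ^ 2 * (n : ℝ) ^ 2 = (δ * n) * (δ * n) := by ring
      _ ≤ a * b := mul_le_mul ha hb h0 (h0.trans ha)
  have h1 : η * (s + 1) = δ ^ 2 / r / 32 := by
    rw [hη]; field_simp
  have h2 : Real.exp (-s) ≤ δ ^ 2 / (16 * (r : ℝ) ^ 2) := by
    have h3 : s ≤ Real.exp s := by have := Real.add_one_le_exp s; linarith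
    have h4 : Real.exp (-s) ≤ 1 / s := by
      rw [Real.exp_neg, one_div]
      exact inv_anti₀ hs0 h3
    refine h4.trans (le_of_eq ?_)
    rw [hs]; field_simp
  have h5 : r * Real.exp (-s) ≤ δ ^ 2 / r / 16 := by
    calc r * Real.exp (-s) ≤ r * (δ ^ 2 / (16 * (r : ℝ) ^ 2)) :=
          mul_le_mul_of_nonneg_left h2 hr0.le
      _ = δ ^ 2 / r / 16 := by field_simp
  have h6 : 1 / (4 * (r : ℝ)) ≤ 1 / 8 := by
    apply one_div_le_one_div_of_le (by norm_num) (by linarith)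
  have h7 : 1 / (16 * r) * a * b - a * b / (4 * r) = -(3 / 16 * (a * b / r)) := by
    field_simp; ring
  have h8 : δ ^ 2 / r * (n : ℝ) ^ 2 ≤ a * b / r := by
    rw [div_mul_eq_mul_div]
    exact div_le_div_of_nonneg_right hab hr0.le
  have h9 : (a * b - η * (n : ℝ) ^ 2) / (4 * r) = a * b / (4 * r) - η * (n : ℝ) ^ 2 * (1 / (4 * r)) := by
    field_simp
  have hn2 : 0 ≤ (n : ℝ) ^ 2 := by positivity
  have h10 : η * (n : ℝ) ^ 2 * (1 / (4 * r)) ≤ η * (n : ℝ) ^ 2 * (1 / 8) :=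
    mul_le_mul_of_nonneg_left h6 (by positivity)
  have h11 : r * Real.exp (-s) * ((n : ℝ) ^ 2 / 2) ≤ δ ^ 2 / r / 16 * ((n : ℝ) ^ 2 / 2) :=
    mul_le_mul_of_nonneg_right h5 (by positivity)
  have h12 : s * (η * (n : ℝ) ^ 2 / 2) + η * (n : ℝ) ^ 2 * (1 / 8) ≤
      (η * (s + 1)) * (n : ℝ) ^ 2 / 2 := by
    have : 0 ≤ η * (n : ℝ) ^ 2 := by positivity
    nlinarith
  rw [h1] at h12
  rw [h9]
  nlinarith

theorem J10_pr_count (r : ℕ) (hr : 2 ≤ r) : ∃ β : ℝ, 0 < β ∧ β ≤ 1 ∧ ∀ δ : ℝ, 0 < δ →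
    ∃ η : ℝ, 0 < η ∧ ∃ c : ℝ, 0 < c ∧ ∃ n0 : ℕ, ∀ n, n0 ≤ n → ∀ (G : SimpleGraph (Fin n))
      (P : Fin n → Fin n → Finset (Fin r)) (A : Finset (Fin r)) (cls : Fin n → ℕ),
      (∀ x y, P x y = P y x) → (∀ x y, ¬ G.Adj x y → P x y = ∅) → (2 ≤ A.card ∨ A = ∅) →
      ∑ x, ∑ y, ind (P x y ≠ if cls x = cls y then A else univ) ≤ η * (n : ℝ) ^ 2 →
      ∑ ψ : Sym2 (Fin n) → Fin r,
        ind (∑ x, ∑ y, ind (G.Adj x y ∧ ψ s(x, y) ∉ P x y) ≤ η * (n : ℝ) ^ 2 ∧
          ¬ PR G A cls Set.univ β δ ψ) ≤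
        (r : ℝ) ^ (Fintype.card (Sym2 (Fin n)) - Nat.card G.edgeSet) *
          Real.exp (1 / 2 * ∑ x, ∑ y, Real.log ((P x y).card : ℝ) - c * (n : ℝ) ^ 2) := by
  classical
  have hr2 : (2 : ℝ) ≤ r := by exact_mod_cast hr
  have hr0 : (0 : ℝ) < r := by linarith
  refine ⟨1 / (16 * r), by positivity, ?_, ?_⟩
  · rw [div_le_one (by positivity)]; linarith
  intro δ hδ
  obtain ⟨s, hs⟩ : ∃ s : ℝ, s = 16 * (r : ℝ) ^ 2 / δ ^ 2 := ⟨_, rfl⟩
  have hs0 : 0 < s := by rw [hs]; positivity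
  obtain ⟨η, hη⟩ : ∃ η : ℝ, η = δ ^ 2 / (32 * r * (s + 1)) := ⟨_, rfl⟩
  have hη0 : 0 < η := by rw [hη]; positivity
  refine ⟨η, hη0, δ ^ 2 / r / 8, by positivity, ⌈64 * r * (2 + r) / δ ^ 2⌉₊ + 1, ?_⟩
  intro n hn G P A cls hsymm hP hA hcnt
  have hn1 : (1 : ℝ) ≤ n := by
    have : 1 ≤ n := by omega
    exact_mod_cast this
  have hn2 : 64 * r * (2 + r) / δ ^ 2 ≤ (n : ℝ) := by
    have h1 := Nat.le_ceil (64 * (r : ℝ) * (2 + r) / δ ^ 2)
    have h2 : (⌈64 * (r : ℝ) * (2 + r) / δ ^ 2⌉₊ : ℝ) ≤ n := by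
      have : ⌈64 * (r : ℝ) * (2 + r) / δ ^ 2⌉₊ ≤ n := by omega
      exact_mod_cast this
    linarith
  let Cd : Finset (Fin n) → Finset (Fin n) → Fin r → Prop := fun X Y a =>
    ∃ i j : ℕ, (∀ x ∈ X, cls x = i) ∧ (∀ y ∈ Y, cls y = j) ∧ δ * n ≤ (X.card : ℝ) ∧
      δ * n ≤ (Y.card : ℝ) ∧ (i ≠ j ∨ a ∈ A)
  let Q : (Sym2 (Fin n) → Fin r) → Finset (Fin n) → Finset (Fin n) → Fin r → Prop :=
    fun ψ X Y a => ∑ x, ∑ y, ind (G.Adj x y ∧ ψ s(x, y) ∉ P x y) ≤ η * (n : ℝ) ^ 2 ∧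
        ∑ x ∈ X, ∑ y ∈ Y, ind (G.Adj x y ∧ ψ s(x, y) = a) ≤ 1 / (16 * r) * X.card * Y.card
  have h1 : ∀ ψ : Sym2 (Fin n) → Fin r,
      ind (∑ x, ∑ y, ind (G.Adj x y ∧ ψ s(x, y) ∉ P x y) ≤ η * (n : ℝ) ^ 2 ∧
          ¬ PR G A cls Set.univ (1 / (16 * r)) δ ψ) ≤
      ∑ X : Finset (Fin n), ∑ Y : Finset (Fin n), ∑ a : Fin r, ind (Cd X Y a ∧ Q ψ X Y a) := by
    intro ψ
    by_cases h : (∑ x, ∑ y, ind (G.Adj x y ∧ ψ s(x, y) ∉ P x y) ≤ η * (n : ℝ) ^ 2 ∧
          ¬ PR G A cls Set.univ (1 / (16 * r)) δ ψ)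
    · rw [ind_pos h]
      obtain ⟨he, hPR⟩ := h
      unfold PR at hPR
      push Not at hPR
      obtain ⟨i, j, X, Y, hX, hY, hXc, hYc, a, ha, hlt⟩ := hPR
      have hm : Cd X Y a ∧ Q ψ X Y a :=
        ⟨⟨i, j, fun x hx => (hX x hx).2, fun y hy => (hY y hy).2, hXc, hYc, ha⟩, he, hlt.le⟩
      rw [← ind_pos hm]
      refine le_trans ?_ (Finset.single_le_sum (f := fun X => ∑ Y : Finset (Fin n),
        ∑ a : Fin r, ind (Cd X Y a ∧ Q ψ X Y a)) (fun _ _ => Finset.sum_nonneg fun _ _ =>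
        Finset.sum_nonneg fun _ _ => ind_nonneg _) (Finset.mem_univ X))
      refine le_trans ?_ (Finset.single_le_sum (f := fun Y =>
        ∑ a : Fin r, ind (Cd X Y a ∧ Q ψ X Y a)) (fun _ _ =>
        Finset.sum_nonneg fun _ _ => ind_nonneg _) (Finset.mem_univ Y))
      exact Finset.single_le_sum (f := fun a => ind (Cd X Y a ∧ Q ψ X Y a))
        (fun _ _ => ind_nonneg _) (Finset.mem_univ a)
    · rw [ind_neg h]
      exact Finset.sum_nonneg fun _ _ => Finset.sum_nonneg fun _ _ =>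
        Finset.sum_nonneg fun _ _ => ind_nonneg _
  set B : ℝ := (r : ℝ) ^ (Fintype.card (Sym2 (Fin n)) - Nat.card G.edgeSet) *
        Real.exp (1 / 2 * ∑ x, ∑ y, Real.log ((P x y).card : ℝ) +
          -(9 / 64 * (δ ^ 2 / r)) * (n : ℝ) ^ 2) with hB
  have hB0 : 0 ≤ B := by positivity
  have h2 : ∀ (X Y : Finset (Fin n)) (a : Fin r),
      ∑ ψ : Sym2 (Fin n) → Fin r, ind (Cd X Y a ∧ Q ψ X Y a) ≤ B := by
    intro X Y a
    by_cases hC : Cd X Y a
    · have h3 : ∀ ψ : Sym2 (Fin n) → Fin r, ind (Cd X Y a ∧ Q ψ X Y a) = ind (Q ψ X Y a) :=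
        fun ψ => ind_congr ⟨fun h => h.2, fun h => ⟨hC, h⟩⟩
      rw [Finset.sum_congr rfl fun ψ _ => h3 ψ]
      obtain ⟨i, j, hX, hY, hXc, hYc, ha⟩ := hC
      obtain ⟨R, haR, hR, hRP⟩ : ∃ R : Finset (Fin r), a ∈ R ∧ 2 ≤ R.card ∧
          ∀ x ∈ X, ∀ y ∈ Y, (if cls x = cls y then A else univ) = R := by
        by_cases hij : i = j
        · have haA : a ∈ A := by
            rcases ha with h | h
            · exact absurd hij h
            · exact h
          refine ⟨A, haA, ?_, ?_⟩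
          · rcases hA with h | h
            · exact h
            · rw [h] at haA; exact absurd haA (Finset.notMem_empty a)
          · intro x hx y hy
            rw [hX x hx, hY y hy, if_pos hij]
        · refine ⟨univ, Finset.mem_univ a, by rw [Finset.card_univ, Fintype.card_fin]; exact hr, ?_⟩
          intro x hx y hy
          rw [hX x hx, hY y hy, if_neg hij]
      have hXY : ∑ x ∈ X, ∑ y ∈ Y, ind (P x y ≠ R) ≤ η * (n : ℝ) ^ 2 := by
        refine le_trans ?_ hcnt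
        refine le_trans (Finset.sum_le_sum fun x hx => Finset.sum_le_sum fun y hy =>
          le_of_eq (ind_congr (show (P x y ≠ R) ↔ (P x y ≠ if cls x = cls y then A else univ) by
            rw [hRP x hx y hy]))) ?_
        refine le_trans (Finset.sum_le_sum fun x _ => Finset.sum_le_sum_of_subset_of_nonneg
          (Finset.subset_univ Y) fun y _ _ => ind_nonneg _) ?_
        exact Finset.sum_le_sum_of_subset_of_nonneg
          (Finset.subset_univ X) fun y _ _ => Finset.sum_nonneg fun i _ => ind_nonneg _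
      have h4 := fixed_count hr G P hsymm hP X Y R a haR hR s hs0.le η (1 / (16 * r)) hXY
      refine h4.trans ?_
      rw [hB]
      apply mul_le_mul_of_nonneg_left _ (by positivity)
      apply Real.exp_le_exp.mpr
      have h5 := numeric hr hδ hs hη n (X.card : ℝ) (Y.card : ℝ) hXc hYc
      linarith
    · have h3 : ∀ ψ : Sym2 (Fin n) → Fin r, ind (Cd X Y a ∧ Q ψ X Y a) = 0 :=
        fun ψ => ind_neg (fun h => hC h.1)
      rw [Finset.sum_congr rfl fun ψ _ => h3 ψ, Finset.sum_const_zero]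
      exact hB0
  refine (Finset.sum_le_sum fun ψ _ => h1 ψ).trans ?_
  have h6 : ∑ ψ : Sym2 (Fin n) → Fin r, ∑ X : Finset (Fin n), ∑ Y : Finset (Fin n), ∑ a : Fin r,
      ind (Cd X Y a ∧ Q ψ X Y a) = ∑ X : Finset (Fin n), ∑ Y : Finset (Fin n), ∑ a : Fin r,
      ∑ ψ : Sym2 (Fin n) → Fin r, ind (Cd X Y a ∧ Q ψ X Y a) := by
    rw [Finset.sum_comm]
    refine Finset.sum_congr rfl fun X _ => ?_
    rw [Finset.sum_comm]
    refine Finset.sum_congr rfl fun Y _ => ?_
    rw [Finset.sum_comm]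
  rw [h6]
  have h7 : ∑ X : Finset (Fin n), ∑ Y : Finset (Fin n), ∑ a : Fin r,
      ∑ ψ : Sym2 (Fin n) → Fin r, ind (Cd X Y a ∧ Q ψ X Y a) ≤
      ∑ X : Finset (Fin n), ∑ Y : Finset (Fin n), ∑ a : Fin r, B :=
    Finset.sum_le_sum fun X _ => Finset.sum_le_sum fun Y _ => Finset.sum_le_sum fun a _ => h2 X Y a
  refine h7.trans ?_
  simp only [Finset.sum_const, Finset.card_univ, Fintype.card_finset, Fintype.card_fin,
    nsmul_eq_mul]
  push_cast
  have h8 : (2 : ℝ) ^ n * (2 ^ n * (r * B)) ≤ Real.exp (2 * n + r) * B := by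
    have e1 : (2 : ℝ) ≤ Real.exp 1 := by have := Real.add_one_le_exp (1 : ℝ); linarith
    have e2 : (2 : ℝ) ^ n ≤ Real.exp n := by
      calc (2 : ℝ) ^ n ≤ (Real.exp 1) ^ n := pow_le_pow_left₀ (by norm_num) e1 n
        _ = Real.exp n := by rw [← Real.exp_nat_mul, mul_one]
    have e3 : (r : ℝ) ≤ Real.exp r := by have := Real.add_one_le_exp (r : ℝ); linarith
    have e4 : Real.exp (2 * n + r) = Real.exp n * (Real.exp n * Real.exp r) := by
      rw [← Real.exp_add, ← Real.exp_add]; congr 1; ring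
    rw [e4]
    have e5 : (2 : ℝ) ^ n * (2 ^ n * r) ≤ Real.exp n * (Real.exp n * Real.exp r) := by
      apply mul_le_mul e2 _ (by positivity) (Real.exp_pos _).le
      exact mul_le_mul e2 e3 hr0.le (Real.exp_pos _).le
    calc (2 : ℝ) ^ n * (2 ^ n * (r * B)) = (2 : ℝ) ^ n * (2 ^ n * r) * B := by ring
      _ ≤ _ := mul_le_mul_of_nonneg_right e5 hB0
  refine h8.trans ?_
  rw [hB, mul_left_comm, ← Real.exp_add]
  apply mul_le_mul_of_nonneg_left _ (by positivity)
  apply Real.exp_le_exp.mpr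
  have h9 : (2 + (r : ℝ)) ≤ 1 / 64 * (δ ^ 2 / r) * n := by
    rw [div_le_iff₀ (by positivity)] at hn2
    rw [mul_div_assoc', div_mul_eq_mul_div, le_div_iff₀ hr0]
    linarith
  have h10 : (2 + (r : ℝ)) * n ≤ 1 / 64 * (δ ^ 2 / r) * n * n :=
    mul_le_mul_of_nonneg_right h9 (by linarith)
  nlinarith

end Pool.Agent.TH75.J649
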