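import Mathlib

set_option autoImplicit false

namespace Pool.Agent.TH75.J876

open Polynomial

/-- an endomorphism all of whose powers have trace zero is nilpotent -/
theorem isNilpotent_of_trace {W : Type*} [AddCommGroup W] [Module ℝ W] [FiniteDimensional ℝ W]
    (z : Module.End ℝ W) (h : ∀ n : ℕ, LinearMap.trace ℝ W (z ^ (n + 1)) = 0) : IsNilpotent z := by
  have hp0 : minpoly ℝ z ≠ 0 := minpoly.ne_zero (Algebra.IsIntegral.isIntegral z)
  have hp1 : minpoly ℝ z * X ≠ 0 := mul_ne_zero hp0 X_ne_zero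
  obtain ⟨q, hq, hndvd⟩ := Polynomial.exists_eq_pow_rootMultiplicity_mul_and_not_dvd
    (minpoly ℝ z * X) hp1 0
  set N := Polynomial.rootMultiplicity 0 (minpoly ℝ z * X) with hN
  rw [C_0, sub_zero] at hq hndvd
  have hN1 : N ≠ 0 := by
    intro h0
    rw [h0, pow_zero, one_mul] at hq
    exact hndvd (hq ▸ dvd_mul_left X (minpoly ℝ z))
  have hcop : IsCoprime ((X : ℝ[X]) ^ N) q := by
    apply IsCoprime.pow_left
    exact (Polynomial.irreducible_X).coprime_iff_not_dvd.mpr hndvd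
  obtain ⟨u, v, huv⟩ := hcop
  have hann : aeval z ((X : ℝ[X]) ^ N * q) = 0 := by
    rw [← hq, map_mul, minpoly.aeval, zero_mul]
  -- trace of polynomials without constant term
  have htr : ∀ r : ℝ[X], LinearMap.trace ℝ W (aeval z (X * r)) = 0 := by
    intro r
    induction r using Polynomial.induction_on' with
    | add p q hp hq => rw [mul_add, map_add, map_add, hp, hq, add_zero]
    | monomial n a =>
      have : X * monomial n a = C a * X ^ (n + 1) := by
        rw [← C_mul_X_pow_eq_monomial, pow_succ]; ring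
      rw [this, map_mul, aeval_C, map_pow, aeval_X, ← Algebra.smul_def, map_smul, h n, smul_zero]
  obtain ⟨m, hm⟩ : ∃ m, N = m + 1 := ⟨N - 1, by omega⟩
  have he0 : aeval z (u * X ^ N) = 0 := by
    apply LinearMap.IsIdempotentElem.eq_zero_of_trace_eq_zero
    · show aeval z (u * X ^ N) * aeval z (u * X ^ N) = aeval z (u * X ^ N)
      have h1 : u * X ^ N * (u * X ^ N) = u * X ^ N - (u * v) * (X ^ N * q) := by
        have : u * X ^ N = 1 - v * q := by rw [← huv]; ring
        calc u * X ^ N * (u * X ^ N) = u * X ^ N * (1 - v * q) := by rw [← this]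
          _ = _ := by ring
      rw [← map_mul, h1, map_sub, map_mul _ (u * v), hann, mul_zero, sub_zero]
    · have : u * X ^ N = X * (u * X ^ m) := by rw [hm, pow_succ]; ring
      rw [this]; exact htr _
  refine ⟨N, ?_⟩
  have h2 : (X : ℝ[X]) ^ N = X ^ N * (u * X ^ N) + v * (X ^ N * q) := by
    calc (X : ℝ[X]) ^ N = X ^ N * (u * X ^ N + v * q) := by rw [huv, mul_one]
      _ = _ := by ring
  calc z ^ N = aeval z ((X : ℝ[X]) ^ N) := by rw [map_pow, aeval_X]
    _ = aeval z (X ^ N * (u * X ^ N) + v * (X ^ N * q)) := by rw [← h2]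
    _ = 0 := by rw [map_add, map_mul, he0, mul_zero, map_mul, hann, mul_zero, add_zero]

open LieAlgebra LieModule

variable {L W : Type*} [LieRing L] [LieAlgebra ℝ L] [FiniteDimensional ℝ L]
  [AddCommGroup W] [Module ℝ W] [FiniteDimensional ℝ W] [LieRingModule L W] [LieModule ℝ L W]

/-- the action of a commutator of two operators, one of which commutes with the commutator -/
theorem nil_comm (X Y : Module.End ℝ W) (hX : Commute X (X * Y - Y * X)) :
    IsNilpotent (X * Y - Y * X) := by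
  apply isNilpotent_of_trace
  intro n
  have hXn : Commute X ((X * Y - Y * X) ^ n) := hX.pow_right n
  have h1 : (X * Y - Y * X) ^ (n + 1) = X * (Y * (X * Y - Y * X) ^ n) -
      (Y * (X * Y - Y * X) ^ n) * X := by
    rw [pow_succ']
    have h2 : X * (X * Y - Y * X) ^ n = (X * Y - Y * X) ^ n * X := hXn.eq
    calc (X * Y - Y * X) * (X * Y - Y * X) ^ n
        = X * (Y * (X * Y - Y * X) ^ n) - Y * (X * (X * Y - Y * X) ^ n) := by noncomm_ring
      _ = _ := by rw [h2]; noncomm_ring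
  rw [h1, map_sub, LinearMap.trace_mul_comm, sub_self]

theorem nil_comm' (X Y : Module.End ℝ W) (hY : Commute Y (X * Y - Y * X)) :
    IsNilpotent (X * Y - Y * X) := by
  have h := nil_comm Y X (by
    have : Y * X - X * Y = -(X * Y - Y * X) := by abel
    rw [this]; exact hY.neg_right)
  have h2 : X * Y - Y * X = -(Y * X - X * Y) := by abel
  rw [h2]; exact h.neg

omit [FiniteDimensional ℝ L] [FiniteDimensional ℝ W] in
theorem toEnd_lie (x y : L) : toEnd ℝ L W ⁅x, y⁆ =
    toEnd ℝ L W x * toEnd ℝ L W y - toEnd ℝ L W y * toEnd ℝ L W x := by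
  ext w
  simp

/-- Lemma J -/
theorem lieJ [IsIrreducible ℝ L W] (D : ℕ → LieIdeal ℝ L)
    (hD : ∀ k, D (k + 1) = ⁅D k, D k⁆) (k : ℕ)
    (hk : ∀ x : L, ∀ b ∈ D (k + 1), ∀ w : W, ⁅⁅x, b⁆, w⁆ = 0) :
    ∀ x : L, ∀ b ∈ D k, ∀ w : W, ⁅⁅x, b⁆, w⁆ = 0 := by
  have hnt : Nontrivial W := LieModule.nontrivial_of_isIrreducible ℝ L W
  -- (1)
  have h1 : ∀ c ∈ D k, ∀ b ∈ D k, ∀ w : W, ⁅⁅c, b⁆, w⁆ = 0 := by
    intro c hc b hb
    have hcb : ⁅c, b⁆ ∈ D (k + 1) := by rw [hD]; exact LieSubmodule.lie_mem_lie hc hb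
    have hcomm : ∀ (x : L) (w : W), ⁅x, ⁅⁅c, b⁆, w⁆⁆ = ⁅⁅c, b⁆, ⁅x, w⁆⁆ := by
      intro x w
      rw [leibniz_lie x ⁅c, b⁆ w, hk x _ hcb, zero_add]
    have hnil : IsNilpotent (toEnd ℝ L W ⁅c, b⁆) := by
      rw [toEnd_lie]
      apply nil_comm
      rw [← toEnd_lie]
      show toEnd ℝ L W c * toEnd ℝ L W ⁅c, b⁆ = toEnd ℝ L W ⁅c, b⁆ * toEnd ℝ L W c
      ext w
      exact hcomm c w
    let U : LieSubmodule ℝ L W :=
      { LinearMap.ker (toEnd ℝ L W ⁅c, b⁆) with
        lie_mem := by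
          intro x w hw
          have hw' : ⁅⁅c, b⁆, w⁆ = 0 := hw
          show ⁅⁅c, b⁆, ⁅x, w⁆⁆ = 0
          rw [← hcomm, hw', lie_zero] }
    have hU : U ≠ ⊥ := by
      intro hbot
      have hker : LinearMap.ker (toEnd ℝ L W ⁅c, b⁆) = ⊥ := by
        have : U.toSubmodule = ⊥ := by rw [hbot]; rfl
        exact this
      have hinj : Function.Injective (toEnd ℝ L W ⁅c, b⁆) := LinearMap.ker_eq_bot.mp hker
      obtain ⟨n, hn⟩ := hnil
      obtain ⟨w, hw⟩ := exists_ne (0 : W)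
      apply hw
      have hinjn : Function.Injective ((toEnd ℝ L W ⁅c, b⁆) ^ n) := by
        rw [Module.End.coe_pow]
        exact hinj.iterate n
      apply hinjn
      rw [hn]; simp
    have hUtop : U = ⊤ := (eq_bot_or_eq_top U).resolve_left hU
    intro w
    have : w ∈ U := by rw [hUtop]; exact LieSubmodule.mem_top w
    exact this
  -- the ideal J
  obtain ⟨J, hJ⟩ : ∃ J : LieIdeal ℝ L, J = ⁅(⊤ : LieIdeal ℝ L), D k⁆ := ⟨_, rfl⟩
  have hJD : J ≤ D k := by rw [hJ]; exact LieSubmodule.lie_le_right _ _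
  have hJnil : ∀ j ∈ J, IsNilpotent (toEnd ℝ L W j) := by
    intro j hj
    have hspan : J.toSubmodule = Submodule.span ℝ
        {m | ∃ (x : (⊤ : LieIdeal ℝ L)) (n : D k), ⁅(x : L), (n : L)⁆ = m} := by
      rw [hJ]; exact LieSubmodule.lieIdeal_oper_eq_linear_span _ _
    have hj' : j ∈ Submodule.span ℝ
        {m | ∃ (x : (⊤ : LieIdeal ℝ L)) (n : D k), ⁅(x : L), (n : L)⁆ = m} := by
      rw [← hspan]; exact hj
    have key : ∀ j' ∈ Submodule.span ℝ
        {m | ∃ (x : (⊤ : LieIdeal ℝ L)) (n : D k), ⁅(x : L), (n : L)⁆ = m},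
        IsNilpotent (toEnd ℝ L W j') := by
      intro j' hj'
      induction hj' using Submodule.span_induction with
      | mem m hm =>
        obtain ⟨⟨x, _⟩, ⟨b, hb⟩, rfl⟩ := hm
        show IsNilpotent (toEnd ℝ L W ⁅x, b⁆)
        have hc : ⁅x, b⁆ ∈ D k := lie_mem_right ℝ L (D k) x b hb
        rw [toEnd_lie]
        apply nil_comm'
        rw [← toEnd_lie]
        show toEnd ℝ L W b * toEnd ℝ L W ⁅x, b⁆ = toEnd ℝ L W ⁅x, b⁆ * toEnd ℝ L W b
        ext w
        show ⁅b, ⁅⁅x, b⁆, w⁆⁆ = ⁅⁅x, b⁆, ⁅b, w⁆⁆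
        rw [leibniz_lie b ⁅x, b⁆ w, h1 b hb _ hc, zero_add]
      | zero => rw [map_zero]; exact IsNilpotent.zero
      | add a b ha hb iha ihb =>
        have haD : a ∈ D k := hJD (by
          have : a ∈ J.toSubmodule := by rw [hspan]; exact ha
          exact this)
        have hbD : b ∈ D k := hJD (by
          have : b ∈ J.toSubmodule := by rw [hspan]; exact hb
          exact this)
        rw [map_add]
        have hcom : Commute (toEnd ℝ L W a) (toEnd ℝ L W b) := by
          show toEnd ℝ L W a * toEnd ℝ L W b = toEnd ℝ L W b * toEnd ℝ L W a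
          ext w
          show ⁅a, ⁅b, w⁆⁆ = ⁅b, ⁅a, w⁆⁆
          rw [leibniz_lie a b w, h1 a haD b hbD, zero_add]
        exact hcom.isNilpotent_add iha ihb
      | smul t a ha iha => rw [map_smul]; exact iha.smul t
    exact key j hj'
  have hnilJ : LieModule.IsNilpotent J W := by
    rw [LieModule.isNilpotent_iff_forall' (R := ℝ)]
    intro j
    exact hJnil j.1 j.2
  have hmt : Nontrivial (maxTrivSubmodule ℝ J W) := nontrivial_max_triv_of_isNilpotent ℝ J W
  let U : LieSubmodule ℝ L W :=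
    { (maxTrivSubmodule ℝ J W).toSubmodule with
      lie_mem := by
        intro x w hw
        have hw' : ∀ j : J, ⁅j, w⁆ = 0 := hw
        show ∀ j : J, ⁅j, ⁅x, w⁆⁆ = 0
        intro j
        show ⁅(j : L), ⁅x, w⁆⁆ = 0
        rw [leibniz_lie (j : L) x w]
        have h2 : ⁅(j : L), w⁆ = 0 := hw' j
        have h3 : ⁅(j : L), x⁆ ∈ J := lie_mem_left ℝ L J _ _ j.2
        have h4 : ⁅⁅(j : L), x⁆, w⁆ = 0 := hw' ⟨_, h3⟩
        rw [h2, h4, lie_zero, zero_add] }
  have hU : U ≠ ⊥ := by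
    intro hbot
    obtain ⟨⟨w, hw⟩, hw0⟩ := exists_ne (0 : maxTrivSubmodule ℝ J W)
    apply hw0
    have hwU : w ∈ U := hw
    rw [hbot, LieSubmodule.mem_bot] at hwU
    exact Subtype.ext hwU
  have hUtop : U = ⊤ := (eq_bot_or_eq_top U).resolve_left hU
  intro x b hb w
  have hw : w ∈ U := by rw [hUtop]; exact LieSubmodule.mem_top w
  have hw' : ∀ j : J, ⁅j, w⁆ = 0 := hw
  have hxb : ⁅x, b⁆ ∈ J := by rw [hJ]; exact LieSubmodule.lie_mem_lie (LieSubmodule.mem_top x) hb
  exact hw' ⟨_, hxb⟩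

theorem lie_radical_zero [IsIrreducible ℝ L W] (x y : L) (hy : y ∈ radical ℝ L) (w : W) :
    ⁅⁅x, y⁆, w⁆ = 0 := by
  have hsol : IsSolvable (radical ℝ L) := radicalIsSolvable ℝ L
  obtain ⟨m, hm⟩ := IsSolvable.solvable ℝ (radical ℝ L)
  have hm' : derivedSeriesOfIdeal ℝ L m (radical ℝ L) = ⊥ :=
    (LieIdeal.derivedSeries_eq_bot_iff (radical ℝ L) m).mp hm
  let D : ℕ → LieIdeal ℝ L := fun k => derivedSeriesOfIdeal ℝ L k (radical ℝ L)
  have hD : ∀ k, D (k + 1) = ⁅D k, D k⁆ := fun k => derivedSeriesOfIdeal_succ ℝ L _ k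
  have key : ∀ j : ℕ, ∀ k, k + j = m → ∀ x : L, ∀ b ∈ D k, ∀ w : W, ⁅⁅x, b⁆, w⁆ = 0 := by
    intro j
    induction j with
    | zero =>
      intro k hk x b hb w
      have hkm : k = m := by omega
      rw [hkm] at hb
      have hb' : b ∈ (⊥ : LieIdeal ℝ L) := by rw [← hm']; exact hb
      rw [LieSubmodule.mem_bot] at hb'
      rw [hb', lie_zero, zero_lie]
    | succ j ih =>
      intro k hk
      exact lieJ D hD k (ih (k + 1) (by omega))
  exact key m 0 (by omega) x y hy w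

end Pool.Agent.TH75.J876

namespace Pool.Agent.TH77.AN
open LieAlgebra

/-- one step of the flag -/
theorem flag_step_J876 {L M : Type*} [LieRing L] [LieAlgebra ℝ L] [FiniteDimensional ℝ L]
    [AddCommGroup M] [Module ℝ M] [FiniteDimensional ℝ M] [LieRingModule L M] [LieModule ℝ L M]
    (V : LieSubmodule ℝ L M) (hV : V ≠ ⊥) :
    ∃ V' : LieSubmodule ℝ L M, V' < V ∧
      ∀ x y : L, y ∈ radical ℝ L → ∀ v ∈ V, ⁅⁅x, y⁆, v⁆ ∈ V' := by
  have hnt : Nontrivial V := by
    rw [LieSubmodule.nontrivial_iff_ne_bot]; exact hV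
  -- a maximal proper submodule of V
  have hwf : WellFoundedGT (LieSubmodule ℝ L V) := LieSubmodule.wellFoundedGT_of_noetherian ℝ L V
  obtain ⟨N, hN, -⟩ := (IsCoatomic.eq_top_or_exists_le_coatom
    (⊥ : LieSubmodule ℝ L V)).resolve_left (by
      intro h
      have : (⊥ : LieSubmodule ℝ L V) = ⊤ := h
      exact bot_ne_top this)
  have hirr : LieModule.IsIrreducible ℝ L (V ⧸ N) := by
    have hntq : Nontrivial (V ⧸ N) := by
      have : N.toSubmodule ≠ ⊤ := by
        intro h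
        apply hN.1
        rw [← LieSubmodule.toSubmodule_eq_top]
        exact h
      exact Submodule.Quotient.nontrivial_iff.mpr this
    apply LieModule.IsIrreducible.mk
    intro K hK
    have hle : N ≤ K.comap (LieSubmodule.Quotient.mk' N) := by
      intro v hv
      rw [LieSubmodule.mem_comap]
      have : LieSubmodule.Quotient.mk' N v = 0 := by
        exact (LieSubmodule.Quotient.mk_eq_zero' ).mpr hv
      rw [this]
      exact K.zero_mem
    rcases hN.le_iff.mp hle with h | h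
    · rw [eq_top_iff]
      intro q _
      obtain ⟨v, rfl⟩ := LieSubmodule.Quotient.surjective_mk' N q
      have hv : v ∈ K.comap (LieSubmodule.Quotient.mk' N) := by
        rw [h]; exact LieSubmodule.mem_top v
      exact LieSubmodule.mem_comap.mp hv
    · exfalso
      apply hK
      rw [eq_bot_iff]
      intro q hq
      obtain ⟨v, rfl⟩ := LieSubmodule.Quotient.surjective_mk' N q
      have hv : v ∈ K.comap (LieSubmodule.Quotient.mk' N) := LieSubmodule.mem_comap.mpr hq
      rw [h] at hv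
      rw [LieSubmodule.mem_bot]
      exact (LieSubmodule.Quotient.mk_eq_zero').mpr hv
  refine ⟨N.map V.incl, ?_, ?_⟩
  · refine lt_of_le_of_ne ?_ ?_
    · intro m hm
      rw [LieSubmodule.mem_map] at hm
      obtain ⟨v, _, rfl⟩ := hm
      exact v.2
    · intro h
      apply hN.1
      rw [eq_top_iff]
      intro v _
      have hv : (v : M) ∈ N.map V.incl := by rw [h]; exact v.2
      rw [LieSubmodule.mem_map] at hv
      obtain ⟨v', hv', heq⟩ := hv
      have : v' = v := Subtype.ext heq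
      rw [← this]; exact hv'
  · intro x y hy v hv
    have h0 := Pool.Agent.TH75.J876.lie_radical_zero (W := V ⧸ N) x y hy
      (LieSubmodule.Quotient.mk' N ⟨v, hv⟩)
    rw [← LieModuleHom.map_lie] at h0
    have h1 : ⁅⁅x, y⁆, (⟨v, hv⟩ : V)⁆ ∈ N := (LieSubmodule.Quotient.mk_eq_zero').mp h0
    rw [LieSubmodule.mem_map]
    exact ⟨⁅⁅x, y⁆, (⟨v, hv⟩ : V)⁆, h1, rfl⟩

/-- JOB A. Flag on which `⁅L, rad L⁆` acts strictly. -/
theorem exists_flag {L M : Type*} [LieRing L] [LieAlgebra ℝ L] [FiniteDimensional ℝ L]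
    [AddCommGroup M] [Module ℝ M] [FiniteDimensional ℝ M] [LieRingModule L M] [LieModule ℝ L M] :
    ∃ V : ℕ → LieSubmodule ℝ L M, V 0 = ⊤ ∧ (∀ k, V (k + 1) ≤ V k) ∧ (∃ m, V m = ⊥) ∧
      ∀ k, ∀ x y : L, y ∈ radical ℝ L → ∀ v ∈ V k, ⁅⁅x, y⁆, v⁆ ∈ V (k + 1) := by
  classical
  have hstep : ∀ V : LieSubmodule ℝ L M, ∃ V' : LieSubmodule ℝ L M, V' ≤ V ∧ (V ≠ ⊥ → V' < V) ∧
      ∀ x y : L, y ∈ radical ℝ L → ∀ v ∈ V, ⁅⁅x, y⁆, v⁆ ∈ V' := by
    intro V
    by_cases hV : V = ⊥
    · refine ⟨⊥, bot_le, fun h => absurd hV h, ?_⟩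
      intro x y _ v hv
      rw [hV, LieSubmodule.mem_bot] at hv
      rw [hv, lie_zero]
      exact LieSubmodule.zero_mem _
    · obtain ⟨V', h1, h2⟩ := flag_step_J876 V hV
      exact ⟨V', h1.le, fun _ => h1, h2⟩
  choose f hf1 hf2 hf3 using hstep
  let V : ℕ → LieSubmodule ℝ L M := fun k => f^[k] ⊤
  have hVs : ∀ k, V (k + 1) = f (V k) := fun k => Function.iterate_succ_apply' f k ⊤
  refine ⟨V, rfl, ?_, ?_, ?_⟩
  · intro k; rw [hVs]; exact hf1 _
  · by_contra hcon
    push Not at hcon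
    have hrank : ∀ k, Module.finrank ℝ (V k).toSubmodule + k ≤ Module.finrank ℝ M := by
      intro k
      induction k with
      | zero => rw [add_zero]; exact Submodule.finrank_le _
      | succ k ih =>
        have h1 : (V (k + 1)).toSubmodule < (V k).toSubmodule := by
          rw [hVs]
          exact hf2 _ (hcon k)
        have h2 := Submodule.finrank_lt_finrank_of_lt h1
        omega
    have := hrank (Module.finrank ℝ M + 1)
    omega
  · intro k x y hy v hv
    rw [hVs]; exact hf3 _ x y hy v hv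

end Pool.Agent.TH77.AN
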