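import Mathlib

set_option autoImplicit false

namespace Pool.Agent.TH77.AN
open Filter Topology Set

section
variable {E : Type*} [NormedAddCommGroup E] [NormedSpace ℝ E] [FiniteDimensional ℝ E]

theorem hasSum_exp_J877 (A : E →L[ℝ] E) :
    HasSum (fun n : ℕ => ((n.factorial : ℝ)⁻¹) • A ^ n) (NormedSpace.exp A) := by
  have : CompleteSpace E := FiniteDimensional.complete ℝ E
  exact NormedSpace.exp_series_hasSum_exp' (𝕂 := ℝ) A

theorem exp_nilp_J877 {A : E →L[ℝ] E} {m : ℕ} (hA : A ^ m = 0) :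
    NormedSpace.exp A = ∑ i ∈ Finset.range m, ((i.factorial : ℝ)⁻¹) • A ^ i := by
  have h := hasSum_exp_J877 A
  have h2 : HasSum (fun n : ℕ => ((n.factorial : ℝ)⁻¹) • A ^ n)
      (∑ i ∈ Finset.range m, ((i.factorial : ℝ)⁻¹) • A ^ i) := by
    apply hasSum_sum_of_ne_finset_zero
    intro b hb
    rw [Finset.mem_range, not_lt] at hb
    rw [pow_eq_zero_of_le hb hA, smul_zero]
  exact h.unique h2

/-- JOB B1. -/
theorem exp_inj_nil {E : Type*} [NormedAddCommGroup E] [NormedSpace ℝ E] [FiniteDimensional ℝ E]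
    {A B : E →L[ℝ] E} (hA : IsNilpotent A) (hB : IsNilpotent B)
    (h : NormedSpace.exp A = NormedSpace.exp B) : A = B := by
  have : CompleteSpace E := FiniteDimensional.complete ℝ E
  obtain ⟨a, ha⟩ := hA
  obtain ⟨b, hb⟩ := hB
  obtain ⟨m, hm⟩ : ∃ m, m = a + b + 2 := ⟨_, rfl⟩
  have hAm : A ^ m = 0 := pow_eq_zero_of_le (by omega) ha
  have hBm : B ^ m = 0 := pow_eq_zero_of_le (by omega) hb
  have hpow : ∀ t : ℕ, NormedSpace.exp ((t : ℝ) • A) = NormedSpace.exp ((t : ℝ) • B) := by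
    intro t
    letI : NormedAlgebra ℚ (E →L[ℝ] E) := NormedAlgebra.restrictScalars ℚ ℝ (E →L[ℝ] E)
    rw [Nat.cast_smul_eq_nsmul, Nat.cast_smul_eq_nsmul, NormedSpace.exp_nsmul,
      NormedSpace.exp_nsmul, h]
  have hzero : ∀ t : ℕ, ∑ i ∈ Finset.range m, ((t : ℝ) ^ i) •
      (((i.factorial : ℝ)⁻¹) • (A ^ i - B ^ i)) = 0 := by
    intro t
    have h1 : ((t : ℝ) • A) ^ m = 0 := by rw [smul_pow, hAm, smul_zero]
    have h2 : ((t : ℝ) • B) ^ m = 0 := by rw [smul_pow, hBm, smul_zero]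
    have h3 := hpow t
    rw [exp_nilp_J877 h1, exp_nilp_J877 h2, ← sub_eq_zero, ← Finset.sum_sub_distrib] at h3
    rw [← h3]
    refine Finset.sum_congr rfl fun i _ => ?_
    rw [smul_pow, smul_pow, smul_comm ((t : ℝ) ^ i), smul_sub, smul_sub]
  have hcoef : ∀ f : Module.Dual ℝ (E →L[ℝ] E), ∀ i < m,
      f (((i.factorial : ℝ)⁻¹) • (A ^ i - B ^ i)) = 0 := by
    intro f i hi
    let p : Polynomial ℝ := ∑ i ∈ Finset.range m,
      Polynomial.monomial i (f (((i.factorial : ℝ)⁻¹) • (A ^ i - B ^ i)))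
    have hp : p = 0 := by
      apply Polynomial.eq_zero_of_infinite_isRoot
      apply Set.infinite_of_injective_forall_mem (f := fun t : ℕ => (t : ℝ)) Nat.cast_injective
      intro t
      show Polynomial.eval (t : ℝ) p = 0
      simp only [p, Polynomial.eval_finsetSum, Polynomial.eval_monomial]
      have := congrArg f (hzero t)
      rw [map_sum, map_zero] at this
      rw [← this]
      refine Finset.sum_congr rfl fun i _ => ?_
      rw [map_smul f ((t : ℝ) ^ i), smul_eq_mul, mul_comm]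
    have h4 : p.coeff i = f (((i.factorial : ℝ)⁻¹) • (A ^ i - B ^ i)) := by
      simp only [p, Polynomial.finsetSum_coeff, Polynomial.coeff_monomial]
      rw [Finset.sum_ite_eq' (Finset.range m) i, if_pos (Finset.mem_range.mpr hi)]
    rw [← h4, hp, Polynomial.coeff_zero]
  have h5 : (((1 : ℕ).factorial : ℝ)⁻¹) • (A ^ 1 - B ^ 1) = 0 := by
    rw [← Module.forall_dual_apply_eq_zero_iff ℝ]
    intro f
    exact hcoef f 1 (by omega)
  rw [Nat.factorial_one, Nat.cast_one, inv_one, one_smul, pow_one, pow_one, sub_eq_zero] at h5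
  exact h5

/-- operators shifting the flag by `j` -/
def flagShift_J877 (V : ℕ → Submodule ℝ E) (j : ℕ) : Submodule ℝ (E →L[ℝ] E) where
  carrier := {n | ∀ i, ∀ v ∈ V i, n v ∈ V (i + j)}
  zero_mem' := fun i _ _ => (V (i + j)).zero_mem
  add_mem' := fun ha hb i v hv => (V (i + j)).add_mem (ha i v hv) (hb i v hv)
  smul_mem' := fun t _ ha i v hv => (V (i + j)).smul_mem t (ha i v hv)

omit [FiniteDimensional ℝ E] in
theorem flagShift_mul_J877 (V : ℕ → Submodule ℝ E) {a b : ℕ} {x y : E →L[ℝ] E}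
    (hx : x ∈ flagShift_J877 V a) (hy : y ∈ flagShift_J877 V b) :
    x * y ∈ flagShift_J877 V (a + b) := by
  intro i v hv
  have h1 := hx (i + b) (y v) (hy i v hv)
  have h2 : i + (a + b) = i + b + a := by ring
  rw [h2]
  exact h1

omit [FiniteDimensional ℝ E] in
theorem flagShift_anti_J877 (V : ℕ → Submodule ℝ E) (hmono : ∀ k, V (k + 1) ≤ V k) {a b : ℕ}
    (hab : a ≤ b) : flagShift_J877 V b ≤ flagShift_J877 V a := by
  have hanti : Antitone V := antitone_nat_of_succ_le hmono
  intro x hx i v hv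
  exact hanti (by omega : i + a ≤ i + b) (hx i v hv)

omit [FiniteDimensional ℝ E] in
theorem flagShift_one_J877 (V : ℕ → Submodule ℝ E) : (1 : E →L[ℝ] E) ∈ flagShift_J877 V 0 :=
  fun _ _ hv => hv

theorem flag_key_J877 (V : ℕ → Submodule ℝ E) (hmono : ∀ k, V (k + 1) ≤ V k) {j : ℕ} (hj : 1 ≤ j)
    {L e : E →L[ℝ] E} (hL : L ∈ flagShift_J877 V 1) (he : e ∈ flagShift_J877 V j) :
    NormedSpace.exp (L + e) - NormedSpace.exp L - e ∈ flagShift_J877 V (j + 1) := by
  have hLe : L + e ∈ flagShift_J877 V 1 :=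
    Submodule.add_mem _ hL (flagShift_anti_J877 V hmono hj he)
  have hLn : ∀ n, L ^ n ∈ flagShift_J877 V n := by
    intro n
    induction n with
    | zero => rw [pow_zero]; exact flagShift_one_J877 V
    | succ n ih => rw [pow_succ]; exact flagShift_mul_J877 V ih hL
  have hrec : ∀ n, (L + e) ^ (n + 1) - L ^ (n + 1) =
      (L + e) * ((L + e) ^ n - L ^ n) + e * L ^ n := by
    intro n
    rw [pow_succ', pow_succ']
    noncomm_ring
  have h1 : ∀ n, (L + e) ^ n - L ^ n ∈ flagShift_J877 V j := by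
    intro n
    induction n with
    | zero => rw [pow_zero, pow_zero, sub_self]; exact Submodule.zero_mem _
    | succ n ih =>
      rw [hrec]
      apply Submodule.add_mem
      · exact flagShift_anti_J877 V hmono (by omega) (flagShift_mul_J877 V hLe ih)
      · exact flagShift_anti_J877 V hmono (by omega) (flagShift_mul_J877 V he (hLn n))
  have h2 : ∀ n, (L + e) ^ (n + 2) - L ^ (n + 2) ∈ flagShift_J877 V (j + 1) := by
    intro n
    rw [hrec]
    apply Submodule.add_mem
    · rw [add_comm j 1]; exact flagShift_mul_J877 V hLe (h1 (n + 1))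
    · exact flagShift_anti_J877 V hmono (by omega) (flagShift_mul_J877 V he (hLn (n + 1)))
  have hsum := ((hasSum_exp_J877 (L + e)).sub (hasSum_exp_J877 L)).sub
    (hasSum_ite_eq (1 : ℕ) e)
  have hmem : ∀ n : ℕ, ((n.factorial : ℝ)⁻¹) • (L + e) ^ n - ((n.factorial : ℝ)⁻¹) • L ^ n -
      (if n = 1 then e else 0) ∈ flagShift_J877 V (j + 1) := by
    intro n
    rcases n with _ | _ | n
    · simp
    · simp
    · rw [if_neg (by omega), sub_zero, ← smul_sub]
      exact Submodule.smul_mem _ _ (h2 n)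
  have hclosed : IsClosed ((flagShift_J877 V (j + 1) : Submodule ℝ (E →L[ℝ] E)) :
      Set (E →L[ℝ] E)) := Submodule.closed_of_finiteDimensional _
  exact hclosed.mem_of_tendsto hsum (Eventually.of_forall fun s =>
    Submodule.sum_mem _ fun n _ => hmem n)

/-- iteration -/
noncomputable def ulogIter_J877 : ℕ → (E →L[ℝ] E) → (E →L[ℝ] E)
  | 0 => fun _ => 0
  | k + 1 => fun u => ulogIter_J877 k u + (u - NormedSpace.exp (ulogIter_J877 k u))

theorem ulogIter_analytic_J877 (k : ℕ) :
    AnalyticOnNhd ℝ (ulogIter_J877 (E := E) k) univ := by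
  have : CompleteSpace E := FiniteDimensional.complete ℝ E
  induction k with
  | zero => exact analyticOnNhd_const
  | succ k ih =>
    intro u hu
    have h1 := ih u hu
    have h2 : AnalyticAt ℝ (fun u : E →L[ℝ] E => NormedSpace.exp (ulogIter_J877 k u)) u :=
      (NormedSpace.exp_analytic (𝕂 := ℝ) (ulogIter_J877 k u)).comp h1
    exact h1.add (analyticAt_id.sub h2)

/-- JOB B2. Logarithm of unipotent operators with respect to a flag. -/
theorem exists_ulog {E : Type*} [NormedAddCommGroup E] [NormedSpace ℝ E] [FiniteDimensional ℝ E]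
    (V : ℕ → Submodule ℝ E) (h0 : V 0 = ⊤) (hmono : ∀ k, V (k + 1) ≤ V k) (m : ℕ) (hm : V m = ⊥) :
    ∃ Λ : (E →L[ℝ] E) → (E →L[ℝ] E), AnalyticOnNhd ℝ Λ univ ∧
      ∀ u : E →L[ℝ] E, (∀ k, ∀ v ∈ V k, u v - v ∈ V (k + 1)) →
        (∀ k, ∀ v ∈ V k, Λ u v ∈ V (k + 1)) ∧ NormedSpace.exp (Λ u) = u := by
  refine ⟨ulogIter_J877 m, ulogIter_analytic_J877 m, ?_⟩
  intro u hu
  have hu1 : u - 1 ∈ flagShift_J877 V 1 := fun k v hv => hu k v hv
  have key : ∀ k, ulogIter_J877 k u ∈ flagShift_J877 V 1 ∧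
      u - NormedSpace.exp (ulogIter_J877 k u) ∈ flagShift_J877 V (k + 1) := by
    intro k
    induction k with
    | zero =>
      refine ⟨Submodule.zero_mem _, ?_⟩
      show u - NormedSpace.exp (0 : E →L[ℝ] E) ∈ flagShift_J877 V (0 + 1)
      rw [NormedSpace.exp_zero]
      exact hu1
    | succ k ih =>
      obtain ⟨ih1, ih2⟩ := ih
      have h1 := flag_key_J877 V hmono (by omega : 1 ≤ k + 1) ih1 ih2
      refine ⟨Submodule.add_mem _ ih1 (flagShift_anti_J877 V hmono (by omega) ih2), ?_⟩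
      show u - NormedSpace.exp (ulogIter_J877 k u + (u - NormedSpace.exp (ulogIter_J877 k u))) ∈ _
      have h2 := Submodule.neg_mem _ h1
      have h3 : -(NormedSpace.exp (ulogIter_J877 k u + (u - NormedSpace.exp (ulogIter_J877 k u))) -
          NormedSpace.exp (ulogIter_J877 k u) - (u - NormedSpace.exp (ulogIter_J877 k u))) =
          u - NormedSpace.exp (ulogIter_J877 k u + (u - NormedSpace.exp (ulogIter_J877 k u))) := by
        abel
      rw [h3] at h2
      exact h2
  obtain ⟨k1, k2⟩ := key m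
  refine ⟨fun k v hv => k1 k v hv, ?_⟩
  have h4 : ∀ v : E, (u - NormedSpace.exp (ulogIter_J877 m u)) v = 0 := by
    intro v
    have hv : v ∈ V 0 := by rw [h0]; exact Submodule.mem_top
    have h5 := k2 0 v hv
    have hanti : Antitone V := antitone_nat_of_succ_le hmono
    have h6 := hanti (by omega : m ≤ 0 + (m + 1)) h5
    rw [hm] at h6
    exact (Submodule.mem_bot ℝ).mp h6
  have h7 : u - NormedSpace.exp (ulogIter_J877 m u) = 0 := by
    ext v; exact h4 v
  exact (sub_eq_zero.mp h7).symm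

end

end Pool.Agent.TH77.AN
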