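import Pool.Agent.TH806.N4.Defs
import Pool.Agent.TH75.AFE2
set_option autoImplicit false
namespace Pool.Agent.TH75.N4_AFE
open Finset Filter Topology MeasureTheory Complex MonoidAlgebra
open Pool.Agent.W184.NZ Pool.Agent.TH806 Pool.Agent.TH806.N4
open Pool.Agent.H306R2.SM (om cl Yf)
open Pool.Agent.H262R4.TM (Rng Ck)
open Pool.Agent.H448R2.GC (cu cs ker XX)

theorem t_AFE : P_AFE := by
  intro η hη hη1
  obtain ⟨k₀, h⟩ := Pool.Agent.TH75.AFE1.main η hη hη1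
  refine ⟨k₀, fun k hk => ?_⟩
  obtain ⟨T₀, h2⟩ := h k hk
  refine ⟨T₀, fun T hT t ht1 ht2 D hD0 hD => ?_⟩
  exact h2 T hT t ht1 D hD0 hD (cl t) (by unfold cl; push_cast; ring)

end Pool.Agent.TH75.N4_AFE
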