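import Pool.Agent.TH477.PA.Hall
import Pool.Agent.TH241.J651
import Pool.Agent.TH75.J649

/-!
Union bound over the regularity structures (used for jobs 812 and 813).
-/

set_option autoImplicit false

namespace Pool.Agent.TH75.PAUnion

open Finset Pool.Agent.TH477.PA

open Classical in
/-- palettes of a structure -/
noncomputable def Pst {n r M : ℕ} (G : SimpleGraph (Fin n)) (κ : Fin n → Fin M)
    (d : Fin M → Fin M → Finset (Fin r)) (x y : Fin n) : Finset (Fin r) :=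
  if G.Adj x y then d (κ x) (κ y) else ∅

theorem Pst_symm {n r M : ℕ} (G : SimpleGraph (Fin n)) (κ : Fin n → Fin M)
    (d : Fin M → Fin M → Finset (Fin r)) (hd : ∀ a b, d a b = d b a) (x y : Fin n) :
    Pst G κ d x y = Pst G κ d y x := by
  unfold Pst
  by_cases h : G.Adj x y
  · rw [if_pos h, if_pos h.symm, hd]
  · rw [if_neg h, if_neg (fun h' => h h'.symm)]

theorem Pst_empty {n r M : ℕ} (G : SimpleGraph (Fin n)) (κ : Fin n → Fin M)
    (d : Fin M → Fin M → Finset (Fin r)) (x y : Fin n) (h : ¬ G.Adj x y) :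
    Pst G κ d x y = ∅ := if_neg h

/-- few exceptional pairs -/
def Exc {n r : ℕ} (G : SimpleGraph (Fin n)) (P : Fin n → Fin n → Finset (Fin r)) (ε : ℝ)
    (ψ : Sym2 (Fin n) → Fin r) : Prop :=
  ∑ x, ∑ y, ind (G.Adj x y ∧ ψ s(x, y) ∉ P x y) ≤ ε * (n : ℝ) ^ 2

/-- the number of colourings with few exceptional pairs -/
theorem exc_count {r : ℕ} (hr : 2 ≤ r) (ε : ℝ) (hε : 0 < ε) :
    ∃ η : ℝ, 0 < η ∧ ∀ (n : ℕ) (G : SimpleGraph (Fin n)) (P : Fin n → Fin n → Finset (Fin r)),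
      (∀ x y, P x y = P y x) → (∀ x y, ¬ G.Adj x y → P x y = ∅) →
      ∀ η' : ℝ, η' ≤ η →
      ∑ ψ : Sym2 (Fin n) → Fin r, ind (Exc G P η' ψ) ≤
        (r : ℝ) ^ (Fintype.card (Sym2 (Fin n)) - Nat.card G.edgeSet) *
          Real.exp (1 / 2 * ∑ x, ∑ y, Real.log ((P x y).card : ℝ) + ε * (n : ℝ) ^ 2) := by
  have hr2 : (2 : ℝ) ≤ r := by exact_mod_cast hr
  have hr0 : (0 : ℝ) < r := by linarith
  obtain ⟨s, hs⟩ : ∃ s : ℝ, s = r / ε := ⟨_, rfl⟩
  have hs0 : 0 < s := by rw [hs]; positivity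
  have hes : r * Real.exp (-s) ≤ ε := by
    have h1 : s ≤ Real.exp s := by have := Real.add_one_le_exp s; linarith
    have h2 : Real.exp (-s) ≤ 1 / s := by
      rw [Real.exp_neg, one_div]
      exact inv_anti₀ hs0 h1
    calc r * Real.exp (-s) ≤ r * (1 / s) := mul_le_mul_of_nonneg_left h2 hr0.le
      _ = ε := by rw [hs]; field_simp
  refine ⟨ε / (s + 1), by positivity, ?_⟩
  intro n G P hsymm hP η' hη'
  obtain ⟨η, hη⟩ : ∃ η : ℝ, η = ε / (s + 1) := ⟨_, rfl⟩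
  have hη0 : 0 < η := by rw [hη]; positivity
  rw [← hη] at hη'
  have h1 : ∑ ψ : Sym2 (Fin n) → Fin r, ind (Exc G P η' ψ) ≤
      ∑ ψ : Sym2 (Fin n) → Fin r,
      ind (∑ x, ∑ y, ind (G.Adj x y ∧ ψ s(x, y) ∉ P x y) ≤ η * (n : ℝ) ^ 2 ∧
        ∑ x ∈ (∅ : Finset (Fin n)), ∑ y ∈ (∅ : Finset (Fin n)),
          ind (G.Adj x y ∧ ψ s(x, y) = (⟨0, by omega⟩ : Fin r)) ≤
          0 * (∅ : Finset (Fin n)).card * (∅ : Finset (Fin n)).card) := by
    refine Finset.sum_le_sum fun ψ _ => ind_mono fun h => ⟨?_, by simp⟩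
    unfold Exc at h
    exact h.trans (mul_le_mul_of_nonneg_right hη' (by positivity))
  refine h1.trans ?_
  have h2 := Pool.Agent.TH75.J649.fixed_count hr G P hsymm hP ∅ ∅ univ (⟨0, by omega⟩ : Fin r)
    (Finset.mem_univ _) (by rw [Finset.card_univ, Fintype.card_fin]; exact hr) s hs0.le η 0
    (by simp; positivity)
  refine h2.trans ?_
  apply mul_le_mul_of_nonneg_left _ (by positivity)
  apply Real.exp_le_exp.mpr
  have hn2 : 0 ≤ (n : ℝ) ^ 2 := by positivity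
  have h3 : η * (s + 1) = ε := by rw [hη]; field_simp
  have h4 : 1 / (4 * (r : ℝ)) ≤ 1 / 8 := by
    apply one_div_le_one_div_of_le (by norm_num) (by linarith)
  have h5 : ((∅ : Finset (Fin n)).card : ℝ) = 0 := by simp
  rw [h5]
  have h6 : (0 * 0 - η * (n : ℝ) ^ 2) / (4 * r) = - (η * (n : ℝ) ^ 2 * (1 / (4 * r))) := by
    field_simp; ring
  rw [h6]
  have h7 : η * (n : ℝ) ^ 2 * (1 / (4 * r)) ≤ η * (n : ℝ) ^ 2 * (1 / 8) :=
    mul_le_mul_of_nonneg_left h4 (by positivity)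
  have h8 : r * Real.exp (-s) * ((n : ℝ) ^ 2 / 2) ≤ ε * ((n : ℝ) ^ 2 / 2) :=
    mul_le_mul_of_nonneg_right hes (by positivity)
  have h9 : s * (η * (n : ℝ) ^ 2 / 2) + η * (n : ℝ) ^ 2 * (1 / 8) ≤ ε * (n : ℝ) ^ 2 / 2 := by
    rw [← h3]
    have : 0 ≤ η * (n : ℝ) ^ 2 := by positivity
    nlinarith
  linarith

/-- union bound over the structures -/
theorem union_bound {n r k s M : ℕ} (G : SimpleGraph (Fin n)) (ε : ℝ)
    (hstr : ∀ ψ : Sym2 (Fin n) → Fin r, Good k s G Set.univ ψ →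
      ∃ (κ : Fin n → Fin M) (d : Fin M → Fin M → Finset (Fin r))
        (P : Fin n → Fin n → Finset (Fin r)),
        (∀ a b, d a b = d b a) ∧
        (∀ x y, G.Adj x y → P x y = d (κ x) (κ y)) ∧ (∀ x y, ¬ G.Adj x y → P x y = ∅) ∧
        (∑ x : Fin k → Fin n, ind (SCol s (fun i j => P (x i) (x j))) ≤ ε * (n : ℝ) ^ k) ∧
        ∑ x, ∑ y, ind (G.Adj x y ∧ ψ s(x, y) ∉ P x y) ≤ ε * (n : ℝ) ^ 2)
    (Bad : (Sym2 (Fin n) → Fin r) → Prop) (B : ℝ)
    (hfix : ∀ (κ : Fin n → Fin M) (d : Fin M → Fin M → Finset (Fin r)),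
      (∀ a b, d a b = d b a) →
      (∑ x : Fin k → Fin n, ind (SCol s (fun i j => Pst G κ d (x i) (x j))) ≤ ε * (n : ℝ) ^ k) →
      ∑ ψ : Sym2 (Fin n) → Fin r, ind (Bad ψ ∧ Exc G (Pst G κ d) ε ψ) ≤ B) (hB : 0 ≤ B)
    (hGB : ∀ ψ, Bad ψ → Good k s G Set.univ ψ) :
    ∑ ψ : Sym2 (Fin n) → Fin r, ind (Bad ψ) ≤ Real.exp (M * n + r * M * M) * B := by
  classical
  have h1 : ∀ ψ : Sym2 (Fin n) → Fin r, ind (Bad ψ) ≤
      ∑ κ : Fin n → Fin M, ∑ d : Fin M → Fin M → Finset (Fin r),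
        ind (((∀ a b, d a b = d b a) ∧
          ∑ x : Fin k → Fin n, ind (SCol s (fun i j => Pst G κ d (x i) (x j))) ≤
            ε * (n : ℝ) ^ k) ∧ Bad ψ ∧ Exc G (Pst G κ d) ε ψ) := by
    intro ψ
    by_cases h : Bad ψ
    · obtain ⟨κ, d, P, hd, hP1, hP2, hP3, hP4⟩ := hstr ψ (hGB ψ h)
      have hPe : P = Pst G κ d := by
        funext x y
        unfold Pst
        by_cases hxy : G.Adj x y
        · rw [if_pos hxy, hP1 x y hxy]
        · rw [if_neg hxy, hP2 x y hxy]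
      rw [hPe] at hP3 hP4
      rw [ind_pos h]
      have hm : (((∀ a b, d a b = d b a) ∧
          ∑ x : Fin k → Fin n, ind (SCol s (fun i j => Pst G κ d (x i) (x j))) ≤
            ε * (n : ℝ) ^ k) ∧ Bad ψ ∧ Exc G (Pst G κ d) ε ψ) := ⟨⟨hd, hP3⟩, h, hP4⟩
      rw [← ind_pos hm]
      refine le_trans ?_ (Finset.single_le_sum (f := fun κ : Fin n → Fin M =>
        ∑ d : Fin M → Fin M → Finset (Fin r),
        ind (((∀ a b, d a b = d b a) ∧
          ∑ x : Fin k → Fin n, ind (SCol s (fun i j => Pst G κ d (x i) (x j))) ≤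
            ε * (n : ℝ) ^ k) ∧ Bad ψ ∧ Exc G (Pst G κ d) ε ψ)) (fun _ _ =>
        Finset.sum_nonneg fun _ _ => ind_nonneg _) (Finset.mem_univ κ))
      exact Finset.single_le_sum (f := fun d : Fin M → Fin M → Finset (Fin r) =>
        ind (((∀ a b, d a b = d b a) ∧
          ∑ x : Fin k → Fin n, ind (SCol s (fun i j => Pst G κ d (x i) (x j))) ≤
            ε * (n : ℝ) ^ k) ∧ Bad ψ ∧ Exc G (Pst G κ d) ε ψ))
        (fun _ _ => ind_nonneg _) (Finset.mem_univ d)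
    · rw [ind_neg h]
      exact Finset.sum_nonneg fun _ _ => Finset.sum_nonneg fun _ _ => ind_nonneg _
  refine (Finset.sum_le_sum fun ψ _ => h1 ψ).trans ?_
  rw [Finset.sum_comm]
  have h2 : ∀ κ : Fin n → Fin M, ∑ ψ : Sym2 (Fin n) → Fin r,
      ∑ d : Fin M → Fin M → Finset (Fin r),
        ind (((∀ a b, d a b = d b a) ∧
          ∑ x : Fin k → Fin n, ind (SCol s (fun i j => Pst G κ d (x i) (x j))) ≤
            ε * (n : ℝ) ^ k) ∧ Bad ψ ∧ Exc G (Pst G κ d) ε ψ) ≤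
      ∑ d : Fin M → Fin M → Finset (Fin r), B := by
    intro κ
    rw [Finset.sum_comm]
    refine Finset.sum_le_sum fun d _ => ?_
    by_cases hC : ((∀ a b, d a b = d b a) ∧
          ∑ x : Fin k → Fin n, ind (SCol s (fun i j => Pst G κ d (x i) (x j))) ≤
            ε * (n : ℝ) ^ k)
    · refine le_trans (le_of_eq ?_) (hfix κ d hC.1 hC.2)
      exact Finset.sum_congr rfl fun ψ _ => ind_congr ⟨fun h => h.2, fun h => ⟨hC, h⟩⟩
    · rw [Finset.sum_congr rfl fun ψ _ => ind_neg (fun h => hC h.1), Finset.sum_const_zero]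
      exact hB
  refine (Finset.sum_le_sum fun κ _ => h2 κ).trans ?_
  simp only [Finset.sum_const, Finset.card_univ, Fintype.card_pi, Fintype.card_fin,
    Fintype.card_finset, Finset.prod_const, nsmul_eq_mul]
  push_cast
  rw [← mul_assoc]
  apply mul_le_mul_of_nonneg_right _ hB
  have e1 : (2 : ℝ) ≤ Real.exp 1 := by have := Real.add_one_le_exp (1 : ℝ); linarith
  have e2 : (2 : ℝ) ^ r ≤ Real.exp r := by
    calc (2 : ℝ) ^ r ≤ (Real.exp 1) ^ r := pow_le_pow_left₀ (by norm_num) e1 r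
      _ = Real.exp r := by rw [← Real.exp_nat_mul, mul_one]
  have e3 : (M : ℝ) ≤ Real.exp M := by have := Real.add_one_le_exp (M : ℝ); linarith
  have e4 : (M : ℝ) ^ n ≤ Real.exp (M * n) := by
    calc (M : ℝ) ^ n ≤ (Real.exp M) ^ n := pow_le_pow_left₀ (by positivity) e3 n
      _ = Real.exp (M * n) := by rw [← Real.exp_nat_mul, mul_comm]
  have e5 : (((2 : ℝ) ^ r) ^ M) ^ M ≤ Real.exp (r * M * M) := by
    calc (((2 : ℝ) ^ r) ^ M) ^ M ≤ ((Real.exp r) ^ M) ^ M := by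
          apply pow_le_pow_left₀ (by positivity)
          exact pow_le_pow_left₀ (by positivity) e2 M
      _ = Real.exp (r * M * M) := by
          rw [← Real.exp_nat_mul, ← Real.exp_nat_mul]; congr 1; ring
  rw [Real.exp_add]
  exact mul_le_mul e4 e5 (by positivity) (Real.exp_pos _).le

/-- absorbing the number of structures -/
theorem absorb (M r : ℕ) (ε : ℝ) (hε : 0 < ε) : ∃ n0 : ℕ, ∀ n : ℕ, n0 ≤ n →
    (M * n + r * M * M : ℝ) ≤ ε * (n : ℝ) ^ 2 ∧ 1 ≤ n := by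
  refine ⟨⌈((M : ℝ) + r * M * M) / ε⌉₊ + 1, ?_⟩
  intro n hn
  have h0 : ⌈((M : ℝ) + r * M * M) / ε⌉₊ ≤ n := by omega
  have h1 : ((M : ℝ) + r * M * M) / ε ≤ n := (Nat.le_ceil _).trans (by exact_mod_cast h0)
  rw [div_le_iff₀ hε] at h1
  have hn1 : (1 : ℝ) ≤ n := by exact_mod_cast (by omega : 1 ≤ n)
  refine ⟨?_, by omega⟩
  have h2 : (0 : ℝ) ≤ r * M * M := by positivity
  have h3 : (r * M * M : ℝ) ≤ r * M * M * n := by nlinarith
  calc (M * n + r * M * M : ℝ) ≤ (M + r * M * M) * n := by linarith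
    _ ≤ (n * ε) * n := mul_le_mul_of_nonneg_right h1 (by linarith)
    _ = _ := by ring

/-- sum of logs versus sum of losses -/
theorem sum_log {n r : ℕ} (P : Fin n → Fin n → Finset (Fin r)) :
    ∑ x, ∑ y, Real.log ((P x y).card : ℝ) =
      Real.log r * (n : ℝ) ^ 2 - ∑ x, ∑ y, ls (P x y) := by
  unfold ls
  simp only [Finset.sum_sub_distrib, Finset.sum_const, Finset.card_univ, Fintype.card_fin,
    nsmul_eq_mul]
  ring

end Pool.Agent.TH75.PAUnion
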