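import Mathlib
import Pool.Agent.TH949.TX.EDefs
import Pool.Agent.TH949.TX.SDefs

/-!
# Prime powers in the summatory function (job 4040, MP_29be01_nt)
-/

set_option autoImplicit false

open Complex MeasureTheory Set Filter Topology
open Pool.Agent.W189.TP (DS)

namespace Pool.Agent.TH75.Pow2

open Pool.Agent.TH949.TX

/-- the coefficient -/
noncomputable def cf {n : ℕ} (a : Fin n → ℂ) (k : ℕ) : ℝ :=
  (∑ i, a i ^ (k + 1)).re / ((k : ℝ) + 1)

lemma cf_bound {n : ℕ} {a : Fin n → ℂ} {r : ℝ} (ha : ∀ i, ‖a i‖ ≤ r) (k : ℕ) :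
    |cf a k| ≤ n * r ^ (k + 1) := by
  unfold cf
  have h1 : |(∑ i, a i ^ (k + 1)).re| ≤ n * r ^ (k + 1) := by
    refine (Complex.abs_re_le_norm _).trans ((norm_sum_le _ _).trans ?_)
    have h2 : ∀ i ∈ (Finset.univ : Finset (Fin n)), ‖a i ^ (k + 1)‖ ≤ r ^ (k + 1) := by
      intro i _
      rw [norm_pow]
      exact pow_le_pow_left₀ (norm_nonneg _) (ha i) _
    refine (Finset.sum_le_card_nsmul _ _ _ h2).trans (le_of_eq ?_)
    simp
  rw [abs_div, abs_of_pos (show (0 : ℝ) < (k : ℝ) + 1 by positivity)]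
  refine (div_le_self (abs_nonneg _) ?_).trans h1
  have : (0 : ℝ) ≤ k := Nat.cast_nonneg k
  linarith

lemma hasSum_cf {n : ℕ} {a : Fin n → ℂ} (ha : ∀ i, ‖a i‖ < 1) :
    HasSum (fun k => -cf a k) (Real.log (∏ i, ‖1 - a i‖)) := by
  have hne : ∀ i, (1 - a i) ≠ 0 := by
    intro i h
    have h1 : a i = 1 := (sub_eq_zero.mp h).symm
    have h2 := ha i
    rw [h1, norm_one] at h2
    exact lt_irrefl _ h2
  rw [Real.log_prod (fun i _ => norm_ne_zero_iff.mpr (hne i))]
  have h1 : ∀ i, HasSum (fun k : ℕ => -((a i ^ (k + 1)).re / ((k : ℝ) + 1)))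
      (Real.log ‖1 - a i‖) := by
    intro i
    have h2 := Complex.hasSum_taylorSeries_neg_log (ha i)
    have h3 : HasSum (fun k : ℕ => a i ^ (k + 1) / ((k + 1 : ℕ) : ℂ)) (-Complex.log (1 - a i)) := by
      have h4 := (hasSum_nat_add_iff' 1).mpr h2
      simpa using h4
    have h5 := Complex.hasSum_re h3.neg
    rw [neg_neg, Complex.log_re] at h5
    refine h5.congr_fun ?_
    intro k
    show -((a i ^ (k + 1)).re / ((k : ℝ) + 1)) = (-(a i ^ (k + 1) / ((k + 1 : ℕ) : ℂ))).re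
    rw [Complex.neg_re, Complex.div_natCast_re]
    push_cast
    rfl
  have h2 := hasSum_sum (s := Finset.univ) (fun i _ => h1 i)
  refine h2.congr_fun ?_
  intro k
  show -cf a k = ∑ i, -((a i ^ (k + 1)).re / ((k : ℝ) + 1))
  unfold cf
  rw [Complex.re_sum, Finset.sum_div, Finset.sum_neg_distrib]

/-- the part of one prime -/
lemma one {n : ℕ} {a : Fin n → ℂ} {p : ℕ} (hp : 2 ≤ p)
    (ha : ∀ i, ‖a i‖ ≤ (p : ℝ) ^ (-(1 / 2) : ℝ)) {u : ℝ} (hpu : Real.log p ≤ u) :
    |∑' k : ℕ, (open Classical in if ((k : ℝ) + 1) * Real.log p ≤ u then -cf a k else 0) -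
      Real.log (∏ i, ‖1 - a i‖)| ≤ 4 * n * (1 / (p : ℝ)) := by
  classical
  obtain ⟨r, hr⟩ : ∃ r : ℝ, r = (p : ℝ) ^ (-(1 / 2) : ℝ) := ⟨_, rfl⟩
  have hp0 : (0 : ℝ) < p := by positivity
  have hp2 : (2 : ℝ) ≤ p := by exact_mod_cast hp
  have hr0 : 0 < r := by rw [hr]; exact Real.rpow_pos_of_pos hp0 _
  have hrsq : r ^ 2 = 1 / (p : ℝ) := by
    rw [hr, ← Real.rpow_natCast, ← Real.rpow_mul hp0.le]
    norm_num
    rw [Real.rpow_neg_one]
  have hr34 : r ≤ 3 / 4 := by
    by_contra hc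
    push Not at hc
    have h1 : r ^ 2 ≤ 1 / 2 := by
      rw [hrsq]
      exact one_div_le_one_div_of_le (by norm_num) hp2
    nlinarith
  rw [← hr] at ha
  have ha1 : ∀ i, ‖a i‖ < 1 := fun i => by
    have := ha i
    linarith
  have hs := hasSum_cf ha1
  have hb : ∀ k, |cf a k| ≤ n * r ^ (k + 1) := cf_bound ha
  have hsum1 : Summable (fun k : ℕ => if ((k : ℝ) + 1) * Real.log p ≤ u then -cf a k else 0) := by
    refine Summable.of_norm_bounded (g := fun k => |cf a k|) ?_ ?_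
    · refine Summable.of_nonneg_of_le (fun _ => abs_nonneg _) hb ?_
      have h1 : Summable (fun k : ℕ => r ^ k) :=
        summable_geometric_of_lt_one hr0.le (by linarith)
      have h2 := (h1.mul_left ((n : ℝ) * r))
      refine h2.congr fun k => ?_
      rw [pow_succ]; ring
    · intro k
      rw [Real.norm_eq_abs]
      split_ifs
      · rw [abs_neg]
      · rw [abs_zero]; exact abs_nonneg _
  rw [← hs.tsum_eq, ← hsum1.tsum_sub hs.summable]
  have hg : HasSum (fun k : ℕ => if k = 0 then (0 : ℝ) else n * r ^ (k + 1))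
      (n * r ^ 2 * (1 - r)⁻¹) := by
    have h1 : HasSum (fun k : ℕ => (fun k : ℕ => if k = 0 then (0 : ℝ) else n * r ^ (k + 1)) (k + 1))
        (n * r ^ 2 * (1 - r)⁻¹) := by
      have h2 := (hasSum_geometric_of_lt_one hr0.le (by linarith : r < 1)).mul_left (n * r ^ 2)
      refine h2.congr_fun fun k => ?_
      show (if k + 1 = 0 then (0 : ℝ) else n * r ^ (k + 1 + 1)) = n * r ^ 2 * r ^ k
      rw [if_neg (Nat.succ_ne_zero k)]
      ring
    have h3 := (hasSum_nat_add_iff (f := fun k : ℕ => if k = 0 then (0 : ℝ) else n * r ^ (k + 1))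
      1).mp h1
    simpa using h3
  have h1 : ‖∑' k : ℕ, ((if ((k : ℝ) + 1) * Real.log p ≤ u then -cf a k else 0) - -cf a k)‖ ≤
      n * r ^ 2 * (1 - r)⁻¹ := by
    refine tsum_of_norm_bounded hg fun k => ?_
    rw [Real.norm_eq_abs]
    by_cases h0 : k = 0
    · subst h0
      simp [hpu]
    · rw [if_neg h0]
      split_ifs
      · rw [sub_self, abs_zero]
        positivity
      · rw [zero_sub, neg_neg]
        exact hb k
  rw [Real.norm_eq_abs] at h1
  refine h1.trans ?_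
  rw [hrsq]
  have h2 : (1 - r)⁻¹ ≤ 4 := by
    rw [inv_le_comm₀ (by linarith) (by norm_num)]
    linarith
  calc n * (1 / (p : ℝ)) * (1 - r)⁻¹ ≤ n * (1 / (p : ℝ)) * 4 :=
        mul_le_mul_of_nonneg_left h2 (by positivity)
    _ = 4 * n * (1 / (p : ℝ)) := by ring

lemma harm (N : ℕ) (S : Finset ℕ) (hS : ∀ p ∈ S, 1 ≤ p ∧ p ≤ N) :
    ∑ p ∈ S, 1 / (p : ℝ) ≤ 1 + Real.log N := by
  have h1 : ((harmonic N : ℚ) : ℝ) ≤ 1 + Real.log N := harmonic_le_one_add_log N
  refine le_trans ?_ h1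
  rw [harmonic_eq_sum_Icc]
  push_cast
  have h2 : ∑ p ∈ S, 1 / (p : ℝ) ≤ ∑ p ∈ Finset.Icc 1 N, 1 / (p : ℝ) := by
    refine Finset.sum_le_sum_of_subset_of_nonneg ?_ (fun _ _ _ => by positivity)
    intro p hp
    exact Finset.mem_Icc.mpr (hS p hp)
  refine h2.trans (le_of_eq ?_)
  refine Finset.sum_congr rfl fun p _ => ?_
  rw [one_div]

open Classical in
theorem t_pow2 {T : Set ℕ} (hT : ∀ p ∈ T, p.Prime) {n : ℕ} {α : ℕ → Fin n → ℂ}
    (hα : ∀ p ∈ T, ∀ i, ‖α p i‖ ≤ (p : ℝ) ^ (-(1 / 2) : ℝ)) :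
    ∃ C : ℝ, 0 ≤ C ∧ ∀ u : ℝ, 0 ≤ u →
      |AA (dP (T := T) α) LP u - ∑ p ∈ (Finset.range (⌊Real.exp u⌋₊ + 1)).filter (fun p => p ∈ T),
        Real.log (∏ i, ‖1 - α p i‖)| ≤ C * (1 + u) := by
  refine ⟨4 * n, by positivity, fun u hu => ?_⟩
  obtain ⟨N, hN⟩ : ∃ N, N = ⌊Real.exp u⌋₊ := ⟨_, rfl⟩
  rw [← hN]
  have hl2 : 0 < Real.log 2 := Real.log_pos (by norm_num)
  have hle : ∀ p ∈ T, ∀ k : ℕ, ((k : ℝ) + 1) * Real.log p ≤ u → p ≤ N ∧ k ≤ ⌊u / Real.log 2⌋₊ := by
    intro p hp k hk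
    have hp2 : (2 : ℝ) ≤ p := by exact_mod_cast (hT p hp).two_le
    have hlp : Real.log 2 ≤ Real.log p := Real.log_le_log (by norm_num) hp2
    have hk0 : (0 : ℝ) ≤ k := Nat.cast_nonneg k
    constructor
    · rw [hN]
      refine Nat.le_floor ?_
      rw [← Real.log_le_iff_le_exp (by linarith)]
      nlinarith
    · refine Nat.le_floor ?_
      rw [le_div_iff₀ hl2]
      nlinarith
  have hfin : {x : T × ℕ | LP x ≤ u}.Finite := by
    have h1 : ((Set.Iic N) ×ˢ (Set.Iic ⌊u / Real.log 2⌋₊) : Set (ℕ × ℕ)).Finite :=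
      (Set.finite_Iic _).prod (Set.finite_Iic _)
    have h2 : Function.Injective (fun x : T × ℕ => ((x.1 : ℕ), x.2)) := by
      rintro ⟨p, k⟩ ⟨p', k'⟩ h
      obtain ⟨h3, h4⟩ := Prod.mk.inj h
      exact Prod.ext (Subtype.ext h3) h4
    refine (h1.preimage h2.injOn).subset ?_
    rintro ⟨p, k⟩ hx
    have h3 := hle p p.2 k hx
    exact ⟨h3.1, h3.2⟩
  have hsum : Summable (fun x : T × ℕ => if LP x ≤ u then dP (T := T) α x else 0) := by
    refine summable_of_hasFiniteSupport (hfin.subset ?_)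
    intro x hx
    by_contra h
    apply hx
    exact if_neg h
  have hAA : AA (dP (T := T) α) LP u = ∑' p : T, ∑' k : ℕ,
      (if LP (p, k) ≤ u then dP (T := T) α (p, k) else 0) := by
    unfold AA
    exact hsum.tsum_prod
  obtain ⟨G, hG⟩ : ∃ G : ℕ → ℝ, G = fun p : ℕ => ∑' k : ℕ,
      (if ((k : ℝ) + 1) * Real.log p ≤ u then -cf (α p) k else 0) := ⟨_, rfl⟩
  have hAG : AA (dP (T := T) α) LP u = ∑' p : T, G p := by
    rw [hAA, hG]
    rfl
  have hAS : AA (dP (T := T) α) LP u =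
      ∑ p ∈ (Finset.range (N + 1)).filter (fun p => p ∈ T), G p := by
    rw [hAG, tsum_subtype T G]
    rw [tsum_eq_sum (s := (Finset.range (N + 1)).filter (fun p => p ∈ T))]
    · refine Finset.sum_congr rfl fun p hp => ?_
      rw [Set.indicator_of_mem (Finset.mem_filter.mp hp).2]
    · intro p hp
      by_cases hpT : p ∈ T
      · rw [Set.indicator_of_mem hpT, hG]
        have hpN : ¬ p ≤ N := by
          intro h
          apply hp
          exact Finset.mem_filter.mpr ⟨Finset.mem_range.mpr (by omega), hpT⟩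
        have h1 : ∀ k : ℕ, (if ((k : ℝ) + 1) * Real.log p ≤ u then -cf (α p) k else 0) = 0 := by
          intro k
          rw [if_neg]
          intro h
          exact hpN (hle p hpT k h).1
        show ∑' k : ℕ, (if ((k : ℝ) + 1) * Real.log p ≤ u then -cf (α p) k else 0) = 0
        simp only [h1, tsum_zero]
      · exact Set.indicator_of_notMem hpT _
  rw [hAS, ← Finset.sum_sub_distrib]
  have hone : ∀ p ∈ (Finset.range (N + 1)).filter (fun p => p ∈ T),
      |G p - Real.log (∏ i, ‖1 - α p i‖)| ≤ 4 * n * (1 / (p : ℝ)) := by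
    intro p hp
    obtain ⟨h1, h2⟩ := Finset.mem_filter.mp hp
    have h3 := (hT p h2).two_le
    have h4 : (p : ℝ) ≤ Real.exp u := by
      refine le_trans ?_ (Nat.floor_le (Real.exp_pos u).le)
      rw [← hN]
      exact_mod_cast Nat.lt_succ_iff.mp (Finset.mem_range.mp h1)
    have h5 : Real.log p ≤ u := by
      rw [Real.log_le_iff_le_exp (by positivity)]
      exact h4
    rw [hG]
    exact one h3 (hα p h2) h5
  refine (Finset.abs_sum_le_sum_abs _ _).trans ((Finset.sum_le_sum hone).trans ?_)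
  rw [← Finset.mul_sum]
  refine mul_le_mul_of_nonneg_left ?_ (by positivity)
  refine (harm N _ ?_).trans ?_
  · intro p hp
    obtain ⟨h1, h2⟩ := Finset.mem_filter.mp hp
    exact ⟨(hT p h2).one_le, Nat.lt_succ_iff.mp (Finset.mem_range.mp h1)⟩
  · have h1 : 1 ≤ N := by
      rw [hN]
      exact Nat.le_floor (by simpa using Real.one_le_exp hu)
    have h2 : Real.log N ≤ u := by
      rw [Real.log_le_iff_le_exp (by positivity), hN]
      exact Nat.floor_le (Real.exp_pos u).le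
    linarith

end Pool.Agent.TH75.Pow2
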